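import Pool.Agent.LibNS38.D3

set_option autoImplicit false
set_option maxSynthPendingDepth 3

open Matrix MeasureTheory Topology Filter
open scoped Matrix.Norms.Elementwise ContDiff

namespace LibNC38

/-- Row D8. Compact fundamental set. PLAN. Image of the compact set of `Coc` under `g ↦ act g (o n)`
(`act_facts`, `tch_eq`: every point is `act g (o n)`). -/
theorem coc_pd {n : ℕ} (Γ : Subgroup (SL n)) (hc : Coc Γ) :
    ∃ Q : Set (PD n), IsCompact Q ∧ ∀ p, ∃ γ ∈ Γ, act γ p ∈ Q := by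
  obtain ⟨Q0, hQ0, hg⟩ := hc
  have hcont : Continuous fun g : SL n => act g (o n) :=
    act_facts.2.2.comp (continuous_id.prodMk continuous_const)
  refine ⟨(fun g : SL n => act g (o n)) '' Q0, hQ0.image hcont, fun p => ?_⟩
  obtain ⟨γ, hγ, hm⟩ := hg (tch p)
  refine ⟨γ, hγ, γ * tch p, hm, ?_⟩
  show act (γ * tch p) (o n) = act γ p
  rw [act_facts.2.1, ← tch_eq p]

private theorem D8_single {n : ℕ} (i j : Fin n) (c : ℝ) :
    (Matrix.single i j c : Mt n) = c • Matrix.single i j (1 : ℝ) := by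
  rw [Matrix.smul_single, smul_eq_mul, mul_one]

private theorem D8_lin {n : ℕ} (f : Mt n →ₗ[ℝ] ℝ) (w : Mt n) :
    f w = ∑ k, ∑ l, w k l * f (Matrix.single k l 1) := by
  have h : w = ∑ k, ∑ l, w k l • (Matrix.single k l (1 : ℝ) : Mt n) := by
    conv_lhs => rw [Matrix.matrix_eq_sum_single w]
    exact Finset.sum_congr rfl fun i _ => Finset.sum_congr rfl fun j _ => D8_single i j _
  have h2 : f w = f (∑ k, ∑ l, w k l • (Matrix.single k l (1 : ℝ) : Mt n)) := congrArg f h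
  rw [h2, map_sum]
  refine Finset.sum_congr rfl fun k _ => ?_
  rw [map_sum]
  refine Finset.sum_congr rfl fun l _ => ?_
  rw [map_smul, smul_eq_mul]

private theorem D8_exp {n : ℕ} (B : Fm n) (v w : Mt n) :
    B v w = ∑ i, ∑ j, ∑ k, ∑ l,
      v i j * (w k l * B (Matrix.single i j 1) (Matrix.single k l 1)) := by
  have h1 : B v w = LinearMap.flip B w v := rfl
  rw [h1, D8_lin (LinearMap.flip B w) v]
  refine Finset.sum_congr rfl fun i _ => Finset.sum_congr rfl fun j _ => ?_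
  have h2 : LinearMap.flip B w (Matrix.single i j 1) = B (Matrix.single i j 1) w := rfl
  rw [h2, D8_lin (B (Matrix.single i j 1)) w, Finset.mul_sum]
  refine Finset.sum_congr rfl fun k _ => ?_
  rw [Finset.mul_sum]

private theorem D8_cont {n : ℕ} {ε : ℝ} {K : ℝ → PD n → Fm n} (hK : SmF ε K) {X : Type*}
    [TopologicalSpace X] {S : Set X} {τ : X → ℝ} {π : X → PD n} {v w : X → Mt n}
    (hτ : ContinuousOn τ S) (hτε : ∀ x ∈ S, τ x ∈ Set.Ioo (-ε) ε) (hπ : ContinuousOn π S)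
    (hv : ContinuousOn v S) (hw : ContinuousOn w S) :
    ContinuousOn (fun x => K (τ x) (π x) (v x) (w x)) S := by
  have h1 : ∀ E E' : Mt n, ContinuousOn (fun x => K (τ x) (π x) E E') S := by
    intro E E'
    have h2 := (hK E E').continuousOn
    have h3 : ContinuousOn (fun x => ((τ x, (π x).1) : ℝ × Mt n)) S :=
      hτ.prodMk (continuous_subtype_val.comp_continuousOn hπ)
    have h4 : Set.MapsTo (fun x => ((τ x, (π x).1) : ℝ × Mt n)) S (Set.Ioo (-ε) ε ×ˢ PU n) :=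
      fun x hx => ⟨hτε x hx, mem_PU (π x)⟩
    refine (h2.comp h3 h4).congr fun x _ => ?_
    show K (τ x) (π x) E E' = K (τ x) (ret (π x).1) E E'
    rw [ret_self]
  have h5 : (fun x => K (τ x) (π x) (v x) (w x)) = fun x => ∑ i, ∑ j, ∑ k, ∑ l,
      v x i j * (w x k l * K (τ x) (π x) (Matrix.single i j 1) (Matrix.single k l 1)) := by
    funext x
    exact D8_exp _ _ _
  rw [h5]
  refine continuousOn_finsetSum _ fun i _ => continuousOn_finsetSum _ fun j _ =>
    continuousOn_finsetSum _ fun k _ => continuousOn_finsetSum _ fun l _ => ?_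
  have h6 : ContinuousOn (fun x => v x i j) S :=
    (continuous_id.matrix_elem i j).comp_continuousOn hv
  have h7 : ContinuousOn (fun x => w x k l) S :=
    (continuous_id.matrix_elem k l).comp_continuousOn hw
  exact h6.mul (h7.mul (h1 _ _))

private noncomputable def D8_F {n : ℕ} (K : ℝ → PD n → Fm n) (t : ℝ) (y : SL n × Mt n) : ℝ :=
  K t (act y.1 (o n)) (y.1.1 * y.2 * y.1.1ᵀ) (y.1.1 * y.2 * y.1.1ᵀ)

private theorem D8_Fcont {n : ℕ} {ε : ℝ} {K : ℝ → PD n → Fm n} (hK : SmF ε K) :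
    ContinuousOn (fun x : ℝ × (SL n × Mt n) => D8_F K x.1 x.2) (Set.Ioo (-ε) ε ×ˢ Set.univ) := by
  have h1 : Continuous fun x : ℝ × (SL n × Mt n) => x.2.1.1 :=
    continuous_subtype_val.comp (continuous_fst.comp continuous_snd)
  have h2 : Continuous fun x : ℝ × (SL n × Mt n) => x.2.2 := continuous_snd.comp continuous_snd
  have h3 : Continuous fun x : ℝ × (SL n × Mt n) => x.2.1.1 * x.2.2 * x.2.1.1ᵀ :=
    (h1.matrix_mul h2).matrix_mul h1.matrix_transpose
  have h4 : Continuous fun x : ℝ × (SL n × Mt n) => act x.2.1 (o n) :=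
    act_facts.2.2.comp ((continuous_fst.comp continuous_snd).prodMk continuous_const)
  exact D8_cont hK continuous_fst.continuousOn (fun x hx => hx.1) h4.continuousOn h3.continuousOn
    h3.continuousOn

private theorem D8_smul {n : ℕ} (K : ℝ → PD n → Fm n) (t : ℝ) (g : SL n) (w : Mt n) (r : ℝ) :
    D8_F K t (g, r • w) = r ^ 2 * D8_F K t (g, w) := by
  unfold D8_F
  show K t (act g (o n)) (g.1 * (r • w) * g.1ᵀ) (g.1 * (r • w) * g.1ᵀ) =
    r ^ 2 * K t (act g (o n)) (g.1 * w * g.1ᵀ) (g.1 * w * g.1ᵀ)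
  rw [Matrix.mul_smul, Matrix.smul_mul, map_smul, map_smul, LinearMap.smul_apply, smul_eq_mul,
    smul_eq_mul]
  ring

private theorem D8_main {n : ℕ} {ε : ℝ} (hε : 0 < ε) {K : ℝ → PD n → Fm n} (hK : SmF ε K)
    {Q : Set (SL n)} (hQ : IsCompact Q) {e : ℝ} (he : 0 < e) :
    ∃ δ > 0, ∀ t : ℝ, |t| < δ → t ∈ Set.Ioo (-ε) ε ∧ ∀ g ∈ Q, ∀ w : Mt n,
      |D8_F K t (g, w) - D8_F K 0 (g, w)| ≤ e * ∑ i, ∑ j, w i j ^ 2 := by
  let B : Set (Mt n) := Set.pi Set.univ fun _ => Set.pi Set.univ fun _ => Set.Icc (-1 : ℝ) 1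
  have hB : IsCompact B := isCompact_univ_pi fun _ => isCompact_univ_pi fun _ => isCompact_Icc
  have hQB : IsCompact (Q ×ˢ B) := hQ.prod hB
  have h0 : (0 : ℝ) ∈ Set.Ioo (-ε) ε := ⟨by linarith, hε⟩
  have h1 : ∀ y : SL n × Mt n, ContinuousAt (fun x : ℝ × (SL n × Mt n) => D8_F K x.1 x.2)
      (0, y) := by
    intro y
    refine (D8_Fcont hK).continuousAt ?_
    exact prod_mem_nhds (isOpen_Ioo.mem_nhds h0) univ_mem
  have h2 : ∀ y ∈ Q ×ˢ B, ∀ᶠ z : ℝ × (SL n × Mt n) in 𝓝 (0, y),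
      |D8_F K z.1 z.2 - D8_F K 0 z.2| < e := by
    intro y _
    have h3 : ContinuousAt (fun x : ℝ × (SL n × Mt n) => ((0 : ℝ), x.2)) (0, y) :=
      (continuous_const.prodMk continuous_snd).continuousAt
    have h4 : ContinuousAt (fun x : ℝ × (SL n × Mt n) => D8_F K 0 x.2) (0, y) :=
      ContinuousAt.comp (f := fun x : ℝ × (SL n × Mt n) => ((0 : ℝ), x.2))
        (g := fun x : ℝ × (SL n × Mt n) => D8_F K x.1 x.2) (x := (0, y)) (h1 y) h3
    have h5 := ((h1 y).sub h4).abs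
    have h6 : ContinuousAt (fun x : ℝ × (SL n × Mt n) => |D8_F K x.1 x.2 - D8_F K 0 x.2|)
      (0, y) := h5
    refine h6.eventually_lt continuousAt_const ?_
    show |D8_F K 0 y - D8_F K 0 y| < e
    rw [sub_self, abs_zero]
    exact he
  have h7 := hQB.eventually_forall_of_forall_eventually
    (P := fun (t : ℝ) (y : SL n × Mt n) => |D8_F K t y - D8_F K 0 y| < e) h2
  have h8 : ∀ᶠ t : ℝ in 𝓝 0, t ∈ Set.Ioo (-ε) ε := isOpen_Ioo.mem_nhds h0
  obtain ⟨δ, hδ, h9⟩ := Metric.eventually_nhds_iff.1 (h8.and h7)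
  refine ⟨δ, hδ, fun t ht => ?_⟩
  have h10 := h9 (y := t) (by rwa [Real.dist_eq, sub_zero])
  refine ⟨h10.1, fun g hg w => ?_⟩
  set R : ℝ := ∑ i, ∑ j, w i j ^ 2 with hR
  have hR0 : 0 ≤ R := Finset.sum_nonneg fun i _ => Finset.sum_nonneg fun j _ => sq_nonneg _
  have hle : ∀ i j, w i j ^ 2 ≤ R := by
    intro i j
    have a1 : w i j ^ 2 ≤ ∑ j, w i j ^ 2 :=
      Finset.single_le_sum (f := fun j => w i j ^ 2) (fun j _ => sq_nonneg _) (Finset.mem_univ j)
    have a2 : ∑ j, w i j ^ 2 ≤ R :=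
      Finset.single_le_sum (f := fun i => ∑ j, w i j ^ 2)
        (fun i _ => Finset.sum_nonneg fun j _ => sq_nonneg _) (Finset.mem_univ i)
    exact a1.trans a2
  rcases hR0.eq_or_lt with h | h
  · have hw : w = 0 := by
      ext i j
      have a1 := hle i j
      rw [← h] at a1
      have a2 : w i j ^ 2 = 0 := le_antisymm a1 (sq_nonneg _)
      exact pow_eq_zero_iff (two_ne_zero) |>.1 a2
    have a3 : ∀ s, D8_F K s (g, w) = 0 := by
      intro s
      have a4 := D8_smul K s g w 0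
      rw [zero_smul] at a4
      rw [hw, a4]
      ring
    rw [a3, a3, sub_zero, abs_zero, ← h, mul_zero]
  · set r : ℝ := √ R with hr
    have hr0 : 0 < r := Real.sqrt_pos.2 h
    have hr2 : r ^ 2 = R := Real.sq_sqrt hR0
    have hwB : (r⁻¹ • w) ∈ B := by
      intro i _ j _
      have a1 : |w i j| ≤ r := Real.abs_le_sqrt (hle i j)
      have a2 : |r⁻¹ * w i j| ≤ 1 := by
        rw [abs_mul, abs_of_pos (inv_pos.2 hr0), inv_mul_le_iff₀ hr0, mul_one]
        exact a1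
      exact abs_le.1 a2
    have hlt := h10.2 (g, r⁻¹ • w) ⟨hg, hwB⟩
    have hw : w = r • (r⁻¹ • w) := by
      rw [smul_smul, mul_inv_cancel₀ hr0.ne', one_smul]
    have a3 : ∀ s, D8_F K s (g, w) = R * D8_F K s (g, r⁻¹ • w) := by
      intro s
      conv_lhs => rw [hw]
      rw [D8_smul, hr2]
    rw [a3, a3, ← mul_sub, abs_mul, abs_of_nonneg hR0, mul_comm]
    exact mul_le_mul_of_nonneg_right hlt.le hR0

/-- Row D8. Uniform continuity in `t` of smooth invariant families. PLAN. `Q` from `coc_pd`. On the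
compact set `{(p, v) : p ∈ Q, IsTan p v, spd p v = 1}` (bounded: `tr (p⁻¹ v p⁻¹ v) = 1`, closed) the
continuous function `(t, p, v) ↦ K t p v v - K 0 p v v` vanishes at `t = 0`; tube lemma; homogeneity in `v`;
`gF p v v = spd p v ^ 2` (`gF_self`); invariance of both sides moves any `p` to `Q` (`spd_facts.1`).
Simpler for the vectors: `v = a.1 * w * a.1ᵀ` with `p = act a (o n)`, `w` symmetric. -/
theorem unif_conv {n : ℕ} (Γ : Subgroup (SL n)) (hc : Coc Γ) (ε : ℝ) (hε : 0 < ε)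
    (K : ℝ → PD n → Fm n) (hK : SmF ε K)
    (hi : ∀ t ∈ Set.Ioo (-ε) ε, ∀ γ ∈ Γ, ∀ p v, IsTan p v →
      K t (act γ p) (γ.1 * v * γ.1ᵀ) (γ.1 * v * γ.1ᵀ) = K t p v v) :
    ∀ e > 0, ∃ δ > 0, ∀ t : ℝ, |t| < δ → ∀ (p : PD n) (v : Mt n), IsTan p v →
      |K t p v v - K 0 p v v| ≤ e * gF p v v := by
  intro e he
  obtain ⟨Q, hQ, hQg⟩ := hc
  obtain ⟨δ, hδ, hm⟩ := D8_main hε hK hQ he
  have h0 : (0 : ℝ) ∈ Set.Ioo (-ε) ε := ⟨by linarith, hε⟩
  refine ⟨δ, hδ, fun t ht p v hv => ?_⟩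
  obtain ⟨ht1, hm2⟩ := hm t ht
  obtain ⟨γ, hγ, hg⟩ := hQg (tch p)
  set g : SL n := γ * tch p with hgd
  have h1 : act γ p = act g (o n) := by
    rw [hgd, act_facts.2.1, ← tch_eq p]
  set a : SL n := g⁻¹ * γ with ha
  have h2 : g * a = γ := by rw [ha, mul_inv_cancel_left]
  have h3 : act a p = o n := by
    rw [ha, act_facts.2.1, h1, ← act_facts.2.1, inv_mul_cancel, act_facts.1]
  set w : Mt n := a.1 * v * a.1ᵀ with hw
  have h4 : g.1 * w * g.1ᵀ = γ.1 * v * γ.1ᵀ := by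
    have h5 : g.1 * a.1 = γ.1 := congrArg Subtype.val h2
    rw [hw, ← h5, Matrix.transpose_mul]
    simp only [Matrix.mul_assoc]
  have h6 : ∀ s ∈ Set.Ioo (-ε) ε, K s p v v = D8_F K s (g, w) := by
    intro s hs
    rw [← hi s hs γ hγ p v hv]
    unfold D8_F
    show K s (act γ p) (γ.1 * v * γ.1ᵀ) (γ.1 * v * γ.1ᵀ) =
      K s (act g (o n)) (g.1 * w * g.1ᵀ) (g.1 * w * g.1ᵀ)
    rw [h4, h1]
  have h7 : ∑ i, ∑ j, w i j ^ 2 = gF p v v := by
    have h8 : spd p v = √ (∑ i, ∑ j, w i j ^ 2) := by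
      rw [← spd_facts.1 a p v, h3]
      refine spd_facts.2.1 _ ?_
      rw [Matrix.transpose_mul, Matrix.transpose_mul, Matrix.transpose_transpose, hv.1,
        Matrix.mul_assoc]
    rw [gF_self p v hv, h8, Real.sq_sqrt]
    exact Finset.sum_nonneg fun i _ => Finset.sum_nonneg fun j _ => sq_nonneg _
  rw [h6 t ht1, h6 0 h0, ← h7]
  exact hm2 g hg w

end LibNC38
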