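import Pool.Agent.LibNS38.D8

set_option autoImplicit false
set_option maxSynthPendingDepth 3

open Matrix MeasureTheory Topology Filter
open scoped Matrix.Norms.Elementwise ContDiff

namespace LibNC38

private noncomputable def G4_q {n : ℕ} (A : Mt n) (x : Fin n → ℝ) : ℝ := x ⬝ᵥ (A *ᵥ x)

private theorem G4_q_act {n : ℕ} (g A : Mt n) (x : Fin n → ℝ) :
    G4_q (g * A * gᵀ) x = G4_q A (gᵀ *ᵥ x) := by
  unfold G4_q
  rw [← Matrix.mulVec_mulVec, ← Matrix.mulVec_mulVec, Matrix.dotProduct_mulVec,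
    Matrix.mulVec_transpose]

private theorem G4_q_sub {n : ℕ} (A B : Mt n) (x : Fin n → ℝ) :
    G4_q (A - B) x = G4_q A x - G4_q B x := by
  unfold G4_q
  rw [Matrix.sub_mulVec, dotProduct_sub]

private theorem G4_q_smul {n : ℕ} (A : Mt n) (c : ℝ) (x : Fin n → ℝ) :
    G4_q A (c • x) = c ^ 2 * G4_q A x := by
  unfold G4_q
  rw [Matrix.mulVec_smul, smul_dotProduct, dotProduct_smul, smul_eq_mul, smul_eq_mul]
  ring

private theorem G4_q_sum {n : ℕ} (A : Mt n) (x : Fin n → ℝ) :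
    G4_q A x = ∑ i, ∑ j, x i * (A i j * x j) := by
  unfold G4_q
  simp only [dotProduct, Matrix.mulVec, Finset.mul_sum]

private theorem G4_q_bound {n : ℕ} (A : Mt n) (x : Fin n → ℝ) :
    |G4_q A x| ≤ (n : ℝ) ^ 2 * ‖A‖ * ‖x‖ ^ 2 := by
  rw [G4_q_sum]
  calc |∑ i, ∑ j, x i * (A i j * x j)| ≤ ∑ i, |∑ j, x i * (A i j * x j)| :=
        Finset.abs_sum_le_sum_abs _ _
    _ ≤ ∑ i : Fin n, ∑ j : Fin n, |x i * (A i j * x j)| :=
        Finset.sum_le_sum fun i _ => Finset.abs_sum_le_sum_abs _ _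
    _ ≤ ∑ i : Fin n, ∑ j : Fin n, ‖A‖ * ‖x‖ ^ 2 := by
        refine Finset.sum_le_sum fun i _ => Finset.sum_le_sum fun j _ => ?_
        rw [abs_mul, abs_mul]
        have h1 : |x i| ≤ ‖x‖ := by simpa using norm_le_pi_norm x i
        have h2 : |x j| ≤ ‖x‖ := by simpa using norm_le_pi_norm x j
        have h3 : |A i j| ≤ ‖A‖ := by simpa using Matrix.norm_entry_le_entrywise_sup_norm A (i := i) (j := j)
        have h4 : 0 ≤ ‖A‖ := norm_nonneg _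
        calc |x i| * (|A i j| * |x j|) ≤ ‖x‖ * (‖A‖ * ‖x‖) := by gcongr
          _ = ‖A‖ * ‖x‖ ^ 2 := by ring
    _ = (n : ℝ) ^ 2 * ‖A‖ * ‖x‖ ^ 2 := by
        simp only [Finset.sum_const, Finset.card_univ, Fintype.card_fin, nsmul_eq_mul]
        ring

private theorem G4_q_cont {n : ℕ} :
    Continuous fun z : PD n × (Fin n → ℝ) => G4_q z.1.1 z.2 := by
  unfold G4_q
  have h1 : Continuous fun z : PD n × (Fin n → ℝ) => z.1.1 :=
    continuous_subtype_val.comp continuous_fst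
  exact Continuous.dotProduct continuous_snd (h1.matrix_mulVec continuous_snd)

private theorem G4_pos {n : ℕ} (p : PD n) (x : Fin n → ℝ) (hx : x ≠ 0) : 0 < G4_q p.1 x := by
  have h := p.2.1.dotProduct_mulVec_pos hx
  simpa [G4_q] using h

private theorem G4_low {n : ℕ} (Q : Set (PD n)) (hQ : IsCompact Q) :
    ∃ m > 0, ∀ p ∈ Q, ∀ x, m * ‖x‖ ^ 2 ≤ G4_q p.1 x := by
  have hK : IsCompact (Q ×ˢ Metric.sphere (0 : Fin n → ℝ) 1) := hQ.prod (isCompact_sphere _ _)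
  rcases (Q ×ˢ Metric.sphere (0 : Fin n → ℝ) 1).eq_empty_or_nonempty with h | h
  · refine ⟨1, one_pos, fun p hp x => ?_⟩
    by_cases hx : x = 0
    · subst hx
      simp [G4_q]
    · exfalso
      have h1 : (p, ‖x‖⁻¹ • x) ∈ (Q ×ˢ Metric.sphere (0 : Fin n → ℝ) 1) := by
        refine ⟨hp, ?_⟩
        rw [mem_sphere_zero_iff_norm, norm_smul, norm_inv, norm_norm]
        exact inv_mul_cancel₀ (norm_ne_zero_iff.2 hx)
      rw [h] at h1
      exact h1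
  · obtain ⟨z, hz, hmin⟩ := hK.exists_isMinOn h G4_q_cont.continuousOn
    have hz2 : z.2 ≠ 0 := by
      intro h0
      have := hz.2
      rw [mem_sphere_zero_iff_norm, h0, norm_zero] at this
      exact zero_ne_one this
    refine ⟨G4_q z.1.1 z.2, G4_pos _ _ hz2, fun p hp x => ?_⟩
    by_cases hx : x = 0
    · subst hx
      simp [G4_q]
    · have h1 : (p, ‖x‖⁻¹ • x) ∈ (Q ×ˢ Metric.sphere (0 : Fin n → ℝ) 1) := by
        refine ⟨hp, ?_⟩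
        rw [mem_sphere_zero_iff_norm, norm_smul, norm_inv, norm_norm]
        exact inv_mul_cancel₀ (norm_ne_zero_iff.2 hx)
      have h2 : G4_q z.1.1 z.2 ≤ G4_q p.1 (‖x‖⁻¹ • x) := hmin h1
      have h3 : 0 < ‖x‖ := norm_pos_iff.2 hx
      rw [G4_q_smul] at h2
      calc G4_q z.1.1 z.2 * ‖x‖ ^ 2 ≤ (‖x‖⁻¹ ^ 2 * G4_q p.1 x) * ‖x‖ ^ 2 := by gcongr
        _ = G4_q p.1 x := by field_simp

private theorem G4_cont {n : ℕ} (ε : ℝ) (Ψ : ℝ → PD n → PD n) (hΨ : SmM ε Ψ) :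
    ContinuousOn (fun x : ℝ × PD n => (Ψ x.1 x.2).1) (Set.Ioo (-ε) ε ×ˢ Set.univ) := by
  have hc : ContinuousOn (fun x : ℝ × Mt n => (Ψ x.1 (ret x.2)).1) (Set.Ioo (-ε) ε ×ˢ PU n) :=
    hΨ.continuousOn
  have hf : ContinuousOn (fun x : ℝ × PD n => ((x.1, x.2.1) : ℝ × Mt n))
      (Set.Ioo (-ε) ε ×ˢ Set.univ) :=
    (continuous_fst.prodMk (continuous_subtype_val.comp continuous_snd)).continuousOn
  have hm : Set.MapsTo (fun x : ℝ × PD n => ((x.1, x.2.1) : ℝ × Mt n))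
      (Set.Ioo (-ε) ε ×ˢ Set.univ) (Set.Ioo (-ε) ε ×ˢ PU n) :=
    fun x hx => ⟨hx.1, mem_PU x.2⟩
  refine (hc.comp hf hm).congr ?_
  intro x _
  show (Ψ x.1 x.2).1 = (Ψ x.1 (ret x.2.1)).1
  rw [ret_self]

private theorem G4_open {n : ℕ} (ε : ℝ) (Ψ : ℝ → PD n → PD n) (hΨ : SmM ε Ψ) (η : ℝ) :
    IsOpen ((Set.Ioo (-ε) ε ×ˢ (Set.univ : Set (PD n))) ∩
      {x : ℝ × PD n | ‖(Ψ x.1 x.2).1 - x.2.1‖ < η}) := by
  have h2 := G4_cont ε Ψ hΨ
  have h3 : ContinuousOn (fun x : ℝ × PD n => x.2.1) (Set.Ioo (-ε) ε ×ˢ Set.univ) :=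
    (continuous_subtype_val.comp continuous_snd).continuousOn
  have h4 : ContinuousOn (fun x : ℝ × PD n => ‖(Ψ x.1 x.2).1 - x.2.1‖)
      (Set.Ioo (-ε) ε ×ˢ Set.univ) := (h2.sub h3).norm
  exact h4.isOpen_inter_preimage (isOpen_Ioo.prod isOpen_univ) isOpen_Iio

private theorem G4_tube {n : ℕ} (ε : ℝ) (hε : 0 < ε) (Ψ : ℝ → PD n → PD n) (hΨ : SmM ε Ψ)
    (h0 : ∀ p, Ψ 0 p = p) (Q : Set (PD n)) (hQ : IsCompact Q) :
    ∀ η > 0, ∃ δ > 0, δ ≤ ε ∧ ∀ t : ℝ, |t| < δ → ∀ p ∈ Q, ‖(Ψ t p).1 - p.1‖ < η := by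
  intro η hη
  have hopen := G4_open ε Ψ hΨ η
  have hsub : ({(0 : ℝ)} : Set ℝ) ×ˢ Q ⊆ (Set.Ioo (-ε) ε ×ˢ (Set.univ : Set (PD n))) ∩
      {x : ℝ × PD n | ‖(Ψ x.1 x.2).1 - x.2.1‖ < η} := by
    intro x hx
    have ht : x.1 = 0 := hx.1
    refine ⟨⟨?_, Set.mem_univ _⟩, ?_⟩
    · rw [ht]
      exact ⟨by linarith, hε⟩
    · show ‖(Ψ x.1 x.2).1 - x.2.1‖ < η
      rw [ht, h0, sub_self, norm_zero]
      exact hη
  obtain ⟨u, v, hu, hv, h0u, hQv, huv⟩ := generalized_tube_lemma isCompact_singleton hQ hopen hsub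
  obtain ⟨δ, hδ, hδu⟩ := Metric.isOpen_iff.1 hu 0 (h0u (Set.mem_singleton _))
  refine ⟨min δ ε, lt_min hδ hε, min_le_right _ _, fun t ht p hp => ?_⟩
  have h1 : t ∈ u := by
    apply hδu
    rw [Metric.mem_ball, Real.dist_eq, sub_zero]
    exact lt_of_lt_of_le ht (min_le_left _ _)
  have h2 : (t, p) ∈ u ×ˢ v := ⟨h1, hQv hp⟩
  exact (huv h2).2

private theorem G4_entry {n : ℕ} (D S : Mt n) (hD : Dᵀ = D) (hS : Sᵀ = S) (c : ℝ)
    (h : ∀ x, |G4_q D x| ≤ c * G4_q S x) (i j : Fin n) :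
    |D i j| ≤ c * (S i i + S j j) / 2 := by
  have hq : ∀ (A : Mt n), Aᵀ = A → ∀ s : ℝ, G4_q A (Pi.single i 1 + s • Pi.single j 1) =
      A i i + 2 * s * A i j + s ^ 2 * A j j := by
    intro A hA s
    have h1 : A j i = A i j := by
      conv_lhs => rw [← hA]
      rfl
    unfold G4_q
    rw [Matrix.mulVec_add, Matrix.mulVec_smul]
    simp only [Matrix.mulVec_single_one, add_dotProduct, dotProduct_add, smul_dotProduct,
      dotProduct_smul, single_one_dotProduct, smul_eq_mul, Matrix.col_apply]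
    rw [h1]
    ring
  have h1 := h (Pi.single i 1 + (1 : ℝ) • Pi.single j 1)
  have h2 := h (Pi.single i 1 + (-1 : ℝ) • Pi.single j 1)
  rw [hq D hD, hq S hS] at h1 h2
  rw [abs_le] at h1 h2 ⊢
  constructor
  · nlinarith [h1.1, h2.2]
  · nlinarith [h1.2, h2.1]

private theorem G4_symm {n : ℕ} (p : PD n) : p.1ᵀ = p.1 := by
  have h2 := p.2.1.isHermitian
  rwa [Matrix.IsHermitian, Matrix.conjTranspose_eq_transpose_of_trivial] at h2

/-- Row G4. Relative closeness: if `Ψ t p` is in the compact set `Q` and `t` is small then `p` is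
close to `Ψ t p`. PLAN. For `p, q : PD n` consider `q ≤ (1 + e) p` and `p ≤ (1 + e) q` as quadratic forms
(`Matrix.PosSemidef` of the difference), a relation invariant under `act`. For `p` in a compact
fundamental set (`coc_pd`) and small `t` it holds for `p` and `q = Ψ t p` (`‖Ψ t p - p‖` is small by
continuity of `SmM` and compactness, and `p ≥ m 1` with `m > 0` on the compact set); by equivariance
for all `p`. If `q ∈ Q` then `-e' q ≤ p - q ≤ e' q`, so the entries of `p - q` are at most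
`C e' ‖q‖` (for a symmetric `D` with `-S ≤ D ≤ S`: `|D i j| ≤ S i i + S j j`). -/
theorem close_rel {n : ℕ} (Γ : Subgroup (SL n)) (hc : Coc Γ) (ε : ℝ) (hε : 0 < ε)
    (Ψ : ℝ → PD n → PD n) (hΨ : SmM ε Ψ) (h0 : ∀ p, Ψ 0 p = p)
    (he : ∀ t ∈ Set.Ioo (-ε) ε, ∀ γ ∈ Γ, ∀ p, Ψ t (act γ p) = act γ (Ψ t p)) (Q : Set (PD n))
    (hQ : IsCompact Q) : ∀ ρ > 0, ∃ δ > 0, δ ≤ ε ∧ ∀ t : ℝ, |t| < δ → ∀ p : PD n, Ψ t p ∈ Q →
      ‖p.1 - (Ψ t p).1‖ ≤ ρ := by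
  intro ρ hρ
  obtain ⟨Q0, hQ0, hfund⟩ := coc_pd Γ hc
  obtain ⟨m, hm, hlow⟩ := G4_low Q0 hQ0
  -- bound of the entries on `Q`
  obtain ⟨B, hB⟩ : ∃ B : ℝ, ∀ q ∈ Q, ‖q.1‖ ≤ B := by
    have h1 : IsCompact ((fun q : PD n => q.1) '' Q) := hQ.image continuous_subtype_val
    obtain ⟨B, hB⟩ := h1.isBounded.exists_norm_le
    exact ⟨B, fun q hq => hB _ ⟨q, hq, rfl⟩⟩
  set B' : ℝ := max B 0 + 1 with hB'
  have hB'pos : 0 < B' := by positivity
  set e : ℝ := min (1 / 2) (ρ / (2 * B')) with he'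
  have hepos : 0 < e := lt_min (by norm_num) (by positivity)
  have he1 : e ≤ 1 / 2 := min_le_left _ _
  have he2 : 2 * B' * e ≤ ρ := by
    have : e ≤ ρ / (2 * B') := min_le_right _ _
    rw [le_div_iff₀ (by positivity)] at this
    linarith
  set η : ℝ := e * m / ((n : ℝ) ^ 2 + 1) with hη
  have hηpos : 0 < η := by positivity
  obtain ⟨δ, hδ, hδε, htube⟩ := G4_tube ε hε Ψ hΨ h0 Q0 hQ0 η hηpos
  refine ⟨δ, hδ, hδε, fun t ht p hp => ?_⟩
  have htI : t ∈ Set.Ioo (-ε) ε := by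
    have := abs_lt.1 (lt_of_lt_of_le ht hδε)
    exact this
  -- the relation on `Q0`
  have hrel0 : ∀ p ∈ Q0, ∀ x, |G4_q (p.1 - (Ψ t p).1) x| ≤ e * G4_q p.1 x := by
    intro p hp x
    have h1 := htube t ht p hp
    rw [norm_sub_rev] at h1
    have h2 := hlow p hp x
    have h3 := G4_q_bound (p.1 - (Ψ t p).1) x
    have h4 : (n : ℝ) ^ 2 * ‖p.1 - (Ψ t p).1‖ ≤ e * m := by
      have h5 : (n : ℝ) ^ 2 * ‖p.1 - (Ψ t p).1‖ ≤ ((n : ℝ) ^ 2 + 1) * η := by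
        have : (0 : ℝ) ≤ (n : ℝ) ^ 2 := by positivity
        nlinarith [norm_nonneg (p.1 - (Ψ t p).1)]
      have h6 : ((n : ℝ) ^ 2 + 1) * η = e * m := by
        rw [hη]
        field_simp
      linarith
    calc |G4_q (p.1 - (Ψ t p).1) x| ≤ (n : ℝ) ^ 2 * ‖p.1 - (Ψ t p).1‖ * ‖x‖ ^ 2 := h3
      _ ≤ e * m * ‖x‖ ^ 2 := by gcongr
      _ = e * (m * ‖x‖ ^ 2) := by ring
      _ ≤ e * G4_q p.1 x := by gcongr
  -- the relation for all points
  have hrel : ∀ x, |G4_q (p.1 - (Ψ t p).1) x| ≤ e * G4_q p.1 x := by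
    intro x
    obtain ⟨γ, hγ, hγp⟩ := hfund p
    -- `x = γᵀ y`
    have hu : IsUnit (γ.1ᵀ).det := by
      rw [Matrix.det_transpose, γ.2]
      exact isUnit_one
    set y : Fin n → ℝ := (γ.1ᵀ)⁻¹ *ᵥ x with hy
    have hxy : γ.1ᵀ *ᵥ y = x := by
      rw [hy, Matrix.mulVec_mulVec, Matrix.mul_nonsing_inv _ hu, Matrix.one_mulVec]
    have h1 := hrel0 (act γ p) hγp y
    have h2 : (act γ p).1 - (Ψ t (act γ p)).1 = γ.1 * (p.1 - (Ψ t p).1) * γ.1ᵀ := by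
      rw [he t htI γ hγ p]
      show γ.1 * p.1 * γ.1ᵀ - γ.1 * (Ψ t p).1 * γ.1ᵀ = _
      rw [Matrix.mul_sub, Matrix.sub_mul]
    have h3 : G4_q (act γ p).1 y = G4_q p.1 x := by
      show G4_q (γ.1 * p.1 * γ.1ᵀ) y = _
      rw [G4_q_act, hxy]
    rw [h2, G4_q_act, hxy, h3] at h1
    exact h1
  have h2e : ∀ x, |G4_q (p.1 - (Ψ t p).1) x| ≤ (2 * e) * G4_q (Ψ t p).1 x := by
    intro x
    have h1 := hrel x
    have h2 := G4_q_sub p.1 (Ψ t p).1 x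
    have h3 : 0 ≤ G4_q p.1 x := by
      by_cases hx : x = 0
      · subst hx
        simp [G4_q]
      · exact (G4_pos p x hx).le
    have h4 := (abs_le.1 h1).2
    have h5 : G4_q p.1 x ≤ 2 * G4_q (Ψ t p).1 x := by nlinarith
    calc |G4_q (p.1 - (Ψ t p).1) x| ≤ e * G4_q p.1 x := h1
      _ ≤ e * (2 * G4_q (Ψ t p).1 x) := by gcongr
      _ = (2 * e) * G4_q (Ψ t p).1 x := by ring
  rw [Matrix.norm_le_iff hρ.le]
  intro i j
  have h1 := G4_entry (p.1 - (Ψ t p).1) (Ψ t p).1 (by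
    rw [Matrix.transpose_sub, G4_symm, G4_symm]) (G4_symm _) (2 * e) h2e i j
  have h2 : ∀ i, (Ψ t p).1 i i ≤ B' := by
    intro i
    have h3 : ‖(Ψ t p).1 i i‖ ≤ ‖(Ψ t p).1‖ := Matrix.norm_entry_le_entrywise_sup_norm _
    have h4 := hB _ hp
    have h5 : (Ψ t p).1 i i ≤ ‖(Ψ t p).1 i i‖ := Real.le_norm_self _
    have h6 : B ≤ max B 0 := le_max_left _ _
    linarith
  rw [Real.norm_eq_abs]
  have h3 := h2 i
  have h4 := h2 j
  have h5 : 2 * e * ((Ψ t p).1 i i + (Ψ t p).1 j j) / 2 ≤ 2 * B' * e := by nlinarith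
  linarith

end LibNC38
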