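import Mathlib

set_option autoImplicit false
set_option maxSynthPendingDepth 3

open Topology Filter Set
open scoped ContDiff

namespace NS38

/-- Row G1 (only Mathlib). A smooth family which is the identity at `t = 0` is near the identity on
small balls around a compact set. PLAN. `E(t, A) := F t A - A` and its partial derivative
`fderiv ℝ (F t) A - 1` are continuous on `(-ε, ε) × Ω` and vanish at `t = 0`. Choose `ρ` with
`closedBall q ρ ⊆ Ω` for `q ∈ Q` and the union of the balls (the closed `ρ`-thickening of `Q`, compact in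
finite dimension) in `Ω`; tube lemma for `{0} × thickening`; the Lipschitz bound on the convex ball from
the derivative bound (`Convex.norm_image_sub_le_of_norm_fderiv_le`). -/
theorem near_id {E : Type} [NormedAddCommGroup E] [NormedSpace ℝ E] [FiniteDimensional ℝ E]
    {Ω : Set E} (hΩ : IsOpen Ω) (ε : ℝ) (hε : 0 < ε) (F : ℝ → E → E)
    (hF : ContDiffOn ℝ ∞ (fun y : ℝ × E => F y.1 y.2) (Ioo (-ε) ε ×ˢ Ω))
    (h0 : ∀ y ∈ Ω, F 0 y = y) (Q : Set E) (hQ : IsCompact Q) (hQΩ : Q ⊆ Ω) :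
    ∃ ρ > 0, ∃ δ > 0, δ ≤ ε ∧ (∀ q ∈ Q, Metric.closedBall q ρ ⊆ Ω) ∧
      ∀ t : ℝ, |t| < δ → ∀ q ∈ Q, (∀ A ∈ Metric.closedBall q ρ, ‖F t A - A‖ ≤ ρ / 4 ∧
        ∀ w, ‖fderiv ℝ (F t) A w - w‖ ≤ 1 / 2 * ‖w‖) ∧
        ∀ A ∈ Metric.closedBall q ρ, ∀ B ∈ Metric.closedBall q ρ,
          ‖(F t A - A) - (F t B - B)‖ ≤ 1 / 2 * ‖A - B‖ := by
  classical
  set G : ℝ × E → E := fun y => F y.1 y.2 with hG
  have hUo : IsOpen (Ioo (-ε) ε ×ˢ Ω) := isOpen_Ioo.prod hΩ
  obtain ⟨ρ, hρ, hρΩ⟩ := hQ.exists_cthickening_subset_open hΩ hQΩ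
  have hK : IsCompact (Metric.cthickening ρ Q) := hQ.cthickening
  have hball : ∀ q ∈ Q, Metric.closedBall q ρ ⊆ Metric.cthickening ρ Q :=
    fun q hq => Metric.closedBall_subset_cthickening hq ρ
  have h0ε : (0 : ℝ) ∈ Ioo (-ε) ε := ⟨by linarith, hε⟩
  have hdf : ∀ t ∈ Ioo (-ε) ε, ∀ A ∈ Ω, HasFDerivAt (F t)
      ((fderiv ℝ G (t, A)).comp (ContinuousLinearMap.inr ℝ ℝ E)) A := by
    intro t ht A hA
    have h1 : DifferentiableAt ℝ G (t, A) :=
      (hF.differentiableOn (by simp)).differentiableAt (hUo.mem_nhds ⟨ht, hA⟩)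
    have h2 : HasFDerivAt (fun a : E => (t, a)) (ContinuousLinearMap.inr ℝ ℝ E) A :=
      hasFDerivAt_prodMk_right t A
    exact h1.hasFDerivAt.comp A h2
  have hid : ∀ A ∈ Ω, (fderiv ℝ G (0, A)).comp (ContinuousLinearMap.inr ℝ ℝ E) =
      ContinuousLinearMap.id ℝ E := by
    intro A hA
    have h1 := hdf 0 h0ε A hA
    have h2 : HasFDerivAt (F 0) (ContinuousLinearMap.id ℝ E) A := by
      refine (hasFDerivAt_id A).congr_of_eventuallyEq ?_
      filter_upwards [hΩ.mem_nhds hA] with y hy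
      exact h0 y hy
    exact h1.unique h2
  have hP : ∀ A ∈ Metric.cthickening ρ Q, ∀ᶠ z : ℝ × E in 𝓝 ((0 : ℝ), A),
      (‖F z.1 z.2 - z.2‖ < ρ / 4 ∧
        ‖(fderiv ℝ G (z.1, z.2)).comp (ContinuousLinearMap.inr ℝ ℝ E) -
          ContinuousLinearMap.id ℝ E‖ < 1 / 2) := by
    intro A hA
    have hA' : ((0 : ℝ), A) ∈ Ioo (-ε) ε ×ˢ Ω := ⟨h0ε, hρΩ hA⟩
    have c1 : ContinuousAt (fun z : ℝ × E => ‖G z - z.2‖) (0, A) :=
      ((hF.continuousOn.continuousAt (hUo.mem_nhds hA')).sub continuousAt_snd).norm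
    have c2 : ContinuousAt (fun z : ℝ × E => ‖(fderiv ℝ G z).comp
        (ContinuousLinearMap.inr ℝ ℝ E) - ContinuousLinearMap.id ℝ E‖) (0, A) := by
      have h := (hF.continuousOn_fderiv_of_isOpen hUo (by simp)).continuousAt
        (hUo.mem_nhds hA')
      exact ((h.clm_comp continuousAt_const).sub continuousAt_const).norm
    have v1 : (fun z : ℝ × E => ‖G z - z.2‖) (0, A) < ρ / 4 := by
      have h3 : G (0, A) = A := h0 A (hρΩ hA)
      simp only [h3, sub_self, norm_zero]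
      linarith
    have v2 : (fun z : ℝ × E => ‖(fderiv ℝ G z).comp
        (ContinuousLinearMap.inr ℝ ℝ E) - ContinuousLinearMap.id ℝ E‖) (0, A) < 1 / 2 := by
      simp only [hid A (hρΩ hA), sub_self, norm_zero]
      norm_num
    have e1 := c1.eventually_lt continuousAt_const v1
    have e2 := c2.eventually_lt continuousAt_const v2
    filter_upwards [e1, e2] with z hz1 hz2
    exact ⟨hz1, hz2⟩
  have hev := hK.eventually_forall_of_forall_eventually
    (P := fun (t : ℝ) (A : E) => ‖F t A - A‖ < ρ / 4 ∧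
        ‖(fderiv ℝ G (t, A)).comp (ContinuousLinearMap.inr ℝ ℝ E) -
          ContinuousLinearMap.id ℝ E‖ < 1 / 2) hP
  obtain ⟨δ, hδ, hδP⟩ := Metric.eventually_nhds_iff.1 hev
  refine ⟨ρ, hρ, min δ ε, lt_min hδ hε, min_le_right _ _, fun q hq => (hball q hq).trans hρΩ, ?_⟩
  intro t ht q hq
  have htδ : dist t 0 < δ := by
    rw [Real.dist_eq, sub_zero]
    exact lt_of_lt_of_le ht (min_le_left _ _)
  have htε : t ∈ Ioo (-ε) ε := abs_lt.1 (lt_of_lt_of_le ht (min_le_right _ _))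
  have hmain := hδP htδ
  refine ⟨?_, ?_⟩
  · intro A hA
    have hA1 := hmain A (hball q hq hA)
    refine ⟨hA1.1.le, fun w => ?_⟩
    rw [(hdf t htε A (hρΩ (hball q hq hA))).fderiv]
    have h4 := ((fderiv ℝ G (t, A)).comp (ContinuousLinearMap.inr ℝ ℝ E) -
          ContinuousLinearMap.id ℝ E).le_opNorm w
    have h5 : ((fderiv ℝ G (t, A)).comp (ContinuousLinearMap.inr ℝ ℝ E) -
          ContinuousLinearMap.id ℝ E) w =
        ((fderiv ℝ G (t, A)).comp (ContinuousLinearMap.inr ℝ ℝ E)) w - w := rfl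
    rw [h5] at h4
    exact h4.trans (mul_le_mul_of_nonneg_right hA1.2.le (norm_nonneg w))
  · intro A hA B hB
    have hconv : Convex ℝ (Metric.closedBall q ρ) := convex_closedBall q ρ
    have hder : ∀ x ∈ Metric.closedBall q ρ, HasFDerivWithinAt (fun y => F t y - y)
        ((fderiv ℝ G (t, x)).comp (ContinuousLinearMap.inr ℝ ℝ E) -
          ContinuousLinearMap.id ℝ E) (Metric.closedBall q ρ) x := by
      intro x hx
      exact ((hdf t htε x (hρΩ (hball q hq hx))).sub (hasFDerivAt_id x)).hasFDerivWithinAt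
    have hb : ∀ x ∈ Metric.closedBall q ρ, ‖(fderiv ℝ G (t, x)).comp
        (ContinuousLinearMap.inr ℝ ℝ E) - ContinuousLinearMap.id ℝ E‖ ≤ 1 / 2 :=
      fun x hx => (hmain x (hball q hq hx)).2.le
    exact hconv.norm_image_sub_le_of_norm_hasFDerivWithin_le hder hb hB hA

end NS38
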