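import Mathlib

set_option autoImplicit false
set_option maxSynthPendingDepth 3

open Topology Filter Set
open scoped ContDiff

namespace NS38

/-- Row G1b (only Mathlib). Contraction principle: `A ↦ q - (F A - A)` maps `closedBall q (ρ/2)` to
itself and is `1/2`-Lipschitz (`ContractingWith`, or `exists_fixedPoint'` on a complete subset; or
Newton iteration by hand). -/
theorem near_surj {E : Type} [NormedAddCommGroup E] [NormedSpace ℝ E] [CompleteSpace E] (F : E → E)
    (q : E) (ρ : ℝ) (hρ : 0 < ρ) (h1 : ∀ A ∈ Metric.closedBall q ρ, ‖F A - A‖ ≤ ρ / 4)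
    (h2 : ∀ A ∈ Metric.closedBall q ρ, ∀ B ∈ Metric.closedBall q ρ,
      ‖(F A - A) - (F B - B)‖ ≤ 1 / 2 * ‖A - B‖) :
    (∃ A ∈ Metric.closedBall q (ρ / 2), F A = q) ∧
    ∀ A ∈ Metric.closedBall q ρ, ∀ B ∈ Metric.closedBall q ρ, F A = F B → A = B := by
  constructor
  · have hsub : Metric.closedBall q (ρ / 2) ⊆ Metric.closedBall q ρ :=
      Metric.closedBall_subset_closedBall (by linarith)
    have hmap : MapsTo (fun A => q - (F A - A)) (Metric.closedBall q (ρ / 2))
        (Metric.closedBall q (ρ / 2)) := by
      intro A hA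
      rw [Metric.mem_closedBall, dist_eq_norm]
      have h3 := h1 A (hsub hA)
      have h4 : q - (F A - A) - q = -(F A - A) := by abel
      show ‖q - (F A - A) - q‖ ≤ ρ / 2
      rw [h4, norm_neg]
      linarith
    have hcon : ContractingWith (1 / 2 : NNReal)
        (hmap.restrict (fun A => q - (F A - A)) _ _) := by
      refine ⟨by
        rw [← NNReal.coe_lt_coe]
        norm_num, ?_⟩
      refine LipschitzWith.of_dist_le_mul fun A B => ?_
      have h5 := h2 A.1 (hsub A.2) B.1 (hsub B.2)
      have h6 : dist (hmap.restrict (fun A => q - (F A - A)) _ _ A)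
          (hmap.restrict (fun A => q - (F A - A)) _ _ B) =
          ‖(q - (F A.1 - A.1)) - (q - (F B.1 - B.1))‖ := by
        rw [← dist_eq_norm]
        rfl
      have h7 : (q - (F A.1 - A.1)) - (q - (F B.1 - B.1)) =
          -((F A.1 - A.1) - (F B.1 - B.1)) := by abel
      have h8 : dist A B = ‖A.1 - B.1‖ := by
        rw [← dist_eq_norm]
        rfl
      rw [h6, h7, norm_neg, h8]
      refine h5.trans (le_of_eq ?_)
      norm_num
    obtain ⟨y, hy, hfix, -⟩ := ContractingWith.exists_fixedPoint'
      (Metric.isClosed_closedBall (x := q) (ε := ρ / 2)).isComplete hmap hcon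
      (x := q) (Metric.mem_closedBall_self (by linarith)) (edist_ne_top _ _)
    refine ⟨y, hy, ?_⟩
    have h9 : q - (F y - y) = y := hfix
    have h10 : q = F y := by
      have h11 : q - (F y - y) + (F y - y) = y + (F y - y) := by rw [h9]
      have h12 : q - (F y - y) + (F y - y) = q := by abel
      have h13 : y + (F y - y) = F y := by abel
      rw [h12, h13] at h11
      exact h11
    exact h10.symm
  · intro A hA B hB hAB
    have h3 := h2 A hA B hB
    have h4 : (F A - A) - (F B - B) = -(A - B) := by
      rw [hAB]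
      abel
    rw [h4, norm_neg] at h3
    have h5 : ‖A - B‖ ≤ 0 := by
      have h6 := norm_nonneg (A - B)
      linarith
    have h7 : A - B = 0 := norm_le_zero_iff.1 h5
    exact sub_eq_zero.1 h7

end NS38
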