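import Pool.Agent.LibNS38.D0

set_option autoImplicit false
set_option maxSynthPendingDepth 3

open Matrix MeasureTheory Topology Filter
open scoped Matrix.Norms.Elementwise ContDiff

namespace LibNC38

private theorem D2_syp_conj {n : ℕ} (a : Mt n) (A : Mt n) :
    syp (a * A * aᵀ) = a * syp A * aᵀ := by
  unfold syp
  rw [Matrix.transpose_mul, Matrix.transpose_mul, Matrix.transpose_transpose, Matrix.mul_smul,
    Matrix.smul_mul, Matrix.mul_add, Matrix.add_mul]
  simp only [Matrix.mul_assoc]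

private theorem D2_syp_smul {n : ℕ} (r : ℝ) (A : Mt n) : syp (r • A) = r • syp A := by
  unfold syp
  rw [Matrix.transpose_smul, ← smul_add, smul_comm]

private theorem D2_pd {n : ℕ} (a : SL n) {s : Mt n} (h : s.PosDef) : (a.1 * s * a.1ᵀ).PosDef := by
  have hu : IsUnit a.1 := by
    rw [Matrix.isUnit_iff_isUnit_det, a.2]
    exact isUnit_one
  have h1 := (Matrix.IsUnit.posDef_star_right_conjugate_iff hu (x := s)).2 h
  have h2 : star a.1 = a.1ᵀ := by
    rw [Matrix.star_eq_conjTranspose, Matrix.conjTranspose_eq_transpose_of_trivial]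
  rwa [h2] at h1

private theorem D2_p1 {n : ℕ} (a : SL n) (A : Mt n) (hA : A ∈ PU n) :
    a.1 * A * a.1ᵀ ∈ PU n ∧ ret (a.1 * A * a.1ᵀ) = act a (ret A) := by
  have h1 : (syp A).PosDef := hA
  have h2 : (a.1 * A * a.1ᵀ) ∈ PU n := by
    show (syp (a.1 * A * a.1ᵀ)).PosDef
    rw [D2_syp_conj]
    exact D2_pd a h1
  refine ⟨h2, ?_⟩
  apply Subtype.ext
  rw [ret_val h2, D2_syp_conj]
  show rk (a.1 * A * a.1ᵀ) • (a.1 * syp A * a.1ᵀ) = a.1 * (ret A).1 * a.1ᵀ
  rw [ret_val hA]
  have h3 : rk (a.1 * A * a.1ᵀ) = rk A := by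
    unfold rk
    rw [D2_syp_conj, Matrix.det_mul, Matrix.det_mul, Matrix.det_transpose, a.2, one_mul, mul_one]
  rw [h3, Matrix.mul_smul, Matrix.smul_mul]

private theorem D2_p2 {n : ℕ} (r : ℝ) (A : Mt n) (hr : 0 < r) (hA : A ∈ PU n) :
    r • A ∈ PU n ∧ ret (r • A) = ret A := by
  have h1 : (syp A).PosDef := hA
  have h2 : (r • A) ∈ PU n := by
    show (syp (r • A)).PosDef
    rw [D2_syp_smul]
    exact h1.smul hr
  refine ⟨h2, ?_⟩
  apply Subtype.ext
  rw [ret_val h2, D2_syp_smul, ret_val hA]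
  rcases Nat.eq_zero_or_pos n with h0 | h0
  · subst h0
    exact Subsingleton.elim _ _
  · have hn : (n : ℝ) ≠ 0 := by exact_mod_cast h0.ne'
    have h3 : rk (r • A) = r⁻¹ * rk A := by
      unfold rk
      rw [D2_syp_smul, Matrix.det_smul, Fintype.card_fin,
        Real.log_mul (pow_pos hr n).ne' h1.det_pos.ne', Real.log_pow]
      have e1 : -(1 / (n : ℝ)) * ((n : ℝ) * Real.log r + Real.log (syp A).det) =
          -Real.log r + -(1 / (n : ℝ)) * Real.log (syp A).det := by
        field_simp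
        ring
      rw [e1, Real.exp_add, Real.exp_neg, Real.exp_log hr]
    rw [h3, smul_smul]
    have e2 : r⁻¹ * rk A * r = rk A := by
      field_simp
    rw [e2]

private theorem D2_det {n : ℕ} (p : PD n) (v : Mt n) (hv : IsTan p v) :
    HasDerivAt (fun s : ℝ => (p.1 + s • v).det) 0 0 := by
  have hp : p.1.det = 1 := p.2.2
  have hu : IsUnit p.1.det := by rw [hp]; exact isUnit_one
  have h1 : (fun s : ℝ => (p.1 + s • v).det) = fun s : ℝ =>
      1 + (Polynomial.eval s (Matrix.det (1 + (Polynomial.X : Polynomial ℝ) •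
        (p.1⁻¹ * v).map Polynomial.C)).divX.divX) * s ^ 2 := by
    funext s
    have e1 : p.1 + s • v = p.1 * (1 + s • (p.1⁻¹ * v)) := by
      rw [Matrix.mul_add, Matrix.mul_one, Matrix.mul_smul, ← Matrix.mul_assoc,
        Matrix.mul_nonsing_inv _ hu, Matrix.one_mul]
    rw [e1, Matrix.det_mul, hp, one_mul, Matrix.det_one_add_smul, hv.2]
    ring
  rw [h1]
  set P := (Matrix.det (1 + (Polynomial.X : Polynomial ℝ) •
        (p.1⁻¹ * v).map Polynomial.C)).divX.divX with hP
  have h2 : HasDerivAt (fun s : ℝ => Polynomial.eval s P * s ^ 2)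
      (Polynomial.eval 0 (Polynomial.derivative P) * (0 : ℝ) ^ 2 +
        Polynomial.eval 0 P * (2 * (0 : ℝ))) 0 := by
    have h3 := (Polynomial.hasDerivAt P (0 : ℝ))
    have h4 : HasDerivAt (fun s : ℝ => s ^ 2) (2 * (0 : ℝ)) 0 := by
      have h5 := hasDerivAt_pow 2 (0 : ℝ)
      simpa using h5
    exact h3.mul h4
  have h6 := h2.const_add 1
  simpa using h6

private theorem D2_p3 {n : ℕ} (p : PD n) (v : Mt n) (hv : IsTan p v) :
    fderiv ℝ (fun A : Mt n => (ret A).1) p.1 v = v := by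
  have hmem : PU n ∈ 𝓝 p.1 := PU_open.mem_nhds (mem_PU p)
  have hd : DifferentiableAt ℝ (fun A : Mt n => (ret A).1) p.1 := by
    have h1 : ContDiffOn ℝ 1 (fun A : Mt n => (ret A).1) (PU n) := ret_smooth
    exact (h1.contDiffAt hmem).differentiableAt (by norm_num)
  have hc : HasDerivAt (fun s : ℝ => p.1 + s • v) v 0 := by
    have h2 : HasDerivAt (fun s : ℝ => p.1 + s • v) ((1 : ℝ) • v) 0 :=
      ((hasDerivAt_id (0 : ℝ)).smul_const v).const_add p.1
    rwa [one_smul] at h2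
  have hc0 : p.1 + (0 : ℝ) • v = p.1 := by rw [zero_smul, add_zero]
  have h3 : HasDerivAt (fun s : ℝ => (ret (p.1 + s • v)).1)
      (fderiv ℝ (fun A : Mt n => (ret A).1) p.1 v) 0 := by
    have h4 : HasFDerivAt (fun A : Mt n => (ret A).1)
        (fderiv ℝ (fun A : Mt n => (ret A).1) p.1) (p.1 + (0 : ℝ) • v) := by
      rw [hc0]
      exact hd.hasFDerivAt
    exact h4.comp_hasDerivAt (0 : ℝ) hc
  have hsym : ∀ s : ℝ, syp (p.1 + s • v) = p.1 + s • v := by
    intro s
    have e1 : p.1ᵀ = p.1 := by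
      have h2 := p.2.1.isHermitian
      rwa [Matrix.IsHermitian, Matrix.conjTranspose_eq_transpose_of_trivial] at h2
    unfold syp
    rw [Matrix.transpose_add, Matrix.transpose_smul, e1, hv.1, ← two_smul ℝ (p.1 + s • v),
      smul_smul]
    norm_num
  have hrk : HasDerivAt (fun s : ℝ => rk (p.1 + s • v)) 0 0 := by
    have h5 := D2_det p v hv
    have h6 : (p.1 + (0 : ℝ) • v).det = 1 := by rw [hc0]; exact p.2.2
    have h7 : HasDerivAt (fun s : ℝ => Real.log ((p.1 + s • v).det)) (0 / (p.1 + (0 : ℝ) • v).det) 0 := by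
      apply h5.log
      rw [h6]
      norm_num
    have h8 := (h7.const_mul (-(1 / (n : ℝ)))).exp
    have h9 : (fun s : ℝ => rk (p.1 + s • v)) =
        fun s : ℝ => Real.exp (-(1 / (n : ℝ)) * Real.log ((p.1 + s • v).det)) := by
      funext s
      unfold rk
      rw [hsym s]
    rw [h9]
    simpa using h8
  have hrk0 : rk (p.1 + (0 : ℝ) • v) = 1 := by
    unfold rk
    rw [hsym 0, hc0, p.2.2, Real.log_one, mul_zero, Real.exp_zero]
  have h10 : HasDerivAt (fun s : ℝ => rk (p.1 + s • v) • (p.1 + s • v)) v 0 := by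
    have h11 : HasDerivAt (fun s : ℝ => rk (p.1 + s • v) • (p.1 + s • v))
        (rk (p.1 + (0 : ℝ) • v) • v + (0 : ℝ) • (p.1 + (0 : ℝ) • v)) 0 := hrk.smul hc
    rwa [hrk0, one_smul, zero_smul ℝ (p.1 + (0 : ℝ) • v), add_zero] at h11
  have hev : (fun s : ℝ => (ret (p.1 + s • v)).1) =ᶠ[𝓝 0]
      fun s : ℝ => rk (p.1 + s • v) • (p.1 + s • v) := by
    have hcont : ContinuousAt (fun s : ℝ => p.1 + s • v) 0 := hc.continuousAt
    have h12 : ∀ᶠ s in 𝓝 (0 : ℝ), p.1 + s • v ∈ PU n := by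
      apply hcont.eventually_mem
      rw [hc0]
      exact hmem
    filter_upwards [h12] with s hs
    rw [ret_val hs, hsym s]
  exact h3.unique (h10.congr_of_eventuallyEq hev)

/-- Row D2. The retraction `ret A = det(s)^(-1/n) s`, `s = syp A`, commutes with the group, ignores
positive factors, and its derivative is the identity on tangent vectors at points of `PD n`.
PLAN. `ret_val`, `rk`, `syp`; `det (a s aᵀ) = det s`. Derivative at `p` on a tangent `v`: along
`s ↦ p + s v` one has `syp = p + s v`, `det (p + s v) = det (1 + s p⁻¹ v)` has derivative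
`tr (p⁻¹ v) = 0` at `0`, so `ret (p + s v) = p + s v + o(s)`; differentiability from `ret_smooth`,
`PU_open`. -/
theorem ret_facts {n : ℕ} : (∀ (a : SL n) (A : Mt n), A ∈ PU n →
      a.1 * A * a.1ᵀ ∈ PU n ∧ ret (a.1 * A * a.1ᵀ) = act a (ret A)) ∧
    (∀ (r : ℝ) (A : Mt n), 0 < r → A ∈ PU n → r • A ∈ PU n ∧ ret (r • A) = ret A) ∧
    (∀ (p : PD n) (v : Mt n), IsTan p v → fderiv ℝ (fun A : Mt n => (ret A).1) p.1 v = v) :=
  ⟨D2_p1, D2_p2, D2_p3⟩

end LibNC38
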