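import Pool.Agent.LibNS38.D1
import Pool.Agent.LibNS38.D2

set_option autoImplicit false
set_option maxSynthPendingDepth 3

open Matrix MeasureTheory Topology Filter
open scoped Matrix.Norms.Elementwise ContDiff

namespace LibNC38

private theorem D3_diff {n : ℕ} {φ : PD n → PD n} (hφ : SmX φ) {A : Mt n} (hA : A ∈ PU n) :
    DifferentiableAt ℝ (fun A : Mt n => (φ (ret A)).1) A := by
  have h1 : ContDiffOn ℝ ∞ (fun A : Mt n => (φ (ret A)).1) (PU n) := hφ
  exact (h1.contDiffAt (PU_open.mem_nhds hA)).differentiableAt (by simp)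

private theorem D3_comp {n : ℕ} {φ ψ : PD n → PD n} :
    (fun A : Mt n => (φ (ψ (ret A))).1) =
      (fun B : Mt n => (φ (ret B)).1) ∘ (fun A : Mt n => (ψ (ret A)).1) := by
  funext A
  simp only [Function.comp_apply, ret_self]

private noncomputable def D3_L {n : ℕ} (γ : SL n) : Mt n →L[ℝ] Mt n :=
  LinearMap.toContinuousLinearMap
    { toFun := fun B => γ.1 * B * γ.1ᵀ
      map_add' := fun x y => by rw [Matrix.mul_add, Matrix.add_mul]
      map_smul' := fun r x => by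
        rw [Matrix.mul_smul, Matrix.smul_mul, RingHom.id_apply] }

private theorem D3_L_apply {n : ℕ} (γ : SL n) (B : Mt n) : D3_L γ B = γ.1 * B * γ.1ᵀ := rfl

/-- Row D3. The differential. PLAN. (1) `tan_fderiv` for `A ↦ φ (ret A)` at `p.1` (`ret_self`).
(2) composition: `φ (ψ (ret A)) = φ (ret ((ψ (ret A)).1))` by `ret_self`, `(ψ (ret A)).1 ∈ PU n` by
`mem_PU`; `ContDiffOn.comp`, chain rule `fderiv_comp` at `p.1` (`PU_open`). (3) `ret_facts`.
(4) for `B : Mt n` near `p.1`: `(φ (ret (γ B γᵀ))).1 = γ (φ (ret B)).1 γᵀ` (`ret_facts.1`), differentiate at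
`p.1` in direction `v` (valid for all `v`, tangent or not). -/
theorem dff_facts {n : ℕ} :
    (∀ φ : PD n → PD n, SmX φ → ∀ p v, IsTan (φ p) (dff φ p v)) ∧
    (∀ φ ψ : PD n → PD n, SmX φ → SmX ψ → SmX (fun p => φ (ψ p)) ∧
      ∀ p v, dff (fun p => φ (ψ p)) p v = dff φ (ψ p) (dff ψ p v)) ∧
    (SmX (fun p : PD n => p) ∧ ∀ p v, IsTan p v → dff (fun p : PD n => p) p v = v) ∧
    (∀ (φ : PD n → PD n) (γ : SL n), SmX φ → (∀ p, φ (act γ p) = act γ (φ p)) → ∀ p v,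
      dff φ (act γ p) (γ.1 * v * γ.1ᵀ) = γ.1 * dff φ p v * γ.1ᵀ) := by
  refine ⟨fun φ hφ p v => ?_, fun φ ψ hφ hψ => ⟨?_, fun p v => ?_⟩, ⟨ret_smooth, fun p v hv => ?_⟩,
    fun φ γ hφ heq p v => ?_⟩
  · have h1 := tan_fderiv (fun A : Mt n => φ (ret A)) p.1 (D3_diff hφ (mem_PU p)) v
    rw [ret_self] at h1
    exact h1
  · have h1 : ContDiffOn ℝ ∞ (fun A : Mt n => (φ (ret A)).1) (PU n) := hφ
    have h2 : ContDiffOn ℝ ∞ (fun A : Mt n => (ψ (ret A)).1) (PU n) := hψ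
    have h3 : ContDiffOn ℝ ∞ (fun A : Mt n => (φ (ψ (ret A))).1) (PU n) := by
      rw [D3_comp]
      exact h1.comp h2 (fun A _ => mem_PU _)
    exact h3
  · have e : (fun A : Mt n => (ψ (ret A)).1) p.1 = (ψ p).1 := by
      show (ψ (ret p.1)).1 = (ψ p).1
      rw [ret_self]
    have h1 : DifferentiableAt ℝ (fun B : Mt n => (φ (ret B)).1)
        ((fun A : Mt n => (ψ (ret A)).1) p.1) := D3_diff hφ (mem_PU _)
    have h2 : DifferentiableAt ℝ (fun A : Mt n => (ψ (ret A)).1) p.1 := D3_diff hψ (mem_PU p)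
    have h3 := fderiv_comp p.1 h1 h2
    have h4 := congrArg (fun T : Mt n →L[ℝ] Mt n => T v) h3
    unfold dff
    rw [D3_comp]
    refine h4.trans ?_
    show fderiv ℝ (fun B : Mt n => (φ (ret B)).1) ((fun A : Mt n => (ψ (ret A)).1) p.1)
      (fderiv ℝ (fun A : Mt n => (ψ (ret A)).1) p.1 v) = _
    rw [e]
  · exact ret_facts.2.2 p v hv
  · have e1 : (fun A : Mt n => (φ (ret A)).1) ∘ (fun B => D3_L γ B) =ᶠ[𝓝 p.1]
        fun B => D3_L γ ((φ (ret B)).1) := by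
      filter_upwards [PU_open.mem_nhds (mem_PU p)] with B hB
      simp only [Function.comp_apply]
      rw [D3_L_apply, (ret_facts.1 γ B hB).2, heq]
      rfl
    have h2 : DifferentiableAt ℝ (fun B : Mt n => (φ (ret B)).1) p.1 := D3_diff hφ (mem_PU p)
    have h1 : DifferentiableAt ℝ (fun B : Mt n => (φ (ret B)).1) ((fun B => D3_L γ B) p.1) :=
      D3_diff hφ (mem_PU (act γ p))
    have h3 := fderiv_comp p.1 h1 (D3_L γ).differentiableAt
    have h4 : fderiv ℝ (fun B : Mt n => D3_L γ ((φ (ret B)).1)) p.1 =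
        (D3_L γ).comp (fderiv ℝ (fun B : Mt n => (φ (ret B)).1) p.1) :=
      ((D3_L γ).hasFDerivAt.comp p.1 h2.hasFDerivAt).fderiv
    have h5 := e1.fderiv_eq (𝕜 := ℝ)
    have h5 := h3.symm.trans (h5.trans h4)
    have h6 := congrArg (fun T : Mt n →L[ℝ] Mt n => T v) h5
    have h7 : fderiv ℝ (fun B => D3_L γ B) p.1 = D3_L γ := (D3_L γ).fderiv
    have h8 : (fderiv ℝ (fun B => D3_L γ B) p.1) v = γ.1 * v * γ.1ᵀ := by
      rw [h7]
      rfl
    show (fderiv ℝ (fun B : Mt n => (φ (ret B)).1) (act γ p).1) (γ.1 * v * γ.1ᵀ) = _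
    rw [← h8]
    exact h6

end LibNC38
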