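import Pool.Agent.LibNS38.G2
import Pool.Agent.LibNS38.D3

set_option autoImplicit false
set_option maxSynthPendingDepth 3

open Matrix MeasureTheory Topology Filter
open scoped Matrix.Norms.Elementwise ContDiff

namespace LibNC38

private theorem G3_kt {n : ℕ} (hn : 1 ≤ n) (a : ℝ) (A : Mt n) : (a • skp A)ᵀ = -(a • skp A) := by
  rw [Matrix.transpose_smul, (dec_facts hn).2.2.1 A, smul_neg]

private theorem G3_val {n : ℕ} (hn : 1 ≤ n) (a : ℝ) (φ : PD n → PD n) (A : Mt n) :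
    lft a φ A ∈ PU n ∧ ret (lft a φ A) = φ (ret A) ∧ ell (lft a φ A) = a * ell A ∧
      skp (lft a φ A) = a • skp A :=
  (dec_facts hn).2.1 (φ (ret A)) (a * ell A) (a • skp A) (G3_kt hn a A)

private theorem G3_inv {n : ℕ} (hn : 1 ≤ n) (a : ℝ) (φ χ : PD n → PD n) (ha : 0 < a)
    (h : ∀ p, χ (φ p) = p) (A : Mt n) (hA : A ∈ PU n) : lft (a⁻¹) χ (lft a φ A) = A := by
  obtain ⟨-, h1, h2, h3⟩ := G3_val hn a φ A
  have h4 : lft (a⁻¹) χ (lft a φ A) = Real.exp (a⁻¹ * ell (lft a φ A)) •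
      (χ (ret (lft a φ A))).1 + a⁻¹ • skp (lft a φ A) := rfl
  rw [h4, h1, h2, h3, h, ← mul_assoc, inv_mul_cancel₀ ha.ne', one_mul, smul_smul,
    inv_mul_cancel₀ ha.ne', one_smul]
  exact ((dec_facts hn).1 A hA).symm

private theorem G3_pt {n : ℕ} (hn : 1 ≤ n) (φ : PD n → PD n) (p : PD n) :
    lft 1 φ p.1 = (φ p).1 := by
  have h4 : lft 1 φ p.1 = Real.exp (1 * ell p.1) • (φ (ret p.1)).1 + (1 : ℝ) • skp p.1 := rfl
  obtain ⟨h1, h2⟩ := (dec_facts hn).2.2.2.1 p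
  rw [h4, h1, h2, ret_self, mul_zero, Real.exp_zero, one_smul, smul_zero, add_zero]

private theorem G3_syp {n : ℕ} (γ : SL n) (A : Mt n) :
    syp (γ.1 * A * γ.1ᵀ) = γ.1 * syp A * γ.1ᵀ := by
  unfold syp
  rw [Matrix.transpose_mul, Matrix.transpose_mul, Matrix.transpose_transpose, Matrix.mul_smul,
    Matrix.smul_mul, Matrix.mul_add, Matrix.add_mul, Matrix.mul_assoc γ.1 Aᵀ]

private theorem G3_skp {n : ℕ} (γ : SL n) (A : Mt n) :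
    skp (γ.1 * A * γ.1ᵀ) = γ.1 * skp A * γ.1ᵀ := by
  unfold skp
  rw [Matrix.transpose_mul, Matrix.transpose_mul, Matrix.transpose_transpose, Matrix.mul_smul,
    Matrix.smul_mul, Matrix.mul_sub, Matrix.sub_mul, Matrix.mul_assoc γ.1 Aᵀ]

private theorem G3_ell {n : ℕ} (γ : SL n) (A : Mt n) : ell (γ.1 * A * γ.1ᵀ) = ell A := by
  have h1 : (γ.1).det = 1 := γ.2
  unfold ell
  rw [G3_syp, Matrix.det_mul, Matrix.det_mul, Matrix.det_transpose, h1, one_mul, mul_one]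

private theorem G3_eq {n : ℕ} (φ : PD n → PD n) (γ : SL n)
    (h : ∀ p, φ (act γ p) = act γ (φ p)) (A : Mt n) (hA : A ∈ PU n) :
    lft 1 φ (γ.1 * A * γ.1ᵀ) = γ.1 * lft 1 φ A * γ.1ᵀ := by
  have h4 : lft 1 φ (γ.1 * A * γ.1ᵀ) = Real.exp (1 * ell (γ.1 * A * γ.1ᵀ)) •
      (φ (ret (γ.1 * A * γ.1ᵀ))).1 + (1 : ℝ) • skp (γ.1 * A * γ.1ᵀ) := rfl
  have h5 : lft 1 φ A = Real.exp (1 * ell A) • (φ (ret A)).1 + (1 : ℝ) • skp A := rfl
  have h6 : (act γ (φ (ret A))).1 = γ.1 * (φ (ret A)).1 * γ.1ᵀ := rfl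
  rw [h4, h5, G3_ell, G3_skp, (ret_facts.1 γ A hA).2, h, h6, Matrix.mul_add, Matrix.add_mul,
    Matrix.mul_smul, Matrix.smul_mul, Matrix.mul_smul, Matrix.smul_mul]

private theorem G3_sm {n : ℕ} (hn : 1 ≤ n) (a : ℝ) (φ : PD n → PD n) (hφ : SmX φ) :
    ContDiffOn ℝ ∞ (lft a φ) (PU n) := by
  obtain ⟨-, -, -, -, h1, h2⟩ := dec_facts (n := n) hn
  have h3 : ContDiffOn ℝ ∞ (fun A : Mt n => Real.exp (a * ell A)) (PU n) :=
    (contDiffOn_const.mul h1).exp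
  exact (h3.smul hφ).add (ContDiffOn.const_smul a h2)

/-- Row G3. Facts on `lft` (from `dec_facts`). (1) values; (2) composition with the inverse;
(3) equivariance for `a = 1` (and all `a`): `syp (γ A γᵀ) = γ (syp A) γᵀ`, same for `skp`, `ell` is
invariant, `ret_facts`; (4) smoothness: `ell`, `skp`, `exp`, `SmX φ`. -/
theorem lft_facts {n : ℕ} (hn : 1 ≤ n) :
    (∀ (a : ℝ) (φ : PD n → PD n) (A : Mt n), A ∈ PU n → lft a φ A ∈ PU n ∧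
      ret (lft a φ A) = φ (ret A) ∧ ell (lft a φ A) = a * ell A ∧ skp (lft a φ A) = a • skp A) ∧
    (∀ (a : ℝ) (φ χ : PD n → PD n), 0 < a → (∀ p, χ (φ p) = p) → ∀ A ∈ PU n,
      lft (a⁻¹) χ (lft a φ A) = A) ∧
    (∀ (φ : PD n → PD n) (p : PD n), lft 1 φ p.1 = (φ p).1) ∧
    (∀ (φ : PD n → PD n) (γ : SL n), (∀ p, φ (act γ p) = act γ (φ p)) → ∀ A ∈ PU n,
      lft 1 φ (γ.1 * A * γ.1ᵀ) = γ.1 * lft 1 φ A * γ.1ᵀ) ∧
    (∀ (a : ℝ) (φ : PD n → PD n), SmX φ → ContDiffOn ℝ ∞ (lft a φ) (PU n)) :=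
  ⟨fun a φ A _ => G3_val hn a φ A, G3_inv hn, G3_pt hn, G3_eq, G3_sm hn⟩

private theorem G3_es {n : ℕ} {m : WithTop ℕ∞} : ContDiffOn ℝ m (fun A : Mt n => ell A) (PU n) := by
  unfold ell
  refine contDiffOn_const.mul (ContDiffOn.log (cd_det syp_smooth) ?_)
  intro A hA
  have h5 : (syp A).PosDef := hA
  exact h5.det_pos.ne'

private theorem G3_ss {n : ℕ} {m : WithTop ℕ∞} {S : Set (Mt n)} :
    ContDiffOn ℝ m (fun A : Mt n => skp A) S := by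
  have h1 : ContDiffOn ℝ m (fun A : Mt n => A) S := contDiffOn_id
  rw [cd_iff]
  intro i j
  have h2 := cd_entry h1 i j
  have h3 := cd_entry (cd_transpose h1) i j
  have h4 : (fun A : Mt n => skp A i j) = fun A : Mt n => (1 / 2 : ℝ) * (A i j - Aᵀ i j) := by
    funext A
    simp only [skp, Matrix.smul_apply, Matrix.sub_apply, smul_eq_mul]
  rw [h4]
  exact contDiffOn_const.mul (h2.sub h3)

private theorem G3_js {n : ℕ} (ε : ℝ) (Φ : ℝ → PD n → PD n) (hΦ : SmM ε Φ)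
    (a : ℝ → ℝ) (ha : ContDiffOn ℝ ∞ a (Set.Ioo (-ε) ε)) :
    ContDiffOn ℝ ∞ (fun x : ℝ × Mt n => lft (a x.1) (Φ x.1) x.2) (Set.Ioo (-ε) ε ×ˢ PU n) := by
  have h1 : ContDiffOn ℝ ∞ (fun A : Mt n => ell A) (PU n) := G3_es
  have h2 : ContDiffOn ℝ ∞ (fun A : Mt n => skp A) (PU n) := G3_ss
  have h3 : ContDiffOn ℝ ∞ (fun x : ℝ × Mt n => a x.1) (Set.Ioo (-ε) ε ×ˢ PU n) :=
    ha.comp contDiffOn_fst fun x hx => hx.1
  have h4 : ContDiffOn ℝ ∞ (fun x : ℝ × Mt n => ell x.2) (Set.Ioo (-ε) ε ×ˢ PU n) :=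
    ContDiffOn.comp (g := fun A : Mt n => ell A) h1 contDiffOn_snd fun x hx => hx.2
  have h5 : ContDiffOn ℝ ∞ (fun x : ℝ × Mt n => skp x.2) (Set.Ioo (-ε) ε ×ˢ PU n) :=
    ContDiffOn.comp (g := fun A : Mt n => skp A) h2 contDiffOn_snd
      fun x hx => hx.2
  have h6 : ContDiffOn ℝ ∞ (fun x : ℝ × Mt n => Real.exp (a x.1 * ell x.2))
      (Set.Ioo (-ε) ε ×ˢ PU n) := (h3.mul h4).exp
  exact (h6.smul hΦ).add (h3.smul h5)

/-- Row G3. Joint smoothness in the parameter. -/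
theorem lft_smooth {n : ℕ} (ε : ℝ) (Φ : ℝ → PD n → PD n) (hΦ : SmM ε Φ) (a : ℝ → ℝ)
    (ha : ContDiffOn ℝ ∞ a (Set.Ioo (-ε) ε)) :
    ContDiffOn ℝ ∞ (fun x : ℝ × Mt n => lft (a x.1) (Φ x.1) x.2) (Set.Ioo (-ε) ε ×ˢ PU n) :=
  G3_js ε Φ hΦ a ha

end LibNC38
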