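import Mathlib

set_option autoImplicit false
set_option maxSynthPendingDepth 3

open Topology Filter Set
open scoped ContDiff

namespace NS38

/-- Row G6a (only Mathlib). The inverse of a bijective smooth map with injective derivatives is smooth.
PLAN. Fix `A ∈ U`; `fderiv ℝ F A` is a continuous linear equivalence (injective, finite dimension); the
inverse function theorem (`ContDiffAt.toOpenPartialHomeomorph`, `ContDiffAt.to_localInverse`) gives a
local inverse `L`, `ContDiffAt ℝ ∞ L (F A)`, `F (L B) = B` and `L B ∈ U` for `B` near `F A` (continuity of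
`L` at `F A`, `L (F A) = A`), so `X B = X (F (L B)) = L B` near `F A`. All points of `U` are of the form
`F A`. -/
theorem inv_smooth {E : Type} [NormedAddCommGroup E] [NormedSpace ℝ E] [FiniteDimensional ℝ E]
    (U : Set E) (hU : IsOpen U) (F X : E → E) (hF : ContDiffOn ℝ ∞ F U) (hFU : ∀ A ∈ U, F A ∈ U)
    (hXU : ∀ A ∈ U, X A ∈ U) (hXF : ∀ A ∈ U, X (F A) = A) (hFX : ∀ A ∈ U, F (X A) = A)
    (hi : ∀ A ∈ U, Function.Injective (fderiv ℝ F A)) : ContDiffOn ℝ ∞ X U := by
  have : CompleteSpace E := FiniteDimensional.complete ℝ E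
  intro B hB
  have hA : X B ∈ U := hXU B hB
  have hFA : ContDiffAt ℝ ∞ F (X B) := hF.contDiffAt (hU.mem_nhds hA)
  have hn : (∞ : WithTop ℕ∞) ≠ 0 := by simp
  have hd : HasFDerivAt F (fderiv ℝ F (X B)) (X B) := (hFA.differentiableAt hn).hasFDerivAt
  have hinj : Function.Injective ((fderiv ℝ F (X B) : E →L[ℝ] E) : E →ₗ[ℝ] E) := hi _ hA
  let e : E ≃L[ℝ] E := (LinearEquiv.ofInjectiveEndo _ hinj).toContinuousLinearEquiv
  have he : (e : E →L[ℝ] E) = fderiv ℝ F (X B) := by
    ext v
    rfl
  have hd' : HasFDerivAt F (e : E →L[ℝ] E) (X B) := by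
    rw [he]
    exact hd
  have hs : HasStrictFDerivAt F (e : E →L[ℝ] E) (X B) := hFA.hasStrictFDerivAt' hd' hn
  have hg : ∀ᶠ x in 𝓝 (X B), X (F x) = x := by
    filter_upwards [hU.mem_nhds hA] with x hx
    exact hXF x hx
  have hL := hs.localInverse_unique hg
  have hc : ContDiffAt ℝ ∞ (hFA.localInverse hd' hn) (F (X B)) := hFA.to_localInverse hd' hn
  have hX : ContDiffAt ℝ ∞ X (F (X B)) := hc.congr_of_eventuallyEq hL
  rw [hFX B hB] at hX
  exact hX.contDiffWithinAt

end NS38
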