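import Pool.Agent.LibNS38.G3

set_option autoImplicit false
set_option maxSynthPendingDepth 3

open Matrix MeasureTheory Topology Filter
open scoped Matrix.Norms.Elementwise ContDiff

namespace LibNC38

private theorem G6b_tr {n : ℕ} (hn : 1 ≤ n) (φ : PD n → PD n) (r : ℝ) (k : Mt n) (hk : kᵀ = -k)
    (B : Mt n) (hB : B ∈ PU n) : Real.exp r • B + k ∈ PU n ∧
    lft 1 φ (Real.exp r • B + k) = Real.exp r • lft 1 φ B + k := by
  have h1 : B = Real.exp (ell B) • (ret B).1 + skp B := (dec_facts hn).1 B hB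
  have h2 : Real.exp r • B + k =
      Real.exp (r + ell B) • (ret B).1 + (Real.exp r • skp B + k) := by
    calc Real.exp r • B + k
        = Real.exp r • (Real.exp (ell B) • (ret B).1 + skp B) + k := by rw [← h1]
      _ = Real.exp (r + ell B) • (ret B).1 + (Real.exp r • skp B + k) := by
        rw [smul_add, smul_smul, ← Real.exp_add, add_assoc]
  have hs : (skp B)ᵀ = -skp B := (dec_facts hn).2.2.1 B
  have hk' : (Real.exp r • skp B + k)ᵀ = -(Real.exp r • skp B + k) := by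
    rw [Matrix.transpose_add, Matrix.transpose_smul, hs, hk, smul_neg, neg_add]
  obtain ⟨e1, e2, e3, e4⟩ := (dec_facts hn).2.1 (ret B) (r + ell B) (Real.exp r • skp B + k) hk'
  rw [← h2] at e1 e2 e3 e4
  refine ⟨e1, ?_⟩
  unfold lft
  rw [e2, e3, e4]
  simp only [one_mul, one_smul]
  rw [smul_add, smul_smul, ← Real.exp_add, add_assoc]

private theorem G6b_diff {n : ℕ} (hn : 1 ≤ n) (φ : PD n → PD n) (hφ : SmX φ) (A : Mt n)
    (hA : A ∈ PU n) : DifferentiableAt ℝ (lft 1 φ) A := by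
  have hF : ContDiffOn ℝ ∞ (lft 1 φ) (PU n) := (lft_facts hn).2.2.2.2 1 φ hφ
  exact (hF.differentiableOn (by simp)).differentiableAt (PU_open.mem_nhds hA)

/-- a commutation `F (g B) = L F B + k` near `B` gives `F'(g B) g' = L F'(B)` -/
private theorem G6b_chain {n : ℕ} (F g : Mt n → Mt n) (L M : Mt n →L[ℝ] Mt n) (k B : Mt n)
    (hg : HasFDerivAt g L B) (hF : DifferentiableAt ℝ F (g B)) (hF' : DifferentiableAt ℝ F B)
    (he : ∀ᶠ C in 𝓝 B, F (g C) = M (F C) + k) (v : Mt n) :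
    fderiv ℝ F (g B) (L v) = M (fderiv ℝ F B v) := by
  have h1 : HasFDerivAt (fun C => F (g C)) ((fderiv ℝ F (g B)).comp L) B :=
    hF.hasFDerivAt.comp B hg
  have h2 : HasFDerivAt (fun C => M (F C) + k) (M.comp (fderiv ℝ F B)) B :=
    (M.hasFDerivAt.comp B hF'.hasFDerivAt).add_const k
  have h3 : HasFDerivAt (fun C => F (g C)) (M.comp (fderiv ℝ F B)) B :=
    h2.congr_of_eventuallyEq he
  have h4 := h1.unique h3
  have h5 := congrArg (fun T : Mt n →L[ℝ] Mt n => T v) h4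
  exact h5

/-- injectivity at the points of `PD n` -/
private theorem G6b_pd {n : ℕ} (hn : 1 ≤ n) (φ : PD n → PD n) (hφ : SmX φ) (p : PD n) (γ : SL n)
    (hγ : ∀ p, φ (act γ p) = act γ (φ p))
    (hi : Function.Injective (fderiv ℝ (lft 1 φ) (act γ p).1)) :
    Function.Injective (fderiv ℝ (lft 1 φ) p.1) := by
  have e1 : γ⁻¹.1 * γ.1 = 1 := congrArg Subtype.val (inv_mul_cancel γ)
  have e4 : γ.1ᵀ * γ⁻¹.1ᵀ = 1 := by rw [← Matrix.transpose_mul, e1, Matrix.transpose_one]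
  let L0 : Mt n →ₗ[ℝ] Mt n :=
    { toFun := fun B => γ.1 * B * γ.1ᵀ
      map_add' := fun B C => by rw [Matrix.mul_add, Matrix.add_mul]
      map_smul' := fun c B => by
        rw [Matrix.mul_smul, Matrix.smul_mul, RingHom.id_apply] }
  let L : Mt n →L[ℝ] Mt n := LinearMap.toContinuousLinearMap L0
  have hL : ∀ B, L B = γ.1 * B * γ.1ᵀ := fun B => rfl
  have hLi : Function.Injective L := by
    intro B C h
    rw [hL, hL] at h
    have h1 : ∀ D : Mt n, γ⁻¹.1 * (γ.1 * D * γ.1ᵀ) * γ⁻¹.1ᵀ = D := by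
      intro D
      calc γ⁻¹.1 * (γ.1 * D * γ.1ᵀ) * γ⁻¹.1ᵀ
          = (γ⁻¹.1 * γ.1) * D * (γ.1ᵀ * γ⁻¹.1ᵀ) := by simp only [Matrix.mul_assoc]
        _ = D := by rw [e1, e4, Matrix.one_mul, Matrix.mul_one]
    rw [← h1 B, ← h1 C, h]
  have hp : L p.1 = (act γ p).1 := rfl
  have hev : ∀ᶠ C in 𝓝 p.1, lft 1 φ (L C) = L (lft 1 φ C) + 0 := by
    filter_upwards [PU_open.mem_nhds (mem_PU p)] with C hC
    rw [add_zero, hL, hL]
    exact (lft_facts hn).2.2.2.1 φ γ hγ C hC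
  have hch : ∀ v, fderiv ℝ (lft 1 φ) (L p.1) (L v) = L (fderiv ℝ (lft 1 φ) p.1 v) :=
    G6b_chain (lft 1 φ) (fun B => L B) L L 0 p.1 L.hasFDerivAt
      (by
        show DifferentiableAt ℝ (lft 1 φ) (L p.1)
        rw [hp]; exact G6b_diff hn φ hφ _ (mem_PU _))
      (G6b_diff hn φ hφ _ (mem_PU p)) hev
  rw [← hp] at hi
  intro v w h
  have h1 : fderiv ℝ (lft 1 φ) (L p.1) (L v) = fderiv ℝ (lft 1 φ) (L p.1) (L w) := by
    rw [hch, hch, h]
  exact hLi (hi h1)

/-- Row G6b. Injectivity of the derivative of `F = lft 1 φ` propagates from orbits of points of `PD n` to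
`PU n`. PLAN. `F (γ B γᵀ) = γ F B γᵀ` on `PU n` (`lft_facts`): chain rule at `B = p` gives injectivity at
`p.1` from injectivity at `(act γ p).1 = γ p γᵀ`. At `A = exp r • p + k` (`dec_facts`, `p = ret A`,
`r = ell A`, `k = skp A`): `F (exp r • B + k) = exp r • F B + k` for `B ∈ PU n` (definition of `lft`,
`dec_facts`, `B = exp (ell B) • ret B + skp B`), chain rule at `B = p`. -/
theorem lft_inj {n : ℕ} (hn : 1 ≤ n) (φ : PD n → PD n) (hφ : SmX φ)
    (h : ∀ p : PD n, ∃ γ : SL n, (∀ p, φ (act γ p) = act γ (φ p)) ∧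
      Function.Injective (fderiv ℝ (lft 1 φ) (act γ p).1)) :
    ∀ A ∈ PU n, Function.Injective (fderiv ℝ (lft 1 φ) A) := by
  intro A hA
  obtain ⟨γ, hγ, hi⟩ := h (ret A)
  have hinj := G6b_pd hn φ hφ (ret A) γ hγ hi
  have hAe : A = Real.exp (ell A) • (ret A).1 + skp A := (dec_facts hn).1 A hA
  have hk : (skp A)ᵀ = -skp A := (dec_facts hn).2.2.1 A
  let c : ℝ := Real.exp (ell A)
  have hc : c ≠ 0 := (Real.exp_pos _).ne'
  let M : Mt n →L[ℝ] Mt n := c • ContinuousLinearMap.id ℝ (Mt n)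
  have hM : ∀ v, M v = c • v := fun v => rfl
  have hg : HasFDerivAt (fun B : Mt n => M B + skp A) M (ret A).1 :=
    M.hasFDerivAt.add_const (skp A)
  have hgA : M (ret A).1 + skp A = A := hAe.symm
  have hev : ∀ᶠ C in 𝓝 (ret A).1, lft 1 φ (M C + skp A) = M (lft 1 φ C) + skp A := by
    filter_upwards [PU_open.mem_nhds (mem_PU (ret A))] with C hC
    exact (G6b_tr hn φ (ell A) (skp A) hk C hC).2
  have hch : ∀ v, fderiv ℝ (lft 1 φ) (M (ret A).1 + skp A) (M v) =
      M (fderiv ℝ (lft 1 φ) (ret A).1 v) :=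
    G6b_chain (lft 1 φ) (fun B => M B + skp A) M M (skp A) (ret A).1 hg
      (by
        show DifferentiableAt ℝ (lft 1 φ) (M (ret A).1 + skp A)
        rw [hgA]; exact G6b_diff hn φ hφ A hA)
      (G6b_diff hn φ hφ _ (mem_PU _)) hev
  rw [hgA] at hch
  have hch2 : ∀ v, fderiv ℝ (lft 1 φ) A v = fderiv ℝ (lft 1 φ) (ret A).1 v := by
    intro v
    have h1 := hch v
    rw [hM, hM, map_smul] at h1
    exact smul_right_injective _ hc h1
  intro v w hvw
  rw [hch2, hch2] at hvw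
  exact hinj hvw

end LibNC38
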