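import Pool.Agent.LibNS38.D4

set_option autoImplicit false
set_option maxSynthPendingDepth 3

open Matrix MeasureTheory Topology Filter
open scoped Matrix.Norms.Elementwise ContDiff

namespace LibNC38

private theorem D5_fwd {n : ℕ} (φ : PD n → PD n) (hφ : SmX φ) (h : PD n → Fm n)
    {p q : PD n} {l : ℝ} (H : ConnN (nrm (pul φ h)) p q l) :
    ConnN (nrm h) (φ p) (φ q) l := by
  induction H with
  | seg c v hc =>
    have h1 := ConnN.seg (N := nrm h) _ _ (dff_curve φ hφ c v hc)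
    exact h1
  | trans _ _ ih1 ih2 => exact ConnN.trans ih1 ih2

private theorem D5_inv {n : ℕ} (φ χ : PD n → PD n) (hφ : SmX φ) (hχ : SmX χ)
    (h2 : ∀ p, φ (χ p) = p) (x : PD n) (w : Mt n) (hw : IsTan x w) :
    dff φ (χ x) (dff χ x w) = w := by
  have e : (fun p : PD n => φ (χ p)) = fun p => p := funext h2
  have h3 := (dff_facts.2.1 φ χ hφ hχ).2 x w
  rw [e] at h3
  rw [← h3]
  exact dff_facts.2.2.1.2 x w hw

private theorem D5_bwd {n : ℕ} (φ χ : PD n → PD n) (hφ : SmX φ) (hχ : SmX χ)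
    (h2 : ∀ p, φ (χ p) = p) (h : PD n → Fm n)
    {p q : PD n} {l : ℝ} (H : ConnN (nrm h) p q l) :
    ConnN (nrm (pul φ h)) (χ p) (χ q) l := by
  induction H with
  | seg c v hc =>
    have h1 := ConnN.seg (N := nrm (pul φ h)) _ _ (dff_curve χ hχ c v hc)
    have h4 : lenN (nrm (pul φ h)) (fun s => χ (c s)) (fun s => dff χ (c s) (v s)) =
        lenN (nrm h) c v := by
      unfold lenN
      refine intervalIntegral.integral_congr fun s _ => ?_
      show nrm (pul φ h) (χ (c s)) (dff χ (c s) (v s)) = nrm h (c s) (v s)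
      unfold nrm
      rw [pul_apply, D5_inv φ χ hφ hχ h2 (c s) (v s) (tan_facts.1 c v hc s), h2]
    rw [h4] at h1
    exact h1
  | trans _ _ ih1 ih2 => exact ConnN.trans ih1 ih2

/-- Row D5. A diffeomorphism is an isometry from the pulled back metric. PLAN. By induction on
`ConnN`: `ConnN (nrm (pul φ h)) p q l → ConnN (nrm h) (φ p) (φ q) l` (`dff_curve`;
`nrm (pul φ h) p v = nrm h (φ p) (dff φ p v)` is `rfl`-like); conversely with the inverse `χ`: the curve
`χ ∘ c` with velocity `dff χ (c s) (v s)`, and `dff φ (χ x) (dff χ x w) = w` for tangent `w`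
(`dff_facts`: composition and identity; velocities are tangent, `tan_facts.1`). -/
theorem dN_pul {n : ℕ} (Γ : Subgroup (SL n)) (φ : PD n → PD n) (hφ : Dfm Γ φ) (h : PD n → Fm n)
    (p q : PD n) : dN (nrm (pul φ h)) p q = dN (nrm h) (φ p) (φ q) := by
  obtain ⟨χ, hχ, h1, h2⟩ := hφ.inv
  unfold dN
  congr 1
  ext l
  constructor
  · intro H
    exact D5_fwd φ hφ.smooth h H
  · intro H
    have H' := D5_bwd φ χ hφ.smooth hχ h2 h H
    rw [h1, h1] at H'
    exact H'

/-- Row D5. `NoConj` is invariant under bijective isometries. -/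
theorem noConj_pul {n : ℕ} (Γ : Subgroup (SL n)) (φ : PD n → PD n) (hφ : Dfm Γ φ)
    (h : PD n → Fm n) (hN : NoConj (dN (nrm h))) : NoConj (dN (nrm (pul φ h))) := by
  obtain ⟨χ, hχ, h1, h2⟩ := hφ.inv
  have hinj : Function.Injective φ := Function.LeftInverse.injective h1
  have hG : ∀ (L : ℝ) (c : ℝ → PD n), IsGeod (dN (nrm (pul φ h))) L c →
      IsGeod (dN (nrm h)) L (fun t => φ (c t)) := by
    intro L c hc t ht
    obtain ⟨ε, hε, H⟩ := hc t ht
    refine ⟨ε, hε, fun u hu v hv hut hvt => ?_⟩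
    rw [← H u hu v hv hut hvt, dN_pul Γ φ hφ h]
  intro L L' c c' hL hL' hc hc' h0 h3 h4
  obtain ⟨h5, h6⟩ := hN L L' (fun t => φ (c t)) (fun t => φ (c' t)) hL hL' (hG L c hc)
    (hG L' c' hc') (congrArg φ h0) (congrArg φ h3) (fun e => h4 (hinj e))
  exact ⟨h5, fun t ht => hinj (h6 t ht)⟩

end LibNC38
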