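import Pool.Agent.LibNS38.D0

set_option autoImplicit false
set_option maxSynthPendingDepth 3

open Matrix MeasureTheory Topology Filter
open scoped Matrix.Norms.Elementwise ContDiff

namespace LibNC38

private theorem D6_geod {Y : Type*} (d d' : Y → Y → ℝ) (r : ℝ) (hr : 0 < r)
    (hd : ∀ p q, d' p q = r * d p q) (L : ℝ) (c : ℝ → Y) (h : IsGeod d' L c) :
    IsGeod d (L / r) (fun s => c (r * s)) := by
  intro t ht
  have hrt : r * t ∈ Set.Icc 0 L := by
    refine ⟨mul_nonneg hr.le ht.1, ?_⟩
    have := mul_le_mul_of_nonneg_left ht.2 hr.le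
    rwa [mul_div_cancel₀ _ hr.ne'] at this
  obtain ⟨ε, hε, H⟩ := h (r * t) hrt
  refine ⟨ε / r, div_pos hε hr, fun u hu v hv hut hvt => ?_⟩
  have hmem : ∀ w, w ∈ Set.Icc 0 (L / r) → r * w ∈ Set.Icc 0 L := by
    intro w hw
    refine ⟨mul_nonneg hr.le hw.1, ?_⟩
    have := mul_le_mul_of_nonneg_left hw.2 hr.le
    rwa [mul_div_cancel₀ _ hr.ne'] at this
  have habs : ∀ a b : ℝ, |r * a - r * b| = r * |a - b| := by
    intro a b
    rw [← mul_sub, abs_mul, abs_of_pos hr]
  have h1 : |r * u - r * t| < ε := by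
    rw [habs]
    rw [lt_div_iff₀ hr] at hut
    linarith
  have h2 : |r * v - r * t| < ε := by
    rw [habs]
    rw [lt_div_iff₀ hr] at hvt
    linarith
  have h3 := H (r * u) (hmem u hu) (r * v) (hmem v hv) h1 h2
  rw [hd, habs] at h3
  exact mul_left_cancel₀ hr.ne' h3

private theorem D6_nc {Y : Type*} (d d' : Y → Y → ℝ) (r : ℝ) (hr : 0 < r)
    (hd : ∀ p q, d' p q = r * d p q) (hnc : NoConj d) : NoConj d' := by
  intro L L' c c' hL hL' hc hc' h0 h1 hne
  have g1 := D6_geod d _ r hr hd L c hc
  have g2 := D6_geod d _ r hr hd L' c' hc'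
  have hrL : ∀ M : ℝ, r * (M / r) = M := fun M => mul_div_cancel₀ _ hr.ne'
  obtain ⟨e1, e2⟩ := hnc (L / r) (L' / r) _ _ (div_pos hL hr) (div_pos hL' hr) g1 g2
    (by simpa using h0) (by simpa only [hrL] using h1)
    (by
      intro h
      apply hne
      simpa only [hrL, mul_zero] using h)
  refine ⟨?_, fun t ht => ?_⟩
  · have := congrArg (fun x => r * x) e1
    simpa only [hrL] using this
  · have h3 := e2 (t / r) ⟨div_nonneg ht.1 hr.le, div_le_div_of_nonneg_right ht.2 hr.le⟩
    simpa only [hrL] using h3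

private theorem D6_conn {n : ℕ} (N : PD n → Mt n → ℝ) (r : ℝ) {p q : PD n} {l : ℝ}
    (h : ConnN N p q l) : ConnN (fun x v => r * N x v) p q (r * l) := by
  induction h with
  | seg c v hc =>
    have h1 : r * lenN N c v = lenN (fun x v => r * N x v) c v := by
      unfold lenN
      rw [intervalIntegral.integral_const_mul]
    rw [h1]
    exact ConnN.seg c v hc
  | trans _ _ ih1 ih2 =>
    rw [mul_add]
    exact ConnN.trans ih1 ih2

open scoped Pointwise in
private theorem D6_dN {n : ℕ} (N : PD n → Mt n → ℝ) (r : ℝ) (hr : 0 < r) (p q : PD n) :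
    dN (fun x v => r * N x v) p q = r * dN N p q := by
  have hset : {l | ConnN (fun x v => r * N x v) p q l} = r • {l | ConnN N p q l} := by
    ext l
    rw [Set.mem_smul_set_iff_inv_smul_mem₀ hr.ne', smul_eq_mul]
    constructor
    · intro hl
      have h1 := D6_conn (fun x v => r * N x v) r⁻¹ hl
      have e : (fun (x : PD n) (v : Mt n) => r⁻¹ * (r * N x v)) = N := by
        funext x v
        rw [← mul_assoc, inv_mul_cancel₀ hr.ne', one_mul]
      rw [e] at h1
      exact h1
    · intro hl
      have h1 := D6_conn N r (show ConnN N p q (r⁻¹ * l) from hl)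
      rw [← mul_assoc, mul_inv_cancel₀ hr.ne', one_mul] at h1
      exact h1
  unfold dN
  rw [hset, Real.sInf_smul_of_nonneg hr.le, smul_eq_mul]

/-- Row D6. `NoConj` is invariant under constant factors. PLAN. `nrm (c • h) p v = √c * nrm h p v`, so
`ConnN` scales the lengths by `√c` (induction; inverse factor for the converse) and
`dN (nrm (c h)) = √c * dN (nrm h)` (`Real.sInf_smul_of_nonneg` or as in `LibNG38/GK2.lean`, where `dN_smul`
and the geodesic reparametrization `GK2_geod` (private: copy it) are used for this purpose). -/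
theorem noConj_smul {n : ℕ} (c : ℝ) (hc : 0 < c) (h : PD n → Fm n) (hN : NoConj (dN (nrm h))) :
    NoConj (dN (nrm (fun p => c • h p))) := by
  have hr : 0 < √ c := Real.sqrt_pos.2 hc
  have e : nrm (fun p => c • h p) = fun x v => √ c * nrm h x v := by
    funext p v
    unfold nrm
    rw [LinearMap.smul_apply, LinearMap.smul_apply, smul_eq_mul, Real.sqrt_mul hc.le]
  rw [e]
  exact D6_nc (dN (nrm h)) _ (√ c) hr (D6_dN (nrm h) (√ c) hr) hN

end LibNC38
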