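import Pool.Agent.LibNS38.D3

set_option autoImplicit false
set_option maxSynthPendingDepth 3

open Matrix MeasureTheory Topology Filter
open scoped Matrix.Norms.Elementwise ContDiff

namespace LibNC38

private theorem D7_joint {n : ℕ} (κ : PD n → Fm n) (hc : ∀ v w, Continuous fun p => κ p v w) :
    Continuous fun x : PD n × (Mt n × Mt n) => κ x.1 x.2.1 x.2.2 := by
  have hv : ∀ v : Mt n, v = ∑ i, ∑ j, v i j • Matrix.single i j (1 : ℝ) := by
    intro v
    conv_lhs => rw [Matrix.matrix_eq_sum_single v]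
    refine Finset.sum_congr rfl fun i _ => Finset.sum_congr rfl fun j _ => ?_
    rw [Matrix.smul_single, smul_eq_mul, mul_one]
  have key : ∀ (p : PD n) (v w : Mt n), κ p v w = ∑ i, ∑ j, ∑ k, ∑ l,
      w i j * (v k l * κ p (Matrix.single k l (1 : ℝ)) (Matrix.single i j (1 : ℝ))) := by
    intro p v w
    calc κ p v w = κ p (∑ i, ∑ j, v i j • Matrix.single i j (1 : ℝ))
          (∑ k, ∑ l, w k l • Matrix.single k l (1 : ℝ)) := by rw [← hv v, ← hv w]
      _ = _ := by
        simp only [map_sum, LinearMap.sum_apply, map_smul, LinearMap.smul_apply, smul_eq_mul]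
        refine Finset.sum_congr rfl fun i _ => Finset.sum_congr rfl fun j _ => ?_
        simp only [Finset.mul_sum]
  have h1 : (fun x : PD n × (Mt n × Mt n) => κ x.1 x.2.1 x.2.2) =
      fun x : PD n × (Mt n × Mt n) => ∑ i, ∑ j, ∑ k, ∑ l,
      x.2.2 i j * (x.2.1 k l * κ x.1 (Matrix.single k l (1 : ℝ)) (Matrix.single i j (1 : ℝ))) := by
    funext x
    exact key x.1 x.2.1 x.2.2
  rw [h1]
  refine continuous_finsetSum _ fun i _ => continuous_finsetSum _ fun j _ =>
    continuous_finsetSum _ fun k _ => continuous_finsetSum _ fun l _ => ?_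
  exact ((continuous_snd.comp continuous_snd).matrix_elem i j).mul
    (((continuous_fst.comp continuous_snd).matrix_elem k l).mul ((hc _ _).comp continuous_fst))

private theorem D7_phi {n : ℕ} (φ : PD n → PD n) (hs : SmX φ) : Continuous φ := by
  refine Continuous.subtype_mk (f := fun p : PD n => (φ p).1) ?_ (fun p => (φ p).2) |>.congr ?_
  · have h1 : ContinuousOn (fun A : Mt n => (φ (ret A)).1) (PU n) := hs.continuousOn
    have h2 : Continuous fun p : PD n => (φ (ret p.1)).1 :=
      h1.comp_continuous continuous_subtype_val fun p => mem_PU p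
    refine h2.congr fun p => ?_
    rw [ret_self]
  · intro p
    rfl

private theorem D7_dff {n : ℕ} (φ : PD n → PD n) (hs : SmX φ) (v : Mt n) :
    Continuous fun p : PD n => dff φ p v := by
  have h1 : ContinuousOn (fderiv ℝ (fun A : Mt n => (φ (ret A)).1)) (PU n) :=
    ContDiffOn.continuousOn_fderiv_of_isOpen hs PU_open (by simp)
  have h2 : Continuous fun p : PD n => fderiv ℝ (fun A : Mt n => (φ (ret A)).1) p.1 :=
    h1.comp_continuous continuous_subtype_val fun p => mem_PU p
  exact h2.clm_apply continuous_const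

/-- Row D7. The pull back is an invariant form. PLAN. Continuity: `p ↦ h (φ p) (dff φ p v) (dff φ p w)`:
expand in matrix units (`fm_cont`-like, for two vectors), `φ` and `p ↦ dff φ p v` are continuous
(`SmX`, `ret_self`, `ContDiffOn.continuousOn_fderiv_of_isOpen`). Invariance: `dff_facts` (equivariance of
the differential) and `FmOK.inv` at `φ p` for the tangent vector `dff φ p v`. -/
theorem fmOK_pul {n : ℕ} (Γ : Subgroup (SL n)) (φ : PD n → PD n) (hφ : Dfm Γ φ)
    (h : PD n → Fm n) (hh : FmOK Γ h) : FmOK Γ (pul φ h) := by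
  obtain ⟨h1, -, -, h4⟩ := dff_facts (n := n)
  refine ⟨?_, ?_, ?_⟩
  · intro v w
    have h5 : Continuous fun p : PD n => ((φ p, (dff φ p v, dff φ p w)) : PD n × (Mt n × Mt n)) :=
      (D7_phi φ hφ.smooth).prodMk ((D7_dff φ hφ.smooth v).prodMk (D7_dff φ hφ.smooth w))
    exact (D7_joint h hh.cont).comp h5
  · intro p v w
    rw [pul_apply, pul_apply]
    exact hh.symm _ _ _
  · intro γ hγ p v hv
    rw [pul_apply, pul_apply, h4 φ γ hφ.smooth (hφ.equi γ hγ) p v, hφ.equi γ hγ p]
    exact hh.inv γ hγ (φ p) (dff φ p v) (h1 φ hφ.smooth p v)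

end LibNC38
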