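import Pool.Agent.LibNS38.B0

set_option autoImplicit false
set_option maxSynthPendingDepth 3

open Topology Filter Set
open scoped ContDiff

namespace NS38

/-- Row B12. An analytic function on a connected open set which is flat at `0` vanishes. PLAN. All
coefficients of the power series at `0` vanish (if `f` is not eventually zero near `0`, then
`f t = t^N • g t` with `g 0 ≠ 0`: `AnalyticAt.exists_eventuallyEq_pow_smul_nonzero_iff`; contradiction
with the bound for `N + 1` as `t → 0+`); identity theorem `AnalyticOnNhd.eqOn_zero_of_preconnected_of_eventuallyEq_zero`. -/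
theorem flat_zero {F : Type} [NormedAddCommGroup F] [NormedSpace ℝ F] (f : ℝ → F)
    (J : Set ℝ) (hp : IsPreconnected J) (h0 : (0 : ℝ) ∈ J) (hf : AnalyticOnNhd ℝ f J)
    (hO : ∀ N : ℕ, ∃ M ε : ℝ, 0 < ε ∧ ∀ t ∈ Ioo (0 : ℝ) ε, ‖f t‖ ≤ M * t ^ N) :
    ∀ t ∈ J, f t = 0 := by
  intro t ht
  have hA : AnalyticAt ℝ f 0 := hf 0 h0
  by_cases hz : ∀ᶠ z in 𝓝 (0 : ℝ), f z = 0
  · exact hf.eqOn_zero_of_preconnected_of_eventuallyEq_zero hp h0 hz ht
  · exfalso
    obtain ⟨N, g, hg, hg0, hfg⟩ := (hA.exists_eventuallyEq_pow_smul_nonzero_iff).2 hz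
    obtain ⟨M, ε, hε, hM⟩ := hO (N + 1)
    have h1 : ∀ᶠ z in 𝓝[>] (0 : ℝ), 0 ≤ M * z - ‖g z‖ := by
      have h2 : ∀ᶠ z in 𝓝[>] (0 : ℝ), f z = (z - 0) ^ N • g z := hfg.filter_mono nhdsWithin_le_nhds
      have h3 : ∀ᶠ z in 𝓝[>] (0 : ℝ), z ∈ Ioo (0 : ℝ) ε := Ioo_mem_nhdsGT hε
      filter_upwards [h2, h3] with z hz2 hz3
      have h4 := hM z hz3
      have hzN : 0 < z ^ N := pow_pos hz3.1 N
      rw [hz2, sub_zero, norm_smul, norm_pow, Real.norm_of_nonneg hz3.1.le, pow_succ] at h4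
      have h5 : z ^ N * ‖g z‖ ≤ z ^ N * (M * z) := by
        calc z ^ N * ‖g z‖ ≤ M * (z ^ N * z) := h4
          _ = z ^ N * (M * z) := by ring
      have h6 := le_of_mul_le_mul_left h5 hzN
      linarith
    have h7 : Tendsto (fun z : ℝ => M * z - ‖g z‖) (𝓝[>] 0) (𝓝 (M * 0 - ‖g 0‖)) := by
      have hc : ContinuousAt (fun z : ℝ => M * z - ‖g z‖) 0 :=
        (continuousAt_const.mul continuousAt_id).sub hg.continuousAt.norm
      exact hc.tendsto.mono_left nhdsWithin_le_nhds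
    have h8 : 0 ≤ M * 0 - ‖g 0‖ := ge_of_tendsto h7 h1
    have h9 : 0 < ‖g 0‖ := norm_pos_iff.2 hg0
    linarith

end NS38
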