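import Pool.Agent.LibNS38.B0

set_option autoImplicit false
set_option maxSynthPendingDepth 3

open Topology Filter Set
open scoped ContDiff

namespace NS38

section B7aux

variable {P E F : Type} [NormedAddCommGroup P] [NormedSpace ℝ P] [NormedAddCommGroup E]
    [NormedSpace ℝ E] [NormedAddCommGroup F] [NormedSpace ℝ F]

/-- partial derivative in the second variable -/
private noncomputable def B7_D (A : P × E → F) (x : P × E) : E →L[ℝ] F :=
  (fderiv ℝ A x).comp (ContinuousLinearMap.inr ℝ P E)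

private lemma B7_D_smooth (A : P × E → F) (S : Set (P × E)) (hS : IsOpen S)
    (hA : ContDiffOn ℝ ∞ A S) : ContDiffOn ℝ ∞ (B7_D A) S := by
  have h1 : ContDiffOn ℝ ∞ (fderiv ℝ A) S :=
    hA.fderiv_of_isOpen hS (by exact_mod_cast le_refl _)
  exact h1.clm_comp contDiffOn_const

private lemma B7_slice (A : P × E → F) (S : Set (P × E)) (hS : IsOpen S)
    (hA : ContDiffOn ℝ ∞ A S) (x : P × E) (hx : x ∈ S) :
    HasFDerivAt (fun y : E => A (x.1, y)) (B7_D A x) x.2 := by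
  have h1 : HasFDerivAt A (fderiv ℝ A (x.1, x.2)) (x.1, x.2) := by
    have := (hA.contDiffAt (hS.mem_nhds hx)).differentiableAt (by simp)
    exact this.hasFDerivAt
  have h2 : HasFDerivAt (fun y : E => (x.1, y)) (ContinuousLinearMap.inr ℝ P E) x.2 :=
    hasFDerivAt_prodMk_right x.1 x.2
  exact h1.comp x.2 h2

end B7aux

section B7aux2

variable {E : Type} [NormedAddCommGroup E] [NormedSpace ℝ E]

private noncomputable def B7_flip {G : Type} [NormedAddCommGroup G] [NormedSpace ℝ G] :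
    (E →L[ℝ] E →L[ℝ] G) →L[ℝ] (E →L[ℝ] E →L[ℝ] G) :=
  ((ContinuousLinearMap.flipₗᵢ ℝ E E G).toContinuousLinearEquiv :
    (E →L[ℝ] E →L[ℝ] G) →L[ℝ] (E →L[ℝ] E →L[ℝ] G))

private lemma B7_flip_apply {G : Type} [NormedAddCommGroup G] [NormedSpace ℝ G]
    (f : E →L[ℝ] E →L[ℝ] G) (u v : E) : B7_flip f u v = f v u := rfl

private lemma B7_flip_smooth {X G H : Type} [NormedAddCommGroup X] [NormedSpace ℝ X]
    [NormedAddCommGroup G] [NormedSpace ℝ G] [NormedAddCommGroup H] [NormedSpace ℝ H]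
    (f : X → E →L[ℝ] G →L[ℝ] H) (S : Set X) (hf : ContDiffOn ℝ ∞ f S) :
    ContDiffOn ℝ ∞ (fun x => (f x).flip) S :=
  ((ContinuousLinearMap.flipₗᵢ ℝ E G H).toContinuousLinearEquiv.contDiff).comp_contDiffOn hf

private lemma B7_s1 {X G H : Type} [NormedAddCommGroup X] [NormedSpace ℝ X]
    [NormedAddCommGroup G] [NormedSpace ℝ G] [NormedAddCommGroup H] [NormedSpace ℝ H]
    (S : Set X) (M : (E →L[ℝ] E) →L[ℝ] G →L[ℝ] H) (A : X → E →L[ℝ] E →L[ℝ] E) (R : X → G)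
    (hA : ContDiffOn ℝ ∞ A S) (hR : ContDiffOn ℝ ∞ R S) :
    ContDiffOn ℝ ∞ (fun x => (M.comp (A x)).flip (R x)) S := by
  have h1 : ContDiffOn ℝ ∞ (fun x => M.comp (A x)) S := contDiffOn_const.clm_comp hA
  exact (B7_flip_smooth _ S h1).clm_apply hR

private lemma B7_s2 {X G : Type} [NormedAddCommGroup X] [NormedSpace ℝ X]
    [NormedAddCommGroup G] [NormedSpace ℝ G]
    (S : Set X) (A : X → E →L[ℝ] E →L[ℝ] E) (R : X → E →L[ℝ] G)
    (hA : ContDiffOn ℝ ∞ A S) (hR : ContDiffOn ℝ ∞ R S) :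
    ContDiffOn ℝ ∞ (fun x => (ContinuousLinearMap.compL ℝ E E G (R x)).comp (A x)) S := by
  have h1 : ContDiffOn ℝ ∞ (fun x => ContinuousLinearMap.compL ℝ E E G (R x)) S :=
    (ContinuousLinearMap.compL ℝ E E G).contDiff.comp_contDiffOn hR
  exact h1.clm_comp hA

private lemma B7_s3 {X G : Type} [NormedAddCommGroup X] [NormedSpace ℝ X]
    [NormedAddCommGroup G] [NormedSpace ℝ G]
    (S : Set X) (A : X → E →L[ℝ] E →L[ℝ] E) (R : X → E →L[ℝ] E →L[ℝ] G)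
    (hA : ContDiffOn ℝ ∞ A S) (hR : ContDiffOn ℝ ∞ R S) :
    ContDiffOn ℝ ∞ (fun x =>
      (((ContinuousLinearMap.compL ℝ E E G).comp (R x)).flip).comp (A x)) S := by
  have h1 : ContDiffOn ℝ ∞ (fun x => (ContinuousLinearMap.compL ℝ E E G).comp (R x)) S :=
    contDiffOn_const.clm_comp hR
  exact (B7_flip_smooth _ S h1).clm_comp hA

/-- `u ↦ v ↦ C u ∘ C v` -/
private noncomputable def B7_T (C : E →L[ℝ] E →L[ℝ] E) : E →L[ℝ] E →L[ℝ] E →L[ℝ] E :=
  ((ContinuousLinearMap.compL ℝ E (E →L[ℝ] E) (E →L[ℝ] E)).flip C).comp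
    ((ContinuousLinearMap.compL ℝ E E E).comp C)

private lemma B7_T_apply (C : E →L[ℝ] E →L[ℝ] E) (u v w : E) : B7_T C u v w = C u (C v w) := rfl

/-- the lift of a bilinear operation on endomorphisms: `z ↦ u ↦ v ↦ M (C z) (R u v)` -/
private noncomputable def B7_L (M : (E →L[ℝ] E) →L[ℝ] (E →L[ℝ] E) →L[ℝ] (E →L[ℝ] E)) :
    (E →L[ℝ] E) →L[ℝ] (E →L[ℝ] E →L[ℝ] E →L[ℝ] E) →L[ℝ] (E →L[ℝ] E →L[ℝ] E →L[ℝ] E) :=
  (ContinuousLinearMap.compL ℝ E (E →L[ℝ] E →L[ℝ] E) (E →L[ℝ] E →L[ℝ] E)).comp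
    ((ContinuousLinearMap.compL ℝ E (E →L[ℝ] E) (E →L[ℝ] E)).comp M)

private lemma B7_L_apply (M : (E →L[ℝ] E) →L[ℝ] (E →L[ℝ] E) →L[ℝ] (E →L[ℝ] E)) (f : E →L[ℝ] E)
    (R : E →L[ℝ] E →L[ℝ] E →L[ℝ] E) (u v : E) : B7_L M f R u v = M f (R u v) := rfl

end B7aux2

theorem curv_clm {P E : Type} [NormedAddCommGroup P] [NormedSpace ℝ P] [NormedAddCommGroup E]
    [NormedSpace ℝ E] (C : P → E → E →L[ℝ] E →L[ℝ] E) (S : Set (P × E)) (hS : IsOpen S)
    (hC : ContDiffOn ℝ ∞ (fun x : P × E => C x.1 x.2) S) :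
    (∃ R : P × E → E →L[ℝ] E →L[ℝ] E →L[ℝ] E, ContDiffOn ℝ ∞ R S ∧
      ∀ x ∈ S, ∀ u v w, curv (C x.1) x.2 u v w = R x u v w) ∧
    ∃ R' : P × E → E →L[ℝ] E →L[ℝ] E →L[ℝ] E →L[ℝ] E, ContDiffOn ℝ ∞ R' S ∧
      ∀ x ∈ S, ∀ z u v w, dcurv (C x.1) x.2 z u v w = R' x z u v w := by
  set A : P × E → E →L[ℝ] E →L[ℝ] E := fun x => C x.1 x.2 with hAdef
  have hDA := B7_D_smooth A S hS hC
  -- the curvature
  set R : P × E → E →L[ℝ] E →L[ℝ] E →L[ℝ] E := fun x =>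
    B7_D A x - B7_flip (B7_D A x) + B7_T (A x) - B7_flip (B7_T (A x)) with hRdef
  have hT : ContDiffOn ℝ ∞ (fun x => B7_T (A x)) S := by
    unfold B7_T
    refine ContDiffOn.clm_comp ?_ ?_
    · exact ((ContinuousLinearMap.compL ℝ E (E →L[ℝ] E) (E →L[ℝ] E)).flip.contDiff).comp_contDiffOn hC
    · exact contDiffOn_const.clm_comp hC
  have hRs : ContDiffOn ℝ ∞ R S := by
    refine ((hDA.sub ?_).add hT).sub ?_
    · exact (B7_flip.contDiff).comp_contDiffOn hDA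
    · exact (B7_flip.contDiff).comp_contDiffOn hT
  have hder : ∀ x ∈ S, ∀ u v w, fderiv ℝ (fun y => C x.1 y v w) x.2 u = B7_D A x u v w := by
    intro x hx u v w
    have h1 : HasFDerivAt (fun y : E => A (x.1, y)) (B7_D A x) x.2 := B7_slice A S hS hC x hx
    have h2 : HasFDerivAt (fun y : E => C x.1 y v w)
        (((ContinuousLinearMap.apply ℝ E w).comp
          (ContinuousLinearMap.apply ℝ (E →L[ℝ] E) v)).comp (B7_D A x)) x.2 :=
      ((ContinuousLinearMap.apply ℝ E w).comp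
          (ContinuousLinearMap.apply ℝ (E →L[ℝ] E) v)).hasFDerivAt.comp x.2 h1
    rw [h2.fderiv]
    rfl
  have hR : ∀ x ∈ S, ∀ u v w, curv (C x.1) x.2 u v w = R x u v w := by
    intro x hx u v w
    unfold curv
    rw [hder x hx, hder x hx]
    rfl
  refine ⟨⟨R, hRs, hR⟩, ?_⟩
  have hDR := B7_D_smooth R S hS hRs
  refine ⟨fun x => B7_D R x
      + ((B7_L (ContinuousLinearMap.compL ℝ E E E)).comp (A x)).flip (R x)
      - (ContinuousLinearMap.compL ℝ E E (E →L[ℝ] E →L[ℝ] E) (R x)).comp (A x)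
      - (((ContinuousLinearMap.compL ℝ E E (E →L[ℝ] E)).comp (R x)).flip).comp (A x)
      - ((B7_L (ContinuousLinearMap.compL ℝ E E E).flip).comp (A x)).flip (R x), ?_, ?_⟩
  · refine (((hDR.add (B7_s1 S _ A R hC hRs)).sub (B7_s2 S A R hC hRs)).sub
      (B7_s3 S A R hC hRs)).sub (B7_s1 S _ A R hC hRs)
  · intro x hx z u v w
    unfold dcurv
    have h1 : HasFDerivAt (fun y : E => R (x.1, y)) (B7_D R x) x.2 := B7_slice R S hS hRs x hx
    have h2 : HasFDerivAt (fun y : E => R (x.1, y) u v w)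
        (((ContinuousLinearMap.apply ℝ E w).comp
          ((ContinuousLinearMap.apply ℝ (E →L[ℝ] E) v).comp
            (ContinuousLinearMap.apply ℝ (E →L[ℝ] E →L[ℝ] E) u))).comp (B7_D R x)) x.2 :=
      ((ContinuousLinearMap.apply ℝ E w).comp
          ((ContinuousLinearMap.apply ℝ (E →L[ℝ] E) v).comp
            (ContinuousLinearMap.apply ℝ (E →L[ℝ] E →L[ℝ] E) u))).hasFDerivAt.comp x.2 h1
    have h3 : (fun y : E => curv (C x.1) y u v w) =ᶠ[𝓝 x.2] fun y : E => R (x.1, y) u v w := by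
      have h4 : (fun y : E => ((x.1, y) : P × E)) ⁻¹' S ∈ 𝓝 x.2 := by
        apply ContinuousAt.preimage_mem_nhds
        · fun_prop
        · exact hS.mem_nhds hx
      filter_upwards [h4] with y hy
      exact hR (x.1, y) hy u v w
    rw [h3.fderiv_eq, h2.fderiv, hR x hx, hR x hx, hR x hx, hR x hx]
    rfl

end NS38
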