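import Pool.Agent.LibNS38.B3
import Pool.Agent.LibNS38.B7

set_option autoImplicit false
set_option maxSynthPendingDepth 3

open Topology Filter Set
open scoped ContDiff

namespace NS38

private theorem B11_low {E : Type} [NormedAddCommGroup E] [NormedSpace ℝ E]
    [FiniteDimensional ℝ E] (L0 : E → E →L[ℝ] E →L[ℝ] ℝ) (T : Set E) (hT : IsCompact T)
    (hc : ContinuousOn L0 T) (hp : ∀ x ∈ T, ∀ v, v ≠ 0 → 0 < L0 x v v) :
    ∃ m : ℝ, 0 < m ∧ ∀ x ∈ T, ∀ v, m * (‖v‖ * ‖v‖) ≤ L0 x v v := by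
  have hS : IsCompact (Metric.sphere (0 : E) 1) := isCompact_sphere 0 1
  have hTS : IsCompact (T ×ˢ Metric.sphere (0 : E) 1) := hT.prod hS
  have hf : ContinuousOn (fun p : E × E => L0 p.1 p.2 p.2) (T ×ˢ Metric.sphere (0 : E) 1) := by
    have h1 : ContinuousOn (fun p : E × E => L0 p.1) (T ×ˢ Metric.sphere (0 : E) 1) :=
      hc.comp continuousOn_fst (fun p hp => hp.1)
    exact (h1.clm_apply continuousOn_snd).clm_apply continuousOn_snd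
  have hun : ∀ v : E, v ≠ 0 → ‖v‖⁻¹ • v ∈ Metric.sphere (0 : E) 1 := by
    intro v hv
    have h1 : ‖v‖ ≠ 0 := norm_ne_zero_iff.2 hv
    simp [norm_smul, h1]
  have hsc : ∀ x : E, ∀ v : E, v ≠ 0 →
      L0 x v v = (‖v‖ * ‖v‖) * L0 x (‖v‖⁻¹ • v) (‖v‖⁻¹ • v) := by
    intro x v hv
    have h1 : ‖v‖ ≠ 0 := norm_ne_zero_iff.2 hv
    simp only [map_smul, smul_apply, smul_eq_mul]
    field_simp
  rcases (T ×ˢ Metric.sphere (0 : E) 1).eq_empty_or_nonempty with he | hne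
  · refine ⟨1, one_pos, fun x hx v => ?_⟩
    by_cases hv : v = 0
    · subst hv; simp
    · exfalso
      have : (x, ‖v‖⁻¹ • v) ∈ T ×ˢ Metric.sphere (0 : E) 1 := ⟨hx, hun v hv⟩
      rw [he] at this
      exact this
  · obtain ⟨p0, hp0, hmin⟩ := hTS.exists_isMinOn hne hf
    have hp1 : p0.2 ≠ 0 := by
      intro h0
      have h1 : ‖p0.2‖ = 1 := by simpa using hp0.2
      rw [h0, norm_zero] at h1
      exact zero_ne_one h1
    refine ⟨L0 p0.1 p0.2 p0.2, hp _ hp0.1 _ hp1, fun x hx v => ?_⟩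
    by_cases hv : v = 0
    · subst hv; simp
    · rw [hsc x v hv, mul_comm]
      have h2 : L0 p0.1 p0.2 p0.2 ≤ L0 x (‖v‖⁻¹ • v) (‖v‖⁻¹ • v) :=
        hmin (a := (x, ‖v‖⁻¹ • v)) ⟨hx, hun v hv⟩
      exact mul_le_mul_of_nonneg_left h2 (mul_nonneg (norm_nonneg _) (norm_nonneg _))

private theorem B11_mv {X F : Type} [NormedAddCommGroup X] [NormedSpace ℝ X]
    [NormedAddCommGroup F] [NormedSpace ℝ F] (R : X → F) (S : Set X) (hS : IsOpen S)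
    (hR : ContDiffOn ℝ ∞ R S) (T : Set X) (hT : IsCompact T) (hTS : T ⊆ S) :
    ∃ M : ℝ, 0 ≤ M ∧ ∀ A : Set X, A ⊆ T → Convex ℝ A → ∀ x ∈ A, ∀ y ∈ A,
      ‖R y - R x‖ ≤ M * ‖y - x‖ := by
  have hfd : ContinuousOn (fun x => fderiv ℝ R x) S :=
    hR.continuousOn_fderiv_of_isOpen hS (by norm_cast)
  obtain ⟨M, hM⟩ := hT.exists_bound_of_continuousOn (hfd.mono hTS)
  refine ⟨|M|, abs_nonneg M, fun A hA hconv x hx y hy => ?_⟩
  have hd : ∀ z ∈ A, HasFDerivWithinAt R (fderiv ℝ R z) A z := by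
    intro z hz
    have hzS : z ∈ S := hTS (hA hz)
    have h1 : DifferentiableAt ℝ R z :=
      (hR.differentiableOn (by simp) z hzS).differentiableAt (hS.mem_nhds hzS)
    exact h1.hasFDerivAt.hasFDerivWithinAt
  have hbd : ∀ z ∈ A, ‖fderiv ℝ R z‖ ≤ |M| := fun z hz => (hM z (hA hz)).trans (le_abs_self M)
  exact hconv.norm_image_sub_le_of_norm_hasFDerivWithin_le hd hbd hx hy

/-- Row B11. Perturbation of a locally symmetric metric: the covariant derivative of the curvature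
of `G0 + s K_t` is `O(|s|)` on compact sets. PLAN. Compactness: there are `ε'` and an open `Ω'` with
`Q ⊆ Ω' ⊆ closure Ω' ⊆ Ω`, closure compact, such that `G0 + s K_t` is positive on `Ω'` for
`|s|, |t| < 2 ε'` (unit sphere times compact set). `chr_exists` with `P = ℝ × ℝ` on
`S = {|s| < 2 ε', |t| < 2 ε'} × Ω'` gives `C (s, t)`, `curv_clm` gives `R' : (ℝ × ℝ) × E → ..` of class
`C^∞`, and `R' ((0, t), y) = 0` (`kos_facts`: uniqueness for `G0`, and `hL`). So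
`‖R' ((s, t), y)‖ ≤ M |s|` for `|s|, |t| ≤ ε'`, `y ∈ Q` (mean value inequality in `s`, the derivative
of `R'` is bounded on the compact set `[-ε', ε']² × Q`). Any other `C` agrees with `C (s, t)` on `Ω'`
(`kos_facts`). -/
theorem small_dcurv {E : Type} [NormedAddCommGroup E] [NormedSpace ℝ E] [FiniteDimensional ℝ E]
    {Ω : Set E} (hΩ : IsOpen Ω) (G0 : E → E → E → ℝ) (h0 : Met G0 Ω) (hL : LSym G0 Ω) (ε : ℝ)
    (hε : 0 < ε) (K : ℝ → E → E → E → ℝ) (hb : Bil (fun x : ℝ × E => K x.1 x.2) (Ioo (-ε) ε ×ˢ Ω))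
    (hs : ∀ v w, ContDiffOn ℝ ∞ (fun x : ℝ × E => K x.1 x.2 v w) (Ioo (-ε) ε ×ˢ Ω))
    (Q : Set E) (hQ : IsCompact Q) (hQΩ : Q ⊆ Ω) :
    ∃ (ε' M : ℝ) (Ω' : Set E), 0 < ε' ∧ IsOpen Ω' ∧ Q ⊆ Ω' ∧ Ω' ⊆ Ω ∧
      ∀ s t : ℝ, |s| < ε' → |t| < ε' → Met (fun x v w => G0 x v w + s * K t x v w) Ω' ∧
        ∀ C : E → E →L[ℝ] E →L[ℝ] E, ContDiffOn ℝ ∞ C Ω' →
          Kos (fun x v w => G0 x v w + s * K t x v w) C Ω' → ∀ x ∈ Q, ∀ z u v w,
            ‖dcurv C x z u v w‖ ≤ M * |s| * (‖z‖ * ‖u‖ * ‖v‖ * ‖w‖) := by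
  obtain ⟨T, hT, hQT, hTΩ⟩ := exists_compact_between hQ hΩ hQΩ
  have hΩ'Ω : interior T ⊆ Ω := interior_subset.trans hTΩ
  obtain ⟨L0, hL0c, hL0⟩ := clm_ext (m := ∞) G0 Ω h0.bil h0.smooth
  obtain ⟨LK, hLKc, hLK⟩ := clm_ext (m := ∞) (fun x : ℝ × E => K x.1 x.2) (Ioo (-ε) ε ×ˢ Ω) hb hs
  obtain ⟨m, hm, hml⟩ := B11_low L0 T hT (hL0c.continuousOn.mono hTΩ) (fun x hx v hv => by
    rw [hL0 x (hTΩ hx)]; exact h0.pos x (hTΩ hx) v hv)
  have hcK : IsCompact (Icc (-(ε / 2)) (ε / 2) ×ˢ T) := isCompact_Icc.prod hT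
  have hsubK : Icc (-(ε / 2)) (ε / 2) ×ˢ T ⊆ Ioo (-ε) ε ×ˢ Ω := by
    rintro ⟨t, x⟩ ⟨ht, hx⟩
    refine ⟨⟨?_, ?_⟩, hTΩ hx⟩
    · have := ht.1; linarith
    · have := ht.2; linarith
  obtain ⟨B, hB⟩ := hcK.exists_bound_of_continuousOn (hLKc.continuousOn.mono hsubK)
  -- the size of the parameters
  obtain ⟨δ, hδ, hδε, hδB⟩ : ∃ δ : ℝ, 0 < δ ∧ δ ≤ ε / 2 ∧ δ * (|B| + 1) ≤ m := by
    have hB1 : 0 < |B| + 1 := by positivity
    refine ⟨min (ε / 2) (m / (|B| + 1)), lt_min (by positivity) (by positivity), min_le_left _ _, ?_⟩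
    calc min (ε / 2) (m / (|B| + 1)) * (|B| + 1) ≤ m / (|B| + 1) * (|B| + 1) :=
          mul_le_mul_of_nonneg_right (min_le_right _ _) hB1.le
      _ = m := div_mul_cancel₀ _ hB1.ne'
  have hpos : ∀ s t : ℝ, |s| < δ → |t| < δ → ∀ x ∈ interior T, ∀ v, v ≠ 0 →
      0 < G0 x v v + s * K t x v v := by
    intro s t hs' ht' x hx v hv
    have hxT : x ∈ T := interior_subset hx
    have hxΩ : x ∈ Ω := hTΩ hxT
    have htm : (t, x) ∈ Icc (-(ε / 2)) (ε / 2) ×ˢ T := by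
      have := abs_lt.1 ht'
      exact ⟨⟨by linarith, by linarith⟩, hxT⟩
    have h1 := hml x hxT v
    rw [hL0 x hxΩ] at h1
    have h2 : |K t x v v| ≤ |B| * (‖v‖ * ‖v‖) := by
      have h3 := hLK (t, x) (hsubK htm) v v
      have h4 : ‖LK (t, x) v v‖ ≤ ‖LK (t, x)‖ * ‖v‖ * ‖v‖ := (LK (t, x)).le_opNorm₂ v v
      rw [h3, Real.norm_eq_abs] at h4
      calc |K t x v v| ≤ ‖LK (t, x)‖ * ‖v‖ * ‖v‖ := h4
        _ = ‖LK (t, x)‖ * (‖v‖ * ‖v‖) := by ring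
        _ ≤ |B| * (‖v‖ * ‖v‖) := mul_le_mul_of_nonneg_right ((hB _ htm).trans (le_abs_self B))
            (mul_nonneg (norm_nonneg _) (norm_nonneg _))
    have hv0 : 0 < ‖v‖ * ‖v‖ := mul_pos (norm_pos_iff.2 hv) (norm_pos_iff.2 hv)
    have h5 : |s * K t x v v| ≤ |s| * (|B| * (‖v‖ * ‖v‖)) := by
      rw [abs_mul]; exact mul_le_mul_of_nonneg_left h2 (abs_nonneg s)
    have h6 : |s| * (|B| * (‖v‖ * ‖v‖)) ≤ δ * (|B| * (‖v‖ * ‖v‖)) :=
      mul_le_mul_of_nonneg_right hs'.le (mul_nonneg (abs_nonneg _) hv0.le)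
    have h7 : δ * (|B| * (‖v‖ * ‖v‖)) < m * (‖v‖ * ‖v‖) := by
      have h8 : δ * |B| < m := by nlinarith
      calc δ * (|B| * (‖v‖ * ‖v‖)) = (δ * |B|) * (‖v‖ * ‖v‖) := by ring
        _ < m * (‖v‖ * ‖v‖) := mul_lt_mul_of_pos_right h8 hv0
    have h9 := neg_abs_le (s * K t x v v)
    linarith
  -- the open set of the parameters
  set S : Set ((ℝ × ℝ) × E) := (Ioo (-δ) δ ×ˢ Ioo (-δ) δ) ×ˢ interior T with hSdef
  have hSo : IsOpen S := (isOpen_Ioo.prod isOpen_Ioo).prod isOpen_interior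
  have hS1 : ∀ x ∈ S, x.2 ∈ Ω := fun x hx => hΩ'Ω hx.2
  have hS2 : ∀ x ∈ S, (x.1.2, x.2) ∈ Ioo (-ε) ε ×ˢ Ω := by
    rintro ⟨⟨s, t⟩, x⟩ ⟨⟨_, ht⟩, hx⟩
    refine ⟨⟨?_, ?_⟩, hΩ'Ω hx⟩
    · have := ht.1; simp only at this ⊢; linarith
    · have := ht.2; simp only at this ⊢; linarith
  set G : (ℝ × ℝ) → E → E → E → ℝ := fun p x v w => G0 x v w + p.1 * K p.2 x v w with hGdef
  have hGb : Bil (fun x : (ℝ × ℝ) × E => G x.1 x.2) S := by
    refine ⟨fun x hx u v w => ?_, fun x hx r v w => ?_, fun x hx v w => ?_⟩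
    · have h1 := h0.bil.add x.2 (hS1 x hx) u v w
      have h2 := hb.add (x.1.2, x.2) (hS2 x hx) u v w
      simp only at h1 h2
      simp only [hGdef]
      rw [h1, h2]; ring
    · have h1 := h0.bil.smul x.2 (hS1 x hx) r v w
      have h2 := hb.smul (x.1.2, x.2) (hS2 x hx) r v w
      simp only at h1 h2
      simp only [hGdef]
      rw [h1, h2]; ring
    · have h1 := h0.bil.symm x.2 (hS1 x hx) v w
      have h2 := hb.symm (x.1.2, x.2) (hS2 x hx) v w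
      simp only at h1 h2
      simp only [hGdef]
      rw [h1, h2]
  have hGs : ∀ v w, ContDiffOn ℝ ∞ (fun x : (ℝ × ℝ) × E => G x.1 x.2 v w) S := by
    intro v w
    have h1 : ContDiffOn ℝ ∞ (fun x : (ℝ × ℝ) × E => G0 x.2 v w) S :=
      (h0.smooth v w).comp contDiff_snd.contDiffOn (fun x hx => hS1 x hx)
    have h2 : ContDiffOn ℝ ∞ (fun x : (ℝ × ℝ) × E => K x.1.2 x.2 v w) S :=
      (hs v w).comp (g := fun x : ℝ × E => K x.1 x.2 v w)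
        (f := fun x : (ℝ × ℝ) × E => (x.1.2, x.2))
        ((contDiff_fst.snd.prodMk contDiff_snd).contDiffOn) (fun x hx => hS2 x hx)
    have h3 : ContDiffOn ℝ ∞ (fun x : (ℝ × ℝ) × E => x.1.1) S := contDiff_fst.fst.contDiffOn
    exact h1.add (h3.mul h2)
  have hGp : ∀ x ∈ S, ∀ v, v ≠ 0 → 0 < G x.1 x.2 v v := by
    rintro ⟨⟨s, t⟩, x⟩ ⟨⟨hs', ht'⟩, hx⟩ v hv
    exact hpos s t (abs_lt.2 hs') (abs_lt.2 ht') x hx v hv
  obtain ⟨C, hCc, hCk⟩ := chr_exists G S hSo hGb hGs hGp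
  obtain ⟨-, R', hRc, hR⟩ := curv_clm C S hSo hCc
  have hmem : ∀ s t : ℝ, |s| < δ → |t| < δ → ∀ x ∈ interior T, ((s, t), x) ∈ S :=
    fun s t hs' ht' x hx => ⟨⟨abs_lt.1 hs', abs_lt.1 ht'⟩, hx⟩
  have hKos : ∀ s t : ℝ, |s| < δ → |t| < δ →
      Kos (fun x v w => G0 x v w + s * K t x v w) (C (s, t)) (interior T) := by
    intro s t hs' ht' x hx u v w
    exact hCk ((s, t), x) (hmem s t hs' ht' x hx) u v w
  have hMet : ∀ s t : ℝ, |s| < δ → |t| < δ →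
      Met (fun x v w => G0 x v w + s * K t x v w) (interior T) := by
    intro s t hs' ht'
    refine ⟨⟨fun x hx u v w => ?_, fun x hx r v w => ?_, fun x hx v w => ?_⟩, fun v w => ?_,
      fun x hx v hv => hpos s t hs' ht' x hx v hv⟩
    · exact hGb.add ((s, t), x) (hmem s t hs' ht' x hx) u v w
    · exact hGb.smul ((s, t), x) (hmem s t hs' ht' x hx) r v w
    · exact hGb.symm ((s, t), x) (hmem s t hs' ht' x hx) v w
    · exact (hGs v w).comp (g := fun x : (ℝ × ℝ) × E => G x.1 x.2 v w)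
        (f := fun x : E => ((s, t), x))
        ((contDiff_const.prodMk contDiff_id).contDiffOn) (fun x hx => hmem s t hs' ht' x hx)
  -- vanishing at `s = 0`
  obtain ⟨C0, -, hC0k, hC0z⟩ := hL
  have hzero : ∀ t : ℝ, |t| < δ → ∀ x ∈ interior T, R' ((0, t), x) = 0 := by
    intro t ht' x hx
    have h00 : |(0 : ℝ)| < δ := by rw [abs_zero]; exact hδ
    have hk : Kos G0 (C (0, t)) (interior T) := by
      have h1 := hKos 0 t h00 ht'
      have h2 : (fun x v w => G0 x v w + 0 * K t x v w) = G0 := by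
        funext x v w; ring
      rwa [h2] at h1
    have hm0 : Met G0 (interior T) :=
      ⟨⟨fun x hx => h0.bil.add x (hΩ'Ω hx), fun x hx => h0.bil.smul x (hΩ'Ω hx),
        fun x hx => h0.bil.symm x (hΩ'Ω hx)⟩, fun v w => (h0.smooth v w).mono hΩ'Ω,
        fun x hx => h0.pos x (hΩ'Ω hx)⟩
    have hk0 : Kos G0 C0 (interior T) := fun y hy => hC0k y (hΩ'Ω hy)
    have hf := kos_facts (E := E) (Ω := interior T) isOpen_interior
    have he : ∀ y ∈ interior T, C (0, t) y = C0 y := hf.1 G0 _ _ hm0 hk hk0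
    ext z u v w
    rw [← hR ((0, t), x) (hmem 0 t h00 ht' x hx) z u v w]
    have h3 := (hf.2.2.2.2 (C (0, t)) C0 he x hx z u v w).2
    simp only
    rw [h3, hC0z x (hΩ'Ω hx)]
    simp
  -- the bound
  have hδ2 : 0 < δ / 2 := half_pos hδ
  have hcT : IsCompact ((Icc (-(δ / 2)) (δ / 2) ×ˢ Icc (-(δ / 2)) (δ / 2)) ×ˢ Q) :=
    (isCompact_Icc.prod isCompact_Icc).prod hQ
  have hsubT : (Icc (-(δ / 2)) (δ / 2) ×ˢ Icc (-(δ / 2)) (δ / 2)) ×ˢ Q ⊆ S := by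
    rintro ⟨⟨s, t⟩, x⟩ ⟨⟨hs', ht'⟩, hx⟩
    have h1 := hs'.1
    have h2 := hs'.2
    have h3 := ht'.1
    have h4 := ht'.2
    simp only at h1 h2 h3 h4
    exact ⟨⟨⟨by simp only; linarith, by simp only; linarith⟩,
      ⟨by simp only; linarith, by simp only; linarith⟩⟩, hQT hx⟩
  obtain ⟨M, hM0, hM⟩ := B11_mv R' S hSo hRc _ hcT hsubT
  refine ⟨δ / 2, M, interior T, hδ2, isOpen_interior, hQT, hΩ'Ω, fun s t hs' ht' => ?_⟩
  have hsδ : |s| < δ := by linarith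
  have htδ : |t| < δ := by linarith
  refine ⟨hMet s t hsδ htδ, fun C' _ hC'k x hx z u v w => ?_⟩
  have hxT : x ∈ interior T := hQT hx
  have hf := kos_facts (E := E) (Ω := interior T) isOpen_interior
  have he : ∀ y ∈ interior T, C' y = C (s, t) y :=
    hf.1 _ _ _ (hMet s t hsδ htδ) hC'k (hKos s t hsδ htδ)
  rw [(hf.2.2.2.2 C' (C (s, t)) he x hxT z u v w).2,
    hR ((s, t), x) (hmem s t hsδ htδ x hxT) z u v w]
  -- mean value inequality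
  have hmv : ‖R' ((s, t), x)‖ ≤ M * |s| := by
    have hconv : Convex ℝ ((Icc (-(δ / 2)) (δ / 2) ×ˢ ({t} : Set ℝ)) ×ˢ ({x} : Set E)) :=
      ((convex_Icc _ _).prod (convex_singleton _)).prod (convex_singleton _)
    have hsub : ((Icc (-(δ / 2)) (δ / 2) ×ˢ ({t} : Set ℝ)) ×ˢ ({x} : Set E)) ⊆
        (Icc (-(δ / 2)) (δ / 2) ×ˢ Icc (-(δ / 2)) (δ / 2)) ×ˢ Q := by
      rintro ⟨⟨s', t'⟩, x'⟩ ⟨⟨h1, h2⟩, h3⟩
      simp only [mem_singleton_iff] at h2 h3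
      subst h2 h3
      have := abs_lt.1 ht'
      exact ⟨⟨h1, ⟨by simp only; linarith, by simp only; linarith⟩⟩, hx⟩
    have hs1 := abs_lt.1 hs'
    have hx0 : ((0, t), x) ∈ ((Icc (-(δ / 2)) (δ / 2) ×ˢ ({t} : Set ℝ)) ×ˢ ({x} : Set E)) :=
      ⟨⟨⟨by simp only; linarith, by simp only; linarith⟩, rfl⟩, rfl⟩
    have hxs : ((s, t), x) ∈ ((Icc (-(δ / 2)) (δ / 2) ×ˢ ({t} : Set ℝ)) ×ˢ ({x} : Set E)) :=
      ⟨⟨⟨by simp only; linarith, by simp only; linarith⟩, rfl⟩, rfl⟩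
    have h1 := hM _ hsub hconv _ hx0 _ hxs
    rw [hzero t htδ x hxT, sub_zero] at h1
    have h2 : ‖(((s, t), x) : (ℝ × ℝ) × E) - ((0, t), x)‖ = |s| := by
      simp [Prod.norm_def]
    rwa [h2] at h1
  calc ‖R' ((s, t), x) z u v w‖ ≤ ‖R' ((s, t), x) z u v‖ * ‖w‖ := ContinuousLinearMap.le_opNorm _ _
    _ ≤ (‖R' ((s, t), x) z u‖ * ‖v‖) * ‖w‖ :=
        mul_le_mul_of_nonneg_right (ContinuousLinearMap.le_opNorm _ _) (norm_nonneg _)
    _ ≤ ((‖R' ((s, t), x) z‖ * ‖u‖) * ‖v‖) * ‖w‖ := by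
        gcongr
        exact ContinuousLinearMap.le_opNorm _ _
    _ ≤ (((‖R' ((s, t), x)‖ * ‖z‖) * ‖u‖) * ‖v‖) * ‖w‖ := by
        gcongr
        exact ContinuousLinearMap.le_opNorm _ _
    _ ≤ ((((M * |s|) * ‖z‖) * ‖u‖) * ‖v‖) * ‖w‖ := by
        gcongr
    _ = M * |s| * (‖z‖ * ‖u‖ * ‖v‖ * ‖w‖) := by ring

end NS38
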