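import Pool.Agent.LibNS38.B0

set_option autoImplicit false
set_option maxSynthPendingDepth 3

open Topology Filter Set
open scoped ContDiff

namespace NS38

private theorem B13a_partial {E : Type} [NormedAddCommGroup E] [NormedSpace ℝ E]
    {Ω : Set E} (hΩ : IsOpen Ω) (ε : ℝ) (Φ : ℝ → E → E)
    (hΦ : ContDiffOn ℝ ∞ (fun y : ℝ × E => Φ y.1 y.2) (Ioo (-ε) ε ×ˢ Ω))
    (q : ℝ × E) (hq : q ∈ Ioo (-ε) ε ×ˢ Ω) :
    HasFDerivAt (Φ q.1)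
      ((fderiv ℝ (fun y : ℝ × E => Φ y.1 y.2) q).comp (ContinuousLinearMap.inr ℝ ℝ E)) q.2 := by
  have hU : IsOpen (Ioo (-ε) ε ×ˢ Ω) := isOpen_Ioo.prod hΩ
  have h1 : ContDiffAt ℝ ∞ (fun y : ℝ × E => Φ y.1 y.2) q := hΦ.contDiffAt (hU.mem_nhds hq)
  have h2 : HasFDerivAt (fun y : ℝ × E => Φ y.1 y.2)
      (fderiv ℝ (fun y : ℝ × E => Φ y.1 y.2) q) (q.1, q.2) :=
    (h1.differentiableAt (by simp)).hasFDerivAt
  have h3 : HasFDerivAt (fun y : E => ((q.1, y) : ℝ × E)) (ContinuousLinearMap.inr ℝ ℝ E) q.2 :=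
    hasFDerivAt_prodMk_right q.1 q.2
  exact h2.comp q.2 h3

/-- Row B13a. PLAN. The partial derivative `(t, y) ↦ fderiv ℝ (Φ t) y =
(fderiv ℝ (fun q => Φ q.1 q.2) (t, y)).comp (inr)` is continuous on `(-ε, ε) × Ω` and is the identity at
`t = 0` (`Φ 0 = id` near `y`); tube lemma with the compact set `{0} × Q`. -/
theorem near_one {E : Type} [NormedAddCommGroup E] [NormedSpace ℝ E]
    {Ω : Set E} (hΩ : IsOpen Ω) (ε : ℝ) (hε : 0 < ε) (Φ : ℝ → E → E)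
    (hΦ : ContDiffOn ℝ ∞ (fun y : ℝ × E => Φ y.1 y.2) (Ioo (-ε) ε ×ˢ Ω))
    (h0 : ∀ y ∈ Ω, Φ 0 y = y) (Q : Set E) (hQ : IsCompact Q) (hQΩ : Q ⊆ Ω) :
    ∃ δ : ℝ, 0 < δ ∧ δ ≤ ε ∧ ∀ t, |t| < δ → ∀ y ∈ Q, ∀ w,
      ‖fderiv ℝ (Φ t) y w - w‖ ≤ 1 / 2 * ‖w‖ := by
  have hU : IsOpen (Ioo (-ε) ε ×ˢ Ω) := isOpen_Ioo.prod hΩ
  have hpart := B13a_partial hΩ ε Φ hΦ
  have hc1 : ContinuousOn (fderiv ℝ (fun y : ℝ × E => Φ y.1 y.2)) (Ioo (-ε) ε ×ˢ Ω) :=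
    hΦ.continuousOn_fderiv_of_isOpen hU (by simp)
  have hc2 : ContinuousOn (fun q : ℝ × E =>
      (fderiv ℝ (fun y : ℝ × E => Φ y.1 y.2) q).comp (ContinuousLinearMap.inr ℝ ℝ E))
      (Ioo (-ε) ε ×ˢ Ω) := hc1.clm_comp continuousOn_const
  have hc3 : ContinuousOn (fun q : ℝ × E =>
      ‖(fderiv ℝ (fun y : ℝ × E => Φ y.1 y.2) q).comp (ContinuousLinearMap.inr ℝ ℝ E)
        - ContinuousLinearMap.id ℝ E‖) (Ioo (-ε) ε ×ˢ Ω) :=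
    (hc2.sub continuousOn_const).norm
  have hV : IsOpen ((Ioo (-ε) ε ×ˢ Ω) ∩ (fun q : ℝ × E =>
      ‖(fderiv ℝ (fun y : ℝ × E => Φ y.1 y.2) q).comp (ContinuousLinearMap.inr ℝ ℝ E)
        - ContinuousLinearMap.id ℝ E‖) ⁻¹' Iio (1 / 2)) :=
    hc3.isOpen_inter_preimage hU isOpen_Iio
  have hsub : ({(0 : ℝ)} : Set ℝ) ×ˢ Q ⊆ (Ioo (-ε) ε ×ˢ Ω) ∩ (fun q : ℝ × E =>
      ‖(fderiv ℝ (fun y : ℝ × E => Φ y.1 y.2) q).comp (ContinuousLinearMap.inr ℝ ℝ E)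
        - ContinuousLinearMap.id ℝ E‖) ⁻¹' Iio (1 / 2) := by
    rintro ⟨t, y⟩ ⟨ht, hy⟩
    have ht0 : t = 0 := ht
    subst ht0
    have hyΩ : y ∈ Ω := hQΩ hy
    have hmem : ((0 : ℝ), y) ∈ Ioo (-ε) ε ×ˢ Ω := ⟨⟨by linarith, hε⟩, hyΩ⟩
    refine ⟨hmem, ?_⟩
    have h1 := hpart (0, y) hmem
    have h2 : HasFDerivAt (Φ 0) (ContinuousLinearMap.id ℝ E) y := by
      refine (hasFDerivAt_id y).congr_of_eventuallyEq ?_
      filter_upwards [hΩ.mem_nhds hyΩ] with z hz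
      exact h0 z hz
    have h3 : (fderiv ℝ (fun y : ℝ × E => Φ y.1 y.2) ((0 : ℝ), y)).comp
        (ContinuousLinearMap.inr ℝ ℝ E) = ContinuousLinearMap.id ℝ E := h1.unique h2
    show ‖(fderiv ℝ (fun y : ℝ × E => Φ y.1 y.2) ((0 : ℝ), y)).comp
        (ContinuousLinearMap.inr ℝ ℝ E) - ContinuousLinearMap.id ℝ E‖ < 1 / 2
    rw [h3, sub_self, norm_zero]
    norm_num
  obtain ⟨u, v, hu, hv, hsu, htv, huv⟩ :=
    generalized_tube_lemma (isCompact_singleton (x := (0 : ℝ))) hQ hV hsub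
  have h0u : (0 : ℝ) ∈ u := hsu rfl
  obtain ⟨η, hη, hball⟩ := Metric.isOpen_iff.1 hu 0 h0u
  refine ⟨min η ε, lt_min hη hε, min_le_right _ _, ?_⟩
  intro t ht y hy w
  have htu : t ∈ u := by
    apply hball
    rw [Metric.mem_ball, Real.dist_eq, sub_zero]
    exact lt_of_lt_of_le ht (min_le_left _ _)
  have hm := huv (show (t, y) ∈ u ×ˢ v from ⟨htu, htv hy⟩)
  have h1 := hpart (t, y) hm.1
  have h4 : ‖(fderiv ℝ (fun y : ℝ × E => Φ y.1 y.2) (t, y)).comp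
        (ContinuousLinearMap.inr ℝ ℝ E) - ContinuousLinearMap.id ℝ E‖ < 1 / 2 := hm.2
  have h5 : fderiv ℝ (Φ t) y = (fderiv ℝ (fun y : ℝ × E => Φ y.1 y.2) (t, y)).comp
        (ContinuousLinearMap.inr ℝ ℝ E) := h1.fderiv
  rw [h5]
  have h6 := ((fderiv ℝ (fun y : ℝ × E => Φ y.1 y.2) (t, y)).comp
        (ContinuousLinearMap.inr ℝ ℝ E) - ContinuousLinearMap.id ℝ E).le_opNorm w
  have h7 : ((fderiv ℝ (fun y : ℝ × E => Φ y.1 y.2) (t, y)).comp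
        (ContinuousLinearMap.inr ℝ ℝ E) - ContinuousLinearMap.id ℝ E) w =
      ((fderiv ℝ (fun y : ℝ × E => Φ y.1 y.2) (t, y)).comp
        (ContinuousLinearMap.inr ℝ ℝ E)) w - w := rfl
  rw [h7] at h6
  exact h6.trans (mul_le_mul_of_nonneg_right h4.le (norm_nonneg _))

end NS38
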