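import Pool.Agent.LibNS38.B8
import Pool.Agent.LibNS38.B11
import Pool.Agent.LibNS38.B13a

set_option autoImplicit false
set_option maxSynthPendingDepth 3

open Topology Filter Set
open scoped ContDiff

namespace NS38

/-- the path `H` is, up to diffeomorphisms `Φ t` and constants `c t`, equal to `H 0` to order `N` at
`t = 0+` (the point `x` is reached from the compact set `Q`) -/
def GaugeP {E : Type} [NormedAddCommGroup E] [NormedSpace ℝ E] (H : ℝ → E → E → E → ℝ)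
    (Ω Q : Set E) (x : E) (N : ℕ) : Prop :=
  ∃ (ε : ℝ) (Φ : ℝ → E → E) (c : ℝ → ℝ) (K : ℝ → E → E → E → ℝ), 0 < ε ∧
    ContDiffOn ℝ ∞ (fun y : ℝ × E => Φ y.1 y.2) (Ioo (-ε) ε ×ˢ Ω) ∧ (∀ y ∈ Ω, Φ 0 y = y) ∧
    Bil (fun y : ℝ × E => K y.1 y.2) (Ioo (-ε) ε ×ˢ Ω) ∧
    (∀ v w, ContDiffOn ℝ ∞ (fun y : ℝ × E => K y.1 y.2 v w) (Ioo (-ε) ε ×ˢ Ω)) ∧
    ∀ t ∈ Ioo (0 : ℝ) ε, 0 < c t ∧ (∃ y ∈ Q, Φ t y = x) ∧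
      (∀ y ∈ Ω, Φ t y ∈ Ω ∧ Function.Surjective (fderiv ℝ (Φ t) y)) ∧
      ∀ y ∈ Ω, ∀ v w, H t (Φ t y) (fderiv ℝ (Φ t) y v) (fderiv ℝ (Φ t) y w) =
        c t * (H 0 y v w + t ^ N * K t y v w)

private theorem C13b_slice {E : Type} [NormedAddCommGroup E] [NormedSpace ℝ E]
    {Ω Ω' : Set E} (hΩ'Ω : Ω' ⊆ Ω) (ε : ℝ) (Φ : ℝ → E → E)
    (hΦ : ContDiffOn ℝ ∞ (fun y : ℝ × E => Φ y.1 y.2) (Ioo (-ε) ε ×ˢ Ω)) (t : ℝ)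
    (ht : t ∈ Ioo (-ε) ε) : ContDiffOn ℝ ∞ (Φ t) Ω' := by
  have h1 : ContDiff ℝ ∞ (fun y : E => ((t, y) : ℝ × E)) := contDiff_const.prodMk contDiff_id
  have h2 := hΦ.comp (s := Ω') h1.contDiffOn (fun y hy => Set.mk_mem_prod ht (hΩ'Ω hy))
  exact h2

private theorem C13b_norm {E : Type} [NormedAddCommGroup E] (a b : E)
    (h : ‖a - b‖ ≤ 1 / 2 * ‖b‖) : ‖b‖ ≤ 2 * ‖a‖ ∧ ‖a‖ ≤ 2 * ‖b‖ := by
  have h1 : ‖b‖ ≤ ‖a‖ + ‖a - b‖ := by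
    have h2 : b = a - (a - b) := by abel
    calc ‖b‖ = ‖a - (a - b)‖ := by rw [← h2]
      _ ≤ ‖a‖ + ‖a - b‖ := norm_sub_le _ _
  have h3 : ‖a‖ ≤ ‖b‖ + ‖a - b‖ := by
    have h2 : a = b + (a - b) := by abel
    calc ‖a‖ = ‖b + (a - b)‖ := by rw [← h2]
      _ ≤ ‖b‖ + ‖a - b‖ := norm_add_le _ _
  have h4 := norm_nonneg b
  constructor <;> linarith

/-- Row C13b. The bound at order `N` along the path. -/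
theorem path_bound {E : Type} [NormedAddCommGroup E] [NormedSpace ℝ E] [FiniteDimensional ℝ E]
    {Ω : Set E} (hΩ : IsOpen Ω) (H : ℝ → E → E → E → ℝ)
    (hm : ∀ t ∈ Icc (0 : ℝ) 1, Met (H t) Ω) (hL : LSym (H 0) Ω)
    (Q : Set E) (hQ : IsCompact Q) (hQΩ : Q ⊆ Ω) (x : E) (N : ℕ)
    (hN1 : 1 ≤ N) (hN : GaugeP H Ω Q x N) :
    ∃ M ε : ℝ, 0 < ε ∧ ∀ t ∈ Ioo (0 : ℝ) ε, ∀ C : E → E →L[ℝ] E →L[ℝ] E, ContDiffOn ℝ ∞ C Ω →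
      Kos (H t) C Ω → ∀ z u v w,
        ‖dcurv C x z u v w‖ ≤ M * t ^ N * (‖z‖ * ‖u‖ * ‖v‖ * ‖w‖) := by
  obtain ⟨ε, Φ, c, K, hε, hΦ, hΦ0, hKb, hKs, HH⟩ := hN
  obtain ⟨ε', M, Ω', hε', hΩ'o, hQΩ', hΩ'Ω, hsd⟩ :=
    small_dcurv hΩ (H 0) (hm 0 ⟨le_rfl, zero_le_one⟩) hL ε hε K hKb hKs Q hQ hQΩ
  obtain ⟨δ, hδ0, hδε, hnear⟩ := near_one hΩ ε hε Φ hΦ hΦ0 Q hQ hQΩ
  refine ⟨32 * |M|, min (min δ ε') 1, lt_min (lt_min hδ0 hε') one_pos, ?_⟩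
  intro t ht C hC hK z u v w
  have ht0 : 0 < t := ht.1
  have ht1 : t < 1 := lt_of_lt_of_le ht.2 (min_le_right _ _)
  have htδ : t < δ := lt_of_lt_of_le ht.2 ((min_le_left _ _).trans (min_le_left _ _))
  have htε' : t < ε' := lt_of_lt_of_le ht.2 ((min_le_left _ _).trans (min_le_right _ _))
  have htε : t < ε := lt_of_lt_of_le htδ hδε
  have htN0 : 0 < t ^ N := pow_pos ht0 N
  have htN : t ^ N ≤ t := by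
    calc t ^ N ≤ t ^ 1 := pow_le_pow_of_le_one ht0.le ht1.le hN1
      _ = t := pow_one t
  obtain ⟨hc, ⟨y, hyQ, hyx⟩, hmap, hlaw⟩ := HH t ⟨ht0, htε⟩
  have habs1 : |t ^ N| < ε' := by rw [abs_of_pos htN0]; linarith
  have habs2 : |t| < ε' := by rw [abs_of_pos ht0]; exact htε'
  obtain ⟨hMet', hbd⟩ := hsd (t ^ N) t habs1 habs2
  obtain ⟨C', hC', hK'⟩ := (kos_facts hΩ'o).2.2.2.1 _ hMet'
  have hMett := hm t ⟨ht0.le, ht1.le⟩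
  have hφ : ContDiffOn ℝ ∞ (Φ t) Ω' :=
    C13b_slice hΩ'Ω ε Φ hΦ t ⟨by linarith, htε⟩
  have hnat := nat_dcurv hΩ hΩ'o hMett hMet' (Φ t) hφ (fun p hp => (hmap p (hΩ'Ω hp)).1)
    (fun p hp => (hmap p (hΩ'Ω hp)).2) (c t) hc
    (fun p hp v w => hlaw p (hΩ'Ω hp) v w) C C' hC hC' hK hK'
  have hsur := (hmap y (hQΩ hyQ)).2
  obtain ⟨z', hz⟩ := hsur z
  obtain ⟨u', hu⟩ := hsur u
  obtain ⟨v', hv⟩ := hsur v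
  obtain ⟨w', hw⟩ := hsur w
  have habs3 : |t| < δ := by rw [abs_of_pos ht0]; exact htδ
  have nz := (C13b_norm _ _ (hnear t habs3 y hyQ z')).1
  have nu := (C13b_norm _ _ (hnear t habs3 y hyQ u')).1
  have nv := (C13b_norm _ _ (hnear t habs3 y hyQ v')).1
  have nw := (C13b_norm _ _ (hnear t habs3 y hyQ w')).1
  rw [hz] at nz
  rw [hu] at nu
  rw [hv] at nv
  rw [hw] at nw
  have e1 := hnat y (hQΩ' hyQ) z' u' v' w'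
  rw [hz, hu, hv, hw, hyx] at e1
  have b1 := hbd C' hC' hK' y hyQ z' u' v' w'
  have b2 := (C13b_norm _ _ (hnear t habs3 y hyQ (dcurv C' y z' u' v' w'))).2
  rw [e1] at b2
  have hprod : ‖z'‖ * ‖u'‖ * ‖v'‖ * ‖w'‖ ≤ (2 * ‖z‖) * (2 * ‖u‖) * (2 * ‖v‖) * (2 * ‖w‖) := by
    gcongr
  have b3 : M * |t ^ N| * (‖z'‖ * ‖u'‖ * ‖v'‖ * ‖w'‖) ≤
      |M| * t ^ N * ((2 * ‖z‖) * (2 * ‖u‖) * (2 * ‖v‖) * (2 * ‖w‖)) := by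
    rw [abs_of_pos htN0]
    have hM : M ≤ |M| := le_abs_self M
    have hMn : 0 ≤ |M| := abs_nonneg M
    have hP : 0 ≤ ‖z'‖ * ‖u'‖ * ‖v'‖ * ‖w'‖ := by positivity
    calc M * t ^ N * (‖z'‖ * ‖u'‖ * ‖v'‖ * ‖w'‖)
        ≤ |M| * t ^ N * (‖z'‖ * ‖u'‖ * ‖v'‖ * ‖w'‖) := by gcongr
      _ ≤ |M| * t ^ N * ((2 * ‖z‖) * (2 * ‖u‖) * (2 * ‖v‖) * (2 * ‖w‖)) := by gcongr
  calc ‖dcurv C x z u v w‖ ≤ 2 * ‖dcurv C' y z' u' v' w'‖ := b2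
    _ ≤ 2 * (|M| * t ^ N * ((2 * ‖z‖) * (2 * ‖u‖) * (2 * ‖v‖) * (2 * ‖w‖))) := by
        have := b1.trans b3
        linarith
    _ = 32 * |M| * t ^ N * (‖z‖ * ‖u‖ * ‖v‖ * ‖w‖) := by ring

end NS38
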