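import Pool.Agent.LibNS38.C10
import Pool.Agent.LibNS38.B12
import Pool.Agent.LibNS38.C13b

set_option autoImplicit false
set_option maxSynthPendingDepth 3

open Topology Filter Set
open scoped ContDiff

namespace NS38

section aux

variable {E : Type} [NormedAddCommGroup E] [NormedSpace ℝ E]

private theorem C13_metr {G : E → E → E → ℝ} {S T : Set E} (h : Met G S) (hT : T ⊆ S) :
    Met G T where
  bil := ⟨fun x hx => h.bil.add x (hT hx), fun x hx => h.bil.smul x (hT hx),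
    fun x hx => h.bil.symm x (hT hx)⟩
  smooth := fun v w => (h.smooth v w).mono hT
  pos := fun x hx => h.pos x (hT hx)

private theorem C13_kosr {G : E → E → E → ℝ} {C : E → E →L[ℝ] E →L[ℝ] E} {S T : Set E}
    (h : Kos G C S) (hT : T ⊆ S) : Kos G C T := fun x hx => h x (hT hx)

end aux

/-- Row C13 (assembly). Let `H t = ∑ i, a i t * G i`, `a i` analytic on `J0 ⊇ [0, 1]`, be metrics on
`Ω` for `0 ≤ t ≤ 1`, `H 0` locally symmetric, and let the path be trivial to all orders at `t = 0+` in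
the sense of `GaugeP`, at the point `x`. Then the covariant derivative of the curvature of `H t` at `x`
vanishes for all `0 ≤ t ≤ 1`. -/
theorem path_final {E : Type} [NormedAddCommGroup E] [NormedSpace ℝ E] [FiniteDimensional ℝ E]
    {Ω : Set E} (hΩ : IsOpen Ω) {D : ℕ} (a : Fin D → ℝ → ℝ) (G : Fin D → E → E → E → ℝ)
    (hb : ∀ i, Bil (G i) Ω) (hs : ∀ i v w, ContDiffOn ℝ ∞ (fun x => G i x v w) Ω)
    (J0 : Set ℝ) (hJ0 : IsOpen J0) (hI : Icc 0 1 ⊆ J0) (ha : ∀ i, AnalyticOnNhd ℝ (a i) J0)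
    (hm : ∀ t ∈ Icc (0 : ℝ) 1, Met (fun x v w => ∑ i, a i t * G i x v w) Ω)
    (hL : LSym (fun x v w => ∑ i, a i 0 * G i x v w) Ω)
    (Q : Set E) (hQ : IsCompact Q) (hQΩ : Q ⊆ Ω) (x : E) (hx : x ∈ Ω)
    (hN : ∀ N : ℕ, 1 ≤ N → GaugeP (fun t x v w => ∑ i, a i t * G i x v w) Ω Q x N) :
    ∀ t ∈ Icc (0 : ℝ) 1, ∀ C : E → E →L[ℝ] E →L[ℝ] E, ContDiffOn ℝ ∞ C Ω →
      Kos (fun x v w => ∑ i, a i t * G i x v w) C Ω → ∀ z u v w, dcurv C x z u v w = 0 := by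
  have hm' : ∀ t ∈ Icc (0 : ℝ) 1, Met (pth a G t) Ω := hm
  intro t1 ht1 C hC hK z u v w
  obtain ⟨J, Ωx, Cx, hJo, hJp, hJ01, hΩxo, hxΩx, hΩxΩ, hCx, hAn⟩ :=
    path_analytic hΩ a G hb hs J0 hJ0 hI ha hm' x hx z u v w
  have hflat : ∀ N : ℕ, ∃ M ε : ℝ, 0 < ε ∧ ∀ t ∈ Ioo (0 : ℝ) ε,
      ‖dcurv (Cx t) x z u v w‖ ≤ M * t ^ N := by
    intro N
    obtain ⟨M, ε, hε, hbd⟩ := path_bound hΩ (fun t x v w => ∑ i, a i t * G i x v w) hm hL Q hQ hQΩ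
      x (N + 1) (by omega) (hN (N + 1) (by omega))
    refine ⟨|M| * (‖z‖ * ‖u‖ * ‖v‖ * ‖w‖), min ε 1, lt_min hε one_pos, ?_⟩
    intro t ht
    have ht0 : 0 < t := ht.1
    have htε : t < ε := lt_of_lt_of_le ht.2 (min_le_left _ _)
    have ht1 : t < 1 := lt_of_lt_of_le ht.2 (min_le_right _ _)
    have hmet := hm' t ⟨ht0.le, ht1.le⟩
    obtain ⟨Ct, hCt, hKt⟩ := (kos_facts hΩ).2.2.2.1 _ hmet
    have htJ : t ∈ J := hJ01 ⟨ht0.le, ht1.le⟩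
    have huniq := (kos_facts hΩxo).1 _ (Cx t) Ct (C13_metr hmet hΩxΩ) (hCx t htJ).2
      (C13_kosr hKt hΩxΩ)
    have hloc := ((kos_facts hΩxo).2.2.2.2 (Cx t) Ct huniq x hxΩx z u v w).2
    have hb1 := hbd t ⟨ht0, htε⟩ Ct hCt hKt z u v w
    rw [hloc]
    refine hb1.trans ?_
    have hp : 0 ≤ ‖z‖ * ‖u‖ * ‖v‖ * ‖w‖ := by positivity
    have hM : M * t ^ (N + 1) ≤ |M| * t ^ N := by
      have h2 : M * t ^ (N + 1) ≤ |M| * t ^ (N + 1) :=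
        mul_le_mul_of_nonneg_right (le_abs_self M) (by positivity)
      have h3 : |M| * t ^ (N + 1) ≤ |M| * t ^ N := by
        refine mul_le_mul_of_nonneg_left ?_ (abs_nonneg M)
        exact pow_le_pow_of_le_one ht0.le ht1.le (Nat.le_succ N)
      exact h2.trans h3
    calc M * t ^ (N + 1) * (‖z‖ * ‖u‖ * ‖v‖ * ‖w‖)
        ≤ |M| * t ^ N * (‖z‖ * ‖u‖ * ‖v‖ * ‖w‖) := mul_le_mul_of_nonneg_right hM hp
      _ = |M| * (‖z‖ * ‖u‖ * ‖v‖ * ‖w‖) * t ^ N := by ring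
  have h1J : t1 ∈ J := hJ01 ht1
  have hz := flat_zero (fun t => dcurv (Cx t) x z u v w) J hJp (hJ01 ⟨le_rfl, zero_le_one⟩) hAn
    hflat t1 h1J
  have hz' : dcurv (Cx t1) x z u v w = 0 := hz
  have huniq := (kos_facts hΩxo).1 (pth a G t1) C (Cx t1) (C13_metr (hm' t1 ht1) hΩxΩ)
    (C13_kosr hK hΩxΩ) (hCx t1 h1J).2
  have hloc := ((kos_facts hΩxo).2.2.2.2 C (Cx t1) huniq x hxΩx z u v w).2
  rw [hloc, hz']

end NS38
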