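import Pool.Agent.LibNS38.V4a

set_option autoImplicit false
set_option maxSynthPendingDepth 3

open Matrix MeasureTheory Topology Filter
open scoped Matrix.Norms.Elementwise ContDiff

namespace LibNC38

private theorem V4_pow {ε ε' : ℝ} {N : ℕ} (hN : 1 ≤ N) (h1 : ε' ≤ 1) (h2 : ε' ≤ ε) {t : ℝ}
    (ht : t ∈ Set.Ioo (-ε') ε') : t ^ N ∈ Set.Ioo (-ε) ε := by
  have h3 : |t| < ε' := abs_lt.2 ht
  have h4 : |t ^ N| ≤ |t| := by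
    rw [abs_pow]
    calc |t| ^ N ≤ |t| ^ 1 := pow_le_pow_of_le_one (abs_nonneg t) (h3.le.trans h1) hN
      _ = |t| := pow_one _
  exact abs_lt.1 (h4.trans_lt (h3.trans_le h2))

private theorem V4_map {n : ℕ} {ε ε' : ℝ} {N : ℕ} (hN : 1 ≤ N) (h1 : ε' ≤ 1) (h2 : ε' ≤ ε) :
    Set.MapsTo (fun x : ℝ × Mt n => (x.1 ^ N, x.2)) (Set.Ioo (-ε') ε' ×ˢ PU n)
      (Set.Ioo (-ε) ε ×ˢ PU n) := fun _ hx => ⟨V4_pow hN h1 h2 hx.1, hx.2⟩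

private theorem V4_sm {n : ℕ} {N : ℕ} {S : Set (ℝ × Mt n)} :
    ContDiffOn ℝ ∞ (fun x : ℝ × Mt n => (x.1 ^ N, x.2)) S :=
  ((contDiff_fst.pow N).prodMk contDiff_snd).contDiffOn

private theorem V4_pr {n : ℕ} {ε : ℝ} {a : ℝ → ℝ} (ha : ContDiffOn ℝ ∞ a (Set.Ioo (-ε) ε)) :
    ContDiffOn ℝ ∞ (fun x : ℝ × Mt n => a x.1) (Set.Ioo (-ε) ε ×ˢ PU n) :=
  ha.comp contDiff_fst.contDiffOn fun _ hx => hx.1

private theorem V4_slice {n : ℕ} {t : ℝ} {S : Set (Mt n)} :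
    ContDiffOn ℝ ∞ (fun A : Mt n => ((t, A) : ℝ × Mt n)) S :=
  (contDiff_const.prodMk contDiff_id).contDiffOn

/-- Row V4. Operations on smooth families. PLAN. (1) reparametrization `t ↦ t ^ N` (for `|t| < ε' ≤ 1`,
`|t ^ N| ≤ |t| < ε`). (2) linear combinations with smooth coefficients. (3) `gF` is smooth:
`gF (ret A) v w = tr ((ret A).1⁻¹ v ((ret A).1⁻¹ w))` with `cd_inv` (`det = 1`). (4) restriction.
(5) members of smooth families. -/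
theorem smF_facts {n : ℕ} :
    (∀ (ε ε' : ℝ) (N : ℕ), 1 ≤ N → ε' ≤ 1 → ε' ≤ ε → (∀ K : ℝ → PD n → Fm n, SmF ε K →
      SmF ε' (fun t => K (t ^ N))) ∧ ∀ Ψ : ℝ → PD n → PD n, SmM ε Ψ → SmM ε' (fun t => Ψ (t ^ N))) ∧
    (∀ (ε : ℝ) (a b : ℝ → ℝ) (K L : ℝ → PD n → Fm n), ContDiffOn ℝ ∞ a (Set.Ioo (-ε) ε) →
      ContDiffOn ℝ ∞ b (Set.Ioo (-ε) ε) → SmF ε K → SmF ε L →
      SmF ε (fun t p => a t • K t p + b t • L t p)) ∧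
    (∀ ε : ℝ, SmF ε (fun _ => (gF : PD n → Fm n))) ∧
    (∀ (ε ε' : ℝ) (K : ℝ → PD n → Fm n) (Ψ : ℝ → PD n → PD n), ε' ≤ ε →
      (SmF ε K → SmF ε' K) ∧ (SmM ε Ψ → SmM ε' Ψ)) ∧
    (∀ (ε t : ℝ) (K : ℝ → PD n → Fm n) (Ψ : ℝ → PD n → PD n), t ∈ Set.Ioo (-ε) ε →
      (SmF ε K → ∀ v w, ContDiffOn ℝ ∞ (fun A : Mt n => K t (ret A) v w) (PU n)) ∧
      (SmM ε Ψ → SmX (Ψ t))) := by
  refine ⟨fun ε ε' N hN h1 h2 => ⟨fun K hK v w => ?_, fun Ψ hΨ => ?_⟩,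
    fun ε a b K L ha hb hK hL v w => ?_, fun ε v w => ?_,
    fun ε ε' K Ψ h => ⟨fun hK v w => ?_, fun hΨ => ?_⟩, fun ε t K Ψ ht => ⟨fun hK v w => ?_, fun hΨ => ?_⟩⟩
  · exact (hK v w).comp V4_sm (V4_map hN h1 h2)
  · exact ContDiffOn.comp (g := fun x : ℝ × Mt n => (Ψ x.1 (ret x.2)).1) hΨ V4_sm (V4_map hN h1 h2)
  · exact ((V4_pr ha).mul (hK v w)).add ((V4_pr hb).mul (hL v w))
  · have h1 : ContDiffOn ℝ ∞ (fun x : ℝ × Mt n => (ret x.2).1) (Set.Ioo (-ε) ε ×ˢ PU n) :=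
      ContDiffOn.comp (g := fun A : Mt n => (ret A).1) ret_smooth contDiff_snd.contDiffOn
        fun _ hx => hx.2
    have h2 : ContDiffOn ℝ ∞ (fun x : ℝ × Mt n => ((ret x.2).1)⁻¹) (Set.Ioo (-ε) ε ×ˢ PU n) :=
      cd_inv h1 fun x _ => by rw [(ret x.2).2.2]; exact one_ne_zero
    exact cd_trace (cd_mul (cd_mul h2 contDiffOn_const) (cd_mul h2 contDiffOn_const))
  · exact (hK v w).mono (Set.prod_mono (Set.Ioo_subset_Ioo (neg_le_neg h) h) subset_rfl)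
  · exact ContDiffOn.mono hΨ (Set.prod_mono (Set.Ioo_subset_Ioo (neg_le_neg h) h) subset_rfl)
  · exact (hK v w).comp V4_slice fun _ hA => ⟨ht, hA⟩
  · exact ContDiffOn.comp (g := fun x : ℝ × Mt n => (Ψ x.1 (ret x.2)).1) hΨ V4_slice
      fun _ hA => ⟨ht, hA⟩

end LibNC38
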