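import Pool.Agent.LibNS38.V3
import Pool.Agent.LibNS38.V4

set_option autoImplicit false
set_option maxSynthPendingDepth 3

open Matrix MeasureTheory Topology Filter
open scoped Matrix.Norms.Elementwise ContDiff

namespace LibNC38

private lemma I1_gF_symm {n : ℕ} (p : PD n) (v w : Mt n) : gF p v w = gF p w v := by
  rw [gF_apply, gF_apply, Matrix.trace_mul_comm]

private lemma I1_SmM {n : ℕ} (ε : ℝ) : SmM ε (fun _ (p : PD n) => p) := by
  show ContDiffOn ℝ ∞ (fun x : ℝ × Mt n => (ret x.2).1) (Set.Ioo (-ε) ε ×ˢ PU n)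
  exact (ret_smooth (n := n) (m := ∞)).comp contDiff_snd.contDiffOn (fun x hx => hx.2)

private lemma I1_Dfm {n : ℕ} (Γ : Subgroup (SL n)) : Dfm Γ (fun p : PD n => p) where
  smooth := dff_facts.2.2.1.1
  equi := fun _ _ _ => rfl
  inv := ⟨fun p => p, dff_facts.2.2.1.1, fun _ => rfl, fun _ => rfl⟩

/-- Row I1. Order one: `Φ = id`, `c = 1`, `K` from `hadamard_fm` for `H t - gF`. (`Dfm Γ id`: `dff_facts`;
`pul id h p v v = h p v v` for tangent `v`.) -/
theorem ord_one {n : ℕ} (Γ : Subgroup (SL n)) (H : ℝ → PD n → Fm n) (hH : ∀ t, FmOK Γ (H t))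
    (ε : ℝ) (hε : 0 < ε) (hs : SmF ε H) (h0 : ∀ p v, IsTan p v → H 0 p v v = gF p v v) :
    OrdN Γ H 1 := by
  have hF : SmF ε (fun t p => (1 : ℝ) • H t p + (-1 : ℝ) • (gF p : Fm n)) :=
    smF_facts.2.1 ε (fun _ => 1) (fun _ => -1) H (fun _ => gF) contDiffOn_const contDiffOn_const hs
      (smF_facts.2.2.1 ε)
  have hval : ∀ (t : ℝ) (p : PD n) (v w : Mt n),
      ((1 : ℝ) • H t p + (-1 : ℝ) • (gF p : Fm n)) v w = H t p v w - gF p v w := by
    intro t p v w
    simp only [LinearMap.add_apply, LinearMap.smul_apply, smul_eq_mul]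
    ring
  obtain ⟨K, hK1, hK2, hK3, -⟩ := hadamard_fm ε hε
    (fun t p => (1 : ℝ) • H t p + (-1 : ℝ) • (gF p : Fm n)) hF
    (fun t p v w => by
      simp only [hval]
      rw [(hH t).symm p v w, I1_gF_symm p v w])
    (fun p v hv => by
      simp only [hval]
      rw [h0 p v hv, sub_self])
  refine ⟨ε, fun _ p => p, fun _ => 1, K, hε, I1_SmM ε, fun _ => rfl, fun _ _ => I1_Dfm Γ,
    contDiffOn_const, rfl, fun _ _ => one_pos, hK1, hK2, ?_⟩
  intro t ht p v hv
  rw [pul_apply, dff_facts.2.2.1.2 p v hv]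
  have h1 := hK3 t ht p v hv
  simp only [hval] at h1
  rw [pow_one, ← h1]
  ring

end LibNC38
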