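import Pool.Agent.LibNS38.V2
import Pool.Agent.LibNS38.D3

set_option autoImplicit false
set_option maxSynthPendingDepth 3

open Matrix MeasureTheory Topology Filter
open scoped Matrix.Norms.Elementwise ContDiff

namespace LibNC38

/-- the matrix unit with index `i` -/
private noncomputable def V3_e {n : ℕ} (i : Fin n × Fin n) : Mt n :=
  Matrix.single i.1 i.2 (1 : ℝ)

private theorem V3_sum {n : ℕ} (v : Mt n) :
    v = ∑ i : Fin n × Fin n, v i.1 i.2 • (V3_e i : Mt n) := by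
  rw [Fintype.sum_prod_type]
  conv_lhs => rw [Matrix.matrix_eq_sum_single v]
  refine Finset.sum_congr rfl fun a _ => Finset.sum_congr rfl fun b _ => ?_
  show Matrix.single a b (v a b) = v a b • Matrix.single a b (1 : ℝ)
  rw [Matrix.smul_single, smul_eq_mul, mul_one]

private theorem V3_prT {n : ℕ} (p : PD n) (v : Mt n) (hv : IsTan p v) :
    v = ∑ i : Fin n × Fin n, v i.1 i.2 • prT p.1 (V3_e i) := by
  obtain ⟨-, h2, -, -, h5, h6⟩ := prT_facts (n := n)
  have hlin : ∀ (s : Finset (Fin n × Fin n)), prT p.1 (∑ i ∈ s, v i.1 i.2 • (V3_e i : Mt n)) =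
      ∑ i ∈ s, v i.1 i.2 • prT p.1 (V3_e i) := by
    classical
    intro s
    induction s using Finset.induction_on with
    | empty =>
      rw [Finset.sum_empty, Finset.sum_empty]
      have h := h6 p.1 0 0
      rwa [zero_smul, zero_smul] at h
    | insert a s ha ih =>
      rw [Finset.sum_insert ha, Finset.sum_insert ha, h5, h6, ih]
  rw [← hlin, ← V3_sum, h2 p v hv]

/-- the bilinear form with coefficients `h i j` -/
private noncomputable def V3_K {n : ℕ} (h : Fin n × Fin n → Fin n × Fin n → ℝ) : Fm n :=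
  LinearMap.mk₂ ℝ (fun v w : Mt n => ∑ i : Fin n × Fin n, ∑ j : Fin n × Fin n,
      v i.1 i.2 * w j.1 j.2 * h i j)
    (by
      intro v v' w
      simp only [Matrix.add_apply, add_mul, Finset.sum_add_distrib])
    (by
      intro c v w
      simp only [Matrix.smul_apply, smul_eq_mul, Finset.mul_sum, mul_assoc])
    (by
      intro v w w'
      simp only [Matrix.add_apply, mul_add, add_mul, Finset.sum_add_distrib])
    (by
      intro c v w
      simp only [Matrix.smul_apply, smul_eq_mul, Finset.mul_sum]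
      refine Finset.sum_congr rfl fun i _ => Finset.sum_congr rfl fun j _ => ?_
      ring)

private theorem V3_K_apply {n : ℕ} (h : Fin n × Fin n → Fin n × Fin n → ℝ) (v w : Mt n) :
    V3_K h v w = ∑ i : Fin n × Fin n, ∑ j : Fin n × Fin n, v i.1 i.2 * w j.1 j.2 * h i j := rfl

private theorem V3_K_symm {n : ℕ} (h : Fin n × Fin n → Fin n × Fin n → ℝ)
    (hh : ∀ i j, h i j = h j i) (v w : Mt n) : V3_K h v w = V3_K h w v := by
  rw [V3_K_apply, V3_K_apply, Finset.sum_comm]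
  refine Finset.sum_congr rfl fun i _ => Finset.sum_congr rfl fun j _ => ?_
  rw [hh j i]
  ring

private theorem V3_K_diag {n : ℕ} (g : Fin n × Fin n → Fin n × Fin n → ℝ) (v : Mt n) :
    V3_K (fun i j => 1 / 2 * (g i j + g j i)) v v =
      ∑ i : Fin n × Fin n, ∑ j : Fin n × Fin n, v i.1 i.2 * v j.1 j.2 * g i j := by
  rw [V3_K_apply]
  have h1 : ∑ i : Fin n × Fin n, ∑ j : Fin n × Fin n, v i.1 i.2 * v j.1 j.2 * g j i =
      ∑ i : Fin n × Fin n, ∑ j : Fin n × Fin n, v i.1 i.2 * v j.1 j.2 * g i j := by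
    rw [Finset.sum_comm]
    refine Finset.sum_congr rfl fun i _ => Finset.sum_congr rfl fun j _ => ?_
    ring
  have h2 : ∑ i : Fin n × Fin n, ∑ j : Fin n × Fin n,
      v i.1 i.2 * v j.1 j.2 * (1 / 2 * (g i j + g j i)) =
      1 / 2 * (∑ i : Fin n × Fin n, ∑ j : Fin n × Fin n, v i.1 i.2 * v j.1 j.2 * g i j) +
        1 / 2 * (∑ i : Fin n × Fin n, ∑ j : Fin n × Fin n, v i.1 i.2 * v j.1 j.2 * g j i) := by
    rw [Finset.mul_sum, Finset.mul_sum, ← Finset.sum_add_distrib]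
    refine Finset.sum_congr rfl fun i _ => ?_
    rw [Finset.mul_sum, Finset.mul_sum, ← Finset.sum_add_distrib]
    refine Finset.sum_congr rfl fun j _ => ?_
    ring
  rw [h2, h1]
  ring

/-- polarization -/
private theorem V3_pol {n : ℕ} (F : ℝ → PD n → Fm n)
    (hs : ∀ t p v w, F t p v w = F t p w v) (h0 : ∀ p v, IsTan p v → F 0 p v v = 0)
    (p : PD n) (v w : Mt n) (hv : IsTan p v) (hw : IsTan p w) : F 0 p v w = 0 := by
  have hvw : IsTan p (v + w) := by
    refine ⟨?_, ?_⟩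
    · rw [Matrix.transpose_add, hv.1, hw.1]
    · rw [Matrix.mul_add, Matrix.trace_add, hv.2, hw.2, add_zero]
  have h := h0 p (v + w) hvw
  have e1 : F 0 p (v + w) (v + w) = F 0 p v v + F 0 p v w + (F 0 p w v + F 0 p w w) := by
    have e2 : F 0 p (v + w) = F 0 p v + F 0 p w := (F 0 p).map_add v w
    rw [e2, LinearMap.add_apply, (F 0 p v).map_add v w, (F 0 p w).map_add v w]
  rw [e1, h0 p v hv, h0 p w hw, hs 0 p w v] at h
  linarith

/-- bilinear expansion -/
private theorem V3_exp {n : ℕ} (B : Fm n) (p : PD n) (v : Mt n) (hv : IsTan p v) :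
    B v v = ∑ i : Fin n × Fin n, ∑ j : Fin n × Fin n,
      v i.1 i.2 * v j.1 j.2 * B (prT p.1 (V3_e i)) (prT p.1 (V3_e j)) := by
  have h1 : B v v = B (∑ i : Fin n × Fin n, v i.1 i.2 • prT p.1 (V3_e i))
      (∑ j : Fin n × Fin n, v j.1 j.2 • prT p.1 (V3_e j)) := by
    rw [← V3_prT p v hv]
  rw [h1]
  have h2 : B (∑ i : Fin n × Fin n, v i.1 i.2 • prT p.1 (V3_e i)) =
      ∑ i : Fin n × Fin n, v i.1 i.2 • B (prT p.1 (V3_e i)) := by
    rw [_root_.map_sum]
    exact Finset.sum_congr rfl fun i _ => B.map_smul _ _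
  rw [h2, LinearMap.sum_apply]
  refine Finset.sum_congr rfl fun i _ => ?_
  have h3 : (B (prT p.1 (V3_e i))) (∑ j : Fin n × Fin n, v j.1 j.2 • prT p.1 (V3_e j)) =
      ∑ j : Fin n × Fin n, v j.1 j.2 * B (prT p.1 (V3_e i)) (prT p.1 (V3_e j)) := by
    rw [_root_.map_sum]
    exact Finset.sum_congr rfl fun j _ => (B (prT p.1 (V3_e i))).map_smul _ _
  rw [LinearMap.smul_apply, h3, smul_eq_mul, Finset.mul_sum]
  refine Finset.sum_congr rfl fun j _ => ?_
  ring

private theorem V3_prT_smooth {n : ℕ} (ε : ℝ) (e : Mt n) :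
    ContDiffOn ℝ ∞ (fun x : ℝ × Mt n => prT (ret x.2).1 e) (Set.Ioo (-ε) ε ×ˢ PU n) := by
  have h1 : ContDiffOn ℝ ∞ (fun x : ℝ × Mt n => (ret x.2).1) (Set.Ioo (-ε) ε ×ˢ PU n) :=
    (ret_smooth (n := n) (m := ∞)).comp contDiffOn_snd (fun x hx => hx.2)
  have h2 : ContDiffOn ℝ ∞ (fun x : ℝ × Mt n => ((ret x.2).1)⁻¹) (Set.Ioo (-ε) ε ×ˢ PU n) := by
    refine cd_inv h1 fun x _ => ?_
    rw [(ret x.2).2.2]
    exact one_ne_zero
  have h3 : ContDiffOn ℝ ∞ (fun x : ℝ × Mt n =>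
      (((ret x.2).1)⁻¹ * ((1 / 2 : ℝ) • (e + eᵀ))).trace / (n : ℝ)) (Set.Ioo (-ε) ε ×ˢ PU n) :=
    (cd_trace (cd_mul h2 contDiffOn_const)).div_const _
  exact ContDiffOn.sub contDiffOn_const (ContDiffOn.smul h3 h1)

/-- Row V3. Hadamard lemma for families of forms. PLAN. For matrix units `e a b` put
`f (t, A) := F t (ret A) (prT (ret A).1 (e a b)) (prT (ret A).1 (e c d))` (`prT` of `LibNT38/TH1.lean`,
smooth by `cd_lin`, `cd_bil`, `cd_inv`, `ret_smooth`), which vanishes at `t = 0` (polarization: `F 0` is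
symmetric and vanishes on the diagonal of tangent vectors); `g` from `NS38.hadamard`;
`K0 t p v w := ∑ v a b * w c d * g_{abcd} (t, p.1)`, `K := symmetrization` of `K0`, a bilinear form
(`LinearMap.mk₂`). For tangent `v`, `prT v = v` and bilinearity give `F t p v v = t * K t p v v`.
`SmF`: `g_{abcd} (t, (ret A).1)` is a composition of smooth maps. The value at `0`:
`K 0 p v v` is the derivative of `t ↦ F t p v v`. -/
theorem hadamard_fm {n : ℕ} (ε : ℝ) (hε : 0 < ε) (F : ℝ → PD n → Fm n) (hF : SmF ε F)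
    (hs : ∀ t p v w, F t p v w = F t p w v) (h0 : ∀ p v, IsTan p v → F 0 p v v = 0) :
    ∃ K : ℝ → PD n → Fm n, SmF ε K ∧ (∀ t p v w, K t p v w = K t p w v) ∧
      (∀ t ∈ Set.Ioo (-ε) ε, ∀ p v, IsTan p v → F t p v v = t * K t p v v) ∧
      ∀ p v, IsTan p v → HasDerivAt (fun t => F t p v v) (K 0 p v v) 0 := by
  have hT := (prT_facts (n := n)).1
  -- the coefficient functions
  have hex : ∀ i j : Fin n × Fin n, ∃ g : ℝ × Mt n → ℝ,
      ContDiffOn ℝ ∞ g (Set.Ioo (-ε) ε ×ˢ PU n) ∧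
      (∀ s ∈ Set.Ioo (-ε) ε, ∀ x ∈ PU n,
        F s (ret x) (prT (ret x).1 (V3_e i)) (prT (ret x).1 (V3_e j)) = s * g (s, x)) ∧
      ∀ x ∈ PU n, HasDerivAt (fun s =>
        F s (ret x) (prT (ret x).1 (V3_e i)) (prT (ret x).1 (V3_e j))) (g (0, x)) 0 := by
    intro i j
    obtain ⟨g, h1, h2, h3⟩ := NS38.hadamard
      (fun x : ℝ × Mt n => F x.1 (ret x.2) (prT (ret x.2).1 (V3_e i)) (prT (ret x.2).1 (V3_e j)))
      ε hε (PU n) PU_open
      (cd_bil (K := fun x : ℝ × Mt n => F x.1 (ret x.2)) hF (V3_prT_smooth ε _)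
        (V3_prT_smooth ε _))
      (fun x _ => V3_pol F hs h0 (ret x) _ _ (hT _ _) (hT _ _))
    exact ⟨g, h1, h2, h3⟩
  choose g hg1 hg2 hg3 using hex
  refine ⟨fun t p => V3_K (fun i j => 1 / 2 * (g i j (t, p.1) + g j i (t, p.1))), ?_, ?_, ?_, ?_⟩
  · -- smoothness
    intro v w
    have hmap : ContDiffOn ℝ ∞ (fun x : ℝ × Mt n => (x.1, (ret x.2).1))
        (Set.Ioo (-ε) ε ×ˢ PU n) :=
      contDiffOn_fst.prodMk ((ret_smooth (n := n) (m := ∞)).comp contDiffOn_snd (fun x hx => hx.2))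
    have hmaps : Set.MapsTo (fun x : ℝ × Mt n => (x.1, (ret x.2).1)) (Set.Ioo (-ε) ε ×ˢ PU n)
        (Set.Ioo (-ε) ε ×ˢ PU n) := fun x hx => ⟨hx.1, mem_PU _⟩
    have hgc : ∀ i j, ContDiffOn ℝ ∞ (fun x : ℝ × Mt n => g i j (x.1, (ret x.2).1))
        (Set.Ioo (-ε) ε ×ˢ PU n) := fun i j => (hg1 i j).comp hmap hmaps
    show ContDiffOn ℝ ∞ (fun x : ℝ × Mt n => ∑ i : Fin n × Fin n, ∑ j : Fin n × Fin n,
      v i.1 i.2 * w j.1 j.2 * (1 / 2 * (g i j (x.1, (ret x.2).1) + g j i (x.1, (ret x.2).1))))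
      (Set.Ioo (-ε) ε ×ˢ PU n)
    exact ContDiffOn.sum fun i _ => ContDiffOn.sum fun j _ =>
      contDiffOn_const.mul (contDiffOn_const.mul ((hgc i j).add (hgc j i)))
  · -- symmetry
    intro t p v w
    exact V3_K_symm _ (fun i j => by rw [add_comm]) v w
  · -- the identity
    intro t ht p v hv
    show F t p v v = t * V3_K (fun i j => 1 / 2 * (g i j (t, p.1) + g j i (t, p.1))) v v
    rw [V3_K_diag (fun i j => g i j (t, p.1)) v, V3_exp (F t p) p v hv, Finset.mul_sum]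
    refine Finset.sum_congr rfl fun i _ => ?_
    rw [Finset.mul_sum]
    refine Finset.sum_congr rfl fun j _ => ?_
    have h := hg2 i j t ht p.1 (mem_PU p)
    rw [ret_self] at h
    rw [h]
    ring
  · -- the derivative at zero
    intro p v hv
    show HasDerivAt (fun t => F t p v v)
      (V3_K (fun i j => 1 / 2 * (g i j (0, p.1) + g j i (0, p.1))) v v) 0
    rw [V3_K_diag (fun i j => g i j (0, p.1)) v]
    have hfun : (fun t => F t p v v) = fun t => ∑ i : Fin n × Fin n, ∑ j : Fin n × Fin n,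
        v i.1 i.2 * v j.1 j.2 * F t p (prT p.1 (V3_e i)) (prT p.1 (V3_e j)) := by
      funext t
      exact V3_exp (F t p) p v hv
    rw [hfun]
    refine HasDerivAt.fun_sum fun i _ => HasDerivAt.fun_sum fun j _ => ?_
    have h := hg3 i j p.1 (mem_PU p)
    rw [ret_self] at h
    exact h.const_mul _

end LibNC38
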