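import Pool.Agent.LibNS38.V1
import Pool.Agent.LibNS38.V3
import Pool.Agent.LibNS38.V4

set_option autoImplicit false
set_option maxSynthPendingDepth 3

open Matrix MeasureTheory Topology Filter
open scoped Matrix.Norms.Elementwise ContDiff

namespace LibNC38

private theorem V5_gsymm {n : ℕ} (p : PD n) (v w : Mt n) : gF p v w = gF p w v := by
  rw [gF_apply, gF_apply, Matrix.trace_mul_comm]

/-- Row V5. One gauge step: if `K 0 = c0 g + L_Y g` then
`(gau Y (t^N))^* (g + t^N K_t) = (1 + c0 t^N) g + t^(N+1) L_t` with a smooth family `L`.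
PLAN. `ψ_s = gau Y s`. `F s := pul ψ_s gF - (1 + c0 s) • gF` is a smooth symmetric family with `F 0 = 0` on
tangent vectors (`ψ_0 = id`, `dff_facts`); `A1` from `hadamard_fm`: `F s p v v = s * A1 s p v v`,
`A1 0 p v v = - LieG Y p.1 v - c0 gF p v v` (`var_gau`, uniqueness of derivatives). Then
`B t := A1 (t ^ N) + pul (ψ_(t^N)) (K t)` is smooth (`smF_facts`), symmetric, and on tangent vectors
`B 0 = - LieG - c0 g + K 0 = 0` (`0 ^ N = 0`); `L` from `hadamard_fm` for `B`. For tangent `v`: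
`pul ψ_s (gF + s K_t) = pul ψ_s gF + s pul ψ_s K_t = (1 + c0 s) gF + s (A1 s + pul ψ_s K_t)`, `s = t ^ N`. -/
theorem gauge_step {n : ℕ} (Γ : Subgroup (SL n)) (hc : Coc Γ) (N : ℕ) (hN : 1 ≤ N) (ε : ℝ)
    (hε : 0 < ε) (K : ℝ → PD n → Fm n) (hK : SmF ε K) (hKs : ∀ t p v w, K t p v w = K t p w v)
    (c0 : ℝ) (Y : Mt n → Mt n) (hY : ContDiffOn ℝ ∞ Y (PU n)) (hT : ∀ p : PD n, IsTan p (Y p.1))
    (he : ∀ γ ∈ Γ, ∀ p : PD n, Y (act γ p).1 = γ.1 * Y p.1 * γ.1ᵀ)
    (h0 : ∀ (p : PD n) (v : Mt n), IsTan p v → K 0 p v v = c0 * gF p v v + LieG Y p.1 v) :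
    ∃ ε' > 0, ε' ≤ ε ∧ ∃ L : ℝ → PD n → Fm n, SmM ε' (fun t => gau Y (t ^ N)) ∧ SmF ε' L ∧
      (∀ t p v w, L t p v w = L t p w v) ∧
      ∀ t ∈ Set.Ioo (-ε') ε', ∀ (p : PD n) (v : Mt n), IsTan p v →
        pul (gau Y (t ^ N)) (fun p => gF p + t ^ N • K t p) p v v =
          (1 + c0 * t ^ N) * gF p v v + t ^ (N + 1) * L t p v v := by
  obtain ⟨s0, hs0, -, hM, hid, -, -⟩ := gau_facts Γ hc Y hY hT he
  obtain ⟨f1, f2, f3, f4, -⟩ := smF_facts (n := n)
  obtain ⟨p1, -⟩ := smF_pul (n := n)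
  set e1 : ℝ := min s0 ε with he1
  have e1pos : 0 < e1 := lt_min hs0 hε
  have hM1 : SmM e1 (gau Y) := (f4 s0 e1 (fun _ _ => 0) (gau Y) (min_le_left _ _)).2 hM
  have hK1 : SmF e1 K := (f4 ε e1 K (fun _ q => q) (min_le_right _ _)).1 hK
  have hg1 : SmF e1 (fun _ => (gF : PD n → Fm n)) := f3 e1
  have hpg : SmF e1 (fun t => pul (gau Y t) (gF : PD n → Fm n)) :=
    p1 e1 (gau Y) (fun _ => gF) hM1 hg1
  -- the family F
  have hF : SmF e1 (fun t p => (1 : ℝ) • pul (gau Y t) (gF : PD n → Fm n) p +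
      (-(1 + c0 * t)) • (gF p : Fm n)) := by
    refine f2 e1 (fun _ => 1) (fun t => -(1 + c0 * t)) _ (fun _ => gF) contDiffOn_const ?_ hpg hg1
    exact (contDiff_const.add (contDiff_const.mul contDiff_id)).neg.contDiffOn
  set F : ℝ → PD n → Fm n := fun t p => (1 : ℝ) • pul (gau Y t) (gF : PD n → Fm n) p +
      (-(1 + c0 * t)) • (gF p : Fm n) with hFdef
  have Fval : ∀ t p v w, F t p v w = pul (gau Y t) (gF : PD n → Fm n) p v w -
      (1 + c0 * t) * gF p v w := by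
    intro t p v w
    simp only [hFdef, LinearMap.add_apply, LinearMap.smul_apply, smul_eq_mul]
    ring
  have hid' : gau Y 0 = fun p => p := funext hid
  have dff0 : ∀ p v, IsTan p v → dff (gau Y 0) p v = v := by
    intro p v hv
    rw [hid']
    exact dff_facts.2.2.1.2 p v hv
  have Fs : ∀ t p v w, F t p v w = F t p w v := by
    intro t p v w
    rw [Fval, Fval, pul_apply, pul_apply, V5_gsymm _ (dff _ _ v), V5_gsymm p v]
  have F0 : ∀ p v, IsTan p v → F 0 p v v = 0 := by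
    intro p v hv
    rw [Fval, pul_apply, dff0 p v hv, hid p]
    ring
  obtain ⟨A1, hA1, hA1s, hA1v, hA1d⟩ := hadamard_fm e1 e1pos F hF Fs F0
  have A10 : ∀ p v, IsTan p v → A1 0 p v v = -(LieG Y p.1 v) - c0 * gF p v v := by
    intro p v hv
    have h1 := hA1d p v hv
    have h2 : HasDerivAt (fun t => F t p v v) (-(LieG Y p.1 v) - c0 * gF p v v) 0 := by
      have h3 := var_gau Γ hc Y hY hT he p v hv
      have h4 : HasDerivAt (fun t : ℝ => (1 + c0 * t) * gF p v v) (c0 * gF p v v) 0 := by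
        have h5 : HasDerivAt (fun t : ℝ => (1 + c0 * t)) c0 0 := by
          simpa using ((hasDerivAt_id (0 : ℝ)).const_mul c0).const_add 1
        exact h5.mul_const _
      have h6 := h3.sub h4
      refine h6.congr_of_eventuallyEq (Filter.Eventually.of_forall fun t => ?_)
      exact Fval t p v v
    exact h1.unique h2
  -- the second family
  set e2 : ℝ := min e1 1 with he2
  have e2pos : 0 < e2 := lt_min e1pos one_pos
  have e21 : e2 ≤ e1 := min_le_left _ _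
  have e2o : e2 ≤ 1 := min_le_right _ _
  obtain ⟨g1, g2⟩ := f1 e1 e2 N hN e2o e21
  have hA2 : SmF e2 (fun t => A1 (t ^ N)) := g1 A1 hA1
  have hM2 : SmM e2 (fun t => gau Y (t ^ N)) := g2 (gau Y) hM1
  have hK2 : SmF e2 K := (f4 e1 e2 K (fun _ q => q) e21).1 hK1
  have hpK : SmF e2 (fun t => pul (gau Y (t ^ N)) (K t)) :=
    p1 e2 (fun t => gau Y (t ^ N)) K hM2 hK2
  have hB : SmF e2 (fun t p => (1 : ℝ) • A1 (t ^ N) p + (1 : ℝ) • pul (gau Y (t ^ N)) (K t) p) :=
    f2 e2 (fun _ => 1) (fun _ => 1) _ _ contDiffOn_const contDiffOn_const hA2 hpK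
  set B : ℝ → PD n → Fm n := fun t p => (1 : ℝ) • A1 (t ^ N) p +
    (1 : ℝ) • pul (gau Y (t ^ N)) (K t) p with hBdef
  have Bval : ∀ t p v w, B t p v w = A1 (t ^ N) p v w + pul (gau Y (t ^ N)) (K t) p v w := by
    intro t p v w
    simp only [hBdef, LinearMap.add_apply, LinearMap.smul_apply, smul_eq_mul, one_mul]
  have Bs : ∀ t p v w, B t p v w = B t p w v := by
    intro t p v w
    rw [Bval, Bval, hA1s, pul_apply, pul_apply, hKs]
  have zN : (0 : ℝ) ^ N = 0 := zero_pow (by omega)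
  have B0 : ∀ p v, IsTan p v → B 0 p v v = 0 := by
    intro p v hv
    rw [Bval, zN, pul_apply, dff0 p v hv, hid p, A10 p v hv, h0 p v hv]
    ring
  obtain ⟨L, hL, hLs, hLv, -⟩ := hadamard_fm e2 e2pos B hB Bs B0
  refine ⟨e2, e2pos, e21.trans (min_le_right _ _), L, hM2, hL, hLs, ?_⟩
  intro t ht p v hv
  have hs : t ^ N ∈ Set.Ioo (-e1) e1 := by
    have habs : |t| < e2 := abs_lt.2 ht
    have h1 : |t ^ N| ≤ |t| := by
      rw [abs_pow]
      exact pow_le_of_le_one (abs_nonneg t) (habs.le.trans e2o) (by omega)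
    exact abs_lt.1 (lt_of_le_of_lt h1 (lt_of_lt_of_le habs e21))
  have hF1 := hA1v (t ^ N) hs p v hv
  rw [Fval] at hF1
  have hB1 := hLv t ht p v hv
  rw [Bval] at hB1
  have hpul : pul (gau Y (t ^ N)) (fun p => gF p + t ^ N • K t p) p v v =
      pul (gau Y (t ^ N)) (gF : PD n → Fm n) p v v +
        t ^ N * pul (gau Y (t ^ N)) (K t) p v v := by
    simp only [pul_apply, LinearMap.add_apply, LinearMap.smul_apply, smul_eq_mul]
  rw [hpul, pow_succ]
  linear_combination hF1 + t ^ N * hB1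

end LibNC38
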