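import Pool.Agent.LibNS38.D10
import Pool.Agent.LibNS38.G6
import Pool.Agent.LibNS38.V5
import Pool.Agent.LibNS38.I1

set_option autoImplicit false
set_option maxSynthPendingDepth 3

open Matrix MeasureTheory Topology Filter
open scoped Matrix.Norms.Elementwise ContDiff

namespace LibNC38

/-- Row I2 (assembly of D10, G6, G7, V4, V5). From order `N` to order `N + 1`. PLAN. `ord_triv` gives
`c0, Y`; `gauge_step` gives `ε', L`; `gau_facts`, `small_dfm` for the family `t ↦ gau Y (t ^ N)` (smooth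
by `gauge_step`, identity at `0`, equivariant for small `t`) gives diffeomorphisms for small `t`.
New data: `Φ' t p := Φ t (gau Y (t ^ N) p)` (`smF_facts`, composition of `Dfm`: `dff_facts`),
`c' t := c t * (1 + c0 * t ^ N)` (positive for small `t`), `K' t := (1 + c0 * t ^ N)⁻¹ • L t`.
Identity for tangent `v`: `pul Φ' H = pul ψ (pul Φ H)` (`dff_facts` (2)), at the point `ψ p` and the
tangent vector `dff ψ p v` use the identity of order `N`: `= c t * (gF + t^N K) (ψ p) (dff ψ v) (dff ψ v)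
= c t * pul ψ (gF + t^N K) p v v`, then `gauge_step`. -/
theorem ord_succ {n : ℕ} (hn : 3 ≤ n) (Γ : Subgroup (SL n)) (hd : Disc Γ) (hcc : Coc Γ)
    (H : ℝ → PD n → Fm n) (hH : ∀ t, FmOK Γ (H t)) (T : ℕ → ℝ) (hT : ∀ j, 0 < T j)
    (hT0 : Tendsto T atTop (𝓝 0)) (hnc : ∀ j, NoConj (dN (nrm (H (T j))))) (N : ℕ) (hN : 1 ≤ N)
    (hO : OrdN Γ H N) : OrdN Γ H (N + 1) := by
  obtain ⟨ε, Φ, c, K, hε, hΦs, hΦ0, hΦD, hcs, hc0, hcp, hKs, hKsym, hid⟩ := hO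
  obtain ⟨c0, Y, hY, hYT, hYe, h0⟩ := ord_triv hn Γ hd hcc H hH T hT hT0 hnc N hN ε Φ c K hε hΦD hcp
    hKs hKsym hid
  obtain ⟨ε', hε', hε'ε, L, hΨs, hLs, hLsym, hg⟩ := gauge_step Γ hcc N hN ε hε K hKs hKsym c0 Y hY
    hYT hYe h0
  obtain ⟨s0, hs0, -, -, hg0, hgeq, -⟩ := gau_facts Γ hcc Y hY hYT hYe
  have hN0 : N ≠ 0 := by omega
  have hpos1 : 0 < min ε' (min s0 1) := lt_min hε' (lt_min hs0 one_pos)
  have hΨ0 : ∀ p : PD n, gau Y ((0 : ℝ) ^ N) p = p := by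
    intro p
    rw [zero_pow hN0]
    exact hg0 p
  have hpow : ∀ t : ℝ, |t| < 1 → |t ^ N| ≤ |t| := by
    intro t ht
    rw [abs_pow]
    calc |t| ^ N ≤ |t| ^ 1 := pow_le_pow_of_le_one (abs_nonneg t) ht.le hN
      _ = |t| := pow_one _
  have hΨ1 : SmM (min ε' (min s0 1)) (fun t => gau Y (t ^ N)) :=
    ((smF_facts (n := n)).2.2.2.1 ε' (min ε' (min s0 1)) L (fun t => gau Y (t ^ N))
      (min_le_left _ _)).2 hΨs
  have hΨe : ∀ t ∈ Set.Ioo (-(min ε' (min s0 1))) (min ε' (min s0 1)), ∀ γ ∈ Γ, ∀ p : PD n,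
      gau Y (t ^ N) (act γ p) = act γ (gau Y (t ^ N) p) := by
    intro t ht γ hγ p
    have h1 : |t| < min ε' (min s0 1) := abs_lt.2 ⟨ht.1, ht.2⟩
    have h2 : |t| < 1 := lt_of_lt_of_le h1 (le_trans (min_le_right _ _) (min_le_right _ _))
    have h3 : |t| < s0 := lt_of_lt_of_le h1 (le_trans (min_le_right _ _) (min_le_left _ _))
    have h4 : |t ^ N| < s0 := lt_of_le_of_lt (hpow t h2) h3
    exact hgeq (t ^ N) ⟨(abs_lt.1 h4).1, (abs_lt.1 h4).2⟩ γ hγ p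
  obtain ⟨δ, hδ, hδ1, hD⟩ := small_dfm (by omega : 1 ≤ n) Γ hcc (min ε' (min s0 1)) hpos1
    (fun t => gau Y (t ^ N)) hΨ1 hΨ0 hΨe
  have hcc0 : (0 : ℝ) < |c0| + 1 := by positivity
  have hη : 0 < min δ (1 / (|c0| + 1)) := lt_min hδ (by positivity)
  have hηδ : min δ (1 / (|c0| + 1)) ≤ δ := min_le_left _ _
  have hη1 : min δ (1 / (|c0| + 1)) ≤ 1 :=
    le_trans hηδ (le_trans hδ1 (le_trans (min_le_right _ _) (min_le_right _ _)))
  have hηε' : min δ (1 / (|c0| + 1)) ≤ ε' := le_trans hηδ (le_trans hδ1 (min_le_left _ _))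
  have hηε : min δ (1 / (|c0| + 1)) ≤ ε := le_trans hηε' hε'ε
  have hsub : ∀ t ∈ Set.Ioo (-(min δ (1 / (|c0| + 1)))) (min δ (1 / (|c0| + 1))),
      |t| < δ ∧ |t| < 1 ∧ t ∈ Set.Ioo (-ε') ε' ∧ t ∈ Set.Ioo (-ε) ε ∧ 0 < 1 + c0 * t ^ N := by
    intro t ht
    have h1 : |t| < min δ (1 / (|c0| + 1)) := abs_lt.2 ⟨ht.1, ht.2⟩
    have h2 : |t| < 1 := lt_of_lt_of_le h1 hη1
    have h3 : |t| < ε' := lt_of_lt_of_le h1 hηε'
    have h4 : |t| < ε := lt_of_lt_of_le h1 hηε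
    have h5 : |t| < 1 / (|c0| + 1) := lt_of_lt_of_le h1 (min_le_right _ _)
    refine ⟨lt_of_lt_of_le h1 hηδ, h2, ⟨(abs_lt.1 h3).1, (abs_lt.1 h3).2⟩,
      ⟨(abs_lt.1 h4).1, (abs_lt.1 h4).2⟩, ?_⟩
    have h6 : |c0 * t ^ N| < 1 := by
      rw [abs_mul]
      calc |c0| * |t ^ N| ≤ |c0| * |t| := mul_le_mul_of_nonneg_left (hpow t h2) (abs_nonneg _)
        _ ≤ (|c0| + 1) * |t| := by nlinarith [abs_nonneg t]
        _ < (|c0| + 1) * (1 / (|c0| + 1)) := mul_lt_mul_of_pos_left h5 hcc0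
        _ = 1 := by field_simp
    have h7 := (abs_lt.1 h6).1
    linarith
  have hΨη : SmM (min δ (1 / (|c0| + 1))) (fun t => gau Y (t ^ N)) :=
    ((smF_facts (n := n)).2.2.2.1 ε' _ L (fun t => gau Y (t ^ N)) hηε').2 hΨs
  have hΦη : SmM (min δ (1 / (|c0| + 1))) Φ :=
    ((smF_facts (n := n)).2.2.2.1 ε _ K Φ hηε).2 hΦs
  have hLη : SmF (min δ (1 / (|c0| + 1))) L :=
    ((smF_facts (n := n)).2.2.2.1 ε' _ L (fun t => gau Y (t ^ N)) hηε').1 hLs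
  have hpolS : ContDiff ℝ ∞ (fun t : ℝ => 1 + c0 * t ^ N) :=
    contDiff_const.add (contDiff_const.mul (contDiff_id.pow N))
  refine ⟨min δ (1 / (|c0| + 1)), fun t p => Φ t (gau Y (t ^ N) p), fun t => c t * (1 + c0 * t ^ N),
    fun t p => (1 + c0 * t ^ N)⁻¹ • L t p, hη, ?_, ?_, ?_, ?_, ?_, ?_, ?_, ?_, ?_⟩
  · -- smooth family
    have hin : ContDiffOn ℝ ∞ (fun x : ℝ × Mt n => (x.1, (gau Y (x.1 ^ N) (ret x.2)).1))
        (Set.Ioo (-(min δ (1 / (|c0| + 1)))) (min δ (1 / (|c0| + 1))) ×ˢ PU n) :=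
      contDiffOn_fst.prodMk hΨη
    have hmap : Set.MapsTo (fun x : ℝ × Mt n => (x.1, (gau Y (x.1 ^ N) (ret x.2)).1))
        (Set.Ioo (-(min δ (1 / (|c0| + 1)))) (min δ (1 / (|c0| + 1))) ×ˢ PU n)
        (Set.Ioo (-(min δ (1 / (|c0| + 1)))) (min δ (1 / (|c0| + 1))) ×ˢ PU n) := by
      intro x hx
      exact ⟨hx.1, mem_PU _⟩
    have hcomp := ContDiffOn.comp hΦη hin hmap
    refine hcomp.congr ?_
    intro x hx
    simp only [Function.comp_apply, ret_self]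
  · intro p
    show Φ 0 (gau Y ((0 : ℝ) ^ N) p) = p
    rw [hΨ0, hΦ0]
  · intro t ht
    obtain ⟨h1, h2, h3, h4, h5⟩ := hsub t ht
    have hA : Dfm Γ (Φ t) := hΦD t h4
    have hB : Dfm Γ (gau Y (t ^ N)) := hD t h1
    obtain ⟨χ, hχs, hχ1, hχ2⟩ := hA.inv
    obtain ⟨ξ, hξs, hξ1, hξ2⟩ := hB.inv
    refine ⟨((dff_facts (n := n)).2.1 (Φ t) (gau Y (t ^ N)) hA.smooth hB.smooth).1, ?_, ?_⟩
    · intro γ hγ p
      show Φ t (gau Y (t ^ N) (act γ p)) = act γ (Φ t (gau Y (t ^ N) p))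
      rw [hB.equi γ hγ p, hA.equi γ hγ]
    · refine ⟨fun p => ξ (χ p), ((dff_facts (n := n)).2.1 ξ χ hξs hχs).1, ?_, ?_⟩
      · intro p
        show ξ (χ (Φ t (gau Y (t ^ N) p))) = p
        rw [hχ1, hξ1]
      · intro p
        show Φ t (gau Y (t ^ N) (ξ (χ p))) = p
        rw [hξ2, hχ2]
  · refine (hcs.mono ?_).mul hpolS.contDiffOn
    intro t ht
    exact (hsub t ht).2.2.2.1
  · show c 0 * (1 + c0 * (0 : ℝ) ^ N) = 1
    rw [hc0, zero_pow hN0]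
    ring
  · intro t ht
    obtain ⟨h1, h2, h3, h4, h5⟩ := hsub t ht
    exact mul_pos (hcp t h4) h5
  · intro v w
    have ha : ContDiffOn ℝ ∞ (fun x : ℝ × Mt n => (1 + c0 * x.1 ^ N)⁻¹)
        (Set.Ioo (-(min δ (1 / (|c0| + 1)))) (min δ (1 / (|c0| + 1))) ×ˢ PU n) := by
      refine ContDiffOn.inv ((hpolS.comp contDiff_fst).contDiffOn) ?_
      intro x hx
      exact (hsub x.1 hx.1).2.2.2.2.ne'
    refine (ha.mul (hLη v w)).congr ?_
    intro x hx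
    simp only [LinearMap.smul_apply, smul_eq_mul]
  · intro t p v w
    show ((1 + c0 * t ^ N)⁻¹ • L t p) v w = ((1 + c0 * t ^ N)⁻¹ • L t p) w v
    simp only [LinearMap.smul_apply, smul_eq_mul, hLsym t p v w]
  · intro t ht p v hv
    obtain ⟨h1, h2, h3, h4, h5⟩ := hsub t ht
    have hA : Dfm Γ (Φ t) := hΦD t h4
    have hB : Dfm Γ (gau Y (t ^ N)) := hD t h1
    have hd1 := ((dff_facts (n := n)).2.1 (Φ t) (gau Y (t ^ N)) hA.smooth hB.smooth).2 p v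
    have htan := (dff_facts (n := n)).1 (gau Y (t ^ N)) hB.smooth p v
    have hi := hid t h4 (gau Y (t ^ N) p) (dff (gau Y (t ^ N)) p v) htan
    have hgg := hg t h3 p v hv
    rw [pul_apply] at hi hgg
    rw [pul_apply]
    show H t (Φ t (gau Y (t ^ N) p)) (dff (fun p => Φ t (gau Y (t ^ N) p)) p v)
      (dff (fun p => Φ t (gau Y (t ^ N) p)) p v) = c t * (1 + c0 * t ^ N) *
        (gF p v v + t ^ (N + 1) * ((1 + c0 * t ^ N)⁻¹ • L t p) v v)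
    rw [hd1, hi]
    simp only [LinearMap.add_apply, LinearMap.smul_apply, smul_eq_mul] at hgg ⊢
    rw [hgg]
    have h6 : (1 + c0 * t ^ N) ≠ 0 := h5.ne'
    field_simp

theorem ord_all {n : ℕ} (hn : 3 ≤ n) (Γ : Subgroup (SL n)) (hd : Disc Γ) (hcc : Coc Γ)
    (H : ℝ → PD n → Fm n) (hH : ∀ t, FmOK Γ (H t)) (T : ℕ → ℝ) (hT : ∀ j, 0 < T j)
    (hT0 : Tendsto T atTop (𝓝 0)) (hnc : ∀ j, NoConj (dN (nrm (H (T j)))))
    (ε : ℝ) (hε : 0 < ε) (hs : SmF ε H) (h0 : ∀ p v, IsTan p v → H 0 p v v = gF p v v) :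
    ∀ N : ℕ, 1 ≤ N → OrdN Γ H N := by
  intro N hN
  induction N, hN using Nat.le_induction with
  | base => exact ord_one Γ H hH ε hε hs h0
  | succ N hN ih => exact ord_succ hn Γ hd hcc H hH T hT hT0 hnc N hN ih

end LibNC38
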