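import Pool.Agent.LibNS38.P5
import Pool.Agent.LibNS38.I2
import Pool.Agent.LibNS38.C13

set_option autoImplicit false
set_option maxSynthPendingDepth 3

open Matrix MeasureTheory Topology Filter
open scoped Matrix.Norms.Elementwise ContDiff

namespace LibNC38

/-- the metric `h` on `PD n` is locally symmetric: the curvature tensor of its product with the flat
factors `ℝ` and skew matrices is parallel -/
def LocSym {n : ℕ} (h : PD n → Fm n) : Prop := NS38.LSym (prodm h) (PU n)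

private theorem P6_congr {E : Type} [NormedAddCommGroup E] [NormedSpace ℝ E]
    {G G' : E → E → E → ℝ} {Ω : Set E} (hΩ : IsOpen Ω)
    (h : ∀ x ∈ Ω, ∀ v w, G x v w = G' x v w) (hL : NS38.LSym G' Ω) : NS38.LSym G Ω := by
  obtain ⟨C, hC, hK, hd⟩ := hL
  refine ⟨C, hC, ?_, hd⟩
  intro x hx u v w
  have h1 := hK x hx u v w
  have h2 : ∀ a b : E, fderiv ℝ (fun y => G y a b) x = fderiv ℝ (fun y => G' y a b) x := by
    intro a b
    refine Filter.EventuallyEq.fderiv_eq ?_
    filter_upwards [hΩ.mem_nhds hx] with y hy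
    exact h y hy a b
  rw [h2, h2, h2, h x hx]
  exact h1

private theorem P6_fd {E F : Type} [NormedAddCommGroup E] [NormedSpace ℝ E]
    [NormedAddCommGroup F] [NormedSpace ℝ F] {f : E → F} {Ω : Set E} (hΩ : IsOpen Ω)
    (hf : ContDiffOn ℝ ∞ f Ω) (v : E) : ContDiffOn ℝ ∞ (fun A => fderiv ℝ f A v) Ω := by
  have h1 : ContDiffOn ℝ ∞ (fun A => fderiv ℝ f A) Ω := hf.fderiv_of_isOpen hΩ (by simp)
  exact h1.clm_apply contDiffOn_const

private theorem P6_dret {n : ℕ} (v : Mt n) :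
    ContDiffOn ℝ ∞ (fun A : Mt n => fderiv ℝ (fun B : Mt n => (ret B).1) A v) (PU n) :=
  P6_fd PU_open ret_smooth v

private theorem P6_flat {n : ℕ} (h : PD n → Fm n) (A v w : Mt n) :
    prodm h A v w = h (ret A) (fderiv ℝ (fun B : Mt n => (ret B).1) A v)
      (fderiv ℝ (fun B : Mt n => (ret B).1) A w) +
      (prodm gF A v w - gF (ret A) (fderiv ℝ (fun B : Mt n => (ret B).1) A v)
      (fderiv ℝ (fun B : Mt n => (ret B).1) A w)) := by
  unfold prodm
  ring

private theorem P6_tan {n : ℕ} {A : Mt n} (hA : A ∈ PU n) (v : Mt n) :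
    IsTan (ret A) (fderiv ℝ (fun B : Mt n => (ret B).1) A v) := by
  refine tan_fderiv (fun B : Mt n => ret B) A ?_ v
  exact ((ret_smooth (m := ∞)).contDiffAt (PU_open.mem_nhds hA)).differentiableAt (by simp)

/-- Row P6 (final assembly). PLAN. `H t p := ∑ i, a i t • κ i p`. `FmOK` (`fmOK_sum` or directly), `SmF ε H`
for small `ε` (`ε < 1` with `(-ε, ε) ⊆ J0`; `AnalyticOnNhd.contDiffOn`; `κ i (ret A) v w` smooth: `hs`),
`MetX (H t)` for `t ∈ [0, 1]`. `ord_all` gives `OrdN Γ H N` for all `N ≥ 1`. For `x ∈ PU n` take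
`Q := closedBall x ρ ⊆ PU n` (compact, neighbourhood of `x`), `gauge_prodm`. `NS38.path_final` with
`Fin (D + 1)`: `a' := Fin.cons (fun _ => 1) a`, `G' := Fin.cons (flat part) (fun i => h-part of κ i)`, so that
`prodm (H t) A v w = ∑ i, a' i t * G' i A v w` (`Fin.sum_univ_succ`; the form is linear in `h`);
`Bil (G' i)`: symmetric bilinear; smooth as in `met_prodm`; `Met`: `met_prodm`; `LSym` at `t = 0`:
`prodm (H 0) = prodm gF` (polarization of `h0` on tangent vectors, `tan_fderiv`) and `lsym_gF`. The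
Christoffel symbol `C` of `prodm (H t)` from `NS38.kos_facts` then has `dcurv C x = 0` for every `x ∈ PU n`. -/
theorem path_locsym {n : ℕ} (hn : 3 ≤ n) (Γ : Subgroup (SL n)) (hd : Disc Γ) (hcc : Coc Γ) {D : ℕ}
    (a : Fin D → ℝ → ℝ) (κ : Fin D → PD n → Fm n) (hκ : ∀ i, FmOK Γ (κ i))
    (hs : ∀ i v w, ContDiffOn ℝ ∞ (fun A : Mt n => κ i (ret A) v w) (PU n)) (J0 : Set ℝ)
    (hJ0 : IsOpen J0) (hI : Set.Icc 0 1 ⊆ J0) (ha : ∀ i, AnalyticOnNhd ℝ (a i) J0)
    (h0 : ∀ p v, IsTan p v → ∑ i, a i 0 * κ i p v v = gF p v v)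
    (hpos : ∀ t ∈ Set.Icc (0 : ℝ) 1, ∀ p v, IsTan p v → v ≠ 0 → 0 < ∑ i, a i t * κ i p v v)
    (T : ℕ → ℝ) (hT : ∀ j, 0 < T j) (hT0 : Tendsto T atTop (𝓝 0))
    (hnc : ∀ j, NoConj (dN (nrm (fun p => ∑ i, a i (T j) • κ i p)))) :
    ∀ t ∈ Set.Icc (0 : ℝ) 1, LocSym (fun p => ∑ i, a i t • κ i p) := by
  have hn1 : 1 ≤ n := by omega
  set H : ℝ → PD n → Fm n := fun t p => ∑ i, a i t • κ i p with hHdef
  have hHa : ∀ t p v w, H t p v w = ∑ i, a i t * κ i p v w := by
    intro t p v w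
    rw [hHdef]
    simp only [LinearMap.sum_apply, LinearMap.smul_apply, smul_eq_mul]
  have hH : ∀ t, FmOK Γ (H t) := fun t => fmOK_sum Γ κ hκ (fun i => a i t)
  -- smoothness of the family
  obtain ⟨ε, hε, hεJ⟩ : ∃ ε : ℝ, 0 < ε ∧ Set.Ioo (-ε) ε ⊆ J0 := by
    have h1 : (0 : ℝ) ∈ J0 := hI ⟨le_rfl, zero_le_one⟩
    obtain ⟨ε, hε, hb⟩ := Metric.isOpen_iff.1 hJ0 0 h1
    refine ⟨ε, hε, ?_⟩
    rw [Real.ball_eq_Ioo, zero_sub, zero_add] at hb
    exact hb
  have hac : ∀ i, ContDiffOn ℝ ∞ (a i) J0 := fun i =>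
    (ha i).contDiffOn hJ0.uniqueDiffOn
  have hSm : SmF ε H := by
    intro v w
    have h1 : ContDiffOn ℝ ∞ (fun x : ℝ × Mt n => ∑ i, a i x.1 * κ i (ret x.2) v w)
        (Set.Ioo (-ε) ε ×ˢ PU n) := by
      refine ContDiffOn.sum fun i _ => ContDiffOn.mul ?_ ?_
      · exact (hac i).comp contDiffOn_fst fun x hx => hεJ hx.1
      · exact (hs i v w).comp contDiffOn_snd fun x hx => hx.2
    refine h1.congr fun x _ => ?_
    exact hHa x.1 (ret x.2) v w
  have h0' : ∀ p v, IsTan p v → H 0 p v v = gF p v v := fun p v hv => by rw [hHa, h0 p v hv]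
  have hord := ord_all hn Γ hd hcc H hH T hT hT0 hnc ε hε hSm h0'
  have hsym : ∀ t p v w, H t p v w = H t p w v := fun t p v w => (hH t).symm p v w
  -- the metrics
  have hMX : ∀ t ∈ Set.Icc (0 : ℝ) 1, MetX (H t) := by
    intro t ht
    refine ⟨fun v w => ?_, fun p v w => hsym t p v w, fun p v hv hv0 => ?_⟩
    · have h1 : ContDiffOn ℝ ∞ (fun A : Mt n => ∑ i, a i t * κ i (ret A) v w) (PU n) :=
        ContDiffOn.sum fun i _ => contDiffOn_const.mul (hs i v w)
      exact h1.congr fun A _ => hHa t (ret A) v w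
    · rw [hHa]
      exact hpos t ht p v hv hv0
  have hMet : ∀ t ∈ Set.Icc (0 : ℝ) 1, NS38.Met (prodm (H t)) (PU n) := fun t ht =>
    met_prodm hn1 (H t) (hMX t ht)
  obtain ⟨hgF, -⟩ := prodm_gF (n := n) hn1
  have hMg : NS38.Met (prodm (gF : PD n → Fm n)) (PU n) := met_prodm hn1 _ hgF
  -- the coefficients
  let Dr : Mt n → Mt n → Mt n := fun A v => fderiv ℝ (fun B : Mt n => (ret B).1) A v
  have hDa : ∀ A u v, Dr A (u + v) = Dr A u + Dr A v := fun A u v => map_add _ _ _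
  have hDs : ∀ A (r : ℝ) v, Dr A (r • v) = r • Dr A v := fun A r v => map_smul _ _ _
  let pt : (PD n → Fm n) → Mt n → Mt n → Mt n → ℝ := fun h A v w => h (ret A) (Dr A v) (Dr A w)
  have hptb : ∀ h : PD n → Fm n, (∀ p v w, h p v w = h p w v) → NS38.Bil (pt h) (PU n) := by
    intro h hh
    refine ⟨fun A _ u v w => ?_, fun A _ r v w => ?_, fun A _ v w => hh _ _ _⟩
    · show h (ret A) (Dr A (u + v)) (Dr A w) = _
      rw [hDa, map_add, LinearMap.add_apply]
    · show h (ret A) (Dr A (r • v)) (Dr A w) = _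
      rw [hDs, map_smul, LinearMap.smul_apply, smul_eq_mul]
  have hpts : ∀ h : PD n → Fm n, (∀ v w, ContDiffOn ℝ ∞ (fun A : Mt n => h (ret A) v w) (PU n)) →
      ∀ v w, ContDiffOn ℝ ∞ (fun A => pt h A v w) (PU n) := by
    intro h hh v w
    exact cd_bil hh (P6_dret v) (P6_dret w)
  let fl : Mt n → Mt n → Mt n → ℝ := fun A v w => prodm gF A v w - pt gF A v w
  have hflb : NS38.Bil fl (PU n) := by
    have b1 := hMg.bil
    have b2 := hptb gF hgF.symm
    refine ⟨fun A hA u v w => ?_, fun A hA r v w => ?_, fun A hA v w => ?_⟩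
    · show prodm gF A (u + v) w - pt gF A (u + v) w = (prodm gF A u w - pt gF A u w) +
        (prodm gF A v w - pt gF A v w)
      rw [b1.add A hA, b2.add A hA]
      ring
    · show prodm gF A (r • v) w - pt gF A (r • v) w = r * (prodm gF A v w - pt gF A v w)
      rw [b1.smul A hA, b2.smul A hA]
      ring
    · show prodm gF A v w - pt gF A v w = prodm gF A w v - pt gF A w v
      rw [b1.symm A hA, b2.symm A hA]
  have hfls : ∀ v w, ContDiffOn ℝ ∞ (fun A => fl A v w) (PU n) := fun v w =>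
    (hMg.smooth v w).sub (hpts gF hgF.smooth v w)
  let a' : Fin (D + 1) → ℝ → ℝ := Fin.cons (fun _ => (1 : ℝ)) a
  let G' : Fin (D + 1) → Mt n → Mt n → Mt n → ℝ := Fin.cons fl fun i => pt (κ i)
  have ha0 : a' 0 = fun _ => (1 : ℝ) := rfl
  have has : ∀ i, a' (Fin.succ i) = a i := fun i => rfl
  have hG0 : G' 0 = fl := rfl
  have hGs : ∀ i, G' (Fin.succ i) = pt (κ i) := fun i => rfl
  have hE : (fun (t : ℝ) (x v w : Mt n) => ∑ i, a' i t * G' i x v w) = fun t => prodm (H t) := by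
    funext t x v w
    rw [Fin.sum_univ_succ, ha0, hG0]
    have h1 : prodm (H t) x v w = pt (H t) x v w + fl x v w := P6_flat (H t) x v w
    have h2 : pt (H t) x v w = ∑ i, a i t * pt (κ i) x v w := hHa t (ret x) (Dr x v) (Dr x w)
    have h3 : ∑ i : Fin D, a' i.succ t * G' i.succ x v w = ∑ i, a i t * pt (κ i) x v w :=
      Finset.sum_congr rfl fun i _ => by rw [has, hGs]
    rw [h1, h2, h3]
    ring
  have hEt : ∀ t, (fun (x v w : Mt n) => ∑ i, a' i t * G' i x v w) = prodm (H t) := fun t =>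
    congrFun hE t
  have hb' : ∀ i, NS38.Bil (G' i) (PU n) := by
    intro i
    refine Fin.cases ?_ (fun j => ?_) i
    · rw [hG0]
      exact hflb
    · rw [hGs]
      exact hptb (κ j) (hκ j).symm
  have hs' : ∀ i v w, ContDiffOn ℝ ∞ (fun x => G' i x v w) (PU n) := by
    intro i
    refine Fin.cases ?_ (fun j => ?_) i
    · intro v w
      rw [hG0]
      exact hfls v w
    · intro v w
      rw [hGs]
      exact hpts (κ j) (hs j) v w
  have ha' : ∀ i, AnalyticOnNhd ℝ (a' i) J0 := by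
    intro i
    refine Fin.cases ?_ (fun j => ?_) i
    · rw [ha0]
      exact analyticOnNhd_const
    · rw [has]
      exact ha j
  -- the symmetric metric
  have hL0 : NS38.LSym (prodm (H 0)) (PU n) := by
    refine P6_congr PU_open (fun A hA v w => ?_) (lsym_gF (n := n) hn1)
    have h1 : ∀ u, IsTan (ret A) u → H 0 (ret A) u u = gF (ret A) u u := fun u hu => h0' _ _ hu
    have hv := P6_tan hA v
    have hw := P6_tan hA w
    have hvw : IsTan (ret A) (fderiv ℝ (fun B : Mt n => (ret B).1) A v +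
        fderiv ℝ (fun B : Mt n => (ret B).1) A w) := by
      have h2 := P6_tan hA (v + w)
      rwa [map_add] at h2
    have e1 := h1 _ hv
    have e2 := h1 _ hw
    have e3 := h1 _ hvw
    simp only [map_add, LinearMap.add_apply] at e3
    have e4 := hsym 0 (ret A) (fderiv ℝ (fun B : Mt n => (ret B).1) A v)
      (fderiv ℝ (fun B : Mt n => (ret B).1) A w)
    have e5 := hgF.symm (ret A) (fderiv ℝ (fun B : Mt n => (ret B).1) A v)
      (fderiv ℝ (fun B : Mt n => (ret B).1) A w)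
    rw [P6_flat (H 0)]
    linarith
  -- conclusion
  intro t ht
  obtain ⟨C, hC, hK⟩ := (NS38.kos_facts (PU_open (n := n))).2.2.2.1 _ (hMet t ht)
  refine ⟨C, hC, hK, ?_⟩
  intro x hx z u v w
  obtain ⟨ρ, hρ, hball⟩ := Metric.nhds_basis_closedBall.mem_iff.1 (PU_open.mem_nhds hx)
  have : ProperSpace (Mt n) := FiniteDimensional.proper ℝ (Mt n)
  refine NS38.path_final PU_open a' G' hb' hs' J0 hJ0 hI ha' ?_ ?_ (Metric.closedBall x ρ)
    (isCompact_closedBall x ρ) hball x hx ?_ t ht C hC ?_ z u v w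
  · intro s hs1
    rw [hEt]
    exact hMet s hs1
  · rw [hEt]
    exact hL0
  · intro N hN
    rw [hE]
    exact gauge_prodm hn1 Γ H hsym h0' x hx _ (Metric.closedBall_mem_nhds x hρ) hball N
      (hord N hN)
  · rw [hEt]
    exact hK

end LibNC38
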