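import Pool.Agent.LibNS38.D0

set_option autoImplicit false
set_option maxSynthPendingDepth 3

open Matrix MeasureTheory Topology Filter
open scoped Matrix.Norms.Elementwise ContDiff

namespace LibNC38

private theorem D1_lin {X : Type} [NormedAddCommGroup X] [NormedSpace ℝ X] {n : ℕ} (f : X → PD n)
    (x : X) (hf : DifferentiableAt ℝ (fun x => (f x).1) x) (v : X) (l : Mt n →ₗ[ℝ] ℝ) :
    HasDerivAt (fun s : ℝ => l (f (x + s • v)).1) (l (fderiv ℝ (fun x => (f x).1) x v)) 0 := by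
  have h1 : HasDerivAt (fun s : ℝ => x + s • v) v 0 := by
    have := ((hasDerivAt_id (0 : ℝ)).smul_const v).const_add x
    simpa using this
  have h2 : HasFDerivAt (fun x => (f x).1) (fderiv ℝ (fun x => (f x).1) x) (x + (0 : ℝ) • v) := by
    rw [zero_smul, add_zero]
    exact hf.hasFDerivAt
  have h3 := h2.comp_hasDerivAt (0 : ℝ) h1
  have h4 : HasFDerivAt (fun M : Mt n => l M) (LinearMap.toContinuousLinearMap l)
      ((f (x + (0 : ℝ) • v)).1) := (LinearMap.toContinuousLinearMap l).hasFDerivAt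
  exact h4.comp_hasDerivAt (0 : ℝ) h3

/-- Row D1. Derivatives of maps into `PD n` are tangent. PLAN. Symmetric: the derivative of a symmetric
matrix function. `tr (p⁻¹ v') = 0`: `det (f x) = 1`; the derivative of `det` at `p` in direction `v'` is
`det p * tr (p⁻¹ v')` (Jacobi; e.g. `det (p + s v') = det p * det (1 + s p⁻¹ v')` and the derivative of
`det (1 + s B)` is `tr B`; see also `mnr_deriv` in `LibNC38/B4.lean` with `i = n`, after moving the point
to `1` by `act (tch p)⁻¹`, as in `tan_facts` of `LibNG38/GA0.lean`, which does this for curves `IsC1`). -/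
theorem tan_fderiv {X : Type} [NormedAddCommGroup X] [NormedSpace ℝ X] {n : ℕ} (f : X → PD n)
    (x : X) (hf : DifferentiableAt ℝ (fun x => (f x).1) x) (v : X) :
    IsTan (f x) (fderiv ℝ (fun x => (f x).1) x v) := by
  have hlin := D1_lin f x hf v
  set w : Mt n := fderiv ℝ (fun x => (f x).1) x v with hw
  obtain ⟨g, -, -, hg⟩ := chol (f x)
  have hinv : (g⁻¹ : SL n).1 * g.1 = 1 := by
    rw [← Matrix.SpecialLinearGroup.coe_mul, inv_mul_cancel, Matrix.SpecialLinearGroup.coe_one]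
  have hinv' : g.1 * (g⁻¹ : SL n).1 = 1 := by
    rw [← Matrix.SpecialLinearGroup.coe_mul, mul_inv_cancel, Matrix.SpecialLinearGroup.coe_one]
  have hinvt : g.1ᵀ * (g⁻¹ : SL n).1ᵀ = 1 := by
    rw [← Matrix.transpose_mul, hinv, Matrix.transpose_one]
  have hinvt' : (g⁻¹ : SL n).1ᵀ * g.1ᵀ = 1 := by
    rw [← Matrix.transpose_mul, hinv', Matrix.transpose_one]
  -- symmetry
  have hsym : wᵀ = w := by
    ext i j
    let l : Mt n →ₗ[ℝ] ℝ :=
      { toFun := fun M => M j i - M i j
        map_add' := fun A B => by simp only [Matrix.add_apply]; ring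
        map_smul' := fun r A => by
          simp only [Matrix.smul_apply, smul_eq_mul, RingHom.id_apply]; ring }
    have h1 := hlin l
    have h2 : (fun s : ℝ => l (f (x + s • v)).1) = fun _ => (0 : ℝ) := by
      funext s
      have hs : ((f (x + s • v)).1)ᵀ = (f (x + s • v)).1 := by
        have := (f (x + s • v)).2.1.1
        rwa [Matrix.IsHermitian, Matrix.conjTranspose_eq_transpose_of_trivial] at this
      change (f (x + s • v)).1 j i - (f (x + s • v)).1 i j = 0
      have h3 := congrFun (congrFun hs i) j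
      rw [Matrix.transpose_apply] at h3
      rw [h3, sub_self]
    rw [h2] at h1
    have h3 := h1.unique (hasDerivAt_const (0 : ℝ) (0 : ℝ))
    change w j i - w i j = 0 at h3
    rw [Matrix.transpose_apply]
    linarith
  have hCs : (act g⁻¹ (f (x + (0 : ℝ) • v))).1 = 1 := by
    rw [zero_smul, add_zero, hg]
    change (g⁻¹ : SL n).1 * (g.1 * (1 : Mt n) * g.1ᵀ) * (g⁻¹ : SL n).1ᵀ = 1
    rw [Matrix.mul_one]
    calc (g⁻¹ : SL n).1 * (g.1 * g.1ᵀ) * (g⁻¹ : SL n).1ᵀ
        = ((g⁻¹ : SL n).1 * g.1) * (g.1ᵀ * (g⁻¹ : SL n).1ᵀ) := by simp only [Matrix.mul_assoc]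
      _ = 1 := by rw [hinv, hinvt, Matrix.mul_one]
  have hd := mnr_deriv (fun s : ℝ => (act g⁻¹ (f (x + s • v))).1)
    ((g⁻¹ : SL n).1 * w * (g⁻¹ : SL n).1ᵀ) 0 hCs
    (fun i j => by
      let l : Mt n →ₗ[ℝ] ℝ :=
        { toFun := fun M => ((g⁻¹ : SL n).1 * M * (g⁻¹ : SL n).1ᵀ) i j
          map_add' := fun A B => by
            rw [Matrix.mul_add, Matrix.add_mul, Matrix.add_apply]
          map_smul' := fun r A => by
            rw [Matrix.mul_smul, Matrix.smul_mul, Matrix.smul_apply, RingHom.id_apply] }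
      exact hlin l) n le_rfl
  have hc : (fun s : ℝ => mnr (act g⁻¹ (f (x + s • v))).1 n) = fun _ => (1 : ℝ) := by
    funext s
    rw [mnr_self]
    exact (act g⁻¹ (f (x + s • v))).2.2
  rw [hc] at hd
  have h0 := hd.unique (hasDerivAt_const (0 : ℝ) (1 : ℝ))
  have htr : Matrix.trace ((g⁻¹ : SL n).1 * w * (g⁻¹ : SL n).1ᵀ) = 0 := by
    rw [← h0, Matrix.trace]
    refine Finset.sum_congr rfl fun j _ => ?_
    rw [if_pos j.2, Matrix.diag_apply]
  have hT : IsTan (o n) ((g⁻¹ : SL n).1 * w * (g⁻¹ : SL n).1ᵀ) := by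
    refine ⟨?_, ?_⟩
    · rw [Matrix.transpose_mul, Matrix.transpose_mul, Matrix.transpose_transpose, hsym,
        Matrix.mul_assoc]
    · change Matrix.trace ((1 : Mt n)⁻¹ * _) = 0
      rw [inv_one, Matrix.one_mul]
      exact htr
  have h2 := (tan_facts (n := n)).2.1 g (o n) _ hT
  rw [← hg] at h2
  have h3 : g.1 * ((g⁻¹ : SL n).1 * w * (g⁻¹ : SL n).1ᵀ) * g.1ᵀ = w := by
    calc g.1 * ((g⁻¹ : SL n).1 * w * (g⁻¹ : SL n).1ᵀ) * g.1ᵀ
        = (g.1 * (g⁻¹ : SL n).1) * w * ((g⁻¹ : SL n).1ᵀ * g.1ᵀ) := by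
          simp only [Matrix.mul_assoc]
      _ = w := by rw [hinv', hinvt', Matrix.one_mul, Matrix.mul_one]
  rw [h3] at h2
  exact h2

end LibNC38
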