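import Pool.Agent.LibNS38.P0
import Pool.Agent.LibNS38.D1

set_option autoImplicit false
set_option maxSynthPendingDepth 3

open Matrix MeasureTheory Topology Filter
open scoped Matrix.Norms.Elementwise ContDiff

namespace LibNC38

private theorem P1_syp_add {n : ℕ} (A B : Mt n) : syp (A + B) = syp A + syp B := by
  unfold syp
  ext i j
  simp only [Matrix.smul_apply, Matrix.add_apply, Matrix.transpose_apply, smul_eq_mul]
  ring

private theorem P1_syp_smul {n : ℕ} (r : ℝ) (A : Mt n) : syp (r • A) = r • syp A := by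
  unfold syp
  ext i j
  simp only [Matrix.smul_apply, Matrix.add_apply, Matrix.transpose_apply, smul_eq_mul]
  ring

private theorem P1_skp_add {n : ℕ} (A B : Mt n) : skp (A + B) = skp A + skp B := by
  unfold skp
  ext i j
  simp only [Matrix.smul_apply, Matrix.add_apply, Matrix.sub_apply, Matrix.transpose_apply,
    smul_eq_mul]
  ring

private theorem P1_skp_smul {n : ℕ} (r : ℝ) (A : Mt n) : skp (r • A) = r • skp A := by
  unfold skp
  ext i j
  simp only [Matrix.smul_apply, Matrix.sub_apply, Matrix.transpose_apply, smul_eq_mul]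
  ring

private theorem P1_dec {n : ℕ} (A : Mt n) : A = syp A + skp A := by
  unfold syp skp
  ext i j
  simp only [Matrix.smul_apply, Matrix.add_apply, Matrix.sub_apply, Matrix.transpose_apply,
    smul_eq_mul]
  ring

private theorem P1_sq {n : ℕ} (k : Mt n) : (kᵀ * k).trace = ∑ j, ∑ i, k i j ^ 2 := by
  simp only [Matrix.trace, Matrix.diag, Matrix.mul_apply, Matrix.transpose_apply]
  refine Finset.sum_congr rfl fun j _ => Finset.sum_congr rfl fun i _ => ?_
  ring

private theorem P1_sq_nonneg {n : ℕ} (k : Mt n) : 0 ≤ (kᵀ * k).trace := by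
  rw [P1_sq]
  exact Finset.sum_nonneg fun j _ => Finset.sum_nonneg fun i _ => sq_nonneg _

private theorem P1_sq_zero {n : ℕ} (k : Mt n) (h : (kᵀ * k).trace = 0) : k = 0 := by
  rw [P1_sq] at h
  have h1 := (Finset.sum_eq_zero_iff_of_nonneg
    (fun j _ => Finset.sum_nonneg fun i _ => sq_nonneg (k i j))).1 h
  ext i j
  have h2 := (Finset.sum_eq_zero_iff_of_nonneg (fun i _ => sq_nonneg (k i j))).1
    (h1 j (Finset.mem_univ _)) i (Finset.mem_univ _)
  simpa using h2

private theorem P1_fd {n : ℕ} (v : Mt n) :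
    ContDiffOn ℝ ∞ (fun A : Mt n => fderiv ℝ (fun B : Mt n => (ret B).1) A v) (PU n) := by
  have h1 : ContDiffOn ℝ ∞ (fun B : Mt n => ((ret B).1 : Mt n)) (PU n) := ret_smooth
  have h2 := h1.fderiv_of_isOpen (m := ∞) PU_open (by simp)
  exact h2.clm_apply contDiffOn_const

private theorem P1_tr {n : ℕ} (v : Mt n) :
    ContDiffOn ℝ ∞ (fun A : Mt n => ((syp A)⁻¹ * syp v).trace) (PU n) := by
  refine cd_trace (cd_mul (cd_inv syp_smooth ?_) contDiffOn_const)
  intro A hA
  have h5 : (syp A).PosDef := hA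
  exact h5.det_pos.ne'

/-- Row P1. The product metric is a metric. PLAN. Bilinear, symmetric, smooth (`cd_bil` with
`A ↦ fderiv (ret) A v` smooth on `PU n`; `cd_inv`, `det (syp A) ≠ 0`). Positive: all three terms are
nonnegative (`tan_fderiv`: `fderiv ret A v` is tangent at `ret A`; `tr (kᵀ k) = ∑ k i j ^ 2`); if the sum
is zero then `skp v = 0`, `tr (s⁻¹ syp v) = 0`, `fderiv ret A v = 0`, so `syp v = 0` by `proj_deriv`. -/
theorem met_prodm {n : ℕ} (hn : 1 ≤ n) (h : PD n → Fm n) (hh : MetX h) :
    NS38.Met (prodm h) (PU n) := by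
  refine ⟨⟨?_, ?_, ?_⟩, ?_, ?_⟩
  · intro A _ u v w
    unfold prodm
    rw [map_add, P1_syp_add, P1_skp_add, map_add, LinearMap.add_apply, Matrix.mul_add,
      Matrix.trace_add, Matrix.transpose_add, Matrix.add_mul, Matrix.trace_add]
    ring
  · intro A _ r v w
    unfold prodm
    rw [map_smul, P1_syp_smul, P1_skp_smul, map_smul, LinearMap.smul_apply, Matrix.mul_smul,
      Matrix.trace_smul, Matrix.transpose_smul, Matrix.smul_mul, Matrix.trace_smul]
    simp only [smul_eq_mul]
    ring
  · intro A _ v w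
    unfold prodm
    rw [hh.symm]
    have h1 : ((skp v)ᵀ * skp w).trace = ((skp w)ᵀ * skp v).trace := by
      rw [← Matrix.trace_transpose, Matrix.transpose_mul, Matrix.transpose_transpose]
    rw [h1]
    ring
  · intro v w
    unfold prodm
    have h1 : ContDiffOn ℝ ∞ (fun A : Mt n =>
        h (ret A) (fderiv ℝ (fun B : Mt n => (ret B).1) A v)
          (fderiv ℝ (fun B : Mt n => (ret B).1) A w)) (PU n) :=
      cd_bil (K := fun A : Mt n => h (ret A)) hh.smooth (P1_fd v) (P1_fd w)
    have h2 : ContDiffOn ℝ ∞ (fun A : Mt n =>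
        1 / (n : ℝ) * ((syp A)⁻¹ * syp v).trace * ((syp A)⁻¹ * syp w).trace) (PU n) :=
      (contDiffOn_const.mul (P1_tr v)).mul (P1_tr w)
    exact (h1.add h2).add contDiffOn_const
  · intro A hA v hv
    have hnp : (0 : ℝ) < n := by exact_mod_cast hn
    have hr : ContDiffOn ℝ ∞ (fun B : Mt n => (ret B).1) (PU n) := ret_smooth
    have hd : DifferentiableAt ℝ (fun B : Mt n => (ret B).1) A :=
      (hr.differentiableOn (by simp)).differentiableAt (PU_open.mem_nhds hA)
    have ht : IsTan (ret A) (fderiv ℝ (fun B : Mt n => (ret B).1) A v) := tan_fderiv _ A hd v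
    set F : Mt n := fderiv ℝ (fun B : Mt n => (ret B).1) A v with hF
    set t : ℝ := ((syp A)⁻¹ * syp v).trace with htt
    have e1 : 0 ≤ h (ret A) F F := by
      by_cases h0 : F = 0
      · rw [h0]
        simp
      · exact (hh.pos _ _ ht h0).le
    have e2 : 0 ≤ 1 / (n : ℝ) * t * t := by
      have : 1 / (n : ℝ) * t * t = 1 / (n : ℝ) * t ^ 2 := by ring
      rw [this]
      positivity
    have e3 := P1_sq_nonneg (skp v)
    have hval : prodm h A v v = h (ret A) F F + 1 / (n : ℝ) * t * t + ((skp v)ᵀ * skp v).trace := by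
      simp only [prodm, hF, htt]
    rw [hval]
    by_contra hcon
    have hle : h (ret A) F F + 1 / (n : ℝ) * t * t + ((skp v)ᵀ * skp v).trace ≤ 0 := not_lt.1 hcon
    have z1 : h (ret A) F F = 0 := by linarith
    have z2 : 1 / (n : ℝ) * t * t = 0 := by linarith
    have z3 : ((skp v)ᵀ * skp v).trace = 0 := by linarith
    have k3 := P1_sq_zero _ z3
    have k2 : t = 0 := by
      rcases mul_eq_zero.1 z2 with h6 | h6
      · rcases mul_eq_zero.1 h6 with h7 | h7
        · exact absurd h7 (by positivity)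
        · exact h7
      · exact h6
    have k1 : F = 0 := by
      by_contra h0
      exact absurd z1 (hh.pos _ _ ht h0).ne'
    have k4 := (proj_deriv A hA v).2
    rw [← hF, ← htt, k1, k2, mul_zero, zero_smul, sub_zero] at k4
    have k5 : syp v = 0 := by
      rcases smul_eq_zero.1 k4.symm with h8 | h8
      · exact absurd h8 (Real.exp_pos _).ne'
      · exact h8
    apply hv
    rw [P1_dec v, k5, k3, add_zero]

end LibNC38
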