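import Pool.Agent.LibNS38.P1
import Pool.Agent.LibNS38.G3

set_option autoImplicit false
set_option maxSynthPendingDepth 3

open Matrix MeasureTheory Topology Filter
open scoped Matrix.Norms.Elementwise ContDiff

namespace LibNC38

private theorem P4_dA {n : ℕ} {f : Mt n → Mt n} (hf : ContDiffOn ℝ ∞ f (PU n)) {A : Mt n}
    (hA : A ∈ PU n) : DifferentiableAt ℝ f A :=
  (hf.differentiableOn (by simp)).differentiableAt (PU_open.mem_nhds hA)

private theorem P4_dR {n : ℕ} {f : Mt n → ℝ} (hf : ContDiffOn ℝ ∞ f (PU n)) {A : Mt n}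
    (hA : A ∈ PU n) : DifferentiableAt ℝ f A :=
  (hf.differentiableOn (by simp)).differentiableAt (PU_open.mem_nhds hA)

private theorem P4_chainA {n : ℕ} {F L : Mt n → Mt n} {A : Mt n}
    (hL : DifferentiableAt ℝ L A) (hF : DifferentiableAt ℝ F (L A)) (v : Mt n) :
    fderiv ℝ F (L A) (fderiv ℝ L A v) = fderiv ℝ (fun C => F (L C)) A v := by
  have h := hF.hasFDerivAt.comp A hL.hasFDerivAt
  have h1 : fderiv ℝ (fun C => F (L C)) A = (fderiv ℝ F (L A)).comp (fderiv ℝ L A) := h.fderiv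
  rw [h1]
  rfl

private theorem P4_chainR {n : ℕ} {F : Mt n → ℝ} {L : Mt n → Mt n} {A : Mt n}
    (hL : DifferentiableAt ℝ L A) (hF : DifferentiableAt ℝ F (L A)) (v : Mt n) :
    fderiv ℝ F (L A) (fderiv ℝ L A v) = fderiv ℝ (fun C => F (L C)) A v := by
  have h := hF.hasFDerivAt.comp A hL.hasFDerivAt
  have h1 : fderiv ℝ (fun C => F (L C)) A = (fderiv ℝ F (L A)).comp (fderiv ℝ L A) := h.fderiv
  rw [h1]
  rfl

/-- the skew part as a linear map -/
private noncomputable def P4_S (n : ℕ) : Mt n →ₗ[ℝ] Mt n where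
  toFun := fun A => skp A
  map_add' := by
    intro A B
    ext i j
    simp only [skp, Matrix.smul_apply, Matrix.sub_apply, Matrix.add_apply, Matrix.transpose_apply,
      smul_eq_mul]
    ring
  map_smul' := by
    intro r A
    ext i j
    simp only [skp, Matrix.smul_apply, Matrix.sub_apply, Matrix.transpose_apply,
      smul_eq_mul, RingHom.id_apply]
    ring

private theorem P4_skp {n : ℕ} (B : Mt n) :
    HasFDerivAt (fun C : Mt n => skp C) (LinearMap.toContinuousLinearMap (P4_S n)) B :=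
  (LinearMap.toContinuousLinearMap (P4_S n)).hasFDerivAt

private theorem P4_tan_add {n : ℕ} {p : PD n} {v w : Mt n} (hv : IsTan p v) (hw : IsTan p w) :
    IsTan p (v + w) := by
  refine ⟨?_, ?_⟩
  · rw [Matrix.transpose_add, hv.1, hw.1]
  · rw [Matrix.mul_add, Matrix.trace_add, hv.2, hw.2, add_zero]

/-- Row P4. Pull back of the product metric by `lft a φ`. PLAN. `B := lft a φ A`. Chain rule:
`D ret (B) (D lft v) = D (A ↦ (φ (ret A)).1) v = dff φ (ret A) (D ret (A) v)` (`lft_facts`,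
`(φ (ret A)).1 = F ((ret A).1)` with `F A' = (φ (ret A')).1`), `D ell (B) (D lft v) = a * D ell (A) v`,
`skp (D lft v) = a • skp v`; `proj_deriv`; then `hp` at `ret A` for the tangent vectors `D ret v`,
`D ret w` (polarize: both sides are symmetric bilinear) gives the first term, `a ^ 2 = c` the others. -/
theorem prodm_pull {n : ℕ} (hn : 1 ≤ n) (h m : PD n → Fm n)
    (hs : ∀ p v w, h p v w = h p w v) (ms : ∀ p v w, m p v w = m p w v) (φ : PD n → PD n)
    (hφ : SmX φ) (a : ℝ) (ha : 0 < a)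
    (hp : ∀ p v, IsTan p v → pul φ h p v v = a ^ 2 * m p v v) :
    ∀ A ∈ PU n, ∀ v w, prodm h (lft a φ A) (fderiv ℝ (lft a φ) A v) (fderiv ℝ (lft a φ) A w) =
      a ^ 2 * prodm m A v w := by
  intro A hA v w
  have hnhds : PU n ∈ 𝓝 A := PU_open.mem_nhds hA
  have hLs : ContDiffOn ℝ ∞ (lft a φ) (PU n) := (lft_facts hn).2.2.2.2 a φ hφ
  have hL : DifferentiableAt ℝ (lft a φ) A := P4_dA hLs hA
  obtain ⟨hB, hrB, heB, hkB⟩ := (lft_facts hn).1 a φ A hA
  have hret : ∀ {C : Mt n}, C ∈ PU n → DifferentiableAt ℝ (fun C : Mt n => (ret C).1) C :=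
    fun hC => P4_dA ret_smooth hC
  have hell : ∀ {C : Mt n}, C ∈ PU n → DifferentiableAt ℝ (fun C : Mt n => ell C) C :=
    fun hC => P4_dR (dec_facts hn).2.2.2.2.1 hC
  -- first projection
  have k1 : ∀ u : Mt n, fderiv ℝ (fun C : Mt n => (ret C).1) (lft a φ A) (fderiv ℝ (lft a φ) A u) =
      dff φ (ret A) (fderiv ℝ (fun C : Mt n => (ret C).1) A u) := by
    intro u
    have e1 := P4_chainA (F := fun C : Mt n => (ret C).1) hL (hret hB) u
    rw [e1]
    have e2 : (fun C : Mt n => (ret (lft a φ C)).1) =ᶠ[𝓝 A] fun C : Mt n => (φ (ret C)).1 := by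
      filter_upwards [hnhds] with C hC
      rw [((lft_facts hn).1 a φ C hC).2.1]
    rw [e2.fderiv_eq]
    have e3 : (fun C : Mt n => (φ (ret C)).1) = fun C : Mt n =>
        (fun D : Mt n => (φ (ret D)).1) ((fun D : Mt n => (ret D).1) C) := by
      funext C
      show (φ (ret C)).1 = (φ (ret (ret C).1)).1
      rw [ret_self]
    rw [e3]
    have e4 := P4_chainA (F := fun D : Mt n => (φ (ret D)).1) (L := fun D : Mt n => (ret D).1)
      (A := A) (hret hA) (P4_dA hφ (mem_PU (ret A))) u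
    rw [← e4]
    rfl
  -- second projection
  have k2 : ∀ u : Mt n, ((syp (lft a φ A))⁻¹ * syp (fderiv ℝ (lft a φ) A u)).trace =
      a * ((syp A)⁻¹ * syp u).trace := by
    intro u
    have e1 := P4_chainR (F := fun C : Mt n => ell C) hL (hell hB) u
    have e2 : (fun C : Mt n => ell (lft a φ C)) =ᶠ[𝓝 A] fun C : Mt n => a * ell C := by
      filter_upwards [hnhds] with C hC
      rw [((lft_facts hn).1 a φ C hC).2.2.1]
    rw [e2.fderiv_eq] at e1
    have e3 : fderiv ℝ (fun C : Mt n => a * ell C) A u = a * fderiv ℝ (fun C : Mt n => ell C) A u := by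
      have e4 : HasFDerivAt (fun C : Mt n => a * ell C) (a • fderiv ℝ (fun C : Mt n => ell C) A) A :=
        (hell hA).hasFDerivAt.const_mul a
      rw [e4.fderiv]
      rfl
    rw [e3, (proj_deriv A hA u).1, (proj_deriv _ hB _).1] at e1
    have hn' : (n : ℝ) ≠ 0 := by
      have : 0 < n := hn
      exact_mod_cast this.ne'
    field_simp at e1
    linarith
  -- third projection
  have k3 : ∀ u : Mt n, skp (fderiv ℝ (lft a φ) A u) = a • skp u := by
    intro u
    have e1 := P4_chainA (F := fun C : Mt n => skp C) hL (P4_skp (lft a φ A)).differentiableAt u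
    rw [(P4_skp (lft a φ A)).fderiv] at e1
    have e2 : (fun C : Mt n => skp (lft a φ C)) =ᶠ[𝓝 A] fun C : Mt n => a • skp C := by
      filter_upwards [hnhds] with C hC
      rw [((lft_facts hn).1 a φ C hC).2.2.2]
    have e4 : HasFDerivAt (fun C : Mt n => a • skp C)
        (a • LinearMap.toContinuousLinearMap (P4_S n)) A := (P4_skp A).const_smul a
    rw [e2.fderiv_eq, e4.fderiv] at e1
    exact e1
  -- the first term
  have t1 : ∀ u : Mt n, IsTan (ret A) (fderiv ℝ (fun C : Mt n => (ret C).1) A u) :=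
    fun u => tan_fderiv (fun C : Mt n => ret C) A (hret hA) u
  have pol : ∀ x y : Mt n, IsTan (ret A) x → IsTan (ret A) y →
      pul φ h (ret A) x y = a ^ 2 * m (ret A) x y := by
    intro x y hx hy
    have e1 := hp (ret A) (x + y) (P4_tan_add hx hy)
    have e2 := hp (ret A) x hx
    have e3 := hp (ret A) y hy
    have e4 : pul φ h (ret A) y x = pul φ h (ret A) x y := by
      rw [pul_apply, pul_apply, hs]
    have e5 : m (ret A) y x = m (ret A) x y := ms _ _ _
    simp only [map_add, LinearMap.add_apply] at e1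
    rw [e2, e3, e4, e5] at e1
    linarith
  unfold prodm
  rw [k1 v, k1 w, k2 v, k2 w, k3 v, k3 w, hrB]
  have e6 := pol _ _ (t1 v) (t1 w)
  rw [pul_apply] at e6
  rw [e6]
  have e7 : ((a • skp v)ᵀ * (a • skp w)).trace = a ^ 2 * ((skp v)ᵀ * skp w).trace := by
    rw [Matrix.transpose_smul, Matrix.smul_mul, Matrix.mul_smul, Matrix.trace_smul,
      Matrix.trace_smul, smul_eq_mul, smul_eq_mul]
    ring
  rw [e7]
  ring

/-- Row P4 (second part). PLAN. `lft a⁻¹ χ` is a left and right inverse (`lft_facts` twice), chain rule. -/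
theorem lft_surj {n : ℕ} (hn : 1 ≤ n) (Γ : Subgroup (SL n)) (φ : PD n → PD n) (hφ : Dfm Γ φ) (a : ℝ)
    (ha : 0 < a) : ∀ A ∈ PU n, Function.Surjective (fderiv ℝ (lft a φ) A) := by
  intro A hA w
  obtain ⟨χ, hχ, h1, h2⟩ := hφ.inv
  have hB : lft a φ A ∈ PU n := ((lft_facts hn).1 a φ A hA).1
  have hMA : lft a⁻¹ χ (lft a φ A) = A := (lft_facts hn).2.1 a φ χ ha h1 A hA
  have hLM : ∀ D ∈ PU n, lft a φ (lft a⁻¹ χ D) = D := by
    intro D hD
    have h3 := (lft_facts hn).2.1 a⁻¹ χ φ (inv_pos.2 ha) h2 D hD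
    rwa [inv_inv] at h3
  have hL : DifferentiableAt ℝ (lft a φ) (lft a⁻¹ χ (lft a φ A)) := by
    rw [hMA]
    exact P4_dA ((lft_facts hn).2.2.2.2 a φ hφ.smooth) hA
  have hM : DifferentiableAt ℝ (lft a⁻¹ χ) (lft a φ A) :=
    P4_dA ((lft_facts hn).2.2.2.2 a⁻¹ χ hχ) hB
  have e1 := P4_chainA (F := lft a φ) (L := lft a⁻¹ χ) (A := lft a φ A) hM hL w
  have e2 : (fun C : Mt n => lft a φ (lft a⁻¹ χ C)) =ᶠ[𝓝 (lft a φ A)] fun C : Mt n => C := by
    filter_upwards [PU_open.mem_nhds hB] with C hC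
    exact hLM C hC
  rw [e2.fderiv_eq, hMA] at e1
  refine ⟨fderiv ℝ (lft a⁻¹ χ) (lft a φ A) w, ?_⟩
  rw [e1]
  have e3 : fderiv ℝ (fun C : Mt n => C) (lft a φ A) = ContinuousLinearMap.id ℝ (Mt n) :=
    fderiv_fun_id
  rw [e3]
  rfl

end LibNC38
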