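import Pool.Agent.LibNS38.P0
import Pool.Agent.LibNS38.P1

set_option autoImplicit false
set_option maxSynthPendingDepth 3

open Matrix MeasureTheory Topology Filter
open scoped Matrix.Norms.Elementwise ContDiff

namespace LibNC38

private theorem P2_zero {n : ℕ} (p : PD n) (v : Mt n) (hv : vᵀ = v)
    (h : (p.1⁻¹ * v * (p.1⁻¹ * v)).trace = 0) : v = 0 := by
  set t := tch p with ht
  have e1 : t⁻¹.1 * t.1 = 1 := congrArg Subtype.val (inv_mul_cancel t)
  have e2 : t.1 * t⁻¹.1 = 1 := congrArg Subtype.val (mul_inv_cancel t)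
  have hp : p.1 = t.1 * t.1ᵀ := (tch_mul p).symm
  have e3 : t⁻¹.1ᵀ * t.1ᵀ = 1 := by rw [← Matrix.transpose_mul, e2, Matrix.transpose_one]
  have hinv : p.1⁻¹ = t⁻¹.1ᵀ * t⁻¹.1 := by
    apply Matrix.inv_eq_left_inv
    rw [hp]
    calc t⁻¹.1ᵀ * t⁻¹.1 * (t.1 * t.1ᵀ) = t⁻¹.1ᵀ * (t⁻¹.1 * t.1) * t.1ᵀ := by
          simp only [Matrix.mul_assoc]
      _ = 1 := by rw [e1, Matrix.mul_one, e3]
  set W := t⁻¹.1 * v * t⁻¹.1ᵀ with hW
  have hWs : Wᵀ = W := by
    rw [hW, Matrix.transpose_mul, Matrix.transpose_mul, Matrix.transpose_transpose, hv,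
      Matrix.mul_assoc]
  have e4 : (p.1⁻¹ * v * (p.1⁻¹ * v)).trace = (W * Wᵀ).trace := by
    rw [hWs, hinv, hW]
    have : t⁻¹.1ᵀ * t⁻¹.1 * v * (t⁻¹.1ᵀ * t⁻¹.1 * v) =
        t⁻¹.1ᵀ * (t⁻¹.1 * v * t⁻¹.1ᵀ * (t⁻¹.1 * v)) := by simp only [Matrix.mul_assoc]
    rw [this, Matrix.trace_mul_comm]
    simp only [Matrix.mul_assoc]
  have h0 : (W * Wᵀ).trace = 0 := by rw [← e4, h]
  have hW0 : W = 0 := by
    rw [Matrix.trace] at h0
    ext i j
    have h1 : ∀ i ∈ Finset.univ, 0 ≤ (W * Wᵀ).diag i := by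
      intro i _
      rw [Matrix.diag_apply, Matrix.mul_apply]
      exact Finset.sum_nonneg fun j _ => by rw [Matrix.transpose_apply]; exact mul_self_nonneg _
    have h2 := (Finset.sum_eq_zero_iff_of_nonneg h1).1 h0 i (Finset.mem_univ i)
    rw [Matrix.diag_apply, Matrix.mul_apply] at h2
    have h3 : ∀ j ∈ Finset.univ, 0 ≤ W i j * Wᵀ j i := by
      intro j _
      rw [Matrix.transpose_apply]; exact mul_self_nonneg _
    have h4 := (Finset.sum_eq_zero_iff_of_nonneg h3).1 h2 j (Finset.mem_univ j)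
    rw [Matrix.transpose_apply] at h4
    rw [mul_self_eq_zero.1 h4, Matrix.zero_apply]
  have h5 : v = t.1 * W * t.1ᵀ := by
    have e5 : t⁻¹.1ᵀ * t.1ᵀ = 1 := e3
    rw [hW]
    calc v = (t.1 * t⁻¹.1) * v * (t⁻¹.1ᵀ * t.1ᵀ) := by
          rw [e2, e5, Matrix.one_mul, Matrix.mul_one]
      _ = t.1 * (t⁻¹.1 * v * t⁻¹.1ᵀ) * t.1ᵀ := by simp only [Matrix.mul_assoc]
  rw [h5, hW0, Matrix.mul_zero, Matrix.zero_mul]

private theorem P2_inv {n : ℕ} (A : Mt n) (hA : A ∈ PU n) :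
    (ret A).1⁻¹ = Real.exp (ell A) • (syp A)⁻¹ := by
  have hs : (syp A).PosDef := hA
  have hu : IsUnit (syp A).det := hs.det_pos.ne'.isUnit
  apply Matrix.inv_eq_left_inv
  have hrk : rk A = Real.exp (-(ell A)) := by
    unfold rk ell
    congr 1
    ring
  rw [ret_val hA, hrk, Matrix.smul_mul, Matrix.mul_smul, smul_smul, Matrix.nonsing_inv_mul _ hu,
    ← Real.exp_add, add_neg_cancel, Real.exp_zero, one_smul]

private theorem P2_lin {n : ℕ} (A : Mt n) (hA : A ∈ PU n) (u : Mt n) (t : ℝ) :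
    (ret A).1⁻¹ * (Real.exp (-(ell A)) • (u - t • syp A)) = (syp A)⁻¹ * u - t • (1 : Mt n) := by
  have hs : (syp A).PosDef := hA
  have hu : IsUnit (syp A).det := hs.det_pos.ne'.isUnit
  rw [P2_inv A hA, Matrix.smul_mul, Matrix.mul_smul, smul_smul, ← Real.exp_add, add_neg_cancel,
    Real.exp_zero, one_smul, Matrix.mul_sub, Matrix.mul_smul, Matrix.nonsing_inv_mul _ hu]

/-- Row P2. The symmetric case. PLAN. With `u = syp v`, `s = syp A`, `τ = tr (s⁻¹ u)`: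
`(ret A).1⁻¹ = exp (ell A) s⁻¹`, `fderiv ret A v = exp (- ell A) (u - (τ/n) s)`, so
`gF (ret A) (..) (..) = tr (s⁻¹ (u - (τ/n) s) s⁻¹ (u' - (τ'/n) s)) = tr (s⁻¹ u s⁻¹ u') - τ τ'/n`.
`MetX gF`: smooth as in `smF_facts`; positive: `gF_self`, `spd`. -/
theorem prodm_gF {n : ℕ} (hn : 1 ≤ n) : MetX (gF : PD n → Fm n) ∧
    ∀ A ∈ PU n, ∀ v w : Mt n, prodm gF A v w =
      ((syp A)⁻¹ * syp v * ((syp A)⁻¹ * syp w)).trace + ((skp v)ᵀ * skp w).trace := by
  refine ⟨⟨?_, ?_, ?_⟩, ?_⟩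
  · intro v w
    have h1 : ContDiffOn ℝ ∞ (fun A : Mt n => (ret A).1⁻¹) (PU n) :=
      cd_inv ret_smooth (fun A _ => by rw [(ret A).2.2]; exact one_ne_zero)
    have h2 : ∀ u : Mt n, ContDiffOn ℝ ∞ (fun A : Mt n => (ret A).1⁻¹ * u) (PU n) := fun u =>
      cd_mul h1 contDiffOn_const
    exact cd_trace (cd_mul (h2 v) (h2 w))
  · intro p v w
    rw [gF_apply, gF_apply, Matrix.trace_mul_comm]
  · intro p v hv hne
    rw [gF_self p v hv]
    have h0 : 0 ≤ spd p v := spd_facts.2.2.2 p v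
    have h1 : spd p v ≠ 0 := by
      intro h
      have h2 := gF_self p v hv
      rw [h, gF_apply] at h2
      exact hne (P2_zero p v hv.1 (by rw [h2]; norm_num))
    positivity
  · intro A hA v w
    have hn' : (n : ℝ) ≠ 0 := by
      have : n ≠ 0 := by omega
      exact_mod_cast this
    unfold prodm
    rw [(proj_deriv A hA v).2, (proj_deriv A hA w).2, gF_apply, P2_lin A hA, P2_lin A hA]
    set X := (syp A)⁻¹ * syp v
    set Y := (syp A)⁻¹ * syp w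
    have h1 : (X - (1 / (n : ℝ) * X.trace) • (1 : Mt n)) * (Y - (1 / (n : ℝ) * Y.trace) • (1 : Mt n)) =
        X * Y - (1 / (n : ℝ) * Y.trace) • X - (1 / (n : ℝ) * X.trace) • Y +
          ((1 / (n : ℝ) * X.trace) * (1 / (n : ℝ) * Y.trace)) • (1 : Mt n) := by
      rw [Matrix.sub_mul, Matrix.mul_sub, Matrix.mul_sub, Matrix.mul_smul, Matrix.mul_smul,
        Matrix.smul_mul, Matrix.smul_mul, Matrix.mul_one, Matrix.one_mul, Matrix.one_mul, smul_smul]
      rw [mul_comm (1 / (n : ℝ) * Y.trace) (1 / (n : ℝ) * X.trace)]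
      abel
    rw [h1, Matrix.trace_add, Matrix.trace_sub, Matrix.trace_sub, Matrix.trace_smul,
      Matrix.trace_smul, Matrix.trace_smul, Matrix.trace_one, Fintype.card_fin, smul_eq_mul,
      smul_eq_mul, smul_eq_mul]
    field_simp
    ring

end LibNC38
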