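import Pool.Agent.LibNS38.B5
import Pool.Agent.LibNS38.B7

set_option autoImplicit false
set_option maxSynthPendingDepth 3

open Topology Filter Set
open scoped ContDiff

namespace NS38

private theorem B6_clm {E : Type} [NormedAddCommGroup E] [NormedSpace ℝ E] {Ω : Set E}
    (hΩ : IsOpen Ω) (C : E → E →L[ℝ] E →L[ℝ] E) (hC : ContDiffOn ℝ ∞ C Ω) :
    ∃ R : E → E →L[ℝ] E →L[ℝ] E →L[ℝ] E, ContDiffOn ℝ ∞ R Ω ∧
      ∀ x ∈ Ω, ∀ u v w, curv C x u v w = R x u v w := by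
  obtain ⟨R, hR, hRC⟩ := (curv_clm (P := ℝ) (fun _ x => C x) (univ ×ˢ Ω) (isOpen_univ.prod hΩ)
    (hC.comp contDiff_snd.contDiffOn fun x hx => hx.2)).1
  refine ⟨fun x => R (0, x), ?_, fun x hx u v w => hRC (0, x) ⟨mem_univ _, hx⟩ u v w⟩
  exact hR.comp (contDiff_const.prodMk contDiff_id).contDiffOn fun x hx => ⟨mem_univ _, hx⟩

/-- Row B6. Its covariant derivative is natural. PLAN. Differentiate `curv_trans` in direction `z`:
`B(z, R'(u, v) w) + A D_z R'(u, v) w = (D_{A z} R)(A u, A v) A w + R(B(z, u), A v) A w +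
R(A u, B(z, v)) A w + R(A u, A v) B(z, w)`; `R x u v w` is trilinear (from its formula: `C` is bilinear and
`fderiv ℝ (fun y => C y v w) x u = fderiv ℝ C x u v w`), so that the product rule applies (write
`curv C` as a `C^∞` map into `E →L[ℝ] E →L[ℝ] E →L[ℝ] E`, `curv_clm` of row B7); then the law for the
terms `A C'(z, ..)` and `C'` in the slots. -/
theorem dcurv_trans {E : Type} [NormedAddCommGroup E] [NormedSpace ℝ E] {Ω Ω' : Set E}
    (hΩ : IsOpen Ω) (hΩ' : IsOpen Ω') (φ : E → E) (hφ : ContDiffOn ℝ ∞ φ Ω')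
    (hm : ∀ x ∈ Ω', φ x ∈ Ω) (C C' : E → E →L[ℝ] E →L[ℝ] E) (hC : ContDiffOn ℝ ∞ C Ω)
    (hC' : ContDiffOn ℝ ∞ C' Ω')
    (hlaw : ∀ x ∈ Ω', ∀ v w, fderiv ℝ φ x (C' x v w) =
      C (φ x) (fderiv ℝ φ x v) (fderiv ℝ φ x w) + fderiv ℝ (fderiv ℝ φ) x v w) :
    ∀ x ∈ Ω', ∀ z u v w, fderiv ℝ φ x (dcurv C' x z u v w) =
      dcurv C (φ x) (fderiv ℝ φ x z) (fderiv ℝ φ x u) (fderiv ℝ φ x v) (fderiv ℝ φ x w) := by
  intro x hx z u v w
  obtain ⟨R, hR, hRC⟩ := B6_clm hΩ C hC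
  obtain ⟨R', hR', hRC'⟩ := B6_clm hΩ' C' hC'
  have htr := curv_trans hΩ hΩ' φ hφ hm C C' hC hC' hlaw
  have htr' : ∀ y ∈ Ω', ∀ u v w, fderiv ℝ φ y (R' y u v w) =
      R (φ y) (fderiv ℝ φ y u) (fderiv ℝ φ y v) (fderiv ℝ φ y w) := by
    intro y hy u v w
    rw [← hRC' y hy, ← hRC (φ y) (hm y hy)]
    exact htr y hy u v w
  have hφx : HasFDerivAt φ (fderiv ℝ φ x) x :=
    ((hφ.contDiffAt (hΩ'.mem_nhds hx)).differentiableAt (by simp)).hasFDerivAt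
  have hA : HasFDerivAt (fderiv ℝ φ) (fderiv ℝ (fderiv ℝ φ) x) x := by
    have h1 : ContDiffOn ℝ 1 (fderiv ℝ φ) Ω' := hφ.fderiv_of_isOpen hΩ' (by norm_cast)
    exact ((h1.contDiffAt (hΩ'.mem_nhds hx)).differentiableAt (by simp)).hasFDerivAt
  have hAu : ∀ a, HasFDerivAt (fun y => fderiv ℝ φ y a)
      ((fderiv ℝ (fderiv ℝ φ) x).flip a) x := by
    intro a
    have := hA.clm_apply (hasFDerivAt_const a x)
    simpa using this
  have hR'x : HasFDerivAt R' (fderiv ℝ R' x) x :=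
    ((hR'.contDiffAt (hΩ'.mem_nhds hx)).differentiableAt (by simp)).hasFDerivAt
  have hRx : HasFDerivAt R (fderiv ℝ R (φ x)) (φ x) :=
    ((hR.contDiffAt (hΩ.mem_nhds (hm x hx))).differentiableAt (by simp)).hasFDerivAt
  have hRφ : HasFDerivAt (fun y => R (φ y)) ((fderiv ℝ R (φ x)).comp (fderiv ℝ φ x)) x :=
    hRx.comp x hφx
  have h1 := ((hR'x.clm_apply (hasFDerivAt_const u x)).clm_apply
    (hasFDerivAt_const v x)).clm_apply (hasFDerivAt_const w x)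
  have hL := hA.clm_apply h1
  have h2 := ((hRφ.clm_apply (hAu u)).clm_apply (hAu v)).clm_apply (hAu w)
  have heq : (fun y => fderiv ℝ φ y (R' y u v w)) =ᶠ[𝓝 x]
      fun y => R (φ y) (fderiv ℝ φ y u) (fderiv ℝ φ y v) (fderiv ℝ φ y w) := by
    filter_upwards [hΩ'.mem_nhds hx] with y hy
    exact htr' y hy u v w
  have h3 := hL.unique (h2.congr_of_eventuallyEq heq)
  have h4 := congrArg (fun L : E →L[ℝ] E => L z) h3
  simp only [ContinuousLinearMap.add_apply, ContinuousLinearMap.comp_apply,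
    ContinuousLinearMap.flip_apply, ContinuousLinearMap.zero_apply, map_zero, zero_add,
    ContinuousLinearMap.comp_zero, add_zero] at h4
  have hd' : fderiv ℝ (fun y => curv C' y u v w) x z = fderiv ℝ R' x z u v w := by
    have h5 : (fun y => curv C' y u v w) =ᶠ[𝓝 x] fun y => R' y u v w := by
      filter_upwards [hΩ'.mem_nhds hx] with y hy
      exact hRC' y hy u v w
    rw [h5.fderiv_eq, h1.fderiv]
    simp
  have hd : fderiv ℝ (fun y => curv C y (fderiv ℝ φ x u) (fderiv ℝ φ x v) (fderiv ℝ φ x w))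
      (φ x) (fderiv ℝ φ x z) =
      fderiv ℝ R (φ x) (fderiv ℝ φ x z) (fderiv ℝ φ x u) (fderiv ℝ φ x v) (fderiv ℝ φ x w) := by
    have h5 : (fun y => curv C y (fderiv ℝ φ x u) (fderiv ℝ φ x v) (fderiv ℝ φ x w)) =ᶠ[𝓝 (φ x)]
        fun y => R y (fderiv ℝ φ x u) (fderiv ℝ φ x v) (fderiv ℝ φ x w) := by
      filter_upwards [hΩ.mem_nhds (hm x hx)] with y hy
      exact hRC y hy _ _ _
    have h6 := ((hRx.clm_apply (hasFDerivAt_const (fderiv ℝ φ x u) (φ x))).clm_apply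
      (hasFDerivAt_const (fderiv ℝ φ x v) (φ x))).clm_apply
      (hasFDerivAt_const (fderiv ℝ φ x w) (φ x))
    rw [h5.fderiv_eq, h6.fderiv]
    simp
  have hmx := hm x hx
  simp only [dcurv]
  rw [hd, hd']
  simp only [hRC' x hx, hRC (φ x) hmx]
  simp only [map_add, map_sub, hlaw x hx, htr' x hx, ContinuousLinearMap.add_apply]
  have h7 : fderiv ℝ φ x (fderiv ℝ R' x z u v w) =
      fderiv ℝ R (φ x) (fderiv ℝ φ x z) (fderiv ℝ φ x u) (fderiv ℝ φ x v) (fderiv ℝ φ x w) +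
      R (φ x) (fderiv ℝ (fderiv ℝ φ) x z u) (fderiv ℝ φ x v) (fderiv ℝ φ x w) +
      R (φ x) (fderiv ℝ φ x u) (fderiv ℝ (fderiv ℝ φ) x z v) (fderiv ℝ φ x w) +
      R (φ x) (fderiv ℝ φ x u) (fderiv ℝ φ x v) (fderiv ℝ (fderiv ℝ φ) x z w) -
      fderiv ℝ (fderiv ℝ φ) x z (R' x u v w) := by
    rw [eq_sub_iff_add_eq, h4]
    abel
  rw [h7]
  abel

end NS38
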