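import Pool.Agent.LibNS38.B4
import Pool.Agent.LibNS38.B6

set_option autoImplicit false
set_option maxSynthPendingDepth 3

open Topology Filter Set
open scoped ContDiff

namespace NS38

/-- Row B8 (assembly of B4, B6). The covariant derivative of the curvature is natural under
homotheties `φ^* G = c G'`. -/
theorem nat_dcurv {E : Type} [NormedAddCommGroup E] [NormedSpace ℝ E] [FiniteDimensional ℝ E]
    {G G' : E → E → E → ℝ} {Ω Ω' : Set E} (hΩ : IsOpen Ω) (hΩ' : IsOpen Ω') (hG : Met G Ω)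
    (hG' : Met G' Ω') (φ : E → E) (hφ : ContDiffOn ℝ ∞ φ Ω') (hm : ∀ x ∈ Ω', φ x ∈ Ω)
    (hsur : ∀ x ∈ Ω', Function.Surjective (fderiv ℝ φ x)) (c : ℝ) (hc : 0 < c)
    (hp : ∀ x ∈ Ω', ∀ v w, G (φ x) (fderiv ℝ φ x v) (fderiv ℝ φ x w) = c * G' x v w)
    (C C' : E → E →L[ℝ] E →L[ℝ] E) (hC : ContDiffOn ℝ ∞ C Ω) (hC' : ContDiffOn ℝ ∞ C' Ω')
    (hK : Kos G C Ω) (hK' : Kos G' C' Ω') :
    ∀ x ∈ Ω', ∀ z u v w, fderiv ℝ φ x (dcurv C' x z u v w) =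
      dcurv C (φ x) (fderiv ℝ φ x z) (fderiv ℝ φ x u) (fderiv ℝ φ x v) (fderiv ℝ φ x w) :=
  dcurv_trans hΩ hΩ' φ hφ hm C C' hC hC'
    (chr_trans hΩ hΩ' hG hG' φ hφ hm hsur c hc hp C C' hC hC' hK hK')

end NS38
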