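import Pool.Agent.LibNS38.P3a
import Pool.Agent.LibNS38.B8

set_option autoImplicit false
set_option maxSynthPendingDepth 3

open Matrix MeasureTheory Topology Filter
open scoped Matrix.Norms.Elementwise ContDiff

namespace LibNC38

private theorem P3_one {n : ℕ} : (1 : Mt n) ∈ PU n := by
  have h1 : (1 / 2 : ℝ) • ((1 : Mt n) + (1 : Mt n)ᵀ) = (1 : Mt n) := by
    rw [Matrix.transpose_one, ← two_smul ℝ (1 : Mt n), smul_smul]
    norm_num
  show ((1 / 2 : ℝ) • ((1 : Mt n) + (1 : Mt n)ᵀ)).PosDef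
  rw [h1]
  exact Matrix.PosDef.one

private theorem P3_neg {E : Type} [NormedAddCommGroup E] [NormedSpace ℝ E] {Ω : Set E}
    (hΩ : IsOpen Ω) (C : E → E →L[ℝ] E →L[ℝ] E) (hC : ContDiffOn ℝ ∞ C Ω) {a : E} (ha : a ∈ Ω)
    (z u v w : E) : NS38.dcurv C a (-z) (-u) (-v) (-w) = NS38.dcurv C a z u v w := by
  have hS : IsOpen ((Set.univ : Set ℝ) ×ˢ Ω) := isOpen_univ.prod hΩ
  obtain ⟨_, R, _, hR⟩ := NS38.curv_clm (P := ℝ) (fun _ => C) ((Set.univ : Set ℝ) ×ˢ Ω) hS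
    (hC.comp contDiff_snd.contDiffOn fun x hx => hx.2)
  have h1 : ∀ z u v w, NS38.dcurv C a z u v w = R ((0 : ℝ), a) z u v w := fun z u v w =>
    hR ((0 : ℝ), a) ⟨Set.mem_univ _, ha⟩ z u v w
  rw [h1, h1]
  simp only [map_neg, _root_.neg_apply, neg_neg]

private theorem P3_gen {E : Type} [NormedAddCommGroup E] [NormedSpace ℝ E] [FiniteDimensional ℝ E]
    {G : E → E → E → ℝ} {Ω : Set E} (hΩ : IsOpen Ω) (hG : NS38.Met G Ω) {a : E} (ha : a ∈ Ω)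
    (hA : ∃ φ : E → E, ContDiffOn ℝ ∞ φ Ω ∧ (∀ A ∈ Ω, φ A ∈ Ω) ∧ φ a = a ∧
      (∀ v, fderiv ℝ φ a v = -v) ∧ (∀ A ∈ Ω, Function.Surjective (fderiv ℝ φ A)) ∧
      ∀ A ∈ Ω, ∀ v w, G (φ A) (fderiv ℝ φ A v) (fderiv ℝ φ A w) = G A v w)
    (hB : ∀ B ∈ Ω, ∃ φ : E → E, ContDiffOn ℝ ∞ φ Ω ∧ (∀ A ∈ Ω, φ A ∈ Ω) ∧ φ a = B ∧
      (∀ A ∈ Ω, Function.Surjective (fderiv ℝ φ A)) ∧
      ∀ A ∈ Ω, ∀ v w, G (φ A) (fderiv ℝ φ A v) (fderiv ℝ φ A w) = G A v w) :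
    NS38.LSym G Ω := by
  obtain ⟨C, hC, hK⟩ := (NS38.kos_facts (E := E) (Ω := Ω) hΩ).2.2.2.1 _ hG
  refine ⟨C, hC, hK, ?_⟩
  obtain ⟨φ, h1, h2, h3, h4, h5, h6⟩ := hA
  have hz : ∀ z u v w : E, NS38.dcurv C a z u v w = 0 := by
    intro z u v w
    have h7 := NS38.nat_dcurv hΩ hΩ hG hG φ h1 h2 h5 1 one_pos
      (fun x hx v w => by rw [one_mul]; exact h6 x hx v w) C C hC hC hK hK a ha z u v w
    rw [h3, h4, h4, h4, h4, h4, P3_neg hΩ C hC ha] at h7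
    have h8 : NS38.dcurv C a z u v w + NS38.dcurv C a z u v w = 0 := by
      nth_rewrite 1 [← h7]
      exact neg_add_cancel _
    have h9 : (2 : ℝ) • NS38.dcurv C a z u v w = 0 := by
      rw [two_smul]
      exact h8
    exact (smul_eq_zero.1 h9).resolve_left two_ne_zero
  intro x hx z u v w
  obtain ⟨ψ, g1, g2, g3, g5, g6⟩ := hB x hx
  obtain ⟨z', rfl⟩ := g5 a ha z
  obtain ⟨u', rfl⟩ := g5 a ha u
  obtain ⟨v', rfl⟩ := g5 a ha v
  obtain ⟨w', rfl⟩ := g5 a ha w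
  have h7 := NS38.nat_dcurv hΩ hΩ hG hG ψ g1 g2 g5 1 one_pos
    (fun x hx v w => by rw [one_mul]; exact g6 x hx v w) C C hC hC hK hK a ha z' u' v' w'
  rw [g3, hz, map_zero] at h7
  exact h7.symm

/-- Row P3 (assembly of P1, P3a, B3, B7, B8). The product metric of the symmetric metric is locally
symmetric. PLAN. `C` the Christoffel symbol of `G = prodm gF` on `PU n` (`NS38.kos_facts`,
`met_prodm`, `prodm_gF.1`). At `1 ∈ PU n`: `NS38.nat_dcurv` for the first isometry of `isom_gF` (`c = 1`,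
`Ω = Ω' = PU n`, `C' = C`) gives `- dcurv C 1 z u v w = dcurv C 1 (-z) (-u) (-v) (-w) = dcurv C 1 z u v w`
(`dcurv C 1` is 4-linear: `NS38.curv_clm` with `P = ℝ` and constant dependence), so it vanishes. At
`B ∈ PU n`: `nat_dcurv` for the second isometry at `x = 1`:
`dcurv C B (D z) .. = D (dcurv C 1 z ..) = 0` and `D` is surjective. -/
theorem lsym_gF {n : ℕ} (hn : 1 ≤ n) : NS38.LSym (prodm (gF : PD n → Fm n)) (PU n) := by
  have hG : NS38.Met (prodm (gF : PD n → Fm n)) (PU n) := met_prodm hn gF (prodm_gF hn).1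
  exact P3_gen PU_open hG P3_one (isom_gF hn).1 (isom_gF hn).2

end LibNC38
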