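import Pool.Agent.LibNS38.B3

set_option autoImplicit false
set_option maxSynthPendingDepth 3

open Topology Filter Set
open scoped ContDiff

namespace NS38

private theorem B4_d1 {E : Type} [NormedAddCommGroup E] [NormedSpace ℝ E]
    {G : E → E → E → ℝ} {Ω : Set E} (hΩ : IsOpen Ω) (L : E → E →L[ℝ] E →L[ℝ] ℝ)
    (hL : ContDiffOn ℝ ∞ L Ω) (hLG : ∀ x ∈ Ω, ∀ v w, L x v w = G x v w) :
    ∀ x ∈ Ω, ∀ u v w, fderiv ℝ (fun y => G y v w) x u = fderiv ℝ L x u v w := by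
  intro x hx u v w
  have hd : HasFDerivAt L (fderiv ℝ L x) x :=
    ((hL.contDiffAt (hΩ.mem_nhds hx)).differentiableAt (by simp)).hasFDerivAt
  have he : (fun y => G y v w) =ᶠ[𝓝 x] fun y => L y v w := by
    filter_upwards [hΩ.mem_nhds hx] with y hy
    exact (hLG y hy v w).symm
  have h := (hd.clm_apply (hasFDerivAt_const v x)).clm_apply (hasFDerivAt_const w x)
  rw [he.fderiv_eq, h.fderiv]
  simp

private theorem B4_d2 {E : Type} [NormedAddCommGroup E] [NormedSpace ℝ E]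
    {Ω Ω' : Set E} (hΩ : IsOpen Ω) (hΩ' : IsOpen Ω') (L : E → E →L[ℝ] E →L[ℝ] ℝ)
    (hL : ContDiffOn ℝ ∞ L Ω) (φ : E → E) (hφ : ContDiffOn ℝ ∞ φ Ω') (hm : ∀ x ∈ Ω', φ x ∈ Ω) :
    ∀ x ∈ Ω', ∀ u v w,
      fderiv ℝ (fun y => L (φ y) (fderiv ℝ φ y v) (fderiv ℝ φ y w)) x u =
        fderiv ℝ L (φ x) (fderiv ℝ φ x u) (fderiv ℝ φ x v) (fderiv ℝ φ x w) +
        L (φ x) (fderiv ℝ (fderiv ℝ φ) x u v) (fderiv ℝ φ x w) +
        L (φ x) (fderiv ℝ φ x v) (fderiv ℝ (fderiv ℝ φ) x u w) := by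
  intro x hx u v w
  have hd : HasFDerivAt L (fderiv ℝ L (φ x)) (φ x) :=
    ((hL.contDiffAt (hΩ.mem_nhds (hm x hx))).differentiableAt (by simp)).hasFDerivAt
  have hc : ContDiffAt ℝ ∞ φ x := hφ.contDiffAt (hΩ'.mem_nhds hx)
  have h1 : HasFDerivAt φ (fderiv ℝ φ x) x := (hc.differentiableAt (by simp)).hasFDerivAt
  have h2 : HasFDerivAt (fderiv ℝ φ) (fderiv ℝ (fderiv ℝ φ) x) x := by
    have : ContDiffAt ℝ 1 (fderiv ℝ φ) x := hc.fderiv_right (by norm_cast)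
    exact (this.differentiableAt (by simp)).hasFDerivAt
  have h3 : HasFDerivAt (fun y => L (φ y)) ((fderiv ℝ L (φ x)).comp (fderiv ℝ φ x)) x :=
    hd.comp x h1
  have h := (h3.clm_apply (h2.clm_apply (hasFDerivAt_const v x))).clm_apply
    (h2.clm_apply (hasFDerivAt_const w x))
  rw [h.fderiv]
  simp
  ring

/-- Row B4. Transformation law of the Christoffel symbol. PLAN. With `A = fderiv φ x`,
`B = fderiv (fderiv φ) x` (symmetric: `second_derivative_symmetric` / `ContDiffAt.isSymmSndFDerivAt`),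
`L` from `clm_ext` for `G`: differentiate `c G'(v, w) = L (φ x) (A v) (A w)` in direction `u`:
`c D_u G'(v, w) = (D_{A u} G)(A v, A w) + G(B(u, v), A w) + G(A v, B(u, w))`. Insert in the Koszul formula
of `G'`: `2 G(A C'(v, w), A u) = 2 c G'(C'(v, w), u) = 2 G(C(A v, A w), A u) + 2 G(B(v, w), A u)`; `A` is
surjective and `G` is nondegenerate. -/
theorem chr_trans {E : Type} [NormedAddCommGroup E] [NormedSpace ℝ E] [FiniteDimensional ℝ E]
    {G G' : E → E → E → ℝ} {Ω Ω' : Set E} (hΩ : IsOpen Ω) (hΩ' : IsOpen Ω') (hG : Met G Ω)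
    (hG' : Met G' Ω') (φ : E → E) (hφ : ContDiffOn ℝ ∞ φ Ω') (hm : ∀ x ∈ Ω', φ x ∈ Ω)
    (hsur : ∀ x ∈ Ω', Function.Surjective (fderiv ℝ φ x)) (c : ℝ) (hc : 0 < c)
    (hp : ∀ x ∈ Ω', ∀ v w, G (φ x) (fderiv ℝ φ x v) (fderiv ℝ φ x w) = c * G' x v w)
    (C C' : E → E →L[ℝ] E →L[ℝ] E) (hC : ContDiffOn ℝ ∞ C Ω) (hC' : ContDiffOn ℝ ∞ C' Ω')
    (hK : Kos G C Ω) (hK' : Kos G' C' Ω') :
    ∀ x ∈ Ω', ∀ v w, fderiv ℝ φ x (C' x v w) =
      C (φ x) (fderiv ℝ φ x v) (fderiv ℝ φ x w) + fderiv ℝ (fderiv ℝ φ) x v w := by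
  obtain ⟨L, hL, hLG⟩ := clm_ext G Ω hG.bil hG.smooth
  intro x hx v w
  have hφx : φ x ∈ Ω := hm x hx
  have hsym : ∀ a b, fderiv ℝ (fderiv ℝ φ) x a b = fderiv ℝ (fderiv ℝ φ) x b a := by
    have hcd : ContDiffAt ℝ ∞ φ x := hφ.contDiffAt (hΩ'.mem_nhds hx)
    have h2 : minSmoothness ℝ 2 ≤ (∞ : WithTop ℕ∞) := by
      rw [minSmoothness_of_isRCLikeNormedField]
      exact WithTop.coe_le_coe.mpr (le_top : (2 : ℕ∞) ≤ ⊤)
    have := hcd.isSymmSndFDerivAt h2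
    intro a b
    exact this a b
  -- derivative of G'
  have hD : ∀ u a b, c * fderiv ℝ (fun y => G' y a b) x u =
      fderiv ℝ L (φ x) (fderiv ℝ φ x u) (fderiv ℝ φ x a) (fderiv ℝ φ x b) +
        L (φ x) (fderiv ℝ (fderiv ℝ φ) x u a) (fderiv ℝ φ x b) +
        L (φ x) (fderiv ℝ φ x a) (fderiv ℝ (fderiv ℝ φ) x u b) := by
    intro u a b
    have he : (fun y => c * G' y a b) =ᶠ[𝓝 x]
        fun y => L (φ y) (fderiv ℝ φ y a) (fderiv ℝ φ y b) := by
      filter_upwards [hΩ'.mem_nhds hx] with y hy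
      rw [hLG _ (hm y hy), hp y hy]
    have hdG : DifferentiableAt ℝ (fun y => G' y a b) x :=
      ((hG'.smooth a b).contDiffAt (hΩ'.mem_nhds hx)).differentiableAt (by simp)
    have e1 : fderiv ℝ (fun y => c * G' y a b) x u = c * fderiv ℝ (fun y => G' y a b) x u := by
      rw [fderiv_const_mul hdG]
      simp
    rw [← e1, he.fderiv_eq, B4_d2 hΩ hΩ' L hL φ hφ hm x hx u a b]
  have hLs : ∀ a b, L (φ x) a b = L (φ x) b a := by
    intro a b
    rw [hLG _ hφx, hLG _ hφx, hG.bil.symm _ hφx]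
  set z : E := fderiv ℝ φ x (C' x v w) -
      (C (φ x) (fderiv ℝ φ x v) (fderiv ℝ φ x w) + fderiv ℝ (fderiv ℝ φ) x v w) with hz
  have key : ∀ u, L (φ x) z (fderiv ℝ φ x u) = 0 := by
    intro u
    have k' := hK' x hx u v w
    have k := hK (φ x) hφx (fderiv ℝ φ x u) (fderiv ℝ φ x v) (fderiv ℝ φ x w)
    rw [B4_d1 hΩ L hL hLG _ hφx, B4_d1 hΩ L hL hLG _ hφx, B4_d1 hΩ L hL hLG _ hφx,
      ← hLG _ hφx] at k
    have d1 := hD v w u
    have d2 := hD w v u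
    have d3 := hD u v w
    have p1 := hp x hx (C' x v w) u
    rw [← hLG _ hφx] at p1
    have s1 := hsym u v
    have s2 := hsym u w
    have s3 := hsym w v
    rw [s1, s2] at d3
    rw [s3] at d2
    have l1 := hLs (fderiv ℝ φ x w) (fderiv ℝ (fderiv ℝ φ) x v u)
    rw [hz]
    simp only [map_sub, map_add, sub_apply, add_apply]
    have k2 : 2 * (c * G' x (C' x v w) u) =
        c * fderiv ℝ (fun y => G' y w u) x v + c * fderiv ℝ (fun y => G' y v u) x w -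
          c * fderiv ℝ (fun y => G' y v w) x u := by
      linear_combination c * k'
    rw [d1, d2, d3] at k2
    linarith
  have hz0 : z = 0 := by
    by_contra hne
    obtain ⟨u, hu⟩ := hsur x hx z
    have h1 := key u
    rw [hu, hLG _ hφx] at h1
    have h2 := hG.pos _ hφx z hne
    linarith
  exact sub_eq_zero.mp hz0

end NS38
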