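import Pool.Agent.LibNS38.V1a

set_option autoImplicit false
set_option maxSynthPendingDepth 3

open Matrix MeasureTheory Topology Filter
open scoped Matrix.Norms.Elementwise ContDiff

namespace LibNC38

/-- product rule for matrix valued functions -/
private theorem V1_mul {n : ℕ} {A B : ℝ → Mt n} {A' B' : Mt n} {s : ℝ}
    (hA : HasDerivAt A A' s) (hB : HasDerivAt B B' s) :
    HasDerivAt (fun t => A t * B t) (A' * B s + A s * B') s := by
  have hA1 : ∀ i j, HasDerivAt (fun t => A t i j) (A' i j) s := fun i j =>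
    hasDerivAt_pi.1 (hasDerivAt_pi.1 hA i) j
  have hB1 : ∀ i j, HasDerivAt (fun t => B t i j) (B' i j) s := fun i j =>
    hasDerivAt_pi.1 (hasDerivAt_pi.1 hB i) j
  have h1 : ∀ i j, HasDerivAt (fun t => (A t * B t) i j) ((A' * B s + A s * B') i j) s := by
    intro i j
    have h := HasDerivAt.fun_sum (u := Finset.univ) fun k _ => (hA1 i k).mul (hB1 k j)
    have e1 : (fun t => (A t * B t) i j) = fun t => ∑ k, A t i k * B t k j := by
      funext t; exact Matrix.mul_apply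
    have e2 : (A' * B s + A s * B') i j = ∑ k, (A' i k * B s k j + A s i k * B' k j) := by
      rw [Matrix.add_apply, Matrix.mul_apply, Matrix.mul_apply, ← Finset.sum_add_distrib]
    rw [e1, e2]
    exact h
  have h2 : HasDerivAt (fun t => A t * B t) (A' * B s + A s * B') s ↔
      ∀ i, HasDerivAt (fun t => (A t * B t) i) ((A' * B s + A s * B') i) s := hasDerivAt_pi
  exact h2.2 fun i => hasDerivAt_pi.2 fun j => h1 i j

/-- derivative of the trace -/
private theorem V1_tr {n : ℕ} {A : ℝ → Mt n} {A' : Mt n} {s : ℝ} (hA : HasDerivAt A A' s) :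
    HasDerivAt (fun t => (A t).trace) A'.trace s := by
  have hA1 : ∀ i j, HasDerivAt (fun t => A t i j) (A' i j) s := fun i j =>
    hasDerivAt_pi.1 (hasDerivAt_pi.1 hA i) j
  exact HasDerivAt.fun_sum (u := Finset.univ) fun k _ => hA1 k k

/-- derivative of the inverse at a matrix of determinant one -/
private theorem V1_inv {n : ℕ} {W : ℝ → Mt n} {W' : Mt n} (hW : HasDerivAt W W' 0)
    (hd : ∀ s, (W s).det = 1) :
    HasDerivAt (fun t => (W t)⁻¹) (-((W 0)⁻¹ * W' * (W 0)⁻¹)) 0 := by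
  have hu : ∀ s, IsUnit (W s).det := fun s => by rw [hd s]; exact isUnit_one
  have ho : IsOpen {A : Mt n | A.det ≠ 0} :=
    isOpen_ne_fun (continuous_id.matrix_det) continuous_const
  have h0 : W 0 ∈ {A : Mt n | A.det ≠ 0} := by
    show (W 0).det ≠ 0
    rw [hd 0]; exact one_ne_zero
  have h1 : ContDiffOn ℝ 1 (fun A : Mt n => A⁻¹) {A : Mt n | A.det ≠ 0} :=
    cd_inv contDiffOn_id fun x hx => hx
  have h2 : DifferentiableAt ℝ (fun A : Mt n => A⁻¹) (W 0) :=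
    (h1.contDiffAt (ho.mem_nhds h0)).differentiableAt one_ne_zero
  have h3 : DifferentiableAt ℝ (fun t => (W t)⁻¹) 0 :=
    DifferentiableAt.comp (g := fun A : Mt n => A⁻¹) 0 h2 hW.differentiableAt
  have h4 := h3.hasDerivAt
  have h5 := V1_mul hW h4
  have e1 : (fun t => W t * (W t)⁻¹) = fun _ => (1 : Mt n) := by
    funext t; exact Matrix.mul_nonsing_inv _ (hu t)
  rw [e1] at h5
  have h6 := h5.unique (hasDerivAt_const (0 : ℝ) (1 : Mt n))
  have h7 : deriv (fun t => (W t)⁻¹) 0 = -((W 0)⁻¹ * W' * (W 0)⁻¹) := by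
    have h8 : (W 0)⁻¹ * (W' * (W 0)⁻¹ + W 0 * deriv (fun t => (W t)⁻¹) 0) = (W 0)⁻¹ * 0 :=
      congrArg (fun X => (W 0)⁻¹ * X) h6
    rw [Matrix.mul_zero, Matrix.mul_add, ← Matrix.mul_assoc, ← Matrix.mul_assoc,
      Matrix.nonsing_inv_mul _ (hu 0), Matrix.one_mul] at h8
    exact eq_neg_of_add_eq_zero_right h8
  rw [← h7]
  exact h4

/-- Row V1. First variation: `d/ds (gau Y s)^* g = - L_Y g` at `s = 0`. PLAN.
`pul (gau Y s) gF p v v = tr (W⁻¹ V W⁻¹ V)`, `W = (gau Y s p).1`, `V = dff (gau Y s) p v`. At `s = 0`: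
`W = p`, `V = v` (`gau Y 0 = id`, `dff_facts` (3)), `W' = - Y p` (`gau_facts` (5)), `V' = - fderiv Y p.1 v`
(`var_dff`), `(W⁻¹)' = - W⁻¹ W' W⁻¹` (entrywise: `W⁻¹ = adjugate`, or differentiate `W W⁻¹ = 1`; or
`cd_inv` for differentiability). Product rule (entrywise `HasDerivAt` of products of matrices):
`d/ds = 2 tr (p⁻¹ Y p⁻¹ v p⁻¹ v) - 2 tr (p⁻¹ (fderiv Y p.1 v) p⁻¹ v) = - LieG Y p.1 v`. -/
theorem var_gau {n : ℕ} (Γ : Subgroup (SL n)) (hc : Coc Γ) (Y : Mt n → Mt n)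
    (hY : ContDiffOn ℝ ∞ Y (PU n)) (hT : ∀ p : PD n, IsTan p (Y p.1))
    (he : ∀ γ ∈ Γ, ∀ p : PD n, Y (act γ p).1 = γ.1 * Y p.1 * γ.1ᵀ) (p : PD n) (v : Mt n)
    (hv : IsTan p v) :
    HasDerivAt (fun s : ℝ => pul (gau Y s) gF p v v) (-(LieG Y p.1 v)) 0 := by
  obtain ⟨s0, hs0, -, -, h0, -, hder⟩ := gau_facts Γ hc Y hY hT he
  have hg0 : gau Y 0 = fun p : PD n => p := funext h0
  have hV0 : dff (gau Y 0) p v = v := by
    rw [hg0]; exact dff_facts.2.2.1.2 p v hv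
  have hW := hder p
  have hWi := V1_inv hW fun s => (gau Y s p).2.2
  have hV := var_dff Γ hc Y hY hT he p v hv
  have hM := V1_mul hWi hV
  have hf := V1_tr (V1_mul hM hM)
  have e1 : (fun s : ℝ => pul (gau Y s) gF p v v) = fun t =>
      ((gau Y t p).1⁻¹ * dff (gau Y t) p v * ((gau Y t p).1⁻¹ * dff (gau Y t) p v)).trace := by
    funext t
    rw [pul_apply, gF_apply]
  rw [e1]
  have e2 : (gau Y 0 p).1 = p.1 := by rw [h0 p]
  rw [e2, hV0] at hf
  have e3 : -(LieG Y p.1 v) =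
      ((-(p.1⁻¹ * -(Y p.1) * p.1⁻¹) * v + p.1⁻¹ * -(fderiv ℝ Y p.1 v)) * (p.1⁻¹ * v) +
        p.1⁻¹ * v * (-(p.1⁻¹ * -(Y p.1) * p.1⁻¹) * v + p.1⁻¹ * -(fderiv ℝ Y p.1 v))).trace := by
    rw [Matrix.trace_add, Matrix.trace_mul_comm (p.1⁻¹ * v), LieG]
    simp only [Matrix.mul_neg, Matrix.neg_mul, neg_neg, Matrix.add_mul, Matrix.trace_add,
      Matrix.trace_neg, Matrix.mul_assoc]
    ring
  rw [e3]
  exact hf

end LibNC38
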