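import Pool.Agent.LibNT38.TD3

set_option autoImplicit false
set_option maxSynthPendingDepth 3

open Topology Filter Set
open scoped ContDiff

namespace NS38

open LibNC38

/-- Row V2. Hadamard lemma. PLAN. `g (s, x) := ∫ θ in 0..1, (fderiv ℝ f (θ s, x)) (1, 0)`, smooth by
`par_smooth_top ⊤` (integrand `(θ, (s, x)) ↦ ..` on the open set `{(θ, s, x) | θ s ∈ Ioo (-ε) ε, x ∈ V}`),
`f (s, x) = f (s, x) - f (0, x) = ∫ d/dθ f (θ s, x) = s g (s, x)`; the derivative at `s = 0` of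
`s ↦ s g (s, x)` is `g (0, x)` by continuity of `g`. -/
theorem hadamard {E : Type} [NormedAddCommGroup E] [NormedSpace ℝ E] (f : ℝ × E → ℝ) (ε : ℝ)
    (hε : 0 < ε) (V : Set E) (hV : IsOpen V) (hf : ContDiffOn ℝ ∞ f (Ioo (-ε) ε ×ˢ V))
    (h0 : ∀ x ∈ V, f (0, x) = 0) :
    ∃ g : ℝ × E → ℝ, ContDiffOn ℝ ∞ g (Ioo (-ε) ε ×ˢ V) ∧
      (∀ s ∈ Ioo (-ε) ε, ∀ x ∈ V, f (s, x) = s * g (s, x)) ∧
      ∀ x ∈ V, HasDerivAt (fun s => f (s, x)) (g (0, x)) 0 := by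
  have hUo : IsOpen (Ioo (-ε) ε ×ˢ V) := isOpen_Ioo.prod hV
  have hdf : ContDiffOn ℝ ∞ (fderiv ℝ f) (Ioo (-ε) ε ×ˢ V) :=
    ((contDiffOn_infty_iff_fderiv_of_isOpen hUo).1 hf).2
  have hdiff : DifferentiableOn ℝ f (Ioo (-ε) ε ×ˢ V) := hf.differentiableOn (by simp)
  set φ : ℝ × (ℝ × E) → ℝ × E := fun p => (p.1 * p.2.1, p.2.2) with hφ
  have hφs : ContDiff ℝ ∞ φ :=
    (contDiff_fst.mul (contDiff_fst.comp contDiff_snd)).prodMk (contDiff_snd.comp contDiff_snd)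
  set O : Set (ℝ × (ℝ × E)) := φ ⁻¹' (Ioo (-ε) ε ×ˢ V) with hO
  have hOo : IsOpen O := hUo.preimage hφs.continuous
  set F : ℝ × (ℝ × E) → ℝ := fun p => fderiv ℝ f (φ p) (1, 0) with hF
  have hFs : ContDiffOn ℝ ∞ F O := by
    have h1 : ContDiffOn ℝ ∞ (fun p => fderiv ℝ f (φ p)) O :=
      hdf.comp hφs.contDiffOn (fun p hp => hp)
    exact h1.clm_apply contDiffOn_const
  have hmem : ∀ θ ∈ Icc (0 : ℝ) 1, ∀ y ∈ Ioo (-ε) ε ×ˢ V, (θ, y) ∈ O := by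
    intro θ hθ y hy
    have hy1 : |y.1| < ε := abs_lt.2 ⟨hy.1.1, hy.1.2⟩
    have h2 : |θ * y.1| < ε := by
      rw [abs_mul, abs_of_nonneg hθ.1]
      calc θ * |y.1| ≤ 1 * |y.1| := mul_le_mul_of_nonneg_right hθ.2 (abs_nonneg _)
        _ = |y.1| := one_mul _
        _ < ε := hy1
    exact ⟨⟨(abs_lt.1 h2).1, (abs_lt.1 h2).2⟩, hy.2⟩
  have hmem0 : ∀ x ∈ V, ((0 : ℝ), x) ∈ Ioo (-ε) ε ×ˢ V := by
    intro x hx
    exact ⟨⟨by linarith, hε⟩, hx⟩
  refine ⟨fun y => ∫ θ in (0 : ℝ)..1, F (θ, y), ?_, ?_, ?_⟩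
  · exact par_smooth_top ⊤ F O _ hOo hUo hmem hFs
  · intro s hs x hx
    have hsx : (s, x) ∈ Ioo (-ε) ε ×ˢ V := ⟨hs, hx⟩
    have hcont : ContinuousOn (fun θ : ℝ => F (θ, (s, x))) (uIcc (0 : ℝ) 1) := by
      rw [uIcc_of_le zero_le_one]
      have h3 : Continuous (fun θ : ℝ => ((θ, (s, x)) : ℝ × (ℝ × E))) := by fun_prop
      exact hFs.continuousOn.comp h3.continuousOn (fun θ hθ => hmem θ hθ _ hsx)
    have hder : ∀ θ ∈ uIcc (0 : ℝ) 1,
        HasDerivAt (fun θ : ℝ => f (θ * s, x)) (s * F (θ, (s, x))) θ := by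
      intro θ hθ
      rw [uIcc_of_le zero_le_one] at hθ
      have h4 : (θ * s, x) ∈ Ioo (-ε) ε ×ˢ V := hmem θ hθ _ hsx
      have h5 : HasFDerivAt f (fderiv ℝ f (θ * s, x)) (θ * s, x) :=
        (hdiff.differentiableAt (hUo.mem_nhds h4)).hasFDerivAt
      have h6 : HasDerivAt (fun θ : ℝ => ((θ * s, x) : ℝ × E)) (s, 0) θ := by
        have h7 : HasDerivAt (fun θ : ℝ => θ * s) (1 * s) θ := (hasDerivAt_id θ).mul_const s
        rw [one_mul] at h7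
        exact h7.prodMk (hasDerivAt_const θ x)
      have h8 := h5.comp_hasDerivAt θ h6
      have h9 : fderiv ℝ f (θ * s, x) (s, 0) = s * F (θ, (s, x)) := by
        have h10 : ((s, 0) : ℝ × E) = s • ((1, 0) : ℝ × E) := by
          ext <;> simp
        rw [h10, map_smul, smul_eq_mul]
      rw [← h9]
      exact h8
    have hint := intervalIntegral.integral_eq_sub_of_hasDerivAt hder
      (ContinuousOn.intervalIntegrable (continuousOn_const.mul hcont))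
    rw [intervalIntegral.integral_const_mul] at hint
    simp only [one_mul, zero_mul] at hint
    rw [h0 x hx, sub_zero] at hint
    exact hint.symm
  · intro x hx
    have h4 := hmem0 x hx
    have h5 : HasFDerivAt f (fderiv ℝ f (0, x)) ((0 : ℝ), x) :=
      (hdiff.differentiableAt (hUo.mem_nhds h4)).hasFDerivAt
    have h6 : HasDerivAt (fun s : ℝ => ((s, x) : ℝ × E)) (1, 0) 0 :=
      (hasDerivAt_id (0 : ℝ)).prodMk (hasDerivAt_const (0 : ℝ) x)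
    have h8 := h5.comp_hasDerivAt (0 : ℝ) h6
    have h9 : (∫ θ in (0 : ℝ)..1, F (θ, ((0 : ℝ), x))) = fderiv ℝ f (0, x) (1, 0) := by
      have h10 : ∀ θ : ℝ, F (θ, ((0 : ℝ), x)) = fderiv ℝ f (0, x) (1, 0) := by
        intro θ
        simp only [hF, hφ, mul_zero]
      simp only [h10, intervalIntegral.integral_const, sub_zero, one_smul]
    show HasDerivAt (fun s => f (s, x)) (∫ θ in (0 : ℝ)..1, F (θ, ((0 : ℝ), x))) 0
    rw [h9]
    exact h8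

end NS38
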