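import Mathlib

set_option autoImplicit false
set_option maxSynthPendingDepth 3

open Topology Filter Set
open scoped ContDiff

namespace NS38

/-- a field of symmetric bilinear forms on `S` -/
structure Bil {X E : Type} [AddCommGroup E] [Module ℝ E] (G : X → E → E → ℝ) (S : Set X) :
    Prop where
  add : ∀ x ∈ S, ∀ u v w, G x (u + v) w = G x u w + G x v w
  smul : ∀ x ∈ S, ∀ (r : ℝ) (v w : E), G x (r • v) w = r * G x v w
  symm : ∀ x ∈ S, ∀ v w, G x v w = G x w v

section defs

variable {E : Type} [NormedAddCommGroup E] [NormedSpace ℝ E]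

/-- a Riemannian metric of class `C^∞` on the open set `Ω` of the vector space `E` -/
structure Met (G : E → E → E → ℝ) (Ω : Set E) : Prop where
  bil : Bil G Ω
  smooth : ∀ v w, ContDiffOn ℝ ∞ (fun x => G x v w) Ω
  pos : ∀ x ∈ Ω, ∀ v, v ≠ 0 → 0 < G x v v

/-- `C` is the Christoffel symbol of the metric `G` on `Ω` (Koszul formula for constant fields):
`2 G(C(v, w), u) = D_v G(w, u) + D_w G(v, u) - D_u G(v, w)` -/
def Kos (G : E → E → E → ℝ) (C : E → E →L[ℝ] E →L[ℝ] E) (Ω : Set E) : Prop :=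
  ∀ x ∈ Ω, ∀ u v w, 2 * G x (C x v w) u =
    fderiv ℝ (fun y => G y w u) x v + fderiv ℝ (fun y => G y v u) x w -
      fderiv ℝ (fun y => G y v w) x u

/-- the curvature tensor `R(u, v) w` of the connection `D + C` -/
noncomputable def curv (C : E → E →L[ℝ] E →L[ℝ] E) (x u v w : E) : E :=
  fderiv ℝ (fun y => C y v w) x u - fderiv ℝ (fun y => C y u w) x v +
    C x u (C x v w) - C x v (C x u w)

/-- its covariant derivative `(∇_z R)(u, v) w` -/
noncomputable def dcurv (C : E → E →L[ℝ] E →L[ℝ] E) (x z u v w : E) : E :=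
  fderiv ℝ (fun y => curv C y u v w) x z + C x z (curv C x u v w) -
    curv C x (C x z u) v w - curv C x u (C x z v) w - curv C x u v (C x z w)

/-- the metric `G` is locally symmetric on `Ω`: its curvature tensor is parallel -/
def LSym (G : E → E → E → ℝ) (Ω : Set E) : Prop :=
  ∃ C : E → E →L[ℝ] E →L[ℝ] E, ContDiffOn ℝ ∞ C Ω ∧ Kos G C Ω ∧
    ∀ x ∈ Ω, ∀ z u v w, dcurv C x z u v w = 0

end defs

end NS38
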