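import Pool.Agent.LibNS38.B0

set_option autoImplicit false
set_option maxSynthPendingDepth 3

open Topology Filter Set
open scoped ContDiff

namespace NS38

private theorem B1_point {E : Type} [NormedAddCommGroup E] [NormedSpace ℝ E]
    [FiniteDimensional ℝ E] (g : E → E → ℝ) (hadd : ∀ u v w, g (u + v) w = g u w + g v w)
    (hsmul : ∀ (r : ℝ) (v w : E), g (r • v) w = r * g v w) (hsymm : ∀ v w, g v w = g w v) :
    ∃ L : E →L[ℝ] E →L[ℝ] ℝ, ∀ v w, L v w = g v w := by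
  let M : E →ₗ[ℝ] E →ₗ[ℝ] ℝ := LinearMap.mk₂ ℝ g hadd
    (fun r v w => by rw [hsmul, smul_eq_mul])
    (fun u v w => by rw [hsymm u (v + w), hadd, hsymm v u, hsymm w u])
    (fun r v w => by rw [hsymm v (r • w), hsmul, hsymm w v, smul_eq_mul])
  let c : (E →ₗ[ℝ] ℝ) ≃ₗ[ℝ] (E →L[ℝ] ℝ) := LinearMap.toContinuousLinearMap
  refine ⟨LinearMap.toContinuousLinearMap (c.toLinearMap ∘ₗ M), fun v w => ?_⟩
  rfl

/-- Row B1. A family of bilinear forms with `C^m` coefficients is a `C^m` map into the continuous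
bilinear maps. PLAN. For `x ∈ S` build `L x` by `LinearMap.mk₂` and `LinearMap.toContinuousLinearMap`
(finite dimension; `0` outside `S`); smoothness: `contDiffOn_clm_apply` twice (congruence on `S`). -/
theorem clm_ext {X E : Type} [NormedAddCommGroup X] [NormedSpace ℝ X] [NormedAddCommGroup E]
    [NormedSpace ℝ E] [FiniteDimensional ℝ E] {m : WithTop ℕ∞} (G : X → E → E → ℝ) (S : Set X)
    (hb : Bil G S) (hs : ∀ v w, ContDiffOn ℝ m (fun x => G x v w) S) :
    ∃ L : X → E →L[ℝ] E →L[ℝ] ℝ, ContDiffOn ℝ m L S ∧ ∀ x ∈ S, ∀ v w, L x v w = G x v w := by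
  have h1 : ∀ x : X, ∃ L : E →L[ℝ] E →L[ℝ] ℝ, x ∈ S → ∀ v w, L v w = G x v w := by
    intro x
    by_cases hx : x ∈ S
    · obtain ⟨L, hL⟩ := B1_point (G x) (hb.add x hx) (hb.smul x hx) (hb.symm x hx)
      exact ⟨L, fun _ => hL⟩
    · exact ⟨0, fun h => absurd h hx⟩
  choose L hL using h1
  refine ⟨L, ?_, hL⟩
  rw [contDiffOn_clm_apply]
  intro v
  rw [contDiffOn_clm_apply]
  intro w
  exact (hs v w).congr fun x hx => hL x hx v w

end NS38
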