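import Pool.Agent.LibNS38.B0

set_option autoImplicit false
set_option maxSynthPendingDepth 3

open Topology Filter Set
open scoped ContDiff

namespace NS38

/-- Row B10b. The Christoffel symbol is an analytic function of the metric and of the right side
of the Koszul formula. PLAN. `W := {q | IsUnit-like: q.1 is invertible}`, e.g. the preimage under `fst` of
`range ((↑) : (E ≃L[ℝ] (E →L[ℝ] ℝ)) → _)`, open (`ContinuousLinearEquiv.isOpen`); `inverse` is analytic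
there (`contDiffAt_map_inverse` with exponent `ω`, `ContDiffAt.analyticAt`; completeness from finite
dimension). `f q v w := (1/2) q.1.inverse (q.2 v w)`: composition of `q.1.inverse` with `q.2`, built with
`ContinuousLinearMap.compL`; analytic as a continuous bilinear function of `(inverse q.1, q.2)`. An
injective `L : E → (E →L[ℝ] ℝ)` is an equivalence by dimension. -/
theorem chr_formula {E : Type} [NormedAddCommGroup E] [NormedSpace ℝ E] [FiniteDimensional ℝ E] :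
    ∃ (W : Set ((E →L[ℝ] E →L[ℝ] ℝ) × (E →L[ℝ] E →L[ℝ] E →L[ℝ] ℝ)))
      (f : (E →L[ℝ] E →L[ℝ] ℝ) × (E →L[ℝ] E →L[ℝ] E →L[ℝ] ℝ) → E →L[ℝ] E →L[ℝ] E),
      IsOpen W ∧ AnalyticOnNhd ℝ f W ∧ (∀ q, Function.Injective q.1 → q ∈ W) ∧
      ∀ q ∈ W, ∀ u v w, 2 * q.1 (f q v w) u = q.2 v w u := by
  have : CompleteSpace E := FiniteDimensional.complete ℝ E
  refine ⟨Prod.fst ⁻¹' (range ((↑) : (E ≃L[ℝ] (E →L[ℝ] ℝ)) → E →L[ℝ] E →L[ℝ] ℝ)),
    fun q => (1 / 2 : ℝ) • ((ContinuousLinearMap.compL ℝ E (E →L[ℝ] ℝ) E q.1.inverse).comp q.2),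
    ?_, ?_, ?_, ?_⟩
  · exact ContinuousLinearEquiv.isOpen.preimage continuous_fst
  · rintro q ⟨e, he⟩
    have h1 : ContDiffAt ℝ ω (ContinuousLinearMap.inverse : (E →L[ℝ] E →L[ℝ] ℝ) → _) q.1 := by
      rw [← he]
      exact contDiffAt_map_inverse e
    have h2 : ContDiffAt ℝ ω (fun p : (E →L[ℝ] E →L[ℝ] ℝ) × (E →L[ℝ] E →L[ℝ] E →L[ℝ] ℝ) =>
        p.1.inverse) q := h1.comp q contDiffAt_fst
    have h3 : ContDiffAt ℝ ω (fun p : (E →L[ℝ] E →L[ℝ] ℝ) × (E →L[ℝ] E →L[ℝ] E →L[ℝ] ℝ) =>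
        ContinuousLinearMap.compL ℝ E (E →L[ℝ] ℝ) E p.1.inverse) q :=
      (ContinuousLinearMap.contDiff _).contDiffAt.comp q h2
    exact ((h3.clm_comp contDiffAt_snd).const_smul (1 / 2 : ℝ)).analyticAt
  · intro q hq
    have hd : Module.finrank ℝ E = Module.finrank ℝ (E →L[ℝ] ℝ) := by
      have e := (LinearMap.toContinuousLinearMap : (E →ₗ[ℝ] ℝ) ≃ₗ[ℝ] (E →L[ℝ] ℝ))
      rw [← e.finrank_eq]
      exact (Subspace.dual_finrank_eq (K := ℝ) (V := E)).symm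
    refine ⟨(LinearEquiv.ofInjectiveOfFinrankEq (q.1 : E →ₗ[ℝ] (E →L[ℝ] ℝ)) hq
      hd).toContinuousLinearEquiv, ?_⟩
    ext v w
    rfl
  · rintro q ⟨e, he⟩ u v w
    have h1 : q.1.inverse = (e.symm : (E →L[ℝ] ℝ) →L[ℝ] E) := by
      rw [← he]
      exact ContinuousLinearMap.inverse_equiv e
    have h2 : q.1 (e.symm (q.2 v w)) = q.2 v w := by
      rw [← he]
      exact e.apply_symm_apply _
    have h3 : ((1 / 2 : ℝ) • ((ContinuousLinearMap.compL ℝ E (E →L[ℝ] ℝ) E q.1.inverse).comp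
        q.2)) v w = (1 / 2 : ℝ) • e.symm (q.2 v w) := by
      rw [h1]
      rfl
    show 2 * q.1 (((1 / 2 : ℝ) • ((ContinuousLinearMap.compL ℝ E (E →L[ℝ] ℝ) E
      q.1.inverse).comp q.2)) v w) u = q.2 v w u
    rw [h3, map_smul, h2]
    simp

end NS38
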