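import Pool.Agent.LibNS38.B0

set_option autoImplicit false
set_option maxSynthPendingDepth 3

open Topology Filter Set
open scoped ContDiff

namespace NS38

private theorem B10c_ev {E F : Type} [NormedAddCommGroup E] [NormedSpace ℝ E]
    [NormedAddCommGroup F] [NormedSpace ℝ F] {f : E → E →L[ℝ] F} {f' : E →L[ℝ] E →L[ℝ] F}
    {x : E} (hf : HasFDerivAt f f' x) (w : E) :
    HasFDerivAt (fun y => f y w) ((ContinuousLinearMap.apply ℝ F w).comp f') x :=
  (ContinuousLinearMap.apply ℝ F w).hasFDerivAt.comp x hf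

/-- Row B10c. `dcurv` in terms of the second jet of `C`. PLAN. `fderiv ℝ (fun y => C y v w) x u =
fderiv ℝ C x u v w` for `x ∈ Ω` (`HasFDerivAt.clm_apply`), so near `x`
`curv C y u v w = fderiv C y u v w - fderiv C y v u w + C y u (C y v w) - C y v (C y u w)`; differentiate
in direction `z` (product rule `HasFDerivAt.clm_apply`). -/
theorem dcurv_expand {E : Type} [NormedAddCommGroup E] [NormedSpace ℝ E] {Ω : Set E}
    (hΩ : IsOpen Ω) (C : E → E →L[ℝ] E →L[ℝ] E) (hC : ContDiffOn ℝ ∞ C Ω) (x : E) (hx : x ∈ Ω)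
    (z u v w : E) :
    (∀ u v w, curv C x u v w = fderiv ℝ C x u v w - fderiv ℝ C x v u w + C x u (C x v w) -
      C x v (C x u w)) ∧
    dcurv C x z u v w =
      (fderiv ℝ (fderiv ℝ C) x z u v w - fderiv ℝ (fderiv ℝ C) x z v u w +
        (fderiv ℝ C x z u (C x v w) + C x u (fderiv ℝ C x z v w)) -
        (fderiv ℝ C x z v (C x u w) + C x v (fderiv ℝ C x z u w))) +
      C x z (curv C x u v w) - curv C x (C x z u) v w - curv C x u (C x z v) w -
      curv C x u v (C x z w) := by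
  have hd : ∀ y ∈ Ω, HasFDerivAt C (fderiv ℝ C y) y := fun y hy =>
    ((hC.contDiffAt (hΩ.mem_nhds hy)).differentiableAt (by simp)).hasFDerivAt
  have hd2 : ∀ y ∈ Ω, HasFDerivAt (fderiv ℝ C) (fderiv ℝ (fderiv ℝ C) y) y := fun y hy => by
    have h1 : ContDiffAt ℝ 1 (fderiv ℝ C) y :=
      (hC.contDiffAt (hΩ.mem_nhds hy)).fderiv_right (m := 1) (by norm_cast)
    exact (h1.differentiableAt (by simp)).hasFDerivAt
  have h1 : ∀ y ∈ Ω, ∀ u v w, fderiv ℝ (fun y => C y v w) y u = fderiv ℝ C y u v w := by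
    intro y hy u v w
    rw [(B10c_ev (B10c_ev (hd y hy) v) w).fderiv]
    rfl
  have hcurv : ∀ y ∈ Ω, ∀ u v w, curv C y u v w = fderiv ℝ C y u v w - fderiv ℝ C y v u w +
      C y u (C y v w) - C y v (C y u w) := by
    intro y hy u v w
    unfold curv
    rw [h1 y hy, h1 y hy]
  refine ⟨hcurv x hx, ?_⟩
  have he : (fun y => curv C y u v w) =ᶠ[𝓝 x] fun y => fderiv ℝ C y u v w -
      fderiv ℝ C y v u w + C y u (C y v w) - C y v (C y u w) := by
    filter_upwards [hΩ.mem_nhds hx] with y hy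
    exact hcurv y hy u v w
  have hq : ∀ a b c : E, HasFDerivAt (fun y => fderiv ℝ C y a b c) _ x := fun a b c =>
    B10c_ev (B10c_ev (B10c_ev (hd2 x hx) a) b) c
  have hC2 : ∀ a b : E, HasFDerivAt (fun y => C y a b) _ x := fun a b =>
    B10c_ev (B10c_ev (hd x hx) a) b
  have hC1 : ∀ a : E, HasFDerivAt (fun y => C y a) _ x := fun a => B10c_ev (hd x hx) a
  have hcc : ∀ a b c : E, HasFDerivAt (fun y => C y a (C y b c)) _ x := fun a b c =>
    (hC1 a).clm_apply (hC2 b c)
  have hall := (((hq u v w).sub (hq v u w)).add (hcc u v w)).sub (hcc v u w)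
  have hfd : fderiv ℝ (fun y => curv C y u v w) x z =
      fderiv ℝ (fderiv ℝ C) x z u v w - fderiv ℝ (fderiv ℝ C) x z v u w +
        (fderiv ℝ C x z u (C x v w) + C x u (fderiv ℝ C x z v w)) -
        (fderiv ℝ C x z v (C x u w) + C x v (fderiv ℝ C x z u w)) := by
    rw [he.fderiv_eq]
    have := hall.fderiv
    have h2 := congrArg (fun L : E →L[ℝ] E => L z) this
    refine Eq.trans h2 ?_
    simp only [ContinuousLinearMap.sub_apply, ContinuousLinearMap.add_apply,
      ContinuousLinearMap.comp_apply, ContinuousLinearMap.flip_apply,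
      ContinuousLinearMap.apply_apply]
    abel
  unfold dcurv
  rw [hfd]

end NS38
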