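import Pool.Agent.LibNS38.B1

set_option autoImplicit false
set_option maxSynthPendingDepth 3

open Topology Filter Set
open scoped ContDiff

namespace NS38

/-- the symmetrised first derivative -/
private noncomputable def B2_T {E : Type} [NormedAddCommGroup E] [NormedSpace ℝ E]
    (T : E →L[ℝ] E →L[ℝ] E →L[ℝ] ℝ) : E →L[ℝ] E →L[ℝ] E →L[ℝ] ℝ :=
  T + T.flip - ((ContinuousLinearMap.flipₗᵢ ℝ E E ℝ).toContinuousLinearEquiv :
    (E →L[ℝ] E →L[ℝ] ℝ) →L[ℝ] (E →L[ℝ] E →L[ℝ] ℝ)).comp T.flip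

private theorem B2_T_apply {E : Type} [NormedAddCommGroup E] [NormedSpace ℝ E]
    (T : E →L[ℝ] E →L[ℝ] E →L[ℝ] ℝ) (v w u : E) :
    B2_T T v w u = T v w u + T w v u - T u v w := by
  simp [B2_T]

private theorem B2_T_vw {E : Type} [NormedAddCommGroup E] [NormedSpace ℝ E]
    (T : E →L[ℝ] E →L[ℝ] E →L[ℝ] ℝ) (v w : E) :
    B2_T T v w = T v w + T w v - (T.flip v).flip w := by
  ext u
  rw [B2_T_apply]
  simp

private theorem B2_equiv {E : Type} [NormedAddCommGroup E] [NormedSpace ℝ E]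
    [FiniteDimensional ℝ E] (A : E →L[ℝ] E →L[ℝ] ℝ) (h : ∀ v, v ≠ 0 → 0 < A v v) :
    ∃ e : E ≃L[ℝ] (E →L[ℝ] ℝ), (e : E →L[ℝ] (E →L[ℝ] ℝ)) = A := by
  have hi : Function.Injective (A : E →ₗ[ℝ] (E →L[ℝ] ℝ)) := by
    rw [← LinearMap.ker_eq_bot, LinearMap.ker_eq_bot']
    intro v hv
    by_contra hne
    have h1 := h v hne
    have h2 : A v = 0 := hv
    rw [h2] at h1
    simp at h1
  have hn : Module.finrank ℝ E = Module.finrank ℝ (E →L[ℝ] ℝ) := by
    have h1 : Module.finrank ℝ (E →ₗ[ℝ] ℝ) = Module.finrank ℝ (E →L[ℝ] ℝ) :=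
      LinearEquiv.finrank_eq (LinearMap.toContinuousLinearMap (𝕜 := ℝ) (E := E) (F' := ℝ))
    have h2 : Module.finrank ℝ (Module.Dual ℝ E) = Module.finrank ℝ E :=
      Subspace.dual_finrank_eq
    rw [← h1]
    exact h2.symm
  refine ⟨(LinearMap.linearEquivOfInjective (A : E →ₗ[ℝ] (E →L[ℝ] ℝ)) hi hn).toContinuousLinearEquiv, ?_⟩
  ext v w
  simp

/-- Row B2. Existence of the Christoffel symbol, with smooth dependence on a parameter `p ∈ P`.
PLAN. `L` from `clm_ext` (on `P × E`). For `x ∈ S` the map `L x : E →L[ℝ] (E →L[ℝ] ℝ)` is injective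
(positivity), hence bijective (`finrank` of the dual), so a continuous linear equivalence; the inverse
`x ↦ (L x)⁻¹` is `C^∞` on `S` (`contDiffAt_map_inverse`, `ContinuousLinearMap.inverse`). The right side
of the Koszul formula is `b x v w : E →L[ℝ] ℝ`, `C^∞` in `x` (partial derivatives in `y` of the `C^∞`
function `(p, y) ↦ L (p, y)`: `(fderiv ℝ L (p, y)) (0, v)`), `C x v w := (1/2) (L x)⁻¹ (b x v w)`, as an
element of `E →L[ℝ] E →L[ℝ] E` (`contDiffOn_clm_apply`, or build it by composition of continuous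
linear maps). The partial derivatives: `fderiv ℝ (fun y => G p y w u) y0 v =
fderiv ℝ (fun x => L x w u) (p, y0) (0, v)` (chain rule with `y ↦ (p, y)`; `G` and `L` agree near
`(p, y0)` since `S` is open). -/
theorem chr_exists {P E : Type} [NormedAddCommGroup P] [NormedSpace ℝ P] [NormedAddCommGroup E]
    [NormedSpace ℝ E] [FiniteDimensional ℝ E] (G : P → E → E → E → ℝ) (S : Set (P × E))
    (hS : IsOpen S) (hb : Bil (fun x : P × E => G x.1 x.2) S)
    (hs : ∀ v w, ContDiffOn ℝ ∞ (fun x : P × E => G x.1 x.2 v w) S)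
    (hp : ∀ x ∈ S, ∀ v, v ≠ 0 → 0 < G x.1 x.2 v v) :
    ∃ C : P → E → E →L[ℝ] E →L[ℝ] E, ContDiffOn ℝ ∞ (fun x : P × E => C x.1 x.2) S ∧
      ∀ x ∈ S, ∀ u v w, 2 * G x.1 x.2 (C x.1 x.2 v w) u =
        fderiv ℝ (fun y => G x.1 y w u) x.2 v + fderiv ℝ (fun y => G x.1 y v u) x.2 w -
          fderiv ℝ (fun y => G x.1 y v w) x.2 u := by
  obtain ⟨L, hL, hLG⟩ := clm_ext (m := ∞) (fun x : P × E => G x.1 x.2) S hb hs
  haveI : CompleteSpace E := FiniteDimensional.complete ℝ E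
  have hDL : ContDiffOn ℝ ∞ (fderiv ℝ L) S := hL.fderiv_of_isOpen hS (by simp)
  -- the partial derivative
  let T : P × E → E →L[ℝ] E →L[ℝ] E →L[ℝ] ℝ := fun x =>
    (fderiv ℝ L x).comp (ContinuousLinearMap.inr ℝ P E)
  have hT : ContDiffOn ℝ ∞ T S := hDL.clm_comp contDiffOn_const
  let C0 : P × E → E →L[ℝ] E →L[ℝ] E := fun x =>
    (ContinuousLinearMap.compL ℝ E (E →L[ℝ] ℝ) E ((1 / 2 : ℝ) • (L x).inverse)).comp (B2_T (T x))
  have hC0 : ∀ x v w, C0 x v w = (1 / 2 : ℝ) • (L x).inverse (B2_T (T x) v w) := by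
    intro x v w
    simp [C0]
  have heq : ∀ x ∈ S, ∃ e : E ≃L[ℝ] (E →L[ℝ] ℝ), (e : E →L[ℝ] (E →L[ℝ] ℝ)) = L x := by
    intro x hx
    refine B2_equiv (L x) ?_
    intro v hv
    rw [hLG x hx]
    exact hp x hx v hv
  have hinv : ContDiffOn ℝ ∞ (fun x => (L x).inverse) S := by
    intro x hx
    obtain ⟨e, he⟩ := heq x hx
    have h1 : ContDiffAt ℝ ∞ ContinuousLinearMap.inverse (L x) := by
      rw [← he]
      exact contDiffAt_map_inverse e
    exact h1.comp_contDiffWithinAt x (hL x hx)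
  have hB : ∀ v w, ContDiffOn ℝ ∞ (fun x => B2_T (T x) v w) S := by
    intro v w
    have h1 : ContDiffOn ℝ ∞ (fun x => T x v w) S :=
      (hT.clm_apply contDiffOn_const).clm_apply contDiffOn_const
    have h2 : ContDiffOn ℝ ∞ (fun x => T x w v) S :=
      (hT.clm_apply contDiffOn_const).clm_apply contDiffOn_const
    have h3 : ContDiffOn ℝ ∞ (fun x => ((T x).flip v).flip w) S := by
      rw [contDiffOn_clm_apply]
      intro u
      have h4 : ContDiffOn ℝ ∞ (fun x => T x u v w) S :=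
        ((hT.clm_apply contDiffOn_const).clm_apply contDiffOn_const).clm_apply contDiffOn_const
      exact h4
    have h5 : (fun x => B2_T (T x) v w) = fun x => T x v w + T x w v - ((T x).flip v).flip w := by
      funext x
      exact B2_T_vw (T x) v w
    rw [h5]
    exact (h1.add h2).sub h3
  have hCs : ContDiffOn ℝ ∞ C0 S := by
    rw [contDiffOn_clm_apply]
    intro v
    rw [contDiffOn_clm_apply]
    intro w
    have h1 : (fun x => C0 x v w) = fun x => (1 / 2 : ℝ) • (L x).inverse (B2_T (T x) v w) := by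
      funext x
      exact hC0 x v w
    rw [h1]
    exact (hinv.clm_apply (hB v w)).const_smul (1 / 2 : ℝ)
  -- the partial derivatives of `G`
  have hpd : ∀ x ∈ S, ∀ a b c, fderiv ℝ (fun y => G x.1 y b c) x.2 a = T x a b c := by
    rintro ⟨p, y0⟩ hx a b c
    have h0 : HasFDerivAt L (fderiv ℝ L (p, y0)) (p, y0) :=
      ((hL.contDiffAt (hS.mem_nhds hx)).differentiableAt (by simp)).hasFDerivAt
    have h1 : HasFDerivAt (fun y : E => (p, y)) (ContinuousLinearMap.inr ℝ P E) y0 :=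
      hasFDerivAt_prodMk_right p y0
    have h2 : HasFDerivAt (fun y : E => L (p, y)) (T (p, y0)) y0 := h0.comp y0 h1
    let ev : (E →L[ℝ] E →L[ℝ] ℝ) →L[ℝ] ℝ :=
      (ContinuousLinearMap.apply ℝ ℝ c).comp (ContinuousLinearMap.apply ℝ (E →L[ℝ] ℝ) b)
    have h3 : HasFDerivAt (fun y : E => ev (L (p, y))) (ev.comp (T (p, y0))) y0 :=
      ev.hasFDerivAt.comp y0 h2
    have h4 : (fun y : E => G p y b c) =ᶠ[𝓝 y0] fun y : E => ev (L (p, y)) := by
      have h5 : ∀ᶠ y in 𝓝 y0, (p, y) ∈ S := by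
        have h6 : ContinuousAt (fun y : E => (p, y)) y0 := by fun_prop
        exact h6 (hS.mem_nhds hx)
      filter_upwards [h5] with y hy
      exact (hLG (p, y) hy b c).symm
    rw [(h3.congr_of_eventuallyEq h4).fderiv]
    rfl
  refine ⟨fun p y => C0 (p, y), hCs, ?_⟩
  intro x hx u v w
  obtain ⟨e, he⟩ := heq x hx
  rw [hpd x hx, hpd x hx, hpd x hx]
  have h1 : G x.1 x.2 (C0 (x.1, x.2) v w) u = L x (C0 x v w) u := (hLG x hx _ u).symm
  have h2 : L x ((L x).inverse (B2_T (T x) v w)) = B2_T (T x) v w := by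
    rw [← he, ContinuousLinearMap.inverse_equiv]
    exact e.apply_symm_apply _
  change 2 * G x.1 x.2 (C0 (x.1, x.2) v w) u = _
  rw [h1, hC0, map_smul, h2, ContinuousLinearMap.smul_apply, B2_T_apply, smul_eq_mul]
  ring

end NS38
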