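import Pool.Agent.LibNS38.B2

set_option autoImplicit false
set_option maxSynthPendingDepth 3

open Topology Filter Set
open scoped ContDiff

namespace NS38

private theorem B3_sub {E : Type} [NormedAddCommGroup E] [NormedSpace ℝ E] {Ω : Set E}
    {G : E → E → E → ℝ} (hb : Bil G Ω) {x : E} (hx : x ∈ Ω) (a b u : E) :
    G x (a - b) u = G x a u - G x b u := by
  have h1 : a - b = a + (-1 : ℝ) • b := by rw [neg_one_smul, sub_eq_add_neg]
  rw [h1, hb.add x hx, hb.smul x hx]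
  ring

private theorem B3_eq {E : Type} [NormedAddCommGroup E] [NormedSpace ℝ E] {Ω : Set E}
    {G : E → E → E → ℝ} (hm : Met G Ω) {x : E} (hx : x ∈ Ω) {a b : E}
    (h : ∀ u, G x a u = G x b u) : a = b := by
  by_contra hne
  have h1 := hm.pos x hx (a - b) (sub_ne_zero.2 hne)
  rw [B3_sub hm.bil hx, h, sub_self] at h1
  exact lt_irrefl _ h1

private theorem B3_curv {E : Type} [NormedAddCommGroup E] [NormedSpace ℝ E]
    {Ω : Set E} (hΩ : IsOpen Ω) {C C' : E → E →L[ℝ] E →L[ℝ] E} (h : ∀ x ∈ Ω, C x = C' x)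
    {x : E} (hx : x ∈ Ω) (u v w : E) : curv C x u v w = curv C' x u v w := by
  have h1 : ∀ v w : E, (fun y => C y v w) =ᶠ[𝓝 x] fun y => C' y v w := by
    intro v w
    filter_upwards [hΩ.mem_nhds hx] with y hy
    rw [h y hy]
  unfold curv
  rw [(h1 v w).fderiv_eq, (h1 u w).fderiv_eq, h x hx]

/-- Row B3. Uniqueness, scaling, symmetry and locality. PLAN. `G x (a - b) u = 0` for all `u` gives
`a = b` by positivity (`u = a - b`). (b) constant factors cancel. (d) `B2` with `P = ℝ` and constant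
dependence. (e) `fderiv` only depends on the germ (`Filter.EventuallyEq.fderiv_eq`), so `curv` and
`dcurv` at `x` only depend on `C` near `x`. -/
theorem kos_facts {E : Type} [NormedAddCommGroup E] [NormedSpace ℝ E] [FiniteDimensional ℝ E]
    {Ω : Set E} (hΩ : IsOpen Ω) :
    (∀ (G : E → E → E → ℝ) (C C' : E → E →L[ℝ] E →L[ℝ] E), Met G Ω → Kos G C Ω → Kos G C' Ω →
      ∀ x ∈ Ω, C x = C' x) ∧
    (∀ (G : E → E → E → ℝ) (C : E → E →L[ℝ] E →L[ℝ] E) (c : ℝ), 0 < c → Kos G C Ω →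
      Kos (fun x v w => c * G x v w) C Ω) ∧
    (∀ (G : E → E → E → ℝ) (C : E → E →L[ℝ] E →L[ℝ] E), Met G Ω → Kos G C Ω →
      ∀ x ∈ Ω, ∀ v w, C x v w = C x w v) ∧
    (∀ G : E → E → E → ℝ, Met G Ω → ∃ C : E → E →L[ℝ] E →L[ℝ] E, ContDiffOn ℝ ∞ C Ω ∧ Kos G C Ω) ∧
    (∀ (C C' : E → E →L[ℝ] E →L[ℝ] E), (∀ x ∈ Ω, C x = C' x) → ∀ x ∈ Ω, ∀ z u v w,
      curv C x u v w = curv C' x u v w ∧ dcurv C x z u v w = dcurv C' x z u v w) := by
  refine ⟨?_, ?_, ?_, ?_, ?_⟩
  · intro G C C' hm hk hk' x hx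
    refine ContinuousLinearMap.ext fun v => ContinuousLinearMap.ext fun w => ?_
    refine B3_eq hm hx fun u => ?_
    have h1 := hk x hx u v w
    have h2 := hk' x hx u v w
    linarith
  · intro G C c hc hk x hx u v w
    have h1 : ∀ (f : E → ℝ) (z : E), fderiv ℝ (fun y => c * f y) x z = c * fderiv ℝ f x z := by
      intro f z
      have h2 : fderiv ℝ (fun y => c * f y) x = c • fderiv ℝ f x := by
        have h3 := congrFun (fderiv_const_smul_field (𝕜 := ℝ) (f := f) c) x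
        exact h3
      rw [h2]
      rfl
    have h4 := hk x hx u v w
    show 2 * (c * G x (C x v w) u) = fderiv ℝ (fun y => c * G y w u) x v +
      fderiv ℝ (fun y => c * G y v u) x w - fderiv ℝ (fun y => c * G y v w) x u
    rw [h1, h1, h1]
    linear_combination c * h4
  · intro G C hm hk x hx v w
    refine B3_eq hm hx fun u => ?_
    have h1 := hk x hx u v w
    have h2 := hk x hx u w v
    have h3 : (fun y => G y w v) =ᶠ[𝓝 x] fun y => G y v w := by
      filter_upwards [hΩ.mem_nhds hx] with y hy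
      exact hm.bil.symm y hy w v
    rw [h3.fderiv_eq] at h2
    linarith
  · intro G hm
    have hS : IsOpen ((Set.univ : Set ℝ) ×ˢ Ω) := isOpen_univ.prod hΩ
    obtain ⟨C, hC, hK⟩ := chr_exists (P := ℝ) (fun _ => G) ((Set.univ : Set ℝ) ×ˢ Ω) hS
      ⟨fun x hx u v w => hm.bil.add x.2 hx.2 u v w, fun x hx r v w => hm.bil.smul x.2 hx.2 r v w,
        fun x hx v w => hm.bil.symm x.2 hx.2 v w⟩
      (fun v w => (hm.smooth v w).comp contDiff_snd.contDiffOn fun x hx => hx.2)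
      (fun x hx v hv => hm.pos x.2 hx.2 v hv)
    refine ⟨C 0, ?_, ?_⟩
    · have h1 : ContDiffOn ℝ ∞ (fun x : E => ((0 : ℝ), x)) Ω :=
        (contDiff_const.prodMk contDiff_id).contDiffOn
      exact hC.comp h1 fun x hx => ⟨Set.mem_univ _, hx⟩
    · intro x hx u v w
      exact hK (0, x) ⟨Set.mem_univ _, hx⟩ u v w
  · intro C C' h x hx z u v w
    refine ⟨B3_curv hΩ h hx u v w, ?_⟩
    have h1 : (fun y => curv C y u v w) =ᶠ[𝓝 x] fun y => curv C' y u v w := by
      filter_upwards [hΩ.mem_nhds hx] with y hy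
      exact B3_curv hΩ h hy u v w
    unfold dcurv
    rw [h1.fderiv_eq, h x hx, B3_curv hΩ h hx u v w, B3_curv hΩ h hx (C' x z u) v w,
      B3_curv hΩ h hx u (C' x z v) w, B3_curv hΩ h hx u v (C' x z w)]

end NS38
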