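import Pool.Agent.LibNS38.B0

set_option autoImplicit false
set_option maxSynthPendingDepth 3

open Topology Filter Set
open scoped ContDiff

namespace NS38

/-- the derivative of an evaluated bilinear field -/
private theorem B5_ev {E : Type} [NormedAddCommGroup E] [NormedSpace ℝ E]
    (C : E → E →L[ℝ] E →L[ℝ] E) (x : E) (hC : DifferentiableAt ℝ C x) (u v w : E) :
    fderiv ℝ (fun y => C y v w) x u = fderiv ℝ C x u v w := by
  have h1 := hC.hasFDerivAt.clm_apply (hasFDerivAt_const v x)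
  have h2 := h1.clm_apply (hasFDerivAt_const w x)
  rw [h2.fderiv]
  simp

/-- the differentiated law -/
private theorem B5_diff {E : Type} [NormedAddCommGroup E] [NormedSpace ℝ E] {Ω Ω' : Set E}
    (hΩ : IsOpen Ω) (hΩ' : IsOpen Ω') (φ : E → E) (hφ : ContDiffOn ℝ ∞ φ Ω')
    (hm : ∀ x ∈ Ω', φ x ∈ Ω) (C C' : E → E →L[ℝ] E →L[ℝ] E) (hC : ContDiffOn ℝ ∞ C Ω)
    (hC' : ContDiffOn ℝ ∞ C' Ω')
    (hlaw : ∀ x ∈ Ω', ∀ v w, fderiv ℝ φ x (C' x v w) =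
      C (φ x) (fderiv ℝ φ x v) (fderiv ℝ φ x w) + fderiv ℝ (fderiv ℝ φ) x v w)
    (x : E) (hx : x ∈ Ω') (u v w : E) :
    fderiv ℝ (fderiv ℝ φ) x u (C' x v w) + fderiv ℝ φ x (fderiv ℝ C' x u v w) =
      fderiv ℝ C (φ x) (fderiv ℝ φ x u) (fderiv ℝ φ x v) (fderiv ℝ φ x w) +
        C (φ x) (fderiv ℝ (fderiv ℝ φ) x u v) (fderiv ℝ φ x w) +
        C (φ x) (fderiv ℝ φ x v) (fderiv ℝ (fderiv ℝ φ) x u w) +
        fderiv ℝ (fderiv ℝ (fderiv ℝ φ)) x u v w := by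
  have hn : (∞ : WithTop ℕ∞) + 1 ≤ ∞ := by
    exact le_of_eq rfl
  have hn0 : (∞ : WithTop ℕ∞) ≠ 0 := by
    simp
  have hg : ContDiffOn ℝ ∞ (fderiv ℝ φ) Ω' := hφ.fderiv_of_isOpen hΩ' hn
  have hg2 : ContDiffOn ℝ ∞ (fderiv ℝ (fderiv ℝ φ)) Ω' := hg.fderiv_of_isOpen hΩ' hn
  have hxn : Ω' ∈ 𝓝 x := hΩ'.mem_nhds hx
  have hxn2 : Ω ∈ 𝓝 (φ x) := hΩ.mem_nhds (hm x hx)
  have d0 : HasFDerivAt φ (fderiv ℝ φ x) x :=
    ((hφ.contDiffAt hxn).differentiableAt hn0).hasFDerivAt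
  have d1 : HasFDerivAt (fderiv ℝ φ) (fderiv ℝ (fderiv ℝ φ) x) x :=
    ((hg.contDiffAt hxn).differentiableAt hn0).hasFDerivAt
  have d2 : HasFDerivAt (fderiv ℝ (fderiv ℝ φ)) (fderiv ℝ (fderiv ℝ (fderiv ℝ φ)) x) x :=
    ((hg2.contDiffAt hxn).differentiableAt hn0).hasFDerivAt
  have dC' : HasFDerivAt C' (fderiv ℝ C' x) x :=
    ((hC'.contDiffAt hxn).differentiableAt hn0).hasFDerivAt
  have dC : HasFDerivAt C (fderiv ℝ C (φ x)) (φ x) :=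
    ((hC.contDiffAt hxn2).differentiableAt hn0).hasFDerivAt
  have dCφ : HasFDerivAt (fun y => C (φ y)) ((fderiv ℝ C (φ x)).comp (fderiv ℝ φ x)) x :=
    dC.comp x d0
  have cv : HasFDerivAt (fun _ : E => v) (0 : E →L[ℝ] E) x := hasFDerivAt_const v x
  have cw : HasFDerivAt (fun _ : E => w) (0 : E →L[ℝ] E) x := hasFDerivAt_const w x
  have a1 := (dC'.clm_apply cv).clm_apply cw
  have a2 := d1.clm_apply a1
  have b1 := dCφ.clm_apply (d1.clm_apply cv)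
  have b2 := b1.clm_apply (d1.clm_apply cw)
  have b3 := (d2.clm_apply cv).clm_apply cw
  have b4 := b2.add b3
  have heq : (fun y => fderiv ℝ φ y (C' y v w)) =ᶠ[𝓝 x]
      (fun y => C (φ y) (fderiv ℝ φ y v) (fderiv ℝ φ y w) + fderiv ℝ (fderiv ℝ φ) y v w) := by
    filter_upwards [hxn] with y hy
    exact hlaw y hy v w
  have h1 := heq.fderiv_eq (𝕜 := ℝ)
  have h2 : fderiv ℝ (fun y => fderiv ℝ φ y (C' y v w)) x = _ := a2.fderiv
  have h3 : fderiv ℝ (fun y => C (φ y) (fderiv ℝ φ y v) (fderiv ℝ φ y w) +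
      fderiv ℝ (fderiv ℝ φ) y v w) x = _ := b4.fderiv
  rw [h2, h3] at h1
  have h4 := congrArg (fun L : E →L[ℝ] E => L u) h1
  simp at h4
  rw [add_comm, h4]
  abel

/-- symmetry of the second derivative of a smooth map at a point of an open set -/
private theorem B5_symm {E F : Type} [NormedAddCommGroup E] [NormedSpace ℝ E]
    [NormedAddCommGroup F] [NormedSpace ℝ F] {Ω' : Set E}
    (hΩ' : IsOpen Ω') (f : E → F) (hf : ContDiffOn ℝ ∞ f Ω') (x : E) (hx : x ∈ Ω') (u v : E) :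
    fderiv ℝ (fderiv ℝ f) x u v = fderiv ℝ (fderiv ℝ f) x v u := by
  have h1 : ContDiffAt ℝ ∞ f x := hf.contDiffAt (hΩ'.mem_nhds hx)
  have h2 : IsSymmSndFDerivAt ℝ f x := by
    apply h1.isSymmSndFDerivAt
    rw [minSmoothness_of_isRCLikeNormedField]
    exact WithTop.coe_le_coe.2 le_top
  exact h2 u v

/-- Row B5. The curvature is natural. PLAN. `A = fderiv φ x`, `B = fderiv (fderiv φ) x` (symmetric),
`T u v w = D_u (B(v, w))` symmetric in `u, v` (third derivative; symmetry of the second derivative of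
`fderiv φ`). Differentiate the law in direction `u`:
`B(u, C'(v, w)) + A (D_u C')(v, w) = (D_{A u} C)(A v, A w) + C(B(u, v), A w) + C(A v, B(u, w)) + T u v w`,
antisymmetrize in `u, v`, and use the law again in `A C'(u, C'(v, w))`. -/
theorem curv_trans {E : Type} [NormedAddCommGroup E] [NormedSpace ℝ E] {Ω Ω' : Set E}
    (hΩ : IsOpen Ω) (hΩ' : IsOpen Ω') (φ : E → E) (hφ : ContDiffOn ℝ ∞ φ Ω')
    (hm : ∀ x ∈ Ω', φ x ∈ Ω) (C C' : E → E →L[ℝ] E →L[ℝ] E) (hC : ContDiffOn ℝ ∞ C Ω)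
    (hC' : ContDiffOn ℝ ∞ C' Ω')
    (hlaw : ∀ x ∈ Ω', ∀ v w, fderiv ℝ φ x (C' x v w) =
      C (φ x) (fderiv ℝ φ x v) (fderiv ℝ φ x w) + fderiv ℝ (fderiv ℝ φ) x v w) :
    ∀ x ∈ Ω', ∀ u v w, fderiv ℝ φ x (curv C' x u v w) =
      curv C (φ x) (fderiv ℝ φ x u) (fderiv ℝ φ x v) (fderiv ℝ φ x w) := by
  intro x hx u v w
  have hn : (∞ : WithTop ℕ∞) + 1 ≤ ∞ := by
    exact le_of_eq rfl
  have hn0 : (∞ : WithTop ℕ∞) ≠ 0 := by
    simp
  have hg : ContDiffOn ℝ ∞ (fderiv ℝ φ) Ω' := hφ.fderiv_of_isOpen hΩ' hn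
  have hxn : Ω' ∈ 𝓝 x := hΩ'.mem_nhds hx
  have hxn2 : Ω ∈ 𝓝 (φ x) := hΩ.mem_nhds (hm x hx)
  have dC' : DifferentiableAt ℝ C' x := (hC'.contDiffAt hxn).differentiableAt hn0
  have dC : DifferentiableAt ℝ C (φ x) := (hC.contDiffAt hxn2).differentiableAt hn0
  have e1 := B5_diff hΩ hΩ' φ hφ hm C C' hC hC' hlaw x hx u v w
  have e2 := B5_diff hΩ hΩ' φ hφ hm C C' hC hC' hlaw x hx v u w
  have sB := B5_symm hΩ' φ hφ x hx
  have sT := B5_symm hΩ' (fderiv ℝ φ) hg x hx u v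
  have sT' : fderiv ℝ (fderiv ℝ (fderiv ℝ φ)) x u v w =
      fderiv ℝ (fderiv ℝ (fderiv ℝ φ)) x v u w := by
    rw [sT]
  have l1 := hlaw x hx u (C' x v w)
  have l2 := hlaw x hx v (C' x u w)
  have l3 := hlaw x hx v w
  have l4 := hlaw x hx u w
  unfold curv
  rw [B5_ev C' x dC', B5_ev C' x dC', B5_ev C (φ x) dC, B5_ev C (φ x) dC]
  rw [map_sub, map_add, map_sub, l1, l2, l3, l4, map_add, map_add]
  have e1' : fderiv ℝ φ x (fderiv ℝ C' x u v w) =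
      fderiv ℝ C (φ x) (fderiv ℝ φ x u) (fderiv ℝ φ x v) (fderiv ℝ φ x w) +
        C (φ x) (fderiv ℝ (fderiv ℝ φ) x u v) (fderiv ℝ φ x w) +
        C (φ x) (fderiv ℝ φ x v) (fderiv ℝ (fderiv ℝ φ) x u w) +
        fderiv ℝ (fderiv ℝ (fderiv ℝ φ)) x u v w - fderiv ℝ (fderiv ℝ φ) x u (C' x v w) := by
    rw [← e1]; abel
  have e2' : fderiv ℝ φ x (fderiv ℝ C' x v u w) =
      fderiv ℝ C (φ x) (fderiv ℝ φ x v) (fderiv ℝ φ x u) (fderiv ℝ φ x w) +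
        C (φ x) (fderiv ℝ (fderiv ℝ φ) x v u) (fderiv ℝ φ x w) +
        C (φ x) (fderiv ℝ φ x u) (fderiv ℝ (fderiv ℝ φ) x v w) +
        fderiv ℝ (fderiv ℝ (fderiv ℝ φ)) x v u w - fderiv ℝ (fderiv ℝ φ) x v (C' x u w) := by
    rw [← e2]; abel
  rw [e1', e2', sT', sB v u]
  abel

end NS38
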