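import Pool.Agent.LibNS38.B1

set_option autoImplicit false
set_option maxSynthPendingDepth 3

open Topology Filter Set
open scoped ContDiff

namespace NS38

/-- the path of forms `∑ i, a i t * G i` -/
def pth {E : Type} {D : ℕ} (a : Fin D → ℝ → ℝ) (G : Fin D → E → E → E → ℝ) (t : ℝ) (x v w : E) :
    ℝ := ∑ i, a i t * G i x v w

theorem pth_bil {E : Type} [NormedAddCommGroup E] [NormedSpace ℝ E] {D : ℕ} (a : Fin D → ℝ → ℝ)
    (G : Fin D → E → E → E → ℝ) {Ω : Set E} (hb : ∀ i, Bil (G i) Ω) (t : ℝ) :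
    Bil (pth a G t) Ω := by
  refine ⟨?_, ?_, ?_⟩
  · intro y hy u v w
    simp only [pth]
    rw [← Finset.sum_add_distrib]
    refine Finset.sum_congr rfl fun i _ => ?_
    rw [(hb i).add y hy]
    ring
  · intro y hy r v w
    simp only [pth]
    rw [Finset.mul_sum]
    refine Finset.sum_congr rfl fun i _ => ?_
    rw [(hb i).smul y hy]
    ring
  · intro y hy v w
    simp only [pth]
    refine Finset.sum_congr rfl fun i _ => ?_
    rw [(hb i).symm y hy]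

theorem pth_smooth {E : Type} [NormedAddCommGroup E] [NormedSpace ℝ E] {D : ℕ}
    (a : Fin D → ℝ → ℝ) (G : Fin D → E → E → E → ℝ) {Ω : Set E}
    (hs : ∀ i v w, ContDiffOn ℝ ∞ (fun x => G i x v w) Ω) (t : ℝ) (v w : E) :
    ContDiffOn ℝ ∞ (fun x => pth a G t x v w) Ω := by
  unfold pth
  exact ContDiffOn.sum fun i _ => contDiffOn_const.mul (hs i v w)

private theorem C10a_hom {E : Type} [NormedAddCommGroup E] [NormedSpace ℝ E]
    {G : E → E → E → ℝ} {S : Set E} (hb : Bil G S) {y : E} (hy : y ∈ S) (r : ℝ) (v : E) :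
    G y (r • v) (r • v) = r ^ 2 * G y v v := by
  rw [hb.smul y hy r v (r • v), hb.symm y hy v (r • v), hb.smul y hy r v v]
  ring

/-- Row C10a. Positivity near `[0, 1] × {x}` along a path of metrics. -/
theorem path_nbhd {E : Type} [NormedAddCommGroup E] [NormedSpace ℝ E] [FiniteDimensional ℝ E]
    {Ω : Set E} (hΩ : IsOpen Ω) {D : ℕ} (a : Fin D → ℝ → ℝ) (G : Fin D → E → E → E → ℝ)
    (hb : ∀ i, Bil (G i) Ω) (hs : ∀ i v w, ContDiffOn ℝ ∞ (fun x => G i x v w) Ω)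
    (J0 : Set ℝ) (hJ0 : IsOpen J0) (hI : Icc 0 1 ⊆ J0) (ha : ∀ i, ContinuousOn (a i) J0)
    (hm : ∀ t ∈ Icc (0 : ℝ) 1, Met (pth a G t) Ω) (x : E) (hx : x ∈ Ω) :
    ∃ (J : Set ℝ) (Ωx : Set E), IsOpen J ∧ IsPreconnected J ∧ Icc 0 1 ⊆ J ∧ J ⊆ J0 ∧ IsOpen Ωx ∧
      x ∈ Ωx ∧ Ωx ⊆ Ω ∧ ∀ t ∈ J, Met (pth a G t) Ωx := by
  haveI : ProperSpace E := FiniteDimensional.proper_real E
  choose L hL e0 using fun i => clm_ext (G i) Ω (hb i) (hs i)
  set D' : Set (ℝ × E × E) := J0 ×ˢ (Ω ×ˢ univ) with hD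
  have hDo : IsOpen D' := hJ0.prod (hΩ.prod isOpen_univ)
  set F : ℝ × E × E → ℝ := fun p => ∑ i, a i p.1 * L i p.2.1 p.2.2 p.2.2 with hF
  have hmaps : MapsTo (fun p : ℝ × E × E => p.2.1) D' Ω := fun p hp => hp.2.1
  have hmaps0 : MapsTo (fun p : ℝ × E × E => p.1) D' J0 := fun p hp => hp.1
  have hc1 : ContinuousOn (fun p : ℝ × E × E => p.2.1) D' :=
    (continuous_fst.comp continuous_snd).continuousOn
  have hc2 : ContinuousOn (fun p : ℝ × E × E => p.2.2) D' :=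
    (continuous_snd.comp continuous_snd).continuousOn
  have hc0 : ContinuousOn (fun p : ℝ × E × E => p.1) D' := continuous_fst.continuousOn
  have hFc : ContinuousOn F D' := by
    refine continuousOn_finsetSum _ fun i _ => ?_
    exact ((ha i).comp hc0 hmaps0).mul
      ((((hL i).continuousOn.comp hc1 hmaps).clm_apply hc2).clm_apply hc2)
  have hUo : IsOpen (D' ∩ F ⁻¹' Ioi 0) := hFc.isOpen_inter_preimage hDo isOpen_Ioi
  have hval : ∀ (t : ℝ), ∀ y ∈ Ω, ∀ v : E, F (t, y, v) = pth a G t y v v := by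
    intro t y hy v
    show ∑ i, a i t * L i y v v = ∑ i, a i t * G i y v v
    exact Finset.sum_congr rfl fun i _ => by rw [e0 i y hy]
  have hsub : Icc (0 : ℝ) 1 ×ˢ (({x} : Set E) ×ˢ Metric.sphere (0 : E) 1) ⊆
      D' ∩ F ⁻¹' Ioi 0 := by
    rintro ⟨t, y, v⟩ ⟨ht, hy, hv⟩
    have hy' : y = x := hy
    subst hy'
    have hv0 : v ≠ 0 := by
      rintro rfl
      simp at hv
    refine ⟨⟨hI ht, hx, mem_univ _⟩, ?_⟩
    show 0 < F (t, y, v)
    rw [hval t y hx]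
    exact (hm t ht).pos y hx v hv0
  have hcs : IsCompact (({x} : Set E) ×ˢ Metric.sphere (0 : E) 1) :=
    isCompact_singleton.prod (isCompact_sphere 0 1)
  obtain ⟨u, v, hu, hv, hIu, hxv, huv⟩ :=
    generalized_tube_lemma (isCompact_Icc : IsCompact (Icc (0 : ℝ) 1)) hcs hUo hsub
  obtain ⟨v1, v2, hv1, hv2, hxv1, hsv2, hv12⟩ :=
    generalized_tube_lemma (isCompact_singleton : IsCompact ({x} : Set E))
      (isCompact_sphere (0 : E) 1) hv hxv
  obtain ⟨δ, hδ, hδu⟩ := (isCompact_Icc : IsCompact (Icc (0 : ℝ) 1)).exists_thickening_subset_open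
    (hu.inter hJ0) (subset_inter hIu hI)
  refine ⟨Metric.thickening δ (Icc 0 1), v1 ∩ Ω, Metric.isOpen_thickening,
    ((convex_Icc (0 : ℝ) 1).thickening δ).isPreconnected, Metric.self_subset_thickening hδ _,
    fun t ht => (hδu ht).2, hv1.inter hΩ, ⟨hxv1 rfl, hx⟩, inter_subset_right, ?_⟩
  intro t ht
  have htu : t ∈ u := (hδu ht).1
  have hB : Bil (pth a G t) Ω := pth_bil a G hb t
  refine ⟨⟨fun y hy => hB.add y hy.2, fun y hy => hB.smul y hy.2, fun y hy => hB.symm y hy.2⟩,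
    fun v w => (pth_smooth a G hs t v w).mono inter_subset_right, ?_⟩
  intro y hy c hc
  have hn : 0 < ‖c‖ := norm_pos_iff.2 hc
  set b : E := ‖c‖⁻¹ • c with hbd
  have hbn : b ∈ Metric.sphere (0 : E) 1 := by
    rw [mem_sphere_zero_iff_norm, hbd, norm_smul, norm_inv, norm_norm]
    exact inv_mul_cancel₀ hn.ne'
  have hab : c = ‖c‖ • b := by
    rw [hbd, smul_smul, mul_inv_cancel₀ hn.ne', one_smul]
  have hmem : ((t, y, b) : ℝ × E × E) ∈ D' ∩ F ⁻¹' Ioi 0 :=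
    huv ⟨htu, hv12 ⟨hy.1, hsv2 hbn⟩⟩
  have hpos : 0 < F (t, y, b) := hmem.2
  rw [hval t y hy.2] at hpos
  rw [hab, C10a_hom hB hy.2]
  exact mul_pos (pow_pos hn 2) hpos

end NS38
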