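import Pool.Agent.LibNS38.B3
import Pool.Agent.LibNS38.B7

set_option autoImplicit false
set_option maxSynthPendingDepth 3

open Topology Filter Set
open scoped ContDiff

namespace NS38

private theorem C9_sum_an {V : Type} [NormedAddCommGroup V] [NormedSpace ℝ V] {D : ℕ}
    (α : Fin D → ℝ → ℝ) (c : Fin D → V) (t : ℝ) (hα : ∀ i, AnalyticAt ℝ (α i) t) :
    AnalyticAt ℝ (fun t : ℝ => ∑ i, α i t • c i) t := by
  have h := Finset.analyticAt_fun_sum (𝕜 := ℝ) (f := fun (i : Fin D) (t : ℝ) => α i t • c i)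
    (c := t) Finset.univ (fun i _ => (hα i).smul analyticAt_const)
  exact h

/-- Row C9. For fixed `x` the derivatives in `x` up to order two of `f (∑ i, α i t • b i y)` are
analytic in `t`, for analytic coefficients `α i`. -/
theorem path_jet {E V F : Type} [NormedAddCommGroup E] [NormedSpace ℝ E]
    [NormedAddCommGroup V] [NormedSpace ℝ V] [NormedAddCommGroup F] [NormedSpace ℝ F]
    [CompleteSpace F] {D : ℕ} (W : Set V) (f : V → F) (hf : AnalyticOnNhd ℝ f W)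
    (J : Set ℝ) (hJ : IsOpen J) (Ω : Set E) (hΩ : IsOpen Ω) (α : Fin D → ℝ → ℝ)
    (hα : ∀ i, AnalyticOnNhd ℝ (α i) J) (b : Fin D → E → V)
    (hb : ∀ i, ContDiffOn ℝ ∞ (b i) Ω)
    (hq : ∀ t ∈ J, ∀ y ∈ Ω, ∑ i, α i t • b i y ∈ W) (x : E) (hx : x ∈ Ω) :
    AnalyticOnNhd ℝ (fun t => f (∑ i, α i t • b i x)) J ∧
    AnalyticOnNhd ℝ (fun t => fderiv ℝ (fun y => f (∑ i, α i t • b i y)) x) J ∧
    AnalyticOnNhd ℝ (fun t => fderiv ℝ (fderiv ℝ (fun y => f (∑ i, α i t • b i y))) x) J := by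
  have h11 : (1 : WithTop ℕ∞) + 1 ≤ ∞ := by
    have h : ((1 + 1 : ℕ∞) : WithTop ℕ∞) ≤ ((⊤ : ℕ∞) : WithTop ℕ∞) := WithTop.coe_le_coe.2 le_top
    exact h
  have hqd : ∀ t : ℝ, ∀ y ∈ Ω, HasFDerivAt (fun y => ∑ i, α i t • b i y)
      (∑ i, α i t • fderiv ℝ (b i) y) y := by
    intro t y hy
    refine HasFDerivAt.fun_sum fun i _ => ?_
    have h1 : HasFDerivAt (b i) (fderiv ℝ (b i) y) y :=
      (((hb i).contDiffAt (hΩ.mem_nhds hy)).differentiableAt (by simp)).hasFDerivAt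
    exact h1.const_smul (α i t)
  have hqd2 : ∀ t : ℝ, HasFDerivAt (fun y => ∑ i, α i t • fderiv ℝ (b i) y)
      (∑ i, α i t • fderiv ℝ (fderiv ℝ (b i)) x) x := by
    intro t
    refine HasFDerivAt.fun_sum fun i _ => ?_
    have h1 : HasFDerivAt (fderiv ℝ (b i)) (fderiv ℝ (fderiv ℝ (b i)) x) x :=
      ((((hb i).contDiffAt (hΩ.mem_nhds hx)).fderiv_right (m := 1) h11).differentiableAt
        (by simp)).hasFDerivAt
    exact h1.const_smul (α i t)
  have hfd : ∀ z ∈ W, HasFDerivAt f (fderiv ℝ f z) z := fun z hz =>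
    (hf z hz).differentiableAt.hasFDerivAt
  have hf1 : AnalyticOnNhd ℝ (fderiv ℝ f) W := hf.fderiv
  have hf2 : AnalyticOnNhd ℝ (fderiv ℝ (fderiv ℝ f)) W := hf1.fderiv
  have hqa : ∀ t ∈ J, AnalyticAt ℝ (fun t : ℝ => ∑ i, α i t • b i x) t := fun t ht =>
    C9_sum_an α _ t fun i => hα i t ht
  have hDa : ∀ t ∈ J, AnalyticAt ℝ (fun t : ℝ => ∑ i, α i t • fderiv ℝ (b i) x) t := fun t ht =>
    C9_sum_an α _ t fun i => hα i t ht
  have hDDa : ∀ t ∈ J, AnalyticAt ℝ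
      (fun t : ℝ => ∑ i, α i t • fderiv ℝ (fderiv ℝ (b i)) x) t := fun t ht =>
    C9_sum_an α _ t fun i => hα i t ht
  have e1 : ∀ t ∈ J, ∀ y ∈ Ω, HasFDerivAt (fun y => f (∑ i, α i t • b i y))
      ((fderiv ℝ f (∑ i, α i t • b i y)).comp (∑ i, α i t • fderiv ℝ (b i) y)) y := by
    intro t ht y hy
    exact (hfd _ (hq t ht y hy)).comp y (hqd t y hy)
  have e2 : ∀ t ∈ J, fderiv ℝ (fderiv ℝ (fun y => f (∑ i, α i t • b i y))) x =
      ((ContinuousLinearMap.compL ℝ E V F) (fderiv ℝ f (∑ i, α i t • b i x))).comp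
        (∑ i, α i t • fderiv ℝ (fderiv ℝ (b i)) x) +
      ((ContinuousLinearMap.compL ℝ E V F).flip (∑ i, α i t • fderiv ℝ (b i) x)).comp
        ((fderiv ℝ (fderiv ℝ f) (∑ i, α i t • b i x)).comp (∑ i, α i t • fderiv ℝ (b i) x)) := by
    intro t ht
    have h0 : (fderiv ℝ (fun y => f (∑ i, α i t • b i y))) =ᶠ[𝓝 x]
        (fun y => (fderiv ℝ f (∑ i, α i t • b i y)).comp (∑ i, α i t • fderiv ℝ (b i) y)) := by
      filter_upwards [hΩ.mem_nhds hx] with y hy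
      exact (e1 t ht y hy).fderiv
    rw [h0.fderiv_eq]
    have hc : HasFDerivAt (fun y => fderiv ℝ f (∑ i, α i t • b i y))
        ((fderiv ℝ (fderiv ℝ f) (∑ i, α i t • b i x)).comp (∑ i, α i t • fderiv ℝ (b i) x)) x :=
      ((hf1 _ (hq t ht x hx)).differentiableAt.hasFDerivAt).comp x (hqd t x hx)
    exact (hc.clm_comp (hqd2 t)).fderiv
  refine ⟨fun t ht => ?_, fun t ht => ?_, fun t ht => ?_⟩
  · exact AnalyticAt.comp (g := f) (f := fun t : ℝ => ∑ i, α i t • b i x)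
      (hf _ (hq t ht x hx)) (hqa t ht)
  · have h1 : AnalyticAt ℝ (fun t : ℝ => fderiv ℝ f (∑ i, α i t • b i x)) t :=
      AnalyticAt.comp (g := fderiv ℝ f) (f := fun t : ℝ => ∑ i, α i t • b i x)
        (hf1 _ (hq t ht x hx)) (hqa t ht)
    have h2 : AnalyticAt ℝ (fun t : ℝ =>
        (ContinuousLinearMap.compL ℝ E V F) (fderiv ℝ f (∑ i, α i t • b i x))
          (∑ i, α i t • fderiv ℝ (b i) x)) t :=
      ((ContinuousLinearMap.compL ℝ E V F).analyticAt_bilinear _).comp₂ h1 (hDa t ht)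
    refine h2.congr ?_
    filter_upwards [hJ.mem_nhds ht] with s hs
    exact ((e1 s hs x hx).fderiv).symm
  · have h1 : AnalyticAt ℝ (fun t : ℝ => fderiv ℝ f (∑ i, α i t • b i x)) t :=
      AnalyticAt.comp (g := fderiv ℝ f) (f := fun t : ℝ => ∑ i, α i t • b i x)
        (hf1 _ (hq t ht x hx)) (hqa t ht)
    have h2 : AnalyticAt ℝ (fun t : ℝ => fderiv ℝ (fderiv ℝ f) (∑ i, α i t • b i x)) t :=
      AnalyticAt.comp (g := fderiv ℝ (fderiv ℝ f)) (f := fun t : ℝ => ∑ i, α i t • b i x)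
        (hf2 _ (hq t ht x hx)) (hqa t ht)
    have h3 : AnalyticAt ℝ (fun t : ℝ =>
        (ContinuousLinearMap.compL ℝ E V F) (fderiv ℝ f (∑ i, α i t • b i x))) t :=
      ((ContinuousLinearMap.compL ℝ E V F).analyticAt _).comp h1
    have h4 : AnalyticAt ℝ (fun t : ℝ =>
        (ContinuousLinearMap.compL ℝ E V F).flip (∑ i, α i t • fderiv ℝ (b i) x)) t :=
      ((ContinuousLinearMap.compL ℝ E V F).flip.analyticAt _).comp (hDa t ht)
    have h5 : AnalyticAt ℝ (fun t : ℝ =>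
        (ContinuousLinearMap.compL ℝ E (E →L[ℝ] V) (E →L[ℝ] F))
          ((ContinuousLinearMap.compL ℝ E V F) (fderiv ℝ f (∑ i, α i t • b i x)))
          (∑ i, α i t • fderiv ℝ (fderiv ℝ (b i)) x)) t :=
      ((ContinuousLinearMap.compL ℝ E (E →L[ℝ] V) (E →L[ℝ] F)).analyticAt_bilinear _).comp₂
        h3 (hDDa t ht)
    have h6 : AnalyticAt ℝ (fun t : ℝ =>
        (ContinuousLinearMap.compL ℝ E V (V →L[ℝ] F))
          (fderiv ℝ (fderiv ℝ f) (∑ i, α i t • b i x)) (∑ i, α i t • fderiv ℝ (b i) x)) t :=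
      ((ContinuousLinearMap.compL ℝ E V (V →L[ℝ] F)).analyticAt_bilinear _).comp₂ h2 (hDa t ht)
    have h7 : AnalyticAt ℝ (fun t : ℝ =>
        (ContinuousLinearMap.compL ℝ E (V →L[ℝ] F) (E →L[ℝ] F))
          ((ContinuousLinearMap.compL ℝ E V F).flip (∑ i, α i t • fderiv ℝ (b i) x))
          ((ContinuousLinearMap.compL ℝ E V (V →L[ℝ] F))
            (fderiv ℝ (fderiv ℝ f) (∑ i, α i t • b i x)) (∑ i, α i t • fderiv ℝ (b i) x))) t :=
      ((ContinuousLinearMap.compL ℝ E (V →L[ℝ] F) (E →L[ℝ] F)).analyticAt_bilinear _).comp₂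
        h4 h6
    refine (h5.add h7).congr ?_
    filter_upwards [hJ.mem_nhds ht] with s hs
    exact (e2 s hs).symm

end NS38
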