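import Pool.Agent.LibNS38.B3
import Pool.Agent.LibNS38.B10b
import Pool.Agent.LibNS38.B10c
import Pool.Agent.LibNS38.C9
import Pool.Agent.LibNS38.C10a

set_option autoImplicit false
set_option maxSynthPendingDepth 3

open Topology Filter Set
open scoped ContDiff

namespace NS38

private theorem C10_app {V F : Type} [NormedAddCommGroup V] [NormedSpace ℝ V]
    [NormedAddCommGroup F] [NormedSpace ℝ F] {J : Set ℝ} {A : ℝ → V →L[ℝ] F} {g : ℝ → V}
    (hA : AnalyticOnNhd ℝ A J) (hg : AnalyticOnNhd ℝ g J) :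
    AnalyticOnNhd ℝ (fun t => A t (g t)) J := by
  intro t ht
  exact ((ContinuousLinearMap.id ℝ (V →L[ℝ] F)).analyticAt_bilinear (A t, g t)).comp₂
    (hA t ht) (hg t ht)

private theorem C10_koszul {E : Type} [NormedAddCommGroup E] [NormedSpace ℝ E]
    {Ω : Set E} (hΩ : IsOpen Ω) (L : E → E →L[ℝ] E →L[ℝ] ℝ) (hL : ContDiffOn ℝ ∞ L Ω) :
    ∃ b : E → E →L[ℝ] E →L[ℝ] E →L[ℝ] ℝ, ContDiffOn ℝ ∞ b Ω ∧ ∀ y v w u,
      b y v w u = fderiv ℝ L y v w u + fderiv ℝ L y w v u - fderiv ℝ L y u v w := by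
  let F1 : (E →L[ℝ] E →L[ℝ] (E →L[ℝ] ℝ)) →L[ℝ] (E →L[ℝ] E →L[ℝ] (E →L[ℝ] ℝ)) :=
    (ContinuousLinearMap.flipₗᵢ ℝ E E (E →L[ℝ] ℝ)).toContinuousLinearEquiv.toContinuousLinearMap
  let F0 : (E →L[ℝ] E →L[ℝ] ℝ) →L[ℝ] (E →L[ℝ] E →L[ℝ] ℝ) :=
    (ContinuousLinearMap.flipₗᵢ ℝ E E ℝ).toContinuousLinearEquiv.toContinuousLinearMap
  let S : (E →L[ℝ] E →L[ℝ] (E →L[ℝ] ℝ)) →L[ℝ] (E →L[ℝ] E →L[ℝ] (E →L[ℝ] ℝ)) :=
    (ContinuousLinearMap.compL ℝ E (E →L[ℝ] E →L[ℝ] ℝ) (E →L[ℝ] E →L[ℝ] ℝ) F0).comp F1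
  let T : (E →L[ℝ] E →L[ℝ] (E →L[ℝ] ℝ)) →L[ℝ] (E →L[ℝ] E →L[ℝ] (E →L[ℝ] ℝ)) :=
    ContinuousLinearMap.id ℝ _ + F1 - S
  have hd : ContDiffOn ℝ ∞ (fderiv ℝ L) Ω := hL.fderiv_of_isOpen hΩ (by simp)
  refine ⟨fun y => T (fderiv ℝ L y), T.contDiff.comp_contDiffOn hd, fun y v w u => ?_⟩
  rfl

private theorem C10_der {E : Type} [NormedAddCommGroup E] [NormedSpace ℝ E]
    {Ω : Set E} (hΩ : IsOpen Ω) (G : E → E → E → ℝ) (L : E → E →L[ℝ] E →L[ℝ] ℝ)
    (hL : ContDiffOn ℝ ∞ L Ω) (hG : ∀ x ∈ Ω, ∀ v w, L x v w = G x v w) (y : E) (hy : y ∈ Ω)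
    (v w : E) : HasFDerivAt (fun z => G z v w)
      ((ContinuousLinearMap.apply ℝ ℝ w).comp ((ContinuousLinearMap.apply ℝ _ v).comp
        (fderiv ℝ L y))) y := by
  have hn : Ω ∈ 𝓝 y := hΩ.mem_nhds hy
  have h1 : HasFDerivAt L (fderiv ℝ L y) y :=
    ((hL.contDiffAt hn).differentiableAt (by simp)).hasFDerivAt
  have h2 := (ContinuousLinearMap.apply ℝ ℝ w).hasFDerivAt.comp y
    ((ContinuousLinearMap.apply ℝ (E →L[ℝ] ℝ) v).hasFDerivAt.comp y h1)
  refine h2.congr_of_eventuallyEq ?_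
  filter_upwards [hn] with z hz
  exact (hG z hz v w).symm

/-- Row C10. Along an analytic path of metrics the covariant derivative of the curvature at a
fixed point is an analytic function of the parameter. -/
theorem path_analytic {E : Type} [NormedAddCommGroup E] [NormedSpace ℝ E] [FiniteDimensional ℝ E]
    {Ω : Set E} (hΩ : IsOpen Ω) {D : ℕ} (a : Fin D → ℝ → ℝ) (G : Fin D → E → E → E → ℝ)
    (hb : ∀ i, Bil (G i) Ω) (hs : ∀ i v w, ContDiffOn ℝ ∞ (fun x => G i x v w) Ω)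
    (J0 : Set ℝ) (hJ0 : IsOpen J0) (hI : Icc 0 1 ⊆ J0) (ha : ∀ i, AnalyticOnNhd ℝ (a i) J0)
    (hm : ∀ t ∈ Icc (0 : ℝ) 1, Met (pth a G t) Ω) (x : E) (hx : x ∈ Ω) (z u v w : E) :
    ∃ (J : Set ℝ) (Ωx : Set E) (C : ℝ → E → E →L[ℝ] E →L[ℝ] E), IsOpen J ∧ IsPreconnected J ∧
      Icc 0 1 ⊆ J ∧ IsOpen Ωx ∧ x ∈ Ωx ∧ Ωx ⊆ Ω ∧
      (∀ t ∈ J, ContDiffOn ℝ ∞ (C t) Ωx ∧ Kos (pth a G t) (C t) Ωx) ∧
      AnalyticOnNhd ℝ (fun t => dcurv (C t) x z u v w) J := by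
  obtain ⟨J, Ωx, hJ, hJc, hJI, hJJ, hΩx, hxx, hsub, hmet⟩ :=
    path_nbhd hΩ a G hb hs J0 hJ0 hI (fun i => (ha i).continuousOn) hm x hx
  choose L hL hG using fun i => clm_ext (G i) Ω (hb i) (hs i)
  choose K hK hk using fun i => C10_koszul hΩ (L i) (hL i)
  obtain ⟨W, f, hW, hf, hinj, hform⟩ := chr_formula (E := E)
  set b : Fin D → E → (E →L[ℝ] E →L[ℝ] ℝ) × (E →L[ℝ] E →L[ℝ] E →L[ℝ] ℝ) :=
    fun i y => (L i y, K i y) with hbd
  have hbs : ∀ i, ContDiffOn ℝ ∞ (b i) Ωx := fun i => ((hL i).prodMk (hK i)).mono hsub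
  have hfst : ∀ (t : ℝ) (y v w : E), (∑ i, a i t • b i y).1 v w = ∑ i, a i t * L i y v w := by
    intro t y v w
    rw [Prod.fst_sum, ContinuousLinearMap.sum_apply, ContinuousLinearMap.sum_apply]
    rfl
  have hsnd : ∀ (t : ℝ) (y v w u : E),
      (∑ i, a i t • b i y).2 v w u = ∑ i, a i t * K i y v w u := by
    intro t y v w u
    rw [Prod.snd_sum, ContinuousLinearMap.sum_apply, ContinuousLinearMap.sum_apply,
      ContinuousLinearMap.sum_apply]
    rfl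
  have hval : ∀ (t : ℝ) (y : E), y ∈ Ωx → ∀ v w,
      (∑ i, a i t • b i y).1 v w = pth a G t y v w := by
    intro t y hy v w
    rw [hfst]
    exact Finset.sum_congr rfl fun i _ => by rw [hG i y (hsub hy)]
  have hq : ∀ t ∈ J, ∀ y ∈ Ωx, ∑ i, a i t • b i y ∈ W := by
    intro t ht y hy
    refine hinj _ ?_
    rw [injective_iff_map_eq_zero]
    intro v hv
    by_contra hne
    have h2 := (hmet t ht).pos y hy v hne
    have h3 := hval t y hy v v
    rw [hv] at h3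
    have h4 : (0 : ℝ) = pth a G t y v v := h3
    exact absurd h4 (ne_of_lt h2)
  have hCs : ∀ t ∈ J, ContDiffOn ℝ ∞ (fun y => f (∑ i, a i t • b i y)) Ωx := by
    intro t ht
    have h2 : ContDiffOn ℝ ∞ f W := hf.contDiffOn_of_completeSpace
    exact h2.comp (ContDiffOn.sum fun i _ => (hbs i).const_smul (a i t))
      (fun y hy => hq t ht y hy)
  refine ⟨J, Ωx, fun t y => f (∑ i, a i t • b i y), hJ, hJc, hJI, hΩx, hxx, hsub, ?_, ?_⟩
  · intro t ht
    refine ⟨hCs t ht, ?_⟩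
    intro y hy u v w
    have hyΩ := hsub hy
    have hder : ∀ v w u : E, fderiv ℝ (fun z => pth a G t z v w) y u =
        ∑ i, a i t * fderiv ℝ (L i) y u v w := by
      intro v w u
      have d2 : HasFDerivAt (fun z => ∑ i, a i t * G i z v w)
          (∑ i, a i t • ((ContinuousLinearMap.apply ℝ ℝ w).comp
            ((ContinuousLinearMap.apply ℝ _ v).comp (fderiv ℝ (L i) y)))) y :=
        HasFDerivAt.fun_sum fun i _ => (C10_der hΩ (G i) (L i) (hL i) (hG i) y hyΩ v w).const_mul _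
      have d3 : fderiv ℝ (fun z => pth a G t z v w) y = _ := d2.fderiv
      rw [d3, ContinuousLinearMap.sum_apply]
      rfl
    show 2 * pth a G t y (f (∑ i, a i t • b i y) v w) u = _
    rw [← hval t y hy, hform _ (hq t ht y hy), hsnd, hder, hder, hder, ← Finset.sum_add_distrib,
      ← Finset.sum_sub_distrib]
    refine Finset.sum_congr rfl fun i _ => ?_
    rw [hk]
    ring
  · obtain ⟨hA, hB, hD⟩ := path_jet W f hf J hJ Ωx hΩx a (fun i => (ha i).mono hJJ) b hbs hq x hxx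
    have hc : ∀ e : E, AnalyticOnNhd ℝ (fun _ : ℝ => e) J := fun e t _ => analyticAt_const
    have hcurv : ∀ (α β γ : ℝ → E), AnalyticOnNhd ℝ α J → AnalyticOnNhd ℝ β J →
        AnalyticOnNhd ℝ γ J →
        AnalyticOnNhd ℝ (fun t => curv (fun y => f (∑ i, a i t • b i y)) x (α t) (β t) (γ t)) J := by
      intro α β γ hα hβ hγ
      have h2 : AnalyticOnNhd ℝ (fun t => fderiv ℝ (fun y => f (∑ i, a i t • b i y)) x (α t) (β t) (γ t) -
          fderiv ℝ (fun y => f (∑ i, a i t • b i y)) x (β t) (α t) (γ t) +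
          f (∑ i, a i t • b i x) (α t) (f (∑ i, a i t • b i x) (β t) (γ t)) -
          f (∑ i, a i t • b i x) (β t) (f (∑ i, a i t • b i x) (α t) (γ t))) J :=
        (((C10_app (C10_app (C10_app hB hα) hβ) hγ).sub
          (C10_app (C10_app (C10_app hB hβ) hα) hγ)).add
          (C10_app (C10_app hA hα) (C10_app (C10_app hA hβ) hγ))).sub
          (C10_app (C10_app hA hβ) (C10_app (C10_app hA hα) hγ))
      refine h2.congr hJ ?_
      intro t ht
      exact ((dcurv_expand hΩx _ (hCs t ht) x hxx 0 0 0 0).1 (α t) (β t) (γ t)).symm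
    have hz := hc z
    have hu := hc u
    have hv := hc v
    have hw := hc w
    have h2 := ((((((C10_app (C10_app (C10_app (C10_app hD hz) hu) hv) hw).sub
        (C10_app (C10_app (C10_app (C10_app hD hz) hv) hu) hw)).add
        ((C10_app (C10_app (C10_app hB hz) hu) (C10_app (C10_app hA hv) hw)).add
          (C10_app (C10_app hA hu) (C10_app (C10_app (C10_app hB hz) hv) hw)))).sub
        ((C10_app (C10_app (C10_app hB hz) hv) (C10_app (C10_app hA hu) hw)).add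
          (C10_app (C10_app hA hv) (C10_app (C10_app (C10_app hB hz) hu) hw)))).add
        (C10_app (C10_app hA hz) (hcurv _ _ _ hu hv hw))).sub
        (hcurv _ _ _ (C10_app (C10_app hA hz) hu) hv hw)).sub
        (hcurv _ _ _ hu (C10_app (C10_app hA hz) hv) hw) |>.sub
        (hcurv _ _ _ hu hv (C10_app (C10_app hA hz) hw))
    refine h2.congr hJ ?_
    intro t ht
    exact ((dcurv_expand hΩx _ (hCs t ht) x hxx z u v w).2).symm

end NS38
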