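import Pool.Agent.LibNT38.TK
import Pool.Agent.LibNS38.B0
import Pool.Agent.LibNG38.GK2

set_option autoImplicit false
set_option maxSynthPendingDepth 3

open Matrix MeasureTheory Topology Filter
open scoped Matrix.Norms.Elementwise ContDiff

namespace LibNC38

/-- smooth family `H t`, `|t| < ε`, of forms on `PD n`: with the retraction `ret : PU n → PD n` the
coefficients `(t, A) ↦ H t (ret A) v w` are `C^∞` on `(-ε, ε) × PU n` -/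
def SmF {n : ℕ} (ε : ℝ) (H : ℝ → PD n → Fm n) : Prop :=
  ∀ v w, ContDiffOn ℝ ∞ (fun x : ℝ × Mt n => H x.1 (ret x.2) v w) (Set.Ioo (-ε) ε ×ˢ PU n)

/-- smooth family of maps of `PD n` -/
def SmM {n : ℕ} (ε : ℝ) (Φ : ℝ → PD n → PD n) : Prop :=
  ContDiffOn ℝ ∞ (fun x : ℝ × Mt n => (Φ x.1 (ret x.2)).1) (Set.Ioo (-ε) ε ×ˢ PU n)

/-- smooth map of `PD n` -/
def SmX {n : ℕ} (φ : PD n → PD n) : Prop :=
  ContDiffOn ℝ ∞ (fun A : Mt n => (φ (ret A)).1) (PU n)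

/-- the differential of a map `φ` of `PD n` at `p` -/
noncomputable def dff {n : ℕ} (φ : PD n → PD n) (p : PD n) : Mt n →L[ℝ] Mt n :=
  fderiv ℝ (fun A : Mt n => (φ (ret A)).1) p.1

/-- pull back of forms -/
noncomputable def pul {n : ℕ} (φ : PD n → PD n) (h : PD n → Fm n) (p : PD n) : Fm n :=
  LinearMap.compl₁₂ (h (φ p)) ((dff φ p : Mt n →L[ℝ] Mt n) : Mt n →ₗ[ℝ] Mt n)
    ((dff φ p : Mt n →L[ℝ] Mt n) : Mt n →ₗ[ℝ] Mt n)

theorem pul_apply {n : ℕ} (φ : PD n → PD n) (h : PD n → Fm n) (p : PD n) (v w : Mt n) :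
    pul φ h p v w = h (φ p) (dff φ p v) (dff φ p w) := rfl

/-- smooth `Γ`-equivariant diffeomorphism of `PD n` -/
structure Dfm {n : ℕ} (Γ : Subgroup (SL n)) (φ : PD n → PD n) : Prop where
  smooth : SmX φ
  equi : ∀ γ ∈ Γ, ∀ p, φ (act γ p) = act γ (φ p)
  inv : ∃ χ : PD n → PD n, SmX χ ∧ (∀ p, χ (φ p) = p) ∧ ∀ p, φ (χ p) = p

/-- the family `H` equals, up to constants `c t` and diffeomorphisms `Φ t`, the symmetric metric up to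
order `N` in `t` -/
def OrdN {n : ℕ} (Γ : Subgroup (SL n)) (H : ℝ → PD n → Fm n) (N : ℕ) : Prop :=
  ∃ (ε : ℝ) (Φ : ℝ → PD n → PD n) (c : ℝ → ℝ) (K : ℝ → PD n → Fm n), 0 < ε ∧ SmM ε Φ ∧
    (∀ p, Φ 0 p = p) ∧ (∀ t ∈ Set.Ioo (-ε) ε, Dfm Γ (Φ t)) ∧
    ContDiffOn ℝ ∞ c (Set.Ioo (-ε) ε) ∧ c 0 = 1 ∧ (∀ t ∈ Set.Ioo (-ε) ε, 0 < c t) ∧ SmF ε K ∧
    (∀ t p v w, K t p v w = K t p w v) ∧
    ∀ t ∈ Set.Ioo (-ε) ε, ∀ (p : PD n) (v : Mt n), IsTan p v →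
      pul (Φ t) (H t) p v v = c t * (gF p v v + t ^ N * K t p v v)

end LibNC38
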