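import Pool.Agent.LibNS38.D7

set_option autoImplicit false
set_option maxSynthPendingDepth 3

open Matrix MeasureTheory Topology Filter
open scoped Matrix.Norms.Elementwise ContDiff

namespace LibNC38

private theorem D9_cont {n : ℕ} {ε : ℝ} {K : ℝ → PD n → Fm n} (hK : SmF ε K) {t : ℝ}
    (ht : t ∈ Set.Ioo (-ε) ε) (p : PD n) (v w : Mt n) : ContinuousAt (fun s => K s p v w) t := by
  have h : ContinuousAt (fun x : ℝ × Mt n => K x.1 (ret x.2) v w) (t, p.1) :=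
    (hK v w).continuousOn.continuousAt
      ((isOpen_Ioo.prod PU_open).mem_nhds ⟨ht, mem_PU p⟩)
  have h2 : ContinuousAt (fun s : ℝ => (s, p.1)) t :=
    (Continuous.prodMk continuous_id continuous_const).continuousAt
  have h3 := ContinuousAt.comp (f := fun s : ℝ => (s, p.1))
    (g := fun x : ℝ × Mt n => K x.1 (ret x.2) v w) (x := t) h h2
  have h4 : ((fun x : ℝ × Mt n => K x.1 (ret x.2) v w) ∘ fun s : ℝ => (s, p.1)) =
      fun s => K s p v w := by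
    funext s
    change K s (ret p.1) v w = K s p v w
    rw [ret_self]
  rwa [h4] at h3

/-- Row D9. In `OrdN`, the forms `K t` are invariant, also at `t = 0`. PLAN. For `t ≠ 0`:
`t ^ N * K t p v v = (c t)⁻¹ * pul (Φ t) (H t) p v v - gF p v v`, all terms are invariant (`fmOK_pul`,
`fmOK_gF`). For `t = 0`: both sides are continuous in `t` (`SmF` at the fixed points `act γ p` and `p`,
`ret_self`), equal for `t ≠ 0`. -/
theorem ord_inv {n : ℕ} (Γ : Subgroup (SL n)) (H : ℝ → PD n → Fm n) (hH : ∀ t, FmOK Γ (H t))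
    (N : ℕ) (ε : ℝ) (Φ : ℝ → PD n → PD n) (c : ℝ → ℝ) (K : ℝ → PD n → Fm n) (hε : 0 < ε)
    (hΦ : ∀ t ∈ Set.Ioo (-ε) ε, Dfm Γ (Φ t)) (hc : ∀ t ∈ Set.Ioo (-ε) ε, 0 < c t) (hK : SmF ε K)
    (he : ∀ t ∈ Set.Ioo (-ε) ε, ∀ (p : PD n) (v : Mt n), IsTan p v →
      pul (Φ t) (H t) p v v = c t * (gF p v v + t ^ N * K t p v v)) :
    ∀ t ∈ Set.Ioo (-ε) ε, ∀ γ ∈ Γ, ∀ p v, IsTan p v →
      K t (act γ p) (γ.1 * v * γ.1ᵀ) (γ.1 * v * γ.1ᵀ) = K t p v v := by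
  have hne : ∀ t ∈ Set.Ioo (-ε) ε, t ≠ 0 → ∀ γ ∈ Γ, ∀ p v, IsTan p v →
      K t (act γ p) (γ.1 * v * γ.1ᵀ) (γ.1 * v * γ.1ᵀ) = K t p v v := by
    intro t ht h0 γ hγ p v hv
    have ht' : IsTan (act γ p) (γ.1 * v * γ.1ᵀ) := tan_facts.2.1 γ p v hv
    have e1 := he t ht p v hv
    have e2 := he t ht (act γ p) (γ.1 * v * γ.1ᵀ) ht'
    have e3 := (fmOK_pul Γ (Φ t) (hΦ t ht) (H t) (hH t)).inv γ hγ p v hv
    have e4 := (fmOK_gF (n := n) Γ).inv γ hγ p v hv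
    rw [e3, e1, e4] at e2
    have hc' := (hc t ht).ne'
    have hp : t ^ N ≠ 0 := pow_ne_zero N h0
    have e5 := mul_left_cancel₀ hc' e2
    have e6 : t ^ N * K t p v v =
        t ^ N * K t (act γ p) (γ.1 * v * γ.1ᵀ) (γ.1 * v * γ.1ᵀ) := by linarith
    exact (mul_left_cancel₀ hp e6).symm
  intro t ht γ hγ p v hv
  by_cases h0 : t = 0
  · subst h0
    have hf := D9_cont hK ht (act γ p) (γ.1 * v * γ.1ᵀ) (γ.1 * v * γ.1ᵀ)
    have hg := D9_cont hK ht p v v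
    have hev : (fun s => K s p v v) =ᶠ[𝓝[≠] (0 : ℝ)]
        fun s => K s (act γ p) (γ.1 * v * γ.1ᵀ) (γ.1 * v * γ.1ᵀ) := by
      have hm : Set.Ioo (-ε) ε ∈ 𝓝[≠] (0 : ℝ) :=
        mem_nhdsWithin_of_mem_nhds (isOpen_Ioo.mem_nhds ht)
      filter_upwards [hm, self_mem_nhdsWithin] with s hs hs0
      exact (hne s hs hs0 γ hγ p v hv).symm
    have l1 := hf.tendsto.mono_left (nhdsWithin_le_nhds (s := {(0 : ℝ)}ᶜ))
    have l2 := (hg.tendsto.mono_left (nhdsWithin_le_nhds (s := {(0 : ℝ)}ᶜ))).congr' hev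
    exact tendsto_nhds_unique l1 l2
  · exact hne t ht h0 γ hγ p v hv

end LibNC38
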