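import Pool.Agent.LibNS38.D5
import Pool.Agent.LibNS38.D6
import Pool.Agent.LibNS38.D8
import Pool.Agent.LibNS38.D9
import Pool.Agent.LibNE38.E3

set_option autoImplicit false
set_option maxSynthPendingDepth 3

open Matrix MeasureTheory Topology Filter
open scoped Matrix.Norms.Elementwise ContDiff

namespace LibNC38

private theorem D10_ext {n : ℕ} (ε : ℝ) (hε : 0 < ε) (K : ℝ → PD n → Fm n) (hK : SmF ε K)
    (v w : Mt n) : ContDiffOn ℝ ∞ (fun A : Mt n => K 0 (ret A) v w) (PU n) := by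
  have h1 : ContDiffOn ℝ ∞ (fun A : Mt n => ((0 : ℝ), A)) (PU n) :=
    (contDiff_const.prodMk contDiff_id).contDiffOn
  exact (hK v w).comp (g := fun x : ℝ × Mt n => K x.1 (ret x.2) v w)
    (f := fun A : Mt n => ((0 : ℝ), A)) h1 (fun A hA => ⟨⟨by simpa using hε, hε⟩, hA⟩)

private theorem D10_cont {n : ℕ} (ε : ℝ) (hε : 0 < ε) (K : ℝ → PD n → Fm n) (hK : SmF ε K)
    (v w : Mt n) : Continuous fun p : PD n => K 0 p v w := by
  have h1 := (D10_ext ε hε K hK v w).continuousOn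
  have h2 : Continuous fun p : PD n => K 0 (ret p.1) v w :=
    h1.comp_continuous continuous_subtype_val (fun p => mem_PU p)
  have h3 : (fun p : PD n => K 0 (ret p.1) v w) = fun p : PD n => K 0 p v w := by
    funext p
    rw [ret_self]
  rwa [h3] at h2

/-- Row D10 (assembly of D5 - D9 and the first order theorem `defo_triv`). The coefficient `K 0` is
trivial. PLAN. Take `j0` with `T j < min δ ε` for `j ≥ j0`;
`h j := fun p => (c (T (j + j0)))⁻¹ • pul (Φ (T (j + j0))) (H (T (j + j0))) p`, `δ j := T (j + j0) ^ N`,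
`κ := K 0`. `Defo Γ κ h δ`: `FmOK` of `κ`: continuity from `SmF` (`ret_self`: `p ↦ K 0 p v w` is the
restriction of a continuous function on `PU n`), symmetry `hKs`, invariance `ord_inv`; `FmOK` of `h j`:
`fmOK_pul`, `fmOK_smul`; `conv`: `h j x v v = gF x v v + T^N * K T x v v` and `unif_conv`
(`spd x v ^ 2 = gF x v v`: `gF_self`); `nc`: `noConj_pul`, `noConj_smul`. `C2F κ`: extension
`A ↦ K 0 (ret A)` on `PU n` (compose `SmF` with `A ↦ (0, A)`; `.of_le`), `ret_self`. Then `defo_triv` and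
`triv_reg ⊤` (`CmF ∞ κ` by the same extension). -/
theorem ord_triv {n : ℕ} (hn : 3 ≤ n) (Γ : Subgroup (SL n)) (hd : Disc Γ) (hcc : Coc Γ)
    (H : ℝ → PD n → Fm n) (hH : ∀ t, FmOK Γ (H t)) (T : ℕ → ℝ) (hT : ∀ j, 0 < T j)
    (hT0 : Tendsto T atTop (𝓝 0)) (hnc : ∀ j, NoConj (dN (nrm (H (T j)))))
    (N : ℕ) (hN : 1 ≤ N) (ε : ℝ) (Φ : ℝ → PD n → PD n) (c : ℝ → ℝ) (K : ℝ → PD n → Fm n)
    (hε : 0 < ε) (hΦ : ∀ t ∈ Set.Ioo (-ε) ε, Dfm Γ (Φ t)) (hc : ∀ t ∈ Set.Ioo (-ε) ε, 0 < c t)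
    (hK : SmF ε K) (hKs : ∀ t p v w, K t p v w = K t p w v)
    (he : ∀ t ∈ Set.Ioo (-ε) ε, ∀ (p : PD n) (v : Mt n), IsTan p v →
      pul (Φ t) (H t) p v v = c t * (gF p v v + t ^ N * K t p v v)) :
    ∃ (c0 : ℝ) (Y : Mt n → Mt n), ContDiffOn ℝ ∞ Y (PU n) ∧ (∀ p : PD n, IsTan p (Y p.1)) ∧
      (∀ γ ∈ Γ, ∀ p : PD n, Y (act γ p).1 = γ.1 * Y p.1 * γ.1ᵀ) ∧
      ∀ (p : PD n) (v : Mt n), IsTan p v → K 0 p v v = c0 * gF p v v + LieG Y p.1 v := by
  have hinv := ord_inv Γ H hH N ε Φ c K hε hΦ hc hK he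
  have h00 : (0 : ℝ) ∈ Set.Ioo (-ε) ε := ⟨by linarith, hε⟩
  obtain ⟨j0, hj0⟩ : ∃ j0 : ℕ, ∀ j, j0 ≤ j → T j < ε := by
    have h1 : ∀ᶠ j in atTop, T j < ε := hT0.eventually (gt_mem_nhds hε)
    exact eventually_atTop.1 h1
  have hmem : ∀ j, T (j + j0) ∈ Set.Ioo (-ε) ε := fun j =>
    ⟨by have := hT (j + j0); linarith, hj0 _ (Nat.le_add_left _ _)⟩
  have hTs : Tendsto (fun j => T (j + j0)) atTop (𝓝 0) :=
    hT0.comp (tendsto_add_atTop_nat j0)
  have hval : ∀ j (x : PD n) (v : Mt n), IsTan x v →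
      ((c (T (j + j0)))⁻¹ • pul (Φ (T (j + j0))) (H (T (j + j0))) x : Fm n) v v =
        gF x v v + T (j + j0) ^ N * K (T (j + j0)) x v v := by
    intro j x v hv
    show (c (T (j + j0)))⁻¹ * pul (Φ (T (j + j0))) (H (T (j + j0))) x v v = _
    rw [he _ (hmem j) x v hv, ← mul_assoc, inv_mul_cancel₀ (hc _ (hmem j)).ne', one_mul]
  have hD : Defo Γ (K 0)
      (fun j p => (c (T (j + j0)))⁻¹ • pul (Φ (T (j + j0))) (H (T (j + j0))) p)
      (fun j => T (j + j0) ^ N) := by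
    refine ⟨fun j => pow_pos (hT _) N, ?_, ?_, ?_, ?_, ?_⟩
    · have h1 := hTs.pow N
      rwa [zero_pow (by omega)] at h1
    · exact ⟨fun v w => D10_cont ε hε K hK v w, fun p v w => hKs 0 p v w,
        fun γ hγ p v hv => hinv 0 h00 γ hγ p v hv⟩
    · intro j
      exact fmOK_smul Γ _ (fmOK_pul Γ _ (hΦ _ (hmem j)) _ (hH _)) _
    · intro e hepos
      obtain ⟨d, hd0, hdd⟩ := unif_conv Γ hcc ε hε K hK hinv e hepos
      have h1 : ∀ᶠ j in atTop, T (j + j0) < d := hTs.eventually (gt_mem_nhds hd0)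
      filter_upwards [h1] with j hj x v hv
      have h2 : |T (j + j0)| < d := by rw [abs_of_pos (hT _)]; exact hj
      have h3 := hdd _ h2 x v hv
      have h4 : ((c (T (j + j0)))⁻¹ • pul (Φ (T (j + j0))) (H (T (j + j0))) x : Fm n) v v -
          spd x v ^ 2 - T (j + j0) ^ N * K 0 x v v =
            T (j + j0) ^ N * (K (T (j + j0)) x v v - K 0 x v v) := by
        rw [hval j x v hv, gF_self x v hv]
        ring
      rw [h4, abs_mul, abs_of_pos (pow_pos (hT (j + j0)) N)]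
      rw [gF_self x v hv] at h3
      calc T (j + j0) ^ N * |K (T (j + j0)) x v v - K 0 x v v|
          ≤ T (j + j0) ^ N * (e * spd x v ^ 2) :=
            mul_le_mul_of_nonneg_left h3 (pow_pos (hT (j + j0)) N).le
        _ = e * T (j + j0) ^ N * spd x v ^ 2 := by ring
    · intro j
      exact noConj_smul _ (inv_pos.2 (hc _ (hmem j))) _
        (noConj_pul Γ _ (hΦ _ (hmem j)) _ (hnc _))
  have hC2 : LibNC27.C2F (K 0) := by
    refine ⟨PU n, fun A => K 0 (ret A), PU_open, fun p => ⟨mem_PU p, ?_⟩, fun v w => ?_⟩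
    · show K 0 (ret p.1) = K 0 p
      rw [ret_self]
    · exact (D10_ext ε hε K hK v w).of_le (WithTop.coe_le_coe.2 le_top)
  have hCm : CmF ((⊤ : ℕ∞) : WithTop ℕ∞) (K 0) := by
    refine ⟨PU n, fun A => K 0 (ret A), PU_open, fun p => ⟨mem_PU p, ?_⟩, fun v w => ?_⟩
    · show K 0 (ret p.1) = K 0 p
      rw [ret_self]
    · exact D10_ext ε hε K hK v w
  exact triv_reg ⊤ le_top Γ (K 0) hCm (defo_triv hn Γ hd hcc (K 0) _ _ hD hC2)

end LibNC38
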