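import Pool.Agent.LibNS38.D3

set_option autoImplicit false
set_option maxSynthPendingDepth 3

open Matrix MeasureTheory Topology Filter
open scoped Matrix.Norms.Elementwise ContDiff

namespace LibNC38

/-- Row D4. Smooth maps map `C¹` curves to `C¹` curves. PLAN. `(φ (c s)).1 = F ((c s).1)` with
`F A = (φ (ret A)).1` (`ret_self`), `F` is `C¹` on `PU n`; chain rule `HasFDerivAt.comp_hasDerivAt` (the
matrix valued derivative of `c` from the entries, `hasDerivAt_pi`), continuity of
`s ↦ fderiv F (c s).1 (v s)` (`ContDiffOn.continuousOn_fderiv_of_isOpen`, `curve_facts` for the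
continuity of `c`). -/
theorem dff_curve {n : ℕ} (φ : PD n → PD n) (hφ : SmX φ) (c : ℝ → PD n) (v : ℝ → Mt n)
    (h : IsC1 c v) : IsC1 (fun s => φ (c s)) (fun s => dff φ (c s) (v s)) := by
  have hn0 : (∞ : WithTop ℕ∞) ≠ 0 := by
    simp
  have hn1 : (1 : WithTop ℕ∞) ≤ ∞ := by
    exact WithTop.coe_le_coe.2 le_top
  have hφ' : ContDiffOn ℝ ∞ (fun A : Mt n => (φ (ret A)).1) (PU n) := hφ
  have hd : ∀ s, HasDerivAt (fun s => (c s).1) (v s) s := fun s =>
    hasDerivAt_pi.2 fun i => hasDerivAt_pi.2 fun j => h.der s i j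
  have hF : ∀ s, HasFDerivAt (fun A : Mt n => (φ (ret A)).1) (dff φ (c s)) (c s).1 := fun s =>
    ((hφ'.contDiffAt (PU_open.mem_nhds (mem_PU (c s)))).differentiableAt hn0).hasFDerivAt
  have hcomp : ∀ s, HasDerivAt (fun s => (φ (c s)).1) (dff φ (c s) (v s)) s := by
    intro s
    have h1 := (hF s).comp_hasDerivAt s (hd s)
    have h2 : ((fun A : Mt n => (φ (ret A)).1) ∘ fun s => (c s).1) = fun s => (φ (c s)).1 := by
      funext t
      simp only [Function.comp]
      rw [ret_self]
    rw [h2] at h1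
    exact h1
  have hc : Continuous fun s => (c s).1 :=
    continuous_iff_continuousAt.2 fun s => (hd s).continuousAt
  have hv : Continuous v := continuous_matrix h.cont
  have hf : ContinuousOn (fderiv ℝ (fun A : Mt n => (φ (ret A)).1)) (PU n) :=
    hφ'.continuousOn_fderiv_of_isOpen PU_open hn1
  have hf2 : Continuous fun s => fderiv ℝ (fun A : Mt n => (φ (ret A)).1) (c s).1 :=
    hf.comp_continuous hc fun s => mem_PU (c s)
  have hf3 : Continuous fun s => fderiv ℝ (fun A : Mt n => (φ (ret A)).1) (c s).1 (v s) :=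
    hf2.clm_apply hv
  refine ⟨fun s i j => ?_, fun i j => ?_⟩
  · exact hasDerivAt_pi.1 (hasDerivAt_pi.1 (hcomp s) i) j
  · exact (continuous_apply j).comp ((continuous_apply i).comp hf3)

end LibNC38
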