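import Pool.Agent.LibNS38.D2

set_option autoImplicit false
set_option maxSynthPendingDepth 3

open Matrix MeasureTheory Topology Filter
open scoped Matrix.Norms.Elementwise ContDiff

namespace LibNC38

/-- the skew part -/
noncomputable def skp {n : ℕ} (A : Mt n) : Mt n := (1 / 2 : ℝ) • (A - Aᵀ)

/-- the logarithm of the dilation factor: `ell A = (1/n) log det (syp A)` -/
noncomputable def ell {n : ℕ} (A : Mt n) : ℝ := 1 / (n : ℝ) * Real.log (syp A).det

/-- the product map `φ × (multiplication by a)` in the decomposition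
`PU n = PD n × ℝ × skew matrices`, `A = exp (ell A) • ret A + skp A` -/
noncomputable def lft {n : ℕ} (a : ℝ) (φ : PD n → PD n) (A : Mt n) : Mt n :=
  Real.exp (a * ell A) • (φ (ret A)).1 + a • skp A

private theorem G2_ptr {n : ℕ} (p : PD n) : p.1ᵀ = p.1 := by
  have h2 := p.2.1.isHermitian
  rwa [Matrix.IsHermitian, Matrix.conjTranspose_eq_transpose_of_trivial] at h2

private theorem G2_syp {n : ℕ} (p : PD n) (r : ℝ) (k : Mt n) (hk : kᵀ = -k) :
    syp (Real.exp r • p.1 + k) = Real.exp r • p.1 := by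
  unfold syp
  rw [Matrix.transpose_add, Matrix.transpose_smul, hk, G2_ptr]
  ext i j
  simp only [Matrix.smul_apply, Matrix.add_apply, Matrix.neg_apply, smul_eq_mul]
  ring

private theorem G2_skp {n : ℕ} (p : PD n) (r : ℝ) (k : Mt n) (hk : kᵀ = -k) :
    skp (Real.exp r • p.1 + k) = k := by
  unfold skp
  rw [Matrix.transpose_add, Matrix.transpose_smul, hk, G2_ptr]
  ext i j
  simp only [Matrix.smul_apply, Matrix.add_apply, Matrix.sub_apply, Matrix.neg_apply, smul_eq_mul]
  ring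

private theorem G2_mem {n : ℕ} (p : PD n) (r : ℝ) (k : Mt n) (hk : kᵀ = -k) :
    Real.exp r • p.1 + k ∈ PU n := by
  show (syp (Real.exp r • p.1 + k)).PosDef
  rw [G2_syp p r k hk]
  exact p.2.1.smul (Real.exp_pos r)

private theorem G2_ell {n : ℕ} (hn : 1 ≤ n) (p : PD n) (r : ℝ) (k : Mt n) (hk : kᵀ = -k) :
    ell (Real.exp r • p.1 + k) = r := by
  have h0 : (n : ℝ) ≠ 0 := by
    have : 0 < n := hn
    exact_mod_cast this.ne'
  unfold ell
  rw [G2_syp p r k hk, Matrix.det_smul, Fintype.card_fin, p.2.2, mul_one, Real.log_pow,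
    Real.log_exp]
  field_simp

private theorem G2_rk {n : ℕ} (A : Mt n) : rk A = Real.exp (-ell A) := by
  unfold rk ell
  congr 1
  ring

private theorem G2_ret {n : ℕ} (hn : 1 ≤ n) (p : PD n) (r : ℝ) (k : Mt n) (hk : kᵀ = -k) :
    ret (Real.exp r • p.1 + k) = p := by
  apply Subtype.ext
  rw [ret_val (G2_mem p r k hk), G2_rk, G2_ell hn p r k hk, G2_syp p r k hk, smul_smul,
    ← Real.exp_add, neg_add_cancel, Real.exp_zero, one_smul]

private theorem G2_dec {n : ℕ} (A : Mt n) (hA : A ∈ PU n) :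
    A = Real.exp (ell A) • (ret A).1 + skp A := by
  rw [ret_val hA, G2_rk, smul_smul, ← Real.exp_add, add_neg_cancel, Real.exp_zero, one_smul]
  unfold syp skp
  ext i j
  simp only [Matrix.smul_apply, Matrix.add_apply, Matrix.sub_apply, smul_eq_mul]
  ring

private theorem G2_skt {n : ℕ} (A : Mt n) : (skp A)ᵀ = -skp A := by
  unfold skp
  rw [Matrix.transpose_smul, Matrix.transpose_sub, Matrix.transpose_transpose, ← smul_neg, neg_sub]

private theorem G2_pt {n : ℕ} (p : PD n) : ell p.1 = 0 ∧ skp p.1 = 0 := by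
  constructor
  · unfold ell
    rw [syp_self, p.2.2, Real.log_one, mul_zero]
  · unfold skp
    rw [G2_ptr, sub_self, smul_zero]

private theorem G2_es {n : ℕ} {m : WithTop ℕ∞} : ContDiffOn ℝ m (fun A : Mt n => ell A) (PU n) := by
  unfold ell
  refine contDiffOn_const.mul (ContDiffOn.log (cd_det syp_smooth) ?_)
  intro A hA
  have h5 : (syp A).PosDef := hA
  exact h5.det_pos.ne'

private theorem G2_ss {n : ℕ} {m : WithTop ℕ∞} {S : Set (Mt n)} :
    ContDiffOn ℝ m (fun A : Mt n => skp A) S := by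
  have h1 : ContDiffOn ℝ m (fun A : Mt n => A) S := contDiffOn_id
  rw [cd_iff]
  intro i j
  have h2 := cd_entry h1 i j
  have h3 := cd_entry (cd_transpose h1) i j
  have h4 : (fun A : Mt n => skp A i j) = fun A : Mt n => (1 / 2 : ℝ) * (A i j - Aᵀ i j) := by
    funext A
    simp only [skp, Matrix.smul_apply, Matrix.sub_apply, smul_eq_mul]
  rw [h4]
  exact contDiffOn_const.mul (h2.sub h3)

/-- Row G2. The decomposition `PU n = PD n × ℝ × skew matrices`. (`n ≥ 1`.) PLAN. `rk A = exp (- ell A)`,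
`ret_val`, `A = syp A + skp A`; for `B = exp r • p + k`: `syp B = exp r • p`, `det = exp (n r)`. -/
theorem dec_facts {n : ℕ} (hn : 1 ≤ n) :
    (∀ A ∈ PU n, A = Real.exp (ell A) • (ret A).1 + skp A) ∧
    (∀ (p : PD n) (r : ℝ) (k : Mt n), kᵀ = -k → Real.exp r • p.1 + k ∈ PU n ∧
      ret (Real.exp r • p.1 + k) = p ∧ ell (Real.exp r • p.1 + k) = r ∧
      skp (Real.exp r • p.1 + k) = k) ∧
    (∀ A : Mt n, (skp A)ᵀ = -skp A) ∧ (∀ p : PD n, ell p.1 = 0 ∧ skp p.1 = 0) ∧
    (∀ {m : WithTop ℕ∞}, ContDiffOn ℝ m (fun A : Mt n => ell A) (PU n)) ∧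
    (∀ {m : WithTop ℕ∞} {S : Set (Mt n)}, ContDiffOn ℝ m (fun A : Mt n => skp A) S) :=
  ⟨G2_dec, fun p r k hk => ⟨G2_mem p r k hk, G2_ret hn p r k hk, G2_ell hn p r k hk,
    G2_skp p r k hk⟩, G2_skt, G2_pt, G2_es, G2_ss⟩

end LibNC38
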