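import Pool.Agent.LibNS38.D8

set_option autoImplicit false
set_option maxSynthPendingDepth 3

open Matrix MeasureTheory Topology Filter
open scoped Matrix.Norms.Elementwise ContDiff

namespace LibNC38

/-- the gauge map `p ↦ ret (p - s Y(p))` -/
noncomputable def gau {n : ℕ} (Y : Mt n → Mt n) (s : ℝ) (p : PD n) : PD n := ret (p.1 - s • Y p.1)

private theorem G7_equi {n : ℕ} (Γ : Subgroup (SL n)) (Y : Mt n → Mt n)
    (he : ∀ γ ∈ Γ, ∀ p : PD n, Y (act γ p).1 = γ.1 * Y p.1 * γ.1ᵀ) (γ : SL n) (hγ : γ ∈ Γ)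
    (s : ℝ) (p : PD n) :
    (act γ p).1 - s • Y (act γ p).1 = γ.1 * (p.1 - s • Y p.1) * γ.1ᵀ := by
  rw [he γ hγ p, mul_sub, sub_mul, Matrix.mul_smul, Matrix.smul_mul]
  rfl

private theorem G7_s0 {n : ℕ} (Γ : Subgroup (SL n)) (hc : Coc Γ) (Y : Mt n → Mt n)
    (hY : ContinuousOn Y (PU n))
    (he : ∀ γ ∈ Γ, ∀ p : PD n, Y (act γ p).1 = γ.1 * Y p.1 * γ.1ᵀ) :
    ∃ s0 : ℝ, s0 > 0 ∧ ∀ s ∈ Set.Ioo (-s0) s0, ∀ p : PD n, p.1 - s • Y p.1 ∈ PU n := by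
  obtain ⟨Q, hQ, hQc⟩ := coc_pd Γ hc
  have hYc : Continuous fun p : PD n => Y p.1 :=
    hY.comp_continuous continuous_subtype_val (fun p => mem_PU p)
  have hF : Continuous fun x : ℝ × PD n => x.2.1 - x.1 • Y x.2.1 :=
    (continuous_subtype_val.comp continuous_snd).sub
      (continuous_fst.smul (hYc.comp continuous_snd))
  have hW : IsOpen ((fun x : ℝ × PD n => x.2.1 - x.1 • Y x.2.1) ⁻¹' PU n) := PU_open.preimage hF
  have hsub : ({0} : Set ℝ) ×ˢ Q ⊆ (fun x : ℝ × PD n => x.2.1 - x.1 • Y x.2.1) ⁻¹' PU n := by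
    rintro ⟨s, p⟩ ⟨hs, _⟩
    have hs' : s = 0 := hs
    subst hs'
    show p.1 - (0 : ℝ) • Y p.1 ∈ PU n
    rw [zero_smul, sub_zero]
    exact mem_PU p
  obtain ⟨u, v, hu, _, h0u, hQv, huv⟩ := generalized_tube_lemma isCompact_singleton hQ hW hsub
  obtain ⟨s0, hs0, hball⟩ := Metric.isOpen_iff.1 hu 0 (h0u rfl)
  refine ⟨s0, hs0, ?_⟩
  intro s hs p
  have hsu : s ∈ u := by
    apply hball
    rw [Metric.mem_ball, Real.dist_eq, sub_zero, abs_lt]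
    exact hs
  obtain ⟨γ, hγ, hq⟩ := hQc p
  have h1 : (act γ p).1 - s • Y (act γ p).1 ∈ PU n := huv (Set.mk_mem_prod hsu (hQv hq))
  have h2 := (ret_facts.1 γ⁻¹ _ h1).1
  have h3 : act γ⁻¹ (act γ p) = p := by
    rw [← act_facts.2.1, inv_mul_cancel, act_facts.1]
  have h4 := G7_equi Γ Y he γ⁻¹ (Γ.inv_mem hγ) s (act γ p)
  rw [h3] at h4
  rw [h4]
  exact h2

/-- Row G7. The gauge maps of an invariant vector field `Y`. PLAN. (1) `Q` from `coc_pd`: for `p ∈ Q`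
and `|s| ≤ s0` the matrix `p - s Y(p)` is in the open set `PU n` (compactness), by equivariance
(`ret_facts.1`, `Y (γ p) = γ Y(p) γᵀ`) for all `p`. (2) smoothness: `(s, A) ↦ (ret A).1 - s Y((ret A).1)` is
`C^∞` from `(-s0, s0) × PU n` to `PU n`, `ret_smooth`. (3), (4) definitions. (5) derivative of `ret` at
`p` on the tangent vector `- Y p` (`ret_facts`). -/
theorem gau_facts {n : ℕ} (Γ : Subgroup (SL n)) (hc : Coc Γ) (Y : Mt n → Mt n)
    (hY : ContDiffOn ℝ ∞ Y (PU n)) (hT : ∀ p : PD n, IsTan p (Y p.1))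
    (he : ∀ γ ∈ Γ, ∀ p : PD n, Y (act γ p).1 = γ.1 * Y p.1 * γ.1ᵀ) :
    ∃ s0 > 0, (∀ s ∈ Set.Ioo (-s0) s0, ∀ p : PD n, p.1 - s • Y p.1 ∈ PU n) ∧ SmM s0 (gau Y) ∧
      (∀ p, gau Y 0 p = p) ∧
      (∀ s ∈ Set.Ioo (-s0) s0, ∀ γ ∈ Γ, ∀ p, gau Y s (act γ p) = act γ (gau Y s p)) ∧
      ∀ p : PD n, HasDerivAt (fun s : ℝ => (gau Y s p).1) (-(Y p.1)) 0 := by
  obtain ⟨s0, hs0, h1⟩ := G7_s0 Γ hc Y hY.continuousOn he
  refine ⟨s0, hs0, h1, ?_, ?_, ?_, ?_⟩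
  · have hr : ContDiffOn ℝ ∞ (fun x : ℝ × Mt n => (ret x.2).1) (Set.Ioo (-s0) s0 ×ˢ PU n) :=
      (ret_smooth (n := n) (m := ∞)).comp contDiffOn_snd (fun x hx => hx.2)
    have hYr : ContDiffOn ℝ ∞ (fun x : ℝ × Mt n => Y (ret x.2).1) (Set.Ioo (-s0) s0 ×ˢ PU n) :=
      hY.comp hr (fun x _ => mem_PU _)
    have hg : ContDiffOn ℝ ∞ (fun x : ℝ × Mt n => (ret x.2).1 - x.1 • Y (ret x.2).1)
        (Set.Ioo (-s0) s0 ×ˢ PU n) := hr.sub (contDiffOn_fst.smul hYr)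
    exact (ret_smooth (n := n) (m := ∞)).comp hg (fun x hx => h1 x.1 hx.1 (ret x.2))
  · intro p
    unfold gau
    rw [zero_smul, sub_zero, ret_self]
  · intro s hs γ hγ p
    unfold gau
    rw [G7_equi Γ Y he γ hγ s p]
    exact (ret_facts.1 γ _ (h1 s hs p)).2
  · intro p
    have hd : HasFDerivAt (fun A : Mt n => (ret A).1) (fderiv ℝ (fun A : Mt n => (ret A).1) p.1)
        p.1 := by
      refine DifferentiableAt.hasFDerivAt ?_
      exact ((ret_smooth (n := n) (m := ∞)).contDiffAt (PU_open.mem_nhds (mem_PU p))).differentiableAt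
        (by simp)
    have hcurve : HasDerivAt (fun s : ℝ => p.1 - s • Y p.1) (-(Y p.1)) 0 := by
      have h2 : HasDerivAt (fun s : ℝ => s • Y p.1) ((1 : ℝ) • Y p.1) 0 :=
        (hasDerivAt_id (0 : ℝ)).smul_const (Y p.1)
      rw [one_smul] at h2
      exact h2.const_sub p.1
    have h0 : p.1 - (0 : ℝ) • Y p.1 = p.1 := by rw [zero_smul, sub_zero]
    have hd' : HasFDerivAt (fun A : Mt n => (ret A).1) (fderiv ℝ (fun A : Mt n => (ret A).1) p.1)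
        (p.1 - (0 : ℝ) • Y p.1) := by rw [h0]; exact hd
    have h3 := hd'.comp_hasDerivAt (0 : ℝ) hcurve
    have h4 : fderiv ℝ (fun A : Mt n => (ret A).1) p.1 (-(Y p.1)) = -(Y p.1) := by
      rw [map_neg, ret_facts.2.2 p (Y p.1) (hT p)]
    exact h3.congr_deriv h4

end LibNC38
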