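import Pool.Agent.LibNS38.G2

set_option autoImplicit false
set_option maxSynthPendingDepth 3

open Matrix MeasureTheory Topology Filter
open scoped Matrix.Norms.Elementwise ContDiff

namespace LibNC38

/-- the product metric on the open set `PU n = PD n × ℝ × skew matrices` of the space of all
matrices: the metric `h` on `PD n`, the flat metric on the other two factors
(`ret : PU n → PD n` is the projection, `syp` and `skp` are the symmetric and the skew part,
`D ell (v) = (1/n) tr (s⁻¹ syp v)`, `s = syp A`) -/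
noncomputable def prodm {n : ℕ} (h : PD n → Fm n) (A v w : Mt n) : ℝ :=
  h (ret A) (fderiv ℝ (fun B : Mt n => (ret B).1) A v) (fderiv ℝ (fun B : Mt n => (ret B).1) A w) +
    1 / (n : ℝ) * ((syp A)⁻¹ * syp v).trace * ((syp A)⁻¹ * syp w).trace +
    ((skp v)ᵀ * skp w).trace

/-- the metric `h` on `PD n` is smooth, symmetric, positive on tangent vectors -/
structure MetX {n : ℕ} (h : PD n → Fm n) : Prop where
  smooth : ∀ v w, ContDiffOn ℝ ∞ (fun A : Mt n => h (ret A) v w) (PU n)
  symm : ∀ p v w, h p v w = h p w v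
  pos : ∀ p v, IsTan p v → v ≠ 0 → 0 < h p v v

private theorem P0_det_one {n : ℕ} (M : Mt n) :
    HasDerivAt (fun x : ℝ => (1 + x • M).det) M.trace 0 := by
  have hp : ∀ x : ℝ, (1 + x • M).det =
      (det (1 + (Polynomial.X : Polynomial ℝ) • M.map Polynomial.C)).eval x := by
    intro x
    rw [← Polynomial.coe_evalRingHom, RingHom.map_det]
    congr 1
    ext i j
    by_cases hij : i = j
    · simp [hij]
      exact mul_comm _ _
    · simp [hij]
      exact mul_comm _ _
  have h1 := (det (1 + (Polynomial.X : Polynomial ℝ) • M.map Polynomial.C)).hasDerivAt 0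
  rw [Matrix.derivative_det_one_add_X_smul] at h1
  refine h1.congr_of_eventuallyEq ?_
  exact Filter.Eventually.of_forall hp

private theorem P0_syp_line {n : ℕ} (A v : Mt n) (x : ℝ) :
    syp (A + x • v) = syp A + x • syp v := by
  unfold syp
  ext i j
  simp only [Matrix.smul_apply, Matrix.add_apply, Matrix.transpose_apply, smul_eq_mul]
  ring

private theorem P0_line {n : ℕ} {F : Type} [NormedAddCommGroup F] [NormedSpace ℝ F]
    (f : Mt n → F) (A v : Mt n) (hf : DifferentiableAt ℝ f A) (d : F)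
    (h : HasDerivAt (fun x : ℝ => f (A + x • v)) d 0) : fderiv ℝ f A v = d := by
  have h1 : HasDerivAt (fun x : ℝ => A + x • v) v 0 := by
    have h2 := ((hasDerivAt_id (0 : ℝ)).smul_const v).const_add A
    rw [one_smul] at h2
    exact h2
  have h3 : HasFDerivAt f (fderiv ℝ f A) (A + (0 : ℝ) • v) := by
    rw [zero_smul, add_zero]
    exact hf.hasFDerivAt
  have h4 : HasDerivAt (fun x : ℝ => f (A + x • v)) (fderiv ℝ f A v) 0 :=
    h3.comp_hasDerivAt 0 h1
  exact h4.unique h

private theorem P0_ell {n : ℕ} (A : Mt n) (hA : A ∈ PU n) (v : Mt n) :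
    HasDerivAt (fun x : ℝ => ell (A + x • v)) (1 / (n : ℝ) * ((syp A)⁻¹ * syp v).trace) 0 := by
  have hpd : (syp A).PosDef := hA
  have hd : (syp A).det ≠ 0 := hpd.det_pos.ne'
  have hu : IsUnit (syp A).det := isUnit_iff_ne_zero.2 hd
  have h1 : ∀ x : ℝ, (syp (A + x • v)).det =
      (syp A).det * (1 + x • ((syp A)⁻¹ * syp v)).det := by
    intro x
    rw [P0_syp_line, ← Matrix.det_mul, mul_add, mul_one, Matrix.mul_smul, ← mul_assoc,
      Matrix.mul_nonsing_inv _ hu, one_mul]
  have h2 : HasDerivAt (fun x : ℝ => (syp (A + x • v)).det)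
      ((syp A).det * ((syp A)⁻¹ * syp v).trace) 0 := by
    refine ((P0_det_one ((syp A)⁻¹ * syp v)).const_mul (syp A).det).congr_of_eventuallyEq ?_
    exact Filter.Eventually.of_forall h1
  have h0 : (syp (A + (0 : ℝ) • v)).det = (syp A).det := by rw [zero_smul, add_zero]
  have h3 := (h2.log (by rw [h0]; exact hd)).const_mul (1 / (n : ℝ))
  rw [h0, mul_div_cancel_left₀ _ hd] at h3
  exact h3

private theorem P0_ell_diff {n : ℕ} (A : Mt n) (hA : A ∈ PU n) :
    DifferentiableAt ℝ (fun B : Mt n => ell B) A := by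
  have h1 : ContDiffOn ℝ 1 (fun B : Mt n => ell B) (PU n) := by
    unfold ell
    refine contDiffOn_const.mul (ContDiffOn.log (cd_det syp_smooth) ?_)
    intro B hB
    have h5 : (syp B).PosDef := hB
    exact h5.det_pos.ne'
  exact (h1.contDiffAt (PU_open.mem_nhds hA)).differentiableAt one_ne_zero

/-- Row P0. Derivatives of the projections. PLAN. `ret A = exp (- ell A) • syp A`,
`ell A = (1/n) log det (syp A)`; derivative of `log det` at `s` in direction `u`: `tr (s⁻¹ u)`
(derivative of `det`: `det (s + x u) = det s * det (1 + x s⁻¹ u)`). -/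
theorem proj_deriv {n : ℕ} (A : Mt n) (hA : A ∈ PU n) (v : Mt n) :
    fderiv ℝ (fun B : Mt n => ell B) A v = 1 / (n : ℝ) * ((syp A)⁻¹ * syp v).trace ∧
    fderiv ℝ (fun B : Mt n => (ret B).1) A v =
      Real.exp (-(ell A)) • (syp v - (1 / (n : ℝ) * ((syp A)⁻¹ * syp v).trace) • syp A) := by
  refine ⟨P0_line _ A v (P0_ell_diff A hA) _ (P0_ell A hA v), ?_⟩
  have hdiff : DifferentiableAt ℝ (fun B : Mt n => (ret B).1) A :=
    ((ret_smooth (m := 1)).contDiffAt (PU_open.mem_nhds hA)).differentiableAt one_ne_zero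
  refine P0_line _ A v hdiff _ ?_
  have h1 := P0_ell A hA v
  have h2 : HasDerivAt (fun x : ℝ => syp (A + x • v)) (syp v) 0 := by
    have h3 : (fun x : ℝ => syp (A + x • v)) = fun x : ℝ => syp A + x • syp v := by
      funext x
      exact P0_syp_line A v x
    rw [h3]
    have h4 := ((hasDerivAt_id (0 : ℝ)).smul_const (syp v)).const_add (syp A)
    rw [one_smul] at h4
    exact h4
  have h5 : HasDerivAt (fun x : ℝ => Real.exp (-(ell (A + x • v))) • syp (A + x • v))
      (Real.exp (-(ell A)) • (syp v - (1 / (n : ℝ) * ((syp A)⁻¹ * syp v).trace) • syp A)) 0 := by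
    have h6 : HasDerivAt (fun x : ℝ => Real.exp (-(ell (A + x • v))) • syp (A + x • v))
        (Real.exp (-(ell (A + (0 : ℝ) • v))) • syp v +
          (Real.exp (-(ell (A + (0 : ℝ) • v))) *
            -(1 / (n : ℝ) * ((syp A)⁻¹ * syp v).trace)) • syp (A + (0 : ℝ) • v)) 0 :=
      (h1.neg.exp).smul h2
    rw [zero_smul, add_zero] at h6
    refine h6.congr_deriv ?_
    rw [smul_sub, smul_smul, mul_neg, neg_smul, ← sub_eq_add_neg]
  refine h5.congr_of_eventuallyEq ?_
  have hopen : ∀ᶠ x : ℝ in 𝓝 0, A + x • v ∈ PU n := by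
    have hc : Continuous fun x : ℝ => A + x • v := by fun_prop
    have h8 : A + (0 : ℝ) • v ∈ PU n := by rw [zero_smul, add_zero]; exact hA
    exact hc.continuousAt.eventually (PU_open.mem_nhds h8)
  filter_upwards [hopen] with x hx
  rw [ret_val hx]
  unfold rk ell
  rw [neg_mul]

end LibNC38
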