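import Pool.Agent.LibNS38.P2

set_option autoImplicit false
set_option maxSynthPendingDepth 3

open Matrix MeasureTheory Topology Filter
open scoped Matrix.Norms.Elementwise ContDiff

namespace LibNC38

private theorem P3a_sypT {n : ℕ} (A : Mt n) : (syp A)ᵀ = syp A := by
  unfold syp
  rw [Matrix.transpose_smul, Matrix.transpose_add, Matrix.transpose_transpose, add_comm]

private theorem P3a_skpT {n : ℕ} (A : Mt n) : (skp A)ᵀ = -skp A := by
  unfold skp
  rw [Matrix.transpose_smul, Matrix.transpose_sub, Matrix.transpose_transpose, ← smul_neg, neg_sub]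

private theorem P3a_dec {n : ℕ} (A : Mt n) : syp A + skp A = A := by
  unfold syp skp
  ext i j
  simp only [Matrix.add_apply, Matrix.smul_apply, Matrix.sub_apply, smul_eq_mul]
  ring

private theorem P3a_syp {n : ℕ} {X K : Mt n} (hX : Xᵀ = X) (hK : Kᵀ = -K) : syp (X + K) = X := by
  unfold syp
  rw [Matrix.transpose_add, hX, hK]
  ext i j
  simp only [Matrix.add_apply, Matrix.smul_apply, Matrix.neg_apply, smul_eq_mul]
  ring

private theorem P3a_skp {n : ℕ} {X K : Mt n} (hX : Xᵀ = X) (hK : Kᵀ = -K) : skp (X + K) = K := by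
  unfold skp
  rw [Matrix.transpose_add, hX, hK]
  ext i j
  simp only [Matrix.add_apply, Matrix.smul_apply, Matrix.sub_apply, Matrix.neg_apply, smul_eq_mul]
  ring

private noncomputable def P3a_Ls (n : ℕ) : Mt n →ₗ[ℝ] Mt n where
  toFun := syp
  map_add' x y := by
    unfold syp
    ext i j
    simp only [Matrix.add_apply, Matrix.smul_apply, Matrix.transpose_apply, smul_eq_mul]
    ring
  map_smul' c x := by
    unfold syp
    ext i j
    simp only [Matrix.add_apply, Matrix.smul_apply, Matrix.transpose_apply, smul_eq_mul,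
      RingHom.id_apply]
    ring

private noncomputable def P3a_Lk (n : ℕ) : Mt n →ₗ[ℝ] Mt n where
  toFun := skp
  map_add' x y := by
    unfold skp
    ext i j
    simp only [Matrix.add_apply, Matrix.smul_apply, Matrix.sub_apply, Matrix.transpose_apply,
      smul_eq_mul]
    ring
  map_smul' c x := by
    unfold skp
    ext i j
    simp only [Matrix.smul_apply, Matrix.sub_apply, Matrix.transpose_apply, smul_eq_mul,
      RingHom.id_apply]
    ring

private theorem P3a_iff {n : ℕ} {f : ℝ → Mt n} {f' : Mt n} {s : ℝ} :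
    HasDerivAt f f' s ↔ ∀ i j, HasDerivAt (fun x => f x i j) (f' i j) s := by
  have h1 : HasDerivAt f f' s ↔ ∀ i, HasDerivAt (fun x => f x i) (f' i) s := hasDerivAt_pi
  rw [h1]
  exact forall_congr' fun i => hasDerivAt_pi

private theorem P3a_mul {n : ℕ} {f g : ℝ → Mt n} {f' g' : Mt n} {s : ℝ}
    (hf : HasDerivAt f f' s) (hg : HasDerivAt g g' s) :
    HasDerivAt (fun x => f x * g x) (f' * g s + f s * g') s := by
  rw [P3a_iff]
  intro i j
  have h1 : ∀ k ∈ (Finset.univ : Finset (Fin n)),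
      HasDerivAt (fun x => f x i k * g x k j) (f' i k * g s k j + f s i k * g' k j) s :=
    fun k _ => (P3a_iff.1 hf i k).mul (P3a_iff.1 hg k j)
  have h2 := HasDerivAt.fun_sum h1
  have h3 : (f' * g s + f s * g') i j = ∑ k, (f' i k * g s k j + f s i k * g' k j) := by
    rw [Matrix.add_apply, Matrix.mul_apply, Matrix.mul_apply, Finset.sum_add_distrib]
  rw [h3]
  simpa only [Matrix.mul_apply] using h2

private theorem P3a_line {n : ℕ} (A v : Mt n) : HasDerivAt (fun t : ℝ => A + t • v) v 0 := by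
  have h : HasDerivAt (fun t : ℝ => A + t • v) ((1 : ℝ) • v) 0 :=
    ((hasDerivAt_id (0 : ℝ)).smul_const v).const_add A
  rwa [one_smul] at h

private theorem P3a_det {n : ℕ} {A : Mt n} (hA : A ∈ PU n) : IsUnit (syp A).det := by
  have h : (syp A).PosDef := hA
  exact isUnit_iff_ne_zero.2 h.det_pos.ne'

private theorem P3a_cdinv {n : ℕ} : ContDiffOn ℝ ∞ (fun B : Mt n => (syp B)⁻¹) (PU n) :=
  cd_inv syp_smooth fun _ hB => (P3a_det hB).ne_zero

private theorem P3a_dinv {n : ℕ} {A : Mt n} (hA : A ∈ PU n) (v : Mt n) :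
    DifferentiableAt ℝ (fun B : Mt n => (syp B)⁻¹) A ∧
    fderiv ℝ (fun B : Mt n => (syp B)⁻¹) A v = -((syp A)⁻¹ * syp v * (syp A)⁻¹) := by
  have hd : DifferentiableAt ℝ (fun B : Mt n => (syp B)⁻¹) A :=
    (P3a_cdinv.contDiffAt (PU_open.mem_nhds hA)).differentiableAt (by simp)
  refine ⟨hd, ?_⟩
  have hl := P3a_line A v
  have hf0 : HasFDerivAt (fun B : Mt n => (syp B)⁻¹) (fderiv ℝ (fun B : Mt n => (syp B)⁻¹) A)
      (A + (0 : ℝ) • v) := by
    simpa using hd.hasFDerivAt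
  have hf1 := hf0.comp_hasDerivAt (0 : ℝ) hl
  have hg0 : HasDerivAt (fun t : ℝ => syp (A + t • v)) (syp v) 0 := by
    have h1 := (LinearMap.toContinuousLinearMap (P3a_Ls n)).hasFDerivAt (x := A + (0 : ℝ) • v)
    exact h1.comp_hasDerivAt (0 : ℝ) hl
  have hp := P3a_mul hg0 hf1
  have hev : (fun t : ℝ => syp (A + t • v) * ((fun B : Mt n => (syp B)⁻¹) ∘ fun t : ℝ => A + t • v) t)
      =ᶠ[𝓝 0] fun _ => (1 : Mt n) := by
    have hmem : ∀ᶠ t : ℝ in 𝓝 0, A + t • v ∈ PU n := by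
      have hc : ContinuousAt (fun t : ℝ => A + t • v) 0 := hl.continuousAt
      apply hc.eventually_mem
      apply PU_open.mem_nhds
      simpa using hA
    filter_upwards [hmem] with t ht
    exact Matrix.mul_nonsing_inv _ (P3a_det ht)
  have hp1 : HasDerivAt (fun _ : ℝ => (1 : Mt n)) _ 0 := hp.congr_of_eventuallyEq hev.symm
  have hp2 := hp1.unique (hasDerivAt_const (0 : ℝ) (1 : Mt n))
  simp only [Function.comp, zero_smul, add_zero] at hp2
  have hu := P3a_det hA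
  have h3 : (syp A)⁻¹ * (syp v * (syp A)⁻¹ + syp A *
      fderiv ℝ (fun B : Mt n => (syp B)⁻¹) A v) = 0 :=
    (congrArg (fun X : Mt n => (syp A)⁻¹ * X) hp2).trans (Matrix.mul_zero _)
  rw [Matrix.mul_add, ← Matrix.mul_assoc, ← Matrix.mul_assoc, Matrix.nonsing_inv_mul _ hu,
    Matrix.one_mul] at h3
  exact eq_neg_of_add_eq_zero_right h3

private theorem P3a_tr {n : ℕ} {s u w : Mt n} (hs : IsUnit s.det) :
    (s⁻¹⁻¹ * (-(s⁻¹ * u * s⁻¹)) * (s⁻¹⁻¹ * (-(s⁻¹ * w * s⁻¹)))).trace =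
      (s⁻¹ * u * (s⁻¹ * w)).trace := by
  rw [Matrix.nonsing_inv_nonsing_inv _ hs]
  have h1 : ∀ x : Mt n, s * (-(s⁻¹ * x * s⁻¹)) = -(x * s⁻¹) := by
    intro x
    rw [Matrix.mul_neg, ← Matrix.mul_assoc, ← Matrix.mul_assoc, Matrix.mul_nonsing_inv _ hs,
      Matrix.one_mul]
  rw [h1, h1, neg_mul_neg, Matrix.trace_mul_comm (u * s⁻¹)]
  have h2 : (w * s⁻¹ * (u * s⁻¹)).trace = (s⁻¹ * (w * s⁻¹ * u)).trace := by
    rw [Matrix.trace_mul_comm s⁻¹]
    simp only [Matrix.mul_assoc]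
  rw [h2, Matrix.trace_mul_comm]
  have h3 : w * s⁻¹ * u * s⁻¹ = w * (s⁻¹ * u * s⁻¹) := by simp only [Matrix.mul_assoc]
  rw [h3, Matrix.trace_mul_comm]
  simp only [Matrix.mul_assoc]

private theorem P3a_tr2 {n : ℕ} {a s u w : Mt n} (ha : IsUnit a.det) :
    ((a * s * aᵀ)⁻¹ * (a * u * aᵀ) * ((a * s * aᵀ)⁻¹ * (a * w * aᵀ))).trace =
      (s⁻¹ * u * (s⁻¹ * w)).trace := by
  have hat : IsUnit aᵀ.det := by rwa [Matrix.det_transpose]
  have h1 : ∀ x : Mt n, (a * s * aᵀ)⁻¹ * (a * x * aᵀ) = aᵀ⁻¹ * (s⁻¹ * x) * aᵀ := by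
    intro x
    rw [Matrix.mul_inv_rev, Matrix.mul_inv_rev]
    calc aᵀ⁻¹ * (s⁻¹ * a⁻¹) * (a * x * aᵀ) = aᵀ⁻¹ * (s⁻¹ * ((a⁻¹ * a) * x)) * aᵀ := by
          simp only [Matrix.mul_assoc]
      _ = aᵀ⁻¹ * (s⁻¹ * x) * aᵀ := by rw [Matrix.nonsing_inv_mul _ ha, Matrix.one_mul]
  rw [h1, h1]
  have h2 : aᵀ⁻¹ * (s⁻¹ * u) * aᵀ * (aᵀ⁻¹ * (s⁻¹ * w) * aᵀ) =
      aᵀ⁻¹ * ((s⁻¹ * u * (s⁻¹ * w)) * aᵀ) := by
    calc aᵀ⁻¹ * (s⁻¹ * u) * aᵀ * (aᵀ⁻¹ * (s⁻¹ * w) * aᵀ) =
          aᵀ⁻¹ * (s⁻¹ * u) * ((aᵀ * aᵀ⁻¹) * ((s⁻¹ * w) * aᵀ)) := by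
          simp only [Matrix.mul_assoc]
      _ = aᵀ⁻¹ * ((s⁻¹ * u * (s⁻¹ * w)) * aᵀ) := by
          rw [Matrix.mul_nonsing_inv _ hat, Matrix.one_mul]
          simp only [Matrix.mul_assoc]
  rw [h2, Matrix.trace_mul_comm, Matrix.mul_assoc, Matrix.mul_nonsing_inv _ hat, Matrix.mul_one]

private theorem P3a_root {n : ℕ} {B : Mt n} (hB : B ∈ PU n) :
    ∃ a : Mt n, IsUnit a.det ∧ a * aᵀ = syp B := by
  have hr := ret_val hB
  have hk := rk_pos B
  have hr' : (tch (ret B)).1 * (tch (ret B)).1ᵀ = (ret B).1 := tch_mul (ret B)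
  set c : ℝ := Real.sqrt (rk B)⁻¹ with hc
  have hcc : c * c = (rk B)⁻¹ := Real.mul_self_sqrt (inv_nonneg.2 hk.le)
  have hc0 : c ≠ 0 := by
    intro h0
    rw [h0, mul_zero] at hcc
    exact (inv_ne_zero hk.ne') hcc.symm
  refine ⟨c • (tch (ret B)).1, ?_, ?_⟩
  · rw [Matrix.det_smul, (tch (ret B)).2, mul_one]
    exact isUnit_iff_ne_zero.2 (pow_ne_zero _ hc0)
  · rw [Matrix.transpose_smul, Matrix.smul_mul, Matrix.mul_smul, smul_smul, hcc, hr', hr,
      smul_smul, inv_mul_cancel₀ hk.ne', one_smul]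

/-- Row P3a. Isometries of `G = prodm gF` on `PU n` (formula `prodm_gF`). (1) `φ A = (syp A)⁻¹ - skp A`:
maps `PU n` to itself (`Matrix.PosDef.inv`), fixes `1`, derivative `v ↦ - s⁻¹ (syp v) s⁻¹ - skp v`,
`s = syp A` (derivative of the matrix inverse; surjective). (2) for `B ∈ PU n` the map
`φ A = a (syp A) aᵀ + skp A + skp B`, with `a aᵀ = syp B`, `a` invertible (e.g. `a = c • t`,
`syp B = c² • p`, `p = ret B`, `t = tch p`): affine in `A`, derivative
`v ↦ a (syp v) aᵀ + skp v`, surjective, `φ 1 = B`, isometry (cyclicity of the trace). -/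
theorem isom_gF {n : ℕ} (hn : 1 ≤ n) :
    (∃ φ : Mt n → Mt n, ContDiffOn ℝ ∞ φ (PU n) ∧ (∀ A ∈ PU n, φ A ∈ PU n) ∧ φ 1 = 1 ∧
      (∀ v, fderiv ℝ φ 1 v = -v) ∧ (∀ A ∈ PU n, Function.Surjective (fderiv ℝ φ A)) ∧
      ∀ A ∈ PU n, ∀ v w, prodm (gF : PD n → Fm n) (φ A) (fderiv ℝ φ A v) (fderiv ℝ φ A w) =
        prodm gF A v w) ∧
    ∀ B ∈ PU n, ∃ φ : Mt n → Mt n, ContDiffOn ℝ ∞ φ (PU n) ∧ (∀ A ∈ PU n, φ A ∈ PU n) ∧ φ 1 = B ∧
      (∀ A ∈ PU n, Function.Surjective (fderiv ℝ φ A)) ∧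
      ∀ A ∈ PU n, ∀ v w, prodm (gF : PD n → Fm n) (φ A) (fderiv ℝ φ A v) (fderiv ℝ φ A w) =
        prodm gF A v w := by
  obtain ⟨-, hpm⟩ := prodm_gF hn
  have hs1 : syp (1 : Mt n) = 1 := by
    have h := P3a_syp (X := (1 : Mt n)) (K := 0) Matrix.transpose_one (by simp)
    simpa using h
  have hk1 : skp (1 : Mt n) = 0 := by
    have h := P3a_skp (X := (1 : Mt n)) (K := 0) Matrix.transpose_one (by simp)
    simpa using h
  constructor
  · -- the inversion
    have hdf : ∀ A ∈ PU n, ∀ v, fderiv ℝ (fun B : Mt n => (syp B)⁻¹ - skp B) A v =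
        -((syp A)⁻¹ * syp v * (syp A)⁻¹) + -skp v := by
      intro A hA v
      obtain ⟨h1, h2⟩ := P3a_dinv hA v
      have h3 := (LinearMap.toContinuousLinearMap (P3a_Lk n)).hasFDerivAt (x := A)
      have h4 := (h1.hasFDerivAt.sub h3).fderiv
      have h5 : fderiv ℝ (fun B : Mt n => (syp B)⁻¹ - skp B) A =
          fderiv ℝ (fun B : Mt n => (syp B)⁻¹) A - LinearMap.toContinuousLinearMap (P3a_Lk n) := h4
      rw [h5, ← sub_eq_add_neg, ← h2]
      rfl
    have hiT : ∀ A : Mt n, ((syp A)⁻¹)ᵀ = (syp A)⁻¹ := by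
      intro A
      rw [Matrix.transpose_nonsing_inv, P3a_sypT]
    have hcT : ∀ A v : Mt n, (-((syp A)⁻¹ * syp v * (syp A)⁻¹))ᵀ =
        -((syp A)⁻¹ * syp v * (syp A)⁻¹) := by
      intro A v
      rw [Matrix.transpose_neg, Matrix.transpose_mul, Matrix.transpose_mul, hiT, P3a_sypT,
        Matrix.mul_assoc]
    have hnT : ∀ v : Mt n, (-skp v)ᵀ = -(-skp v) := by
      intro v
      rw [Matrix.transpose_neg, P3a_skpT]
    have hsub : ∀ A : Mt n, syp ((syp A)⁻¹ - skp A) = (syp A)⁻¹ := by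
      intro A
      rw [sub_eq_add_neg]
      exact P3a_syp (hiT A) (hnT A)
    have hmem : ∀ A ∈ PU n, (syp A)⁻¹ - skp A ∈ PU n := by
      intro A hA
      show (syp ((syp A)⁻¹ - skp A)).PosDef
      rw [hsub]
      have h : (syp A).PosDef := hA
      exact h.inv
    have h1m : (1 : Mt n) ∈ PU n := by
      show (syp (1 : Mt n)).PosDef
      rw [hs1]
      exact Matrix.PosDef.one
    refine ⟨fun B : Mt n => (syp B)⁻¹ - skp B, ?_, hmem, ?_, ?_, ?_, ?_⟩
    · exact P3a_cdinv.sub ((dec_facts hn).2.2.2.2.2)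
    · show (syp (1 : Mt n))⁻¹ - skp 1 = 1
      rw [hs1, hk1, inv_one, sub_zero]
    · intro v
      rw [hdf 1 h1m, hs1, inv_one, Matrix.one_mul, Matrix.mul_one, ← neg_add, P3a_dec]
    · intro A hA w
      have hu := P3a_det hA
      refine ⟨-(syp A * syp w * syp A) + -skp w, ?_⟩
      have hsT : (-(syp A * syp w * syp A))ᵀ = -(syp A * syp w * syp A) := by
        rw [Matrix.transpose_neg, Matrix.transpose_mul, Matrix.transpose_mul, P3a_sypT, P3a_sypT,
          Matrix.mul_assoc]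
      rw [hdf A hA, P3a_syp hsT (hnT w), P3a_skp hsT (hnT w), neg_neg]
      have h6 : -((syp A)⁻¹ * -(syp A * syp w * syp A) * (syp A)⁻¹) = syp w := by
        rw [Matrix.mul_neg, Matrix.neg_mul, neg_neg]
        calc (syp A)⁻¹ * (syp A * syp w * syp A) * (syp A)⁻¹ =
              ((syp A)⁻¹ * syp A) * syp w * (syp A * (syp A)⁻¹) := by
              simp only [Matrix.mul_assoc]
          _ = syp w := by
              rw [Matrix.nonsing_inv_mul _ hu, Matrix.mul_nonsing_inv _ hu, Matrix.one_mul,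
                Matrix.mul_one]
      rw [h6, P3a_dec]
    · intro A hA v w
      have hu := P3a_det hA
      rw [hpm _ (hmem A hA), hpm A hA, hdf A hA, hdf A hA, hsub,
        P3a_syp (hcT A v) (hnT v), P3a_syp (hcT A w) (hnT w),
        P3a_skp (hcT A v) (hnT v), P3a_skp (hcT A w) (hnT w), P3a_tr hu,
        Matrix.transpose_neg, neg_mul_neg]
  · intro B hB
    obtain ⟨a, ha, hab⟩ := P3a_root hB
    have hat : IsUnit aᵀ.det := by rwa [Matrix.det_transpose]
    have haT : ∀ v : Mt n, (a * syp v * aᵀ)ᵀ = a * syp v * aᵀ := by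
      intro v
      rw [Matrix.transpose_mul, Matrix.transpose_mul, Matrix.transpose_transpose, P3a_sypT,
        Matrix.mul_assoc]
    let L : Mt n →ₗ[ℝ] Mt n :=
      { toFun := fun v => a * syp v * aᵀ + skp v
        map_add' := by
          intro x y
          have h1 : syp (x + y) = syp x + syp y := (P3a_Ls n).map_add x y
          have h2 : skp (x + y) = skp x + skp y := (P3a_Lk n).map_add x y
          rw [h1, h2, Matrix.mul_add, Matrix.add_mul]
          abel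
        map_smul' := by
          intro c x
          have h1 : syp (c • x) = c • syp x := (P3a_Ls n).map_smul c x
          have h2 : skp (c • x) = c • skp x := (P3a_Lk n).map_smul c x
          rw [h1, h2, Matrix.mul_smul, Matrix.smul_mul, RingHom.id_apply, smul_add] }
    have hL : ∀ v, LinearMap.toContinuousLinearMap L v = a * syp v * aᵀ + skp v := fun v => rfl
    have hfun : (fun A : Mt n => a * syp A * aᵀ + skp A + skp B) =
        fun A : Mt n => LinearMap.toContinuousLinearMap L A + skp B := rfl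
    have hdf : ∀ A v, fderiv ℝ (fun A : Mt n => a * syp A * aᵀ + skp A + skp B) A v =
        a * syp v * aᵀ + skp v := by
      intro A v
      have h1 := ((LinearMap.toContinuousLinearMap L).hasFDerivAt (x := A)).add_const (skp B)
      have h2 : fderiv ℝ (fun A : Mt n => a * syp A * aᵀ + skp A + skp B) A =
          LinearMap.toContinuousLinearMap L := h1.fderiv
      rw [h2]
      exact hL v
    have hkk : ∀ A : Mt n, (skp A + skp B)ᵀ = -(skp A + skp B) := by
      intro A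
      rw [Matrix.transpose_add, P3a_skpT, P3a_skpT, neg_add]
    have hsub : ∀ A : Mt n, syp (a * syp A * aᵀ + skp A + skp B) = a * syp A * aᵀ := by
      intro A
      rw [add_assoc]
      exact P3a_syp (haT A) (hkk A)
    have hmem : ∀ A ∈ PU n, a * syp A * aᵀ + skp A + skp B ∈ PU n := by
      intro A hA
      show (syp (a * syp A * aᵀ + skp A + skp B)).PosDef
      rw [hsub]
      have h : (syp A).PosDef := hA
      have h2 := h.mul_mul_conjTranspose_same (B := a)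
        (Matrix.vecMul_injective_of_isUnit ((Matrix.isUnit_iff_isUnit_det _).2 ha))
      simpa [Matrix.conjTranspose_eq_transpose_of_trivial] using h2
    refine ⟨fun A : Mt n => a * syp A * aᵀ + skp A + skp B, ?_, hmem, ?_, ?_, ?_⟩
    · rw [hfun]
      exact ((LinearMap.toContinuousLinearMap L).contDiff.add contDiff_const).contDiffOn
    · show a * syp 1 * aᵀ + skp 1 + skp B = B
      rw [hs1, hk1, Matrix.mul_one, hab, add_zero, P3a_dec]
    · intro A _ w
      refine ⟨a⁻¹ * syp w * aᵀ⁻¹ + skp w, ?_⟩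
      have hX : (a⁻¹ * syp w * aᵀ⁻¹)ᵀ = a⁻¹ * syp w * aᵀ⁻¹ := by
        rw [Matrix.transpose_mul, Matrix.transpose_mul, P3a_sypT, Matrix.transpose_nonsing_inv,
          Matrix.transpose_nonsing_inv, Matrix.transpose_transpose, Matrix.mul_assoc]
      rw [hdf, P3a_syp hX (P3a_skpT w), P3a_skp hX (P3a_skpT w)]
      have h6 : a * (a⁻¹ * syp w * aᵀ⁻¹) * aᵀ = syp w := by
        calc a * (a⁻¹ * syp w * aᵀ⁻¹) * aᵀ = (a * a⁻¹) * syp w * (aᵀ⁻¹ * aᵀ) := by
              simp only [Matrix.mul_assoc]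
          _ = syp w := by
              rw [Matrix.mul_nonsing_inv _ ha, Matrix.nonsing_inv_mul _ hat, Matrix.one_mul,
                Matrix.mul_one]
      rw [h6, P3a_dec]
    · intro A hA v w
      rw [hpm _ (hmem A hA), hpm A hA, hdf, hdf, hsub,
        P3a_syp (haT v) (P3a_skpT v), P3a_syp (haT w) (P3a_skpT w),
        P3a_skp (haT v) (P3a_skpT v), P3a_skp (haT w) (P3a_skpT w), P3a_tr2 ha]

end LibNC38
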