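import Pool.Agent.LibNS38.P3
import Pool.Agent.LibNS38.P4
import Pool.Agent.LibNS38.V4
import Pool.Agent.LibNS38.G1
import Pool.Agent.LibNS38.G1b
import Pool.Agent.LibNS38.C13b

set_option autoImplicit false
set_option maxSynthPendingDepth 3

open Matrix MeasureTheory Topology Filter
open scoped Matrix.Norms.Elementwise ContDiff

namespace LibNC38

/-- the derivative of the retraction, on `PU n` -/
private theorem P5_diff {n : ℕ} {A : Mt n} (hA : A ∈ PU n) :
    DifferentiableAt ℝ (fun B : Mt n => (ret B).1) A := by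
  have h1 : ContDiffOn ℝ 1 (fun B : Mt n => (ret B).1) (PU n) := ret_smooth
  exact (h1.contDiffAt (PU_open.mem_nhds hA)).differentiableAt (by simp)

private theorem P5_tan {n : ℕ} {A : Mt n} (hA : A ∈ PU n) (v : Mt n) :
    IsTan (ret A) (fderiv ℝ (fun B : Mt n => (ret B).1) A v) :=
  tan_fderiv (fun B : Mt n => ret B) A (P5_diff hA) v

private theorem P5_gen {E F : Type} [NormedAddCommGroup E] [NormedSpace ℝ E]
    [NormedAddCommGroup F] [NormedSpace ℝ F] {Ω : Set E} (hΩ : IsOpen Ω) (f : E → F)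
    (hf : ContDiffOn ℝ ∞ f Ω) (v : E) : ContDiffOn ℝ ∞ (fun A : E => fderiv ℝ f A v) Ω := by
  have h2 : ContDiffOn ℝ ∞ (fderiv ℝ f) Ω := hf.fderiv_of_isOpen hΩ (by simp)
  exact h2.clm_apply contDiffOn_const

private theorem P5_dsm {n : ℕ} (v : Mt n) :
    ContDiffOn ℝ ∞ (fun A : Mt n => fderiv ℝ (fun B : Mt n => (ret B).1) A v) (PU n) :=
  P5_gen PU_open (fun B : Mt n => (ret B).1) ret_smooth v

private theorem P5_pol {n : ℕ} (h g : Fm n) (hs : ∀ v w, h v w = h w v)
    (gs : ∀ v w, g v w = g w v) (v w : Mt n) (h1 : h v v = g v v) (h2 : h w w = g w w)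
    (h3 : h (v + w) (v + w) = g (v + w) (v + w)) : h v w = g v w := by
  simp only [map_add, LinearMap.add_apply] at h3
  have e1 := hs v w
  have e2 := gs v w
  linarith

private theorem P5_zero {n : ℕ} (hn : 1 ≤ n) (H : ℝ → PD n → Fm n)
    (hs : ∀ t p v w, H t p v w = H t p w v) (h0 : ∀ p v, IsTan p v → H 0 p v v = gF p v v)
    (A v w : Mt n) (hA : A ∈ PU n) : prodm (H 0) A v w = prodm (gF : PD n → Fm n) A v w := by
  have gs := ((prodm_gF hn).1).symm
  have e : H 0 (ret A) (fderiv ℝ (fun B : Mt n => (ret B).1) A v)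
      (fderiv ℝ (fun B : Mt n => (ret B).1) A w) =
      gF (ret A) (fderiv ℝ (fun B : Mt n => (ret B).1) A v)
      (fderiv ℝ (fun B : Mt n => (ret B).1) A w) := by
    refine P5_pol (H 0 (ret A)) (gF (ret A)) (hs 0 (ret A)) (gs (ret A)) _ _
      (h0 _ _ (P5_tan hA v)) (h0 _ _ (P5_tan hA w)) ?_
    rw [← map_add]
    exact h0 _ _ (P5_tan hA (v + w))
  unfold prodm
  rw [e]

private theorem P5_add {n : ℕ} (g k : PD n → Fm n) (r : ℝ) (A v w : Mt n) :
    prodm (fun p => g p + r • k p) A v w = prodm g A v w +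
      r * k (ret A) (fderiv ℝ (fun B : Mt n => (ret B).1) A v)
        (fderiv ℝ (fun B : Mt n => (ret B).1) A w) := by
  unfold prodm
  simp only [LinearMap.add_apply, LinearMap.smul_apply, smul_eq_mul]
  ring

/-- Row P5 (assembly). `OrdN` gives the gauge data `GaugeP` for the product metrics. PLAN. Data
`ε, Φ, c, K` of `OrdN`, `a t := √ (c t)` (`C^∞`, `a 0 = 1`), `Φ' t := lft (a t) (Φ t)` (`lft_smooth`, `Φ' 0 = id` on
`PU n`: `dec_facts`), `K' t A v w := K t (ret A) (D ret v) (D ret w)`. `Q := closedBall x ρ` from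
`NS38.near_id` for the compact set `{x}` (with `F = Φ'`), and `near_surj`: for small `t` there is
`y ∈ closedBall x ρ` with `Φ' t y = x`. Identity: `prodm_pull` with `h = H t`,
`m = gF + t ^ N • K t`, `a t ^ 2 = c t`, and `prodm (gF + t^N K) = prodm gF + t^N K'`, `H 0 = gF` on tangent
vectors so `prodm (H 0) = prodm gF` (`tan_fderiv`, polarization). The compact set `Q` may depend on `N`:
use a fixed `Q := closedBall x ρ0 ⊆ PU n` and shrink: `near_surj` on smaller balls. -/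
theorem gauge_prodm {n : ℕ} (hn : 1 ≤ n) (Γ : Subgroup (SL n)) (H : ℝ → PD n → Fm n)
    (hs : ∀ t p v w, H t p v w = H t p w v) (h0 : ∀ p v, IsTan p v → H 0 p v v = gF p v v)
    (x : Mt n) (hx : x ∈ PU n) (Q : Set (Mt n)) (hQ : Q ∈ 𝓝 x) (hQP : Q ⊆ PU n) (N : ℕ)
    (hO : OrdN Γ H N) : NS38.GaugeP (fun t => prodm (H t)) (PU n) Q x N := by
  obtain ⟨ε, Φ, c, K, hε, hΦ, hΦ0, hD, hc, hc0, hcp, hK, hKs, hlaw⟩ := hO
  have gs := ((prodm_gF hn).1).symm
  -- the square root of `c`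
  have ha : ContDiffOn ℝ ∞ (fun t => √(c t)) (Set.Ioo (-ε) ε) :=
    hc.sqrt (fun t ht => (hcp t ht).ne')
  have hap : ∀ t ∈ Set.Ioo (-ε) ε, 0 < √(c t) := fun t ht => Real.sqrt_pos.2 (hcp t ht)
  have hF := lft_smooth ε Φ hΦ (fun t => √(c t)) ha
  have hF0 : ∀ y ∈ PU n, lft (√(c 0)) (Φ 0) y = y := by
    intro y hy
    have h1 := (dec_facts hn).1 y hy
    unfold lft
    rw [hc0, Real.sqrt_one, one_mul, one_smul, hΦ0]
    exact h1.symm
  have hint : interior Q ⊆ PU n := interior_subset.trans hQP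
  have hxi : x ∈ interior Q := mem_interior_iff_mem_nhds.2 hQ
  obtain ⟨ρ, hρ, δ, hδ, hδε, hball, hnear⟩ := NS38.near_id (Ω := interior Q) isOpen_interior ε hε
    (fun t A => lft (√(c t)) (Φ t) A)
    (hF.mono (Set.prod_mono_right hint)) (fun y hy => hF0 y (hint hy)) {x} isCompact_singleton
    (Set.singleton_subset_iff.2 hxi)
  have hsub : Set.Ioo (-δ) δ ⊆ Set.Ioo (-ε) ε := by
    intro t ht
    exact ⟨lt_of_le_of_lt (neg_le_neg hδε) ht.1, lt_of_lt_of_le ht.2 hδε⟩
  have hsub2 : Set.Ioo (-δ) δ ×ˢ PU n ⊆ Set.Ioo (-ε) ε ×ˢ PU n := Set.prod_mono_left hsub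
  refine ⟨δ, fun t A => lft (√(c t)) (Φ t) A, c,
    fun t A v w => K t (ret A) (fderiv ℝ (fun B : Mt n => (ret B).1) A v)
      (fderiv ℝ (fun B : Mt n => (ret B).1) A w), hδ, hF.mono hsub2, hF0, ?_, ?_, ?_⟩
  · refine ⟨?_, ?_, ?_⟩
    · intro y _ u v w
      show K y.1 (ret y.2) _ _ = K y.1 (ret y.2) _ _ + K y.1 (ret y.2) _ _
      rw [map_add, map_add, LinearMap.add_apply]
    · intro y _ r v w
      show K y.1 (ret y.2) _ _ = r * K y.1 (ret y.2) _ _
      rw [map_smul, map_smul, LinearMap.smul_apply, smul_eq_mul]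
    · intro y _ v w
      exact hKs _ _ _ _
  · intro v w
    have h1 : Set.MapsTo (fun y : ℝ × Mt n => y.2) (Set.Ioo (-ε) ε ×ˢ PU n) (PU n) :=
      fun y hy => hy.2
    have h2 : ∀ u : Mt n, ContDiffOn ℝ ∞
        (fun y : ℝ × Mt n => fderiv ℝ (fun B : Mt n => (ret B).1) y.2 u)
        (Set.Ioo (-ε) ε ×ˢ PU n) := fun u =>
      (P5_dsm u).comp contDiff_snd.contDiffOn h1
    exact (cd_bil (K := fun y : ℝ × Mt n => K y.1 (ret y.2)) (fun a b => hK a b) (h2 v)
      (h2 w)).mono hsub2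
  · intro t ht
    have ht1 : t ∈ Set.Ioo (-δ) δ := ⟨by linarith [ht.1], ht.2⟩
    have ht2 : t ∈ Set.Ioo (-ε) ε := hsub ht1
    have habs : |t| < δ := abs_lt.2 ht1
    have hct : √(c t) ^ 2 = c t := Real.sq_sqrt (hcp t ht2).le
    refine ⟨hcp t ht2, ?_, ?_, ?_⟩
    · obtain ⟨hA, hB⟩ := hnear t habs x (Set.mem_singleton x)
      obtain ⟨y, hy, hyx⟩ := (NS38.near_surj (fun A => lft (√(c t)) (Φ t) A) x ρ hρ
        (fun A hA' => (hA A hA').1) hB).1
      refine ⟨y, interior_subset (hball x (Set.mem_singleton x) ?_), hyx⟩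
      exact Metric.closedBall_subset_closedBall (by linarith) hy
    · intro y hy
      exact ⟨((lft_facts hn).1 (√(c t)) (Φ t) y hy).1,
        lft_surj hn Γ (Φ t) (hD t ht2) (√(c t)) (hap t ht2) y hy⟩
    · intro y hy v w
      have h1 := prodm_pull hn (H t) (fun p => gF p + (t ^ N) • K t p) (hs t)
        (fun p v w => by
          simp only [LinearMap.add_apply, LinearMap.smul_apply]
          rw [gs p v w, hKs t p v w]) (Φ t) (hD t ht2).smooth (√(c t)) (hap t ht2)
        (fun p v hv => by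
          rw [hlaw t ht2 p v hv, hct]
          simp only [LinearMap.add_apply, LinearMap.smul_apply, smul_eq_mul]) y hy v w
      rw [hct, P5_add, ← P5_zero hn H hs h0 y v w hy] at h1
      exact h1

end LibNC38
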