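import Pool.Agent.LibNS38.G7
import Pool.Agent.LibNS38.D3

set_option autoImplicit false
set_option maxSynthPendingDepth 3

open Matrix MeasureTheory Topology Filter
open scoped Matrix.Norms.Elementwise ContDiff

namespace LibNC38

private theorem V1a_mixed {E F : Type*} [NormedAddCommGroup E] [NormedSpace ℝ E]
    [NormedAddCommGroup F] [NormedSpace ℝ F] (W : ℝ × E → F) (a v : E)
    (hW : ContDiffAt ℝ 2 W (0, a)) :
    HasDerivAt (fun s : ℝ => fderiv ℝ (fun A => W (s, A)) a v)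
      (fderiv ℝ (fun A => fderiv ℝ W (0, A) (1, 0)) a v) 0 := by
  have h1 : ContDiffAt ℝ 1 (fderiv ℝ W) (0, a) := hW.fderiv_right (m := 1) (by norm_num)
  have h2 : HasFDerivAt (fderiv ℝ W) (fderiv ℝ (fderiv ℝ W) (0, a)) (0, a) :=
    (h1.differentiableAt (by norm_num)).hasFDerivAt
  have hsym : IsSymmSndFDerivAt ℝ W (0, a) := hW.isSymmSndFDerivAt (by simp)
  have hev : ∀ᶠ z in 𝓝 ((0 : ℝ), a), DifferentiableAt ℝ W z :=
    (hW.eventually (by simp)).mono (fun z hz => hz.differentiableAt (by norm_num))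
  -- in `s`
  have hs : HasFDerivAt (fun s : ℝ => ((s, a) : ℝ × E)) (ContinuousLinearMap.inl ℝ ℝ E) (0 : ℝ) :=
    hasFDerivAt_prodMk_left (0 : ℝ) a
  have hA : HasFDerivAt (fun A : E => (((0 : ℝ), A) : ℝ × E)) (ContinuousLinearMap.inr ℝ ℝ E) a :=
    hasFDerivAt_prodMk_right (0 : ℝ) a
  have h3 : HasFDerivAt (fun s : ℝ => fderiv ℝ W (s, a))
      ((fderiv ℝ (fderiv ℝ W) (0, a)).comp (ContinuousLinearMap.inl ℝ ℝ E)) (0 : ℝ) :=
    HasFDerivAt.comp (0 : ℝ) h2 hs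
  have h4 : HasFDerivAt (fun A : E => fderiv ℝ W ((0 : ℝ), A))
      ((fderiv ℝ (fderiv ℝ W) (0, a)).comp (ContinuousLinearMap.inr ℝ ℝ E)) a :=
    HasFDerivAt.comp a h2 hA
  have h5 : HasDerivAt (fun s : ℝ => fderiv ℝ W (s, a))
      (fderiv ℝ (fderiv ℝ W) (0, a) (1, 0)) (0 : ℝ) := by
    have := h3.hasDerivAt
    simpa using this
  have h6 : HasDerivAt (fun s : ℝ => fderiv ℝ W (s, a) (0, v))
      (fderiv ℝ (fderiv ℝ W) (0, a) (1, 0) (0, v)) (0 : ℝ) := by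
    have := h5.clm_apply (hasDerivAt_const (0 : ℝ) (((0 : ℝ), v) : ℝ × E))
    simpa using this
  have h7 : fderiv ℝ (fun A => fderiv ℝ W (0, A) (1, 0)) a v =
      fderiv ℝ (fderiv ℝ W) (0, a) (0, v) (1, 0) := by
    have := h4.clm_apply (hasFDerivAt_const (((1 : ℝ), (0 : E)) : ℝ × E) a)
    rw [this.fderiv]
    simp
  rw [h7, hsym (0, v) (1, 0)]
  refine h6.congr_of_eventuallyEq ?_
  have hc : Tendsto (fun s : ℝ => ((s, a) : ℝ × E)) (𝓝 0) (𝓝 (0, a)) :=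
    (Continuous.prodMk continuous_id continuous_const).tendsto' _ _ rfl
  filter_upwards [hc.eventually hev] with s hsd
  have h8 : HasFDerivAt (fun A : E => W (s, A))
      ((fderiv ℝ W (s, a)).comp (ContinuousLinearMap.inr ℝ ℝ E)) a :=
    HasFDerivAt.comp a hsd.hasFDerivAt (hasFDerivAt_prodMk_right s a)
  rw [h8.fderiv]
  simp

/-- Row V1a. Mixed derivative. PLAN. `W (s, A) := (gau Y s (ret A)).1` is `C^∞` on `(-s0, s0) × PU n`
(`gau_facts`). `s ↦ dff (gau Y s) p v = D_A W (s, p) v` has the derivative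
`D_s D_A W = D_A (D_s W (0, ·)) v` at `0` (symmetry of the second derivative of `W` at `(0, p)`, on
`ℝ × Mt n`), and `D_s W (0, A) = - Y ((ret A).1)` for all `A ∈ PU n` (`gau_facts` (5) at the point `ret A`);
the derivative of `A ↦ Y ((ret A).1)` at `p` in the tangent direction `v` is `fderiv Y p.1 v` (chain rule,
`ret_facts` (3), `ret_self`). -/
theorem var_dff {n : ℕ} (Γ : Subgroup (SL n)) (hc : Coc Γ) (Y : Mt n → Mt n)
    (hY : ContDiffOn ℝ ∞ Y (PU n)) (hT : ∀ p : PD n, IsTan p (Y p.1))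
    (he : ∀ γ ∈ Γ, ∀ p : PD n, Y (act γ p).1 = γ.1 * Y p.1 * γ.1ᵀ) (p : PD n) (v : Mt n)
    (hv : IsTan p v) :
    HasDerivAt (fun s : ℝ => dff (gau Y s) p v) (-(fderiv ℝ Y p.1 v)) 0 := by
  obtain ⟨s0, hs0, -, hsm, -, -, hd⟩ := gau_facts Γ hc Y hY hT he
  have hnh : Set.Ioo (-s0) s0 ×ˢ PU n ∈ 𝓝 ((0 : ℝ), p.1) :=
    (isOpen_Ioo.prod PU_open).mem_nhds ⟨⟨by linarith, hs0⟩, mem_PU p⟩
  have hW : ContDiffAt ℝ ∞ (fun x : ℝ × Mt n => (gau Y x.1 (ret x.2)).1) (0, p.1) :=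
    hsm.contDiffAt hnh
  have hW2 : ContDiffAt ℝ 2 (fun x : ℝ × Mt n => (gau Y x.1 (ret x.2)).1) (0, p.1) :=
    hW.of_le (show ((2 : ℕ∞) : WithTop ℕ∞) ≤ ((⊤ : ℕ∞) : WithTop ℕ∞) from WithTop.coe_le_coe.2 le_top)
  have key := V1a_mixed (fun x : ℝ × Mt n => (gau Y x.1 (ret x.2)).1) p.1 v hW2
  have hmain : (fun A : Mt n => fderiv ℝ (fun x : ℝ × Mt n => (gau Y x.1 (ret x.2)).1) (0, A) (1, 0))
      =ᶠ[𝓝 p.1] fun A => -(Y (ret A).1) := by
    filter_upwards [PU_open.mem_nhds (mem_PU p)] with A hA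
    have hnA : Set.Ioo (-s0) s0 ×ˢ PU n ∈ 𝓝 ((0 : ℝ), A) :=
      (isOpen_Ioo.prod PU_open).mem_nhds ⟨⟨by linarith, hs0⟩, hA⟩
    have h1 : HasFDerivAt (fun x : ℝ × Mt n => (gau Y x.1 (ret x.2)).1)
        (fderiv ℝ (fun x : ℝ × Mt n => (gau Y x.1 (ret x.2)).1) (0, A)) (0, A) :=
      ((hsm.contDiffAt hnA).differentiableAt (by simp)).hasFDerivAt
    have h2 : HasFDerivAt (fun s : ℝ => (gau Y s (ret A)).1)
        ((fderiv ℝ (fun x : ℝ × Mt n => (gau Y x.1 (ret x.2)).1) (0, A)).comp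
          (ContinuousLinearMap.inl ℝ ℝ (Mt n))) (0 : ℝ) :=
      HasFDerivAt.comp (0 : ℝ) (f := fun s : ℝ => ((s, A) : ℝ × Mt n)) h1
        (hasFDerivAt_prodMk_left (0 : ℝ) A)
    have h3 := h2.hasDerivAt
    have h4 := h3.unique (hd (ret A))
    simpa using h4
  have hYd : DifferentiableAt ℝ Y p.1 :=
    ((hY.contDiffAt (PU_open.mem_nhds (mem_PU p))).differentiableAt (by simp))
  have hrd : DifferentiableAt ℝ (fun A : Mt n => (ret A).1) p.1 :=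
    ((ret_smooth (m := ∞)).contDiffAt (PU_open.mem_nhds (mem_PU p))).differentiableAt (by simp)
  have hYd' : HasFDerivAt Y (fderiv ℝ Y p.1) ((fun A : Mt n => (ret A).1) p.1) := by
    show HasFDerivAt Y (fderiv ℝ Y p.1) (ret p.1).1
    rw [ret_self]
    exact hYd.hasFDerivAt
  have hcomp : HasFDerivAt (fun A : Mt n => Y (ret A).1)
      ((fderiv ℝ Y p.1).comp (fderiv ℝ (fun A : Mt n => (ret A).1) p.1)) p.1 :=
    HasFDerivAt.comp p.1 hYd' hrd.hasFDerivAt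
  have hfin : fderiv ℝ (fun A : Mt n => fderiv ℝ (fun x : ℝ × Mt n => (gau Y x.1 (ret x.2)).1)
      (0, A) (1, 0)) p.1 v = -(fderiv ℝ Y p.1 v) := by
    rw [hmain.fderiv_eq]
    refine (congrArg (fun L : Mt n →L[ℝ] Mt n => L v) hcomp.neg.fderiv).trans ?_
    have h5 := (ret_facts (n := n)).2.2 p v hv
    show -((fderiv ℝ Y p.1) ((fderiv ℝ (fun A : Mt n => (ret A).1) p.1) v)) = _
    rw [h5]
  exact key.congr_deriv hfin

end LibNC38
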