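import Pool.Agent.LibNS38.D3

set_option autoImplicit false
set_option maxSynthPendingDepth 3

open Matrix MeasureTheory Topology Filter
open scoped Matrix.Norms.Elementwise ContDiff

namespace LibNC38

private theorem V4a_open {n : ℕ} (ε : ℝ) : IsOpen (Set.Ioo (-ε) ε ×ˢ PU n : Set (ℝ × Mt n)) :=
  isOpen_Ioo.prod PU_open

private theorem V4a_val {n : ℕ} {ε : ℝ} {Ψ : ℝ → PD n → PD n} (h : SmM ε Ψ) :
    ContDiffOn ℝ ∞ (fun x : ℝ × Mt n => ((x.1, (Ψ x.1 (ret x.2)).1) : ℝ × Mt n))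
      (Set.Ioo (-ε) ε ×ˢ PU n) := by
  have h1 : ContDiffOn ℝ ∞ (fun x : ℝ × Mt n => x.1) (Set.Ioo (-ε) ε ×ˢ PU n) :=
    contDiff_fst.contDiffOn
  exact h1.prodMk h

private theorem V4a_maps {n : ℕ} {ε : ℝ} (Ψ : ℝ → PD n → PD n) :
    Set.MapsTo (fun x : ℝ × Mt n => ((x.1, (Ψ x.1 (ret x.2)).1) : ℝ × Mt n))
      (Set.Ioo (-ε) ε ×ˢ PU n) (Set.Ioo (-ε) ε ×ˢ PU n) := by
  intro x hx
  exact ⟨hx.1, mem_PU _⟩

private theorem V4a_comp {n : ℕ} {ε : ℝ} {Ψ : ℝ → PD n → PD n} (h : SmM ε Ψ)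
    {E : Type*} [NormedAddCommGroup E] [NormedSpace ℝ E] {f : ℝ → PD n → E}
    (hf : ContDiffOn ℝ ∞ (fun x : ℝ × Mt n => f x.1 (ret x.2)) (Set.Ioo (-ε) ε ×ˢ PU n)) :
    ContDiffOn ℝ ∞ (fun x : ℝ × Mt n => f x.1 (Ψ x.1 (ret x.2))) (Set.Ioo (-ε) ε ×ˢ PU n) := by
  have h1 := hf.comp (V4a_val h) (V4a_maps Ψ)
  refine h1.congr fun x _ => ?_
  show f x.1 (Ψ x.1 (ret x.2)) = f x.1 (ret (Ψ x.1 (ret x.2)).1)
  rw [ret_self]

private theorem V4a_id {n : ℕ} (ε : ℝ) : SmM (n := n) ε (fun _ p => p) := by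
  have h1 : ContDiffOn ℝ ∞ (fun x : ℝ × Mt n => x.2) (Set.Ioo (-ε) ε ×ˢ PU n) :=
    contDiff_snd.contDiffOn
  exact (ret_smooth (n := n) (m := ∞)).comp h1 (fun x hx => hx.2)

private theorem V4a_gen {E F X : Type*} [NormedAddCommGroup E] [NormedSpace ℝ E]
    [NormedAddCommGroup F] [NormedSpace ℝ F] [NormedAddCommGroup X] [NormedSpace ℝ X]
    {f : ℝ × E → F} {s : Set (ℝ × E)} (hs : IsOpen s) (hf : ContDiffOn ℝ ∞ f s) (v : E)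
    {g : X → ℝ × E} {u : Set X} (hg : ContDiffOn ℝ ∞ g u) (hm : Set.MapsTo g u s) :
    ContDiffOn ℝ ∞ (fun x => fderiv ℝ (fun A : E => f ((g x).1, A)) (g x).2 v) u := by
  have h1 : ContDiffOn ℝ ∞ (fderiv ℝ f) s := ContDiffOn.fderiv_of_isOpen hf hs (by simp)
  have h2 := h1.comp hg hm
  have h3 : ContDiffOn ℝ ∞ (fun _ : X => ((0, v) : ℝ × E)) u := contDiffOn_const
  have h4 := h2.clm_apply h3
  refine h4.congr fun x hx => ?_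
  have h5 : HasFDerivAt f (fderiv ℝ f (g x)) (g x) :=
    ((ContDiffOn.contDiffAt hf (hs.mem_nhds (hm hx))).differentiableAt (by simp)).hasFDerivAt
  have h7 : HasFDerivAt (fun A : E => (((g x).1, A) : ℝ × E))
      (ContinuousLinearMap.inr ℝ ℝ E) (g x).2 := hasFDerivAt_prodMk_right (g x).1 (g x).2
  have h8 := h5.comp (g x).2 h7
  have h9 : fderiv ℝ (fun A : E => f ((g x).1, A)) (g x).2 = _ := h8.fderiv
  show fderiv ℝ (fun A : E => f ((g x).1, A)) (g x).2 v = _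
  rw [h9]
  rfl

private theorem V4a_dff {n : ℕ} {ε : ℝ} {Ψ : ℝ → PD n → PD n} (h : SmM ε Ψ) (v : Mt n) :
    ContDiffOn ℝ ∞ (fun x : ℝ × Mt n => dff (Ψ x.1) (ret x.2) v) (Set.Ioo (-ε) ε ×ˢ PU n) :=
  V4a_gen (f := fun x : ℝ × Mt n => (Ψ x.1 (ret x.2)).1) (V4a_open ε) h v
    (V4a_val (V4a_id ε)) (V4a_maps (fun _ p => p))

/-- Row V4a. Pull backs and compositions of smooth families. PLAN. (1)
`pul (Ψ t) (K t) (ret A) v w = K t (ret B) (D v) (D w)` with `B = (Ψ t (ret A)).1` (smooth in `(t, A)`),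
`D v = dff (Ψ t) (ret A) v = fderiv (A' ↦ (Ψ t (ret A')).1) (ret A).1 v` = partial derivative of a `C^∞`
function of `(t, A')` at `(t, (ret A).1)` in direction `(0, v)`: smooth in `(t, A)`; `cd_bil`. (2)
`(Φ t (Ψ t (ret A))).1 = (Φ t (ret B)).1`. -/
theorem smF_pul {n : ℕ} :
    (∀ (ε : ℝ) (Ψ : ℝ → PD n → PD n) (K : ℝ → PD n → Fm n), SmM ε Ψ → SmF ε K →
      SmF ε (fun t => pul (Ψ t) (K t))) ∧
    (∀ (ε : ℝ) (Φ Ψ : ℝ → PD n → PD n), SmM ε Φ → SmM ε Ψ → SmM ε (fun t p => Φ t (Ψ t p))) := by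
  refine ⟨fun ε Ψ K hΨ hK v w => ?_, fun ε Φ Ψ hΦ hΨ => ?_⟩
  · have h1 : ∀ a b, ContDiffOn ℝ ∞ (fun x : ℝ × Mt n => K x.1 (Ψ x.1 (ret x.2)) a b)
        (Set.Ioo (-ε) ε ×ˢ PU n) := fun a b =>
      V4a_comp hΨ (f := fun t p => K t p a b) (hK a b)
    exact cd_bil (K := fun x : ℝ × Mt n => K x.1 (Ψ x.1 (ret x.2))) h1 (V4a_dff hΨ v)
      (V4a_dff hΨ w)
  · exact V4a_comp hΨ (f := fun t p => (Φ t p).1) hΦ

end LibNC38
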